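import Mathlib
import Pool.Agent.H667R2.FG.Defs
import Pool.Agent.H667R2.FG.OpDefs

/-! Definitions for the isomorphism of free group factors (see shared note 777). -/

namespace Pool.Agent.H667R3.FF

open Pool.Agent.H667R2.FG

/-! ### Words in letters `u_i^{±1}` and `s` -/

/-- letters: `some (i, true)` is `u_i`, `some (i, false)` is `u_i⁻¹`, `none` is `s` -/
abbrev Lt (X : Type) := Option (X × Bool)

/-- inverse/adjoint letter -/
def linv {X : Type} : Lt X → Lt X
  | none => none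
  | some (i, b) => some (i, !b)

/-- adjoint word -/
def wstar {X : Type} (w : List (Lt X)) : List (Lt X) := (w.map linv).reverse

/-- all ways to write `w = w₁ ++ a :: w₂` -/
def splits {α : Type} : List α → List (List α × α × List α)
  | [] => []
  | a :: w => ([], a, w) :: (splits w).map (fun t => (a :: t.1, t.2.1, t.2.2))

/-- the derivation dual to `l ↦ d l`, acting on functions of words -/
noncomputable def DD {L V : Type} [AddCommGroup V] [Module ℂ V] (d : L → (List L →₀ ℂ))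
    (F : List L → V) (w : List L) : V :=
  ((splits w).map fun t => (d t.2.1).sum fun v c => c • F (t.1 ++ v ++ t.2.2)).sum

/-- evaluation of a word at a point -/
def ev {L B : Type} [Monoid B] (p : L → B) (w : List L) : B := (w.map p).prod

/-- a function of words invariant under cancellation of `l l⁻¹` for group letters `l` -/
def Canc {X V : Type} (F : List (Lt X) → V) : Prop :=
  ∀ (w₁ w₂ : List (Lt X)) (x : X × Bool),
    F (w₁ ++ some x :: some (x.1, !x.2) :: w₂) = F (w₁ ++ w₂)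

/-- `p` is a tuple of unitaries and a self-adjoint element -/
structure Good {X B : Type} [Monoid B] [StarMul B] (p : Lt X → B) : Prop where
  uni : ∀ x : X × Bool, p (some x) * p (some (x.1, !x.2)) = 1
  st : ∀ l, star (p l) = p (linv l)

open Classical in
/-- the law of free Haar unitaries and a free semicircular element: trace property,
values on group words, Schwinger–Dyson equation for `s` -/
structure StdLaw {X : Type} (μ : List (Lt X) → ℂ) : Prop where
  tr : ∀ v w, μ (v ++ w) = μ (w ++ v)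
  grp : ∀ L : List (X × Bool), μ (L.map some) = if FreeGroup.mk L = 1 then 1 else 0
  sd : ∀ w, μ (none :: w) =
    ((splits w).map fun t => if t.2.1.isNone then μ t.1 * μ t.2.2 else 0).sum

/-- moments of a point with respect to a vector -/
noncomputable def mom {L H : Type} [NormedAddCommGroup H] [InnerProductSpace ℂ H]
    (Ω : H) (p : L → (H →L[ℂ] H)) (w : List L) : ℂ := inner ℂ Ω (ev p w Ω)

/-- `x` is a norm limit of noncommutative polynomials in `p` -/
def InAlg {L B : Type} [NormedRing B] [NormedAlgebra ℂ B] (p : L → B) (x : B) : Prop :=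
  ∀ ε : ℝ, 0 < ε → ∃ R : List L →₀ ℂ, ‖x - R.sum fun w c => c • ev p w‖ < ε

/-- the word of a group element -/
def gword {X : Type} [DecidableEq X] (g : FreeGroup X) : List (Lt X) := g.toWord.map some

/-- evaluation of a (real) group algebra element -/
noncomputable def evP {X B : Type} [DecidableEq X] [Ring B] [Module ℂ B] (p : Lt X → B)
    (P : FreeGroup X →₀ ℝ) : B := P.sum fun g c => (c : ℂ) • ev p (gword g)

/-! ### Fox derivatives and the data `(P, η)` -/

/-- Fox derivative of a list of letters: sum over the letters `u_i^{±1}` of `±` the prefix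
(including the letter if it is `u_i`, excluding it if it is `u_i⁻¹`) -/
noncomputable def foxL {α : Type} [DecidableEq α] (i : α) :
    List (α × Bool) → (FreeGroup α →₀ ℝ)
  | [] => 0
  | x :: L => (if x.1 = i then
      (if x.2 then Finsupp.single (FreeGroup.mk [x]) 1 else Finsupp.single 1 (-1)) else 0) +
      (foxL i L).mapDomain (fun A => FreeGroup.mk [x] * A)

/-- Fox derivative -/
noncomputable def foxD {α : Type} [DecidableEq α] (i : α) (g : FreeGroup α) :
    FreeGroup α →₀ ℝ := foxL i g.toWord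

section data
variable {X : Type} [DecidableEq X] {m : ℕ}

/-- the divergence of the field `η` -/
noncomputable def divE (e : Fin m → X) (η : Fin m → (FreeGroup X × FreeGroup X →₀ ℝ))
    (v : FreeGroup X) : ℝ :=
  ∑ i, (foxD (e i) v).sum fun A n => n * η i (A, A⁻¹ * v)

/-- the derivative of `P` in the direction of the field `η` -/
noncomputable def opT (e : Fin m → X) (P : FreeGroup X →₀ ℝ)
    (η : Fin m → (FreeGroup X × FreeGroup X →₀ ℝ)) : FreeGroup X × FreeGroup X →₀ ℝ :=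
  ∑ i, P.sum fun g c => (foxD (e i) g).sum fun A n => (η i).sum fun ab r =>
    Finsupp.single (A * ab.1⁻¹, ab.2⁻¹ * A⁻¹ * g) (c * n * r)

/-- square of the `ℓ²` norm -/
noncomputable def nrm2 {α : Type} (f : α →₀ ℝ) : ℝ := f.sum fun _ c => c ^ 2

/-- the data needed for one approximation step -/
structure Sol (e : Fin m → X) (ε : ℝ) (P : FreeGroup X →₀ ℝ)
    (η : Fin m → (FreeGroup X × FreeGroup X →₀ ℝ)) : Prop where
  div : ∀ v, divE e η v = P v
  sym : ∀ v, P v⁻¹ = P v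
  tt : nrm2 (opT e P η - Finsupp.single (1, 1) 1) ≤ ε
  small : ∑ i, nrm2 (η i) ≤ ε

/-- the derivation on letters attached to the data -/
noncomputable def dd (e : Fin m → X) (P : FreeGroup X →₀ ℝ)
    (η : Fin m → (FreeGroup X × FreeGroup X →₀ ℝ)) : Lt X → (List (Lt X) →₀ ℂ)
  | none => P.sum fun g c => Finsupp.single (gword g) (-(c : ℂ))
  | some (x, true) => ∑ i, if e i = x then (η i).sum fun ab r =>
      Finsupp.single (some (x, true) :: (gword ab.1⁻¹ ++ none :: gword ab.2⁻¹)) (r : ℂ) else 0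
  | some (x, false) => ∑ i, if e i = x then (η i).sum fun ab r =>
      Finsupp.single (gword ab.1⁻¹ ++ none :: (gword ab.2⁻¹ ++ [some (x, false)])) (-(r : ℂ))
      else 0

end data

/-! ### The combinatorial construction -/

/-- the big free group: letters `w_j` (`Sum.inl j`) and `u_i` (`Sum.inr i`) -/
abbrev Gm := FreeGroup (ℕ ⊕ Fin 4)

def wl (j : ℕ) : Gm := FreeGroup.of (Sum.inl j)
def ul (i : Fin 4) : Gm := FreeGroup.of (Sum.inr i)
/-- the generator at position `l` -/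
def cc (l : ℕ) : Fin 4 := ⟨l % 4, Nat.mod_lt _ (by norm_num)⟩
/-- `aw j l = (w_j u_{c0}) (w_j u_{c1}) ⋯ (w_j u_{c(l-1)})` -/
def aw (j : ℕ) : ℕ → Gm
  | 0 => 1
  | l + 1 => aw j l * (wl j * ul (cc l))
/-- `g_j = w_j u_{c0} w_j u_{c1} ⋯ w_j u_{c(L-1)} w_j` -/
def gw (L j : ℕ) : Gm := aw j L * wl j

/-- signed index `(j, ±)` -/
abbrev Sg := ℕ × Bool

/-- `g_σ` -/
def gs (L : ℕ) (σ : Sg) : Gm := if σ.2 then gw L σ.1 else (gw L σ.1)⁻¹
/-- left part of the split of `g_σ` at the letter `l` -/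
def al (L : ℕ) (σ : Sg) (l : ℕ) : Gm :=
  if σ.2 then aw σ.1 (l + 1) else (gw L σ.1)⁻¹ * aw σ.1 (l + 1)
/-- right part of the split of `g_σ` at the letter `l` -/
def be (L : ℕ) (σ : Sg) (l : ℕ) : Gm :=
  if σ.2 then (aw σ.1 (l + 1))⁻¹ * gw L σ.1 else (aw σ.1 (l + 1))⁻¹
/-- sign -/
def sg (σ : Sg) : ℝ := if σ.2 then 1 else -1

/-- subgroup generated by `w_j`, `j ∈ I`, and all `u_i` -/
def GI (I : Set ℕ) : Subgroup Gm := Subgroup.closure (wl '' I ∪ Set.range ul)

/-- exponent sum of `w_j` -/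
def ex (j : ℕ) (g : Gm) : ℤ :=
  Multiplicative.toAdd (FreeGroup.lift (fun x : ℕ ⊕ Fin 4 =>
    Multiplicative.ofAdd (if x = Sum.inl j then (1 : ℤ) else 0)) g)

/-- the discrete Heisenberg group -/
@[ext] structure Heis where
  a : ℤ
  b : ℤ
  c : ℤ

namespace Heis
instance : Mul Heis := ⟨fun x y => ⟨x.a + y.a, x.b + y.b, x.c + y.c + x.a * y.b⟩⟩
instance : One Heis := ⟨⟨0, 0, 0⟩⟩
instance : Inv Heis := ⟨fun x => ⟨-x.a, -x.b, -x.c + x.a * x.b⟩⟩
@[simp] theorem mul_a (x y : Heis) : (x * y).a = x.a + y.a := rfl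
@[simp] theorem mul_b (x y : Heis) : (x * y).b = x.b + y.b := rfl
@[simp] theorem mul_c (x y : Heis) : (x * y).c = x.c + y.c + x.a * y.b := rfl
@[simp] theorem one_a : (1 : Heis).a = 0 := rfl
@[simp] theorem one_b : (1 : Heis).b = 0 := rfl
@[simp] theorem one_c : (1 : Heis).c = 0 := rfl
@[simp] theorem inv_a (x : Heis) : (x⁻¹).a = -x.a := rfl
@[simp] theorem inv_b (x : Heis) : (x⁻¹).b = -x.b := rfl
@[simp] theorem inv_c (x : Heis) : (x⁻¹).c = -x.c + x.a * x.b := rfl
instance : Group Heis := Group.ofLeftAxioms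
  (fun x y z => by ext <;> simp <;> ring) (fun x => by ext <;> simp)
  (fun x => by ext <;> simp)
end Heis

/-- `w_j ↦ X`, `w_{j'} ↦ Y`, other generators `↦ 1` -/
def hp (j j' : ℕ) : Gm →* Heis :=
  FreeGroup.lift (fun x : ℕ ⊕ Fin 4 =>
    if x = Sum.inl j then ⟨1, 0, 0⟩ else if x = Sum.inl j' then ⟨0, 1, 0⟩ else 1)

/-- all signed indices -/
def SG (J : ℕ) : Finset Sg := Finset.range J ×ˢ (Finset.univ : Finset Bool)

/-- signed indices fresh for `I` -/
def fresh (J : ℕ) (I : Finset ℕ) : Finset Sg :=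
  (Finset.range J \ I) ×ˢ (Finset.univ : Finset Bool)

/-- positions with generator `i` -/
def pos (L : ℕ) (i : Fin 4) : Finset ℕ := (Finset.range L).filter fun l => cc l = i

/-- A family of field basis elements `e_{i,(A,B)}` with coefficients `c`, index sets `I`,
and the designated coherent pair `main`. -/
structure PF (τ : Type) where
  S : Finset τ
  i : τ → Fin 4
  A : τ → Gm
  B : τ → Gm
  I : τ → Finset ℕ
  c : τ → ℝ
  main : τ → Option (Sg × ℕ)

namespace PF
variable {τ : Type}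

/-- consistency of a family -/
structure Ok (J L N : ℕ) (F : PF τ) : Prop where
  card : ∀ t ∈ F.S, (F.I t).card = N
  sub : ∀ t ∈ F.S, F.I t ⊆ Finset.range J
  memA : ∀ t ∈ F.S, F.A t ∈ GI (F.I t)
  memB : ∀ t ∈ F.S, F.B t ∈ GI (F.I t)
  inj : ∀ t ∈ F.S, ∀ t' ∈ F.S, F.i t = F.i t' → F.A t = F.A t' → F.B t = F.B t' → t = t'
  mainI : ∀ t ∈ F.S, ∀ q, F.main t = some q → q.1.1 ∈ F.I t ∧ q.2 < L ∧ cc q.2 = F.i t
  vis : ∀ t ∈ F.S, ∀ (σ : Sg) (l : ℕ), σ.1 ∈ F.I t → l < L → cc l = F.i t →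
    al L σ l * (F.A t)⁻¹ ∈ GI {j | j ≠ σ.1} → (F.B t)⁻¹ * be L σ l ∈ GI {j | j ≠ σ.1} →
    F.main t = some (σ, l)

/-- the field of a family -/
noncomputable def fld (F : PF τ) (i : Fin 4) : Gm × Gm →₀ ℝ :=
  ∑ t ∈ F.S, if F.i t = i then Finsupp.single (F.A t, F.B t) (F.c t) else 0

/-- squared norm of the field -/
noncomputable def n2 (F : PF τ) : ℝ := ∑ t ∈ F.S, F.c t ^ 2

/-- the fresh part of `T (fld F)` -/
noncomputable def Yv (J L : ℕ) (F : PF τ) : Gm × Gm →₀ ℝ :=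
  ∑ t ∈ F.S, ∑ σ ∈ fresh J (F.I t), ∑ l ∈ pos L (F.i t),
    Finsupp.single (al L σ l * (F.A t)⁻¹, (F.B t)⁻¹ * be L σ l)
      ((Real.sqrt (2 * J))⁻¹ * sg σ * F.c t)

/-- the coherent part of `T (fld F)` -/
noncomputable def Mv (J L : ℕ) (F : PF τ) : Gm × Gm →₀ ℝ :=
  ∑ t ∈ F.S, match F.main t with
    | none => 0
    | some q => Finsupp.single (al L q.1 q.2 * (F.A t)⁻¹, (F.B t)⁻¹ * be L q.1 q.2)
      ((Real.sqrt (2 * J))⁻¹ * sg q.1 * F.c t)

end PF

/-- the order of letters: `r` comes before `l` in `g_σ` -/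
def bef (σ : Sg) (l r : ℕ) : Prop := if σ.2 then r < l else l < r

instance (σ : Sg) (l r : ℕ) : Decidable (bef σ l r) := by unfold bef; infer_instance

/-- left part of the split of `v' = A (al σ₁ l₁)⁻¹ g_{σ₂} (be σ₁ l₁)⁻¹ B` at the letter `m` of
`g_{σ₂}` -/
def A1 (L : ℕ) (A : Gm) (σ₁ : Sg) (l₁ : ℕ) (σ₂ : Sg) (m : ℕ) : Gm :=
  A * (al L σ₁ l₁)⁻¹ * al L σ₂ m
/-- right part of the same split -/
def B1 (L : ℕ) (B : Gm) (σ₁ : Sg) (l₁ : ℕ) (σ₂ : Sg) (m : ℕ) : Gm :=
  be L σ₂ m * (be L σ₁ l₁)⁻¹ * B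

/-- left part of the split of `v'` at the letter `r` of `g_{σ₁}⁻¹` -/
def A2 (L : ℕ) (A : Gm) (σ₁ : Sg) (l₁ : ℕ) (σ₂ : Sg) (r : ℕ) : Gm :=
  if bef σ₁ l₁ r then A * (al L σ₁ l₁)⁻¹ * al L σ₁ r
  else A * (al L σ₁ l₁)⁻¹ * gs L σ₂ * (be L σ₁ r)⁻¹
/-- right part of the same split -/
def B2 (L : ℕ) (B : Gm) (σ₁ : Sg) (l₁ : ℕ) (σ₂ : Sg) (r : ℕ) : Gm :=
  if bef σ₁ l₁ r then (al L σ₁ r)⁻¹ * gs L σ₂ * (be L σ₁ l₁)⁻¹ * B
  else be L σ₁ r * (be L σ₁ l₁)⁻¹ * B

/-- index type of the next family: `((t, σ₁, l₁), (σ₂, kind, r))`; `kind = true`: letter `r` of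
`g_{σ₂}`; `kind = false`: letter `r ≠ l₁` of `g_{σ₁}⁻¹` -/
abbrev NT (τ : Type) := (τ × Sg × ℕ) × (Sg × Bool × ℕ)

open Classical in
/-- the next family -/
noncomputable def PF.next {τ : Type} (J L : ℕ) (F : PF τ) : PF (NT τ) where
  S := ((F.S ×ˢ SG J ×ˢ Finset.range L) ×ˢ (SG J ×ˢ Finset.univ ×ˢ Finset.range L)).filter
    fun q => q.1.2.1.1 ∉ F.I q.1.1 ∧ cc q.1.2.2 = F.i q.1.1 ∧ q.2.1.1 ∉ F.I q.1.1 ∧
      q.2.1.1 ≠ q.1.2.1.1 ∧ (q.2.2.1 = false → q.2.2.2 ≠ q.1.2.2)
  i := fun q => cc q.2.2.2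
  A := fun q => if q.2.2.1 then A1 L (F.A q.1.1) q.1.2.1 q.1.2.2 q.2.1 q.2.2.2
    else A2 L (F.A q.1.1) q.1.2.1 q.1.2.2 q.2.1 q.2.2.2
  B := fun q => if q.2.2.1 then B1 L (F.B q.1.1) q.1.2.1 q.1.2.2 q.2.1 q.2.2.2
    else B2 L (F.B q.1.1) q.1.2.1 q.1.2.2 q.2.1 q.2.2.2
  I := fun q => insert q.2.1.1 (insert q.1.2.1.1 (F.I q.1.1))
  c := fun q => if q.2.2.1 then -(F.c q.1.1 * sg q.1.2.1 * sg q.2.1 / (2 * J * L))
    else -(F.c q.1.1 / (2 * J * (L - 1)))
  main := fun q => if q.2.2.1 then some (q.2.1, q.2.2.2) else none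

/-- the initial family -/
noncomputable def PF.base (J L : ℕ) : PF (Sg × ℕ) where
  S := SG J ×ˢ Finset.range L
  i := fun q => cc q.2
  A := fun q => al L q.1 q.2
  B := fun q => be L q.1 q.2
  I := fun q => {q.1.1}
  c := fun q => sg q.1 / (Real.sqrt (2 * J) * L)
  main := fun q => some q

/-- the symmetric element `P = (2J)^{-1/2} ∑_{j<J} (g_j + g_j⁻¹)` -/
noncomputable def PJ (J L : ℕ) : Gm →₀ ℝ :=
  ∑ σ ∈ SG J, Finsupp.single (gs L σ) ((Real.sqrt (2 * J))⁻¹)

/-- the operator `T` on fields, explicit form -/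
noncomputable def TJ (J L : ℕ) (η : Fin 4 → (Gm × Gm →₀ ℝ)) : Gm × Gm →₀ ℝ :=
  ∑ σ ∈ SG J, ∑ l ∈ Finset.range L,
    (η (cc l)).sum fun ab r =>
      Finsupp.single (al L σ l * ab.1⁻¹, ab.2⁻¹ * be L σ l) ((Real.sqrt (2 * J))⁻¹ * sg σ * r)

/-! ### Transfer to the free group on `n ≥ 6` generators -/

/-- the moving generators `2,3,4,5` -/
def e6 {n : ℕ} (hn : 6 ≤ n) (i : Fin 4) : Fin n := ⟨i + 2, by omega⟩
/-- `w_j ↦ a^j b a^{-j}`, `u_i ↦ x_{i+2}`, where `a = x_0`, `b = x_1` -/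
def iota {n : ℕ} (hn : 6 ≤ n) : Gm →* FreeGroup (Fin n) := FreeGroup.lift fun x =>
  match x with
  | Sum.inl j => FreeGroup.of ⟨0, by omega⟩ ^ j * FreeGroup.of ⟨1, by omega⟩ *
      (FreeGroup.of ⟨0, by omega⟩ ^ j)⁻¹
  | Sum.inr i => FreeGroup.of (e6 hn i)

/-! ### The flow -/

/-- the time-`h` flow of the derivation `d` at the point `p` (a power series) -/
noncomputable def flow {L B : Type} [NormedRing B] [NormedAlgebra ℂ B]
    (d : L → (List L →₀ ℂ)) (p : L → B) (h : ℝ) (l : L) : B :=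
  ∑' n : ℕ, (((h ^ n / n.factorial : ℝ)) : ℂ) • ((DD d)^[n] (ev p)) [l]

/-! ### The function `Λ` in the proof of law preservation -/

/-- `Λ(W)` -/
noncomputable def lam0 {X : Type} [DecidableEq X] {m : ℕ} (e : Fin m → X)
    (P : FreeGroup X →₀ ℝ) (η : Fin m → (FreeGroup X × FreeGroup X →₀ ℝ))
    (μ : List (Lt X) → ℂ) (W : List (Lt X)) : ℂ :=
  -(P.sum fun g c => (c : ℂ) * μ (gword g ++ W)) +
  ((splits W).map fun t => match t.2.1 with
    | none => 0
    | some (x, true) => ∑ i, if e i = x then (η i).sum fun ab r =>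
        (r : ℂ) * μ (t.1 ++ some (x, true) :: gword ab.1⁻¹) * μ (gword ab.2⁻¹ ++ t.2.2) else 0
    | some (x, false) => ∑ i, if e i = x then (η i).sum fun ab r =>
        -((r : ℂ) * μ (t.1 ++ gword ab.1⁻¹) * μ (gword ab.2⁻¹ ++ some (x, false) :: t.2.2))
        else 0).sum

/-! ### Fock space -/

/-- `f ↦ f ∘ φ` on `ℓ²(I)` for an injective map `φ` -/
noncomputable def compOp {I : Type} (φ : I → I) (hφ : Function.Injective φ) :
    Ell I →L[ℂ] Ell I :=
  LinearMap.mkContinuous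
    { toFun := fun f => ⟨fun h => f (φ h), by
        have h1 := (lp.memℓp f).summable (by norm_num)
        refine memℓp_gen ?_
        exact h1.comp_injective hφ⟩
      map_add' := fun f g => by ext h; rfl
      map_smul' := fun c f => by ext h; rfl } 1 (by
    intro f
    have h1 : (0 : ℝ) < (2 : ENNReal).toReal := by norm_num
    rw [one_mul, lp.norm_eq_tsum_rpow h1, lp.norm_eq_tsum_rpow h1]
    have h2 := (lp.memℓp f).summable h1
    refine Real.rpow_le_rpow (tsum_nonneg fun i => Real.rpow_nonneg (norm_nonneg _) _) ?_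
      (by norm_num)
    exact (h2.comp_injective hφ).tsum_le_tsum_of_inj φ hφ
      (fun c _ => Real.rpow_nonneg (norm_nonneg _) _) (fun i => le_rfl) h2)

section Fock
variable (G : Type) [Group G]

/-- index set of the basis of Fock space: `(g₀, [g₁, …, g_d])` stands for
`g₀ ⊗ g₁ ⊗ ⋯ ⊗ g_d` -/
abbrev FI := G × List G

variable {G}
/-- `(g₀, t) ↦ (1, g₀ :: t)` -/
def crI (x : FI G) : FI G := (1, x.1 :: x.2)
theorem crI_inj : Function.Injective (crI (G := G)) := by
  rintro ⟨a, b⟩ ⟨c, d⟩ h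
  simp [crI] at h
  exact Prod.ext h.1 h.2

/-- annihilation operator -/
noncomputable def annF : Ell (FI G) →L[ℂ] Ell (FI G) := compOp crI crI_inj
/-- the semicircular element: annihilation plus creation -/
noncomputable def sF : Ell (FI G) →L[ℂ] Ell (FI G) := annF + ContinuousLinearMap.adjoint annF
/-- left translation -/
noncomputable def lamF (g : G) : Ell (FI G) →L[ℂ] Ell (FI G) :=
  permOp ((Equiv.mulLeft g⁻¹).prodCongr (Equiv.refl (List G)))
/-- vacuum vector -/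
noncomputable def vac : Ell (FI G) :=
  haveI := Classical.decEq (FI G)
  lp.single 2 ((1 : G), ([] : List G)) (1 : ℂ)

end Fock

/-- the Fock point of the free group -/
noncomputable def pF (X : Type) : Lt X → (Ell (FI (FreeGroup X)) →L[ℂ] Ell (FI (FreeGroup X)))
  | none => sF
  | some (x, true) => lamF (FreeGroup.of x)
  | some (x, false) => lamF (FreeGroup.of x)⁻¹

/-- the point `(lam, s)` of `ℓ²(F_{n+1})` -/
noncomputable def pS (n : ℕ)
    (s : Ell (FreeGroup (Fin (n + 1))) →L[ℂ] Ell (FreeGroup (Fin (n + 1)))) :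
    Lt (Fin n) → (Ell (FreeGroup (Fin (n + 1))) →L[ℂ] Ell (FreeGroup (Fin (n + 1))))
  | none => s
  | some (x, true) => lam (FreeGroup.of x.castSucc)
  | some (x, false) => lam (FreeGroup.of x.castSucc)⁻¹

/-- `g₀ z^{k₁} g₁ ⋯ z^{k_d} g_d` in `F_{n+1}` -/
def nf (n : ℕ) (g₀ : FreeGroup (Fin n)) (L : List (ℤ × FreeGroup (Fin n))) :
    FreeGroup (Fin (n + 1)) :=
  FreeGroup.map Fin.castSucc g₀ *
    (L.map fun t => FreeGroup.of (Fin.last n) ^ t.1 * FreeGroup.map Fin.castSucc t.2).prod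

/-- the operator of a unitary -/
def uop {H : Type} [NormedAddCommGroup H] [InnerProductSpace ℂ H] [CompleteSpace H]
    (v : unitary (H →L[ℂ] H)) : H →L[ℂ] H := v
/-- integer powers of a unitary -/
noncomputable def upow {H : Type} [NormedAddCommGroup H] [InnerProductSpace ℂ H]
    [CompleteSpace H] (v : unitary (H →L[ℂ] H)) (k : ℤ) : H →L[ℂ] H := uop (v ^ k)

/-- basis vectors of Fock space -/
noncomputable def bas {G : Type} (x : FI G) : Ell (FI G) :=
  haveI := Classical.decEq (FI G)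
  lp.single 2 x (1 : ℂ)

/-- `U_n(x/2)` -/
noncomputable def cheb (n : ℕ) : Polynomial ℂ :=
  (Polynomial.Chebyshev.U ℂ n).comp (Polynomial.C (1 / 2) * Polynomial.X)

/-- the function `f` on the real line, `f(2 cos θ) = exp(i(2θ - sin 2θ))` -/
noncomputable def fC (x : ℝ) : ℂ := Complex.exp (Complex.I *
  ((2 * Real.arccos (x / 2) - Real.sin (2 * Real.arccos (x / 2)) : ℝ) : ℂ))

end Pool.Agent.H667R3.FF
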