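import Mathlib
import Pool.Agent.H667R3.FF.Defs

/-! Task A1 (table h667b_tasks, shared note 777). -/

namespace Pool.Agent.H667R3.FF

open Pool.Agent.H667R2.FG
open scoped ComplexConjugate

variable {α V : Type}

theorem splits_append (v w : List α) : splits (v ++ w) =
    (splits v).map (fun t => (t.1, t.2.1, t.2.2 ++ w)) ++
      (splits w).map (fun t => (v ++ t.1, t.2.1, t.2.2)) := by
  induction v with
  | nil => simp [splits]
  | cons a v ih => simp [splits, ih, Function.comp_def]

theorem mem_splits {w a b : List α} {l : α} : (a, l, b) ∈ splits w ↔ w = a ++ l :: b := by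
  induction w generalizing a b l with
  | nil => simp [splits]
  | cons x w ih =>
    simp only [splits, List.mem_cons, List.mem_map, Prod.mk.injEq, Prod.exists]
    constructor
    · rintro (⟨rfl, rfl, rfl⟩ | ⟨a', l', b', h, rfl, rfl, rfl⟩)
      · rfl
      · rw [ih.1 h]; rfl
    · intro h
      cases a with
      | nil =>
        left
        simp only [List.nil_append, List.cons.injEq] at h
        exact ⟨rfl, h.1.symm, h.2.symm⟩
      | cons y a =>
        right
        simp only [List.cons_append, List.cons.injEq] at h
        exact ⟨a, l, b, ih.2 h.2, by rw [h.1], rfl, rfl⟩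

theorem splits_length (w : List α) : (splits w).length = w.length := by
  induction w with
  | nil => rfl
  | cons a w ih => simp [splits, ih]

theorem A1_sum_map_add {β : Type} [AddCommMonoid V] (L : List β) (f g : β → V) :
    (L.map fun t => f t + g t).sum = (L.map f).sum + (L.map g).sum := by
  induction L with
  | nil => simp
  | cons a L ih => simp only [List.map_cons, List.sum_cons, ih]; abel

theorem splits_exchange [AddCommMonoid V] (w : List α)
    (f : List α → α → List α → α → List α → V) :
    ((splits w).map fun t => ((splits t.2.2).map fun s =>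
      f t.1 t.2.1 s.1 s.2.1 s.2.2).sum).sum =
    ((splits w).map fun t => ((splits t.1).map fun s =>
      f s.1 s.2.1 s.2.2 t.2.1 t.2.2).sum).sum := by
  induction w generalizing f with
  | nil => simp [splits]
  | cons a w ih =>
    have h1 := ih (fun x => f (a :: x))
    simp only [splits, List.map_cons, List.map_map, List.sum_cons, Function.comp_def,
      List.map_nil, List.sum_nil, zero_add, A1_sum_map_add] at h1 ⊢
    rw [h1]

theorem ev_nil {B : Type} [Monoid B] (p : α → B) : ev p [] = 1 := by simp [ev]

theorem ev_cons {B : Type} [Monoid B] (p : α → B) (l : α) (w : List α) :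
    ev p (l :: w) = p l * ev p w := by simp [ev]

theorem ev_append {B : Type} [Monoid B] (p : α → B) (v w : List α) :
    ev p (v ++ w) = ev p v * ev p w := by simp [ev]

theorem wstar_append {X : Type} (v w : List (Lt X)) : wstar (v ++ w) = wstar w ++ wstar v := by
  simp [wstar]

theorem A1_linv_linv {X : Type} (l : Lt X) : linv (linv l) = l := by
  rcases l with _ | ⟨i, b⟩ <;> simp [linv]

theorem wstar_wstar {X : Type} (w : List (Lt X)) : wstar (wstar w) = w := by
  have : (linv ∘ linv : Lt X → Lt X) = id := by
    funext l; exact A1_linv_linv l
  simp [wstar, this]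

theorem splits_wstar {X : Type} (w : List (Lt X)) : splits (wstar w) =
    ((splits w).map fun t => (wstar t.2.2, linv t.2.1, wstar t.1)).reverse := by
  induction w with
  | nil => simp [splits, wstar]
  | cons a w ih =>
    have h : wstar (a :: w) = wstar w ++ [linv a] := by simp [wstar]
    have h' : ∀ t : List (Lt X), wstar (a :: t) = wstar t ++ [linv a] := fun t => by simp [wstar]
    have h0 : wstar ([] : List (Lt X)) = [] := by simp [wstar]
    rw [h, splits_append, ih]
    simp [splits, Function.comp_def, h', h0, List.map_reverse]

theorem wstar_gword {X : Type} [DecidableEq X] (g : FreeGroup X) :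
    wstar (gword g) = gword g⁻¹ := by
  rw [gword, gword, FreeGroup.toWord_inv, FreeGroup.invRev, wstar, List.map_reverse, List.map_map,
    List.map_map]
  rfl

end Pool.Agent.H667R3.FF
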