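import Mathlib
import Pool.Agent.H667R3.FF.Defs

/-! Task C3 (table h667b_tasks, shared note 777). Replace every `sorry`; keep the statements. -/

namespace Pool.Agent.H667R3.FF

open Pool.Agent.H667R2.FG
open scoped ComplexConjugate

variable {α : Type} [DecidableEq α]

theorem foxL_append (i : α) (L L' : List (α × Bool)) :
    foxL i (L ++ L') = foxL i L + (foxL i L').mapDomain (fun A => FreeGroup.mk L * A) := by
  induction L with
  | nil =>
    have h1 : (fun A : FreeGroup α => FreeGroup.mk [] * A) = id := by
      funext A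
      rw [← FreeGroup.one_eq_mk, one_mul]
      rfl
    rw [List.nil_append, h1, Finsupp.mapDomain_id, foxL, zero_add]
  | cons x L ih =>
    have h2 : (fun A : FreeGroup α => FreeGroup.mk (x :: L) * A) =
        (fun A => FreeGroup.mk [x] * A) ∘ (fun A => FreeGroup.mk L * A) := by
      funext A
      rw [Function.comp_apply, ← mul_assoc, FreeGroup.mul_mk, List.singleton_append]
    rw [List.cons_append, foxL, foxL, ih, Finsupp.mapDomain_add, h2, Finsupp.mapDomain_comp]
    abel

private theorem c3_step (i : α) (L₁ L₂ : List (α × Bool)) (x : α) (b : Bool) :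
    foxL i (L₁ ++ (x, b) :: (x, !b) :: L₂) = foxL i (L₁ ++ L₂) := by
  rw [foxL_append, foxL_append]
  congr 2
  rw [foxL, foxL, Finsupp.mapDomain_add, ← Finsupp.mapDomain_comp]
  have h1 : ((fun A : FreeGroup α => FreeGroup.mk [(x, b)] * A) ∘
      (fun A => FreeGroup.mk [(x, !b)] * A)) = id := by
    funext A
    have h2 : FreeGroup.mk [(x, b)] * FreeGroup.mk [(x, !b)] = (1 : FreeGroup α) := by
      have h3 : FreeGroup.mk [(x, !b)] = (FreeGroup.mk [(x, b)])⁻¹ := by
        rw [FreeGroup.inv_mk]
        rfl
      rw [h3, mul_inv_cancel]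
    rw [Function.comp_apply, ← mul_assoc, h2, one_mul]
    rfl
  rw [h1, Finsupp.mapDomain_id, ← add_assoc]
  have h4 : ((if (x, b).1 = i then (if (x, b).2 then Finsupp.single (FreeGroup.mk [(x, b)]) 1
        else Finsupp.single 1 (-1)) else 0 : FreeGroup α →₀ ℝ) +
      Finsupp.mapDomain (fun A => FreeGroup.mk [(x, b)] * A)
        (if (x, !b).1 = i then (if (x, !b).2 then Finsupp.single (FreeGroup.mk [(x, !b)]) 1
        else Finsupp.single 1 (-1)) else 0)) = 0 := by
    by_cases hx : x = i
    · cases b
      · have h3 : FreeGroup.mk [(x, false)] * FreeGroup.mk [(x, true)] = (1 : FreeGroup α) := by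
          have h3 : FreeGroup.mk [(x, false)] = (FreeGroup.mk [(x, true)])⁻¹ := by
            rw [FreeGroup.inv_mk]
            rfl
          rw [h3, inv_mul_cancel]
        simp only [hx, if_true, Bool.false_eq_true, if_false, Bool.not_false]
        rw [Finsupp.mapDomain_single, ← hx, h3, ← Finsupp.single_add]
        simp
      · simp only [hx, if_true, Bool.false_eq_true, if_false, Bool.not_true]
        rw [Finsupp.mapDomain_single, mul_one, ← Finsupp.single_add]
        simp
    · simp [hx]
  rw [h4, zero_add]

/-- the Fox derivative of a list depends only on the group element -/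
theorem foxL_eq (i : α) (L : List (α × Bool)) : foxL i L = foxD i (FreeGroup.mk L) := by
  have hr : ∀ L' : List (α × Bool), FreeGroup.Red L L' → foxL i L = foxL i L' := by
    intro L' h
    induction h with
    | refl => rfl
    | tail _ h2 ih =>
      rw [ih]
      cases h2 with
      | not => exact c3_step i _ _ _ _
  unfold foxD
  rw [FreeGroup.toWord_mk]
  exact hr _ FreeGroup.reduce.red

theorem foxD_one (i : α) : foxD i (1 : FreeGroup α) = 0 := by
  unfold foxD
  rw [FreeGroup.toWord_one, foxL]

theorem foxD_of (i j : α) : foxD i (FreeGroup.of j) =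
    if j = i then Finsupp.single (FreeGroup.of j) 1 else 0 := by
  unfold foxD
  rw [FreeGroup.toWord_of, foxL, foxL, Finsupp.mapDomain_zero, add_zero]
  rfl

theorem foxD_mul (i : α) (g h : FreeGroup α) :
    foxD i (g * h) = foxD i g + (foxD i h).mapDomain (fun A => g * A) := by
  have h1 : g * h = FreeGroup.mk (g.toWord ++ h.toWord) := by
    rw [← FreeGroup.mul_mk, FreeGroup.mk_toWord, FreeGroup.mk_toWord]
  rw [h1, ← foxL_eq, foxL_append, FreeGroup.mk_toWord]
  rfl

theorem foxD_mul_apply (i : α) (g h A : FreeGroup α) :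
    foxD i (g * h) A = foxD i g A + foxD i h (g⁻¹ * A) := by
  rw [foxD_mul, Finsupp.add_apply]
  congr 1
  have h1 := Finsupp.mapDomain_apply (f := fun A : FreeGroup α => g * A)
    (mul_right_injective g) (foxD i h) (g⁻¹ * A)
  rw [← h1]
  show _ = Finsupp.mapDomain _ _ (g * (g⁻¹ * A))
  rw [mul_inv_cancel_left]

theorem foxD_inv_apply (i : α) (g A : FreeGroup α) : foxD i g⁻¹ A = -foxD i g (g * A) := by
  have h1 := foxD_mul_apply i g g⁻¹ (g * A)
  rw [mul_inv_cancel, foxD_one, inv_mul_cancel_left, Finsupp.zero_apply] at h1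
  linarith

end Pool.Agent.H667R3.FF
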