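import Mathlib
import Pool.Agent.H667R3.FF.Defs
import Pool.Agent.H667R3.FF.A1
import Pool.Agent.H667R3.FF.C3

/-! Task A7a (table h667b_tasks, shared note 777); proofs: helper439. -/

namespace Pool.Agent.H667R3.FF

open Pool.Agent.H667R2.FG
open scoped ComplexConjugate

variable {X : Type} [DecidableEq X] {m : ℕ} {e : Fin m → X}

private theorem A7a_foxL (i : X) (L : List (X × Bool)) : ∀ (φ : FreeGroup X → ℂ),
    ((foxL i L).sum fun A n => (n : ℂ) * φ A) =
    ((splits L).map fun t => if t.2.1.1 = i then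
      (if t.2.1.2 then φ (FreeGroup.mk (t.1 ++ [t.2.1])) else -φ (FreeGroup.mk t.1))
      else 0).sum := by
  induction L with
  | nil => intro φ; simp [foxL, splits]
  | cons x L ih =>
    intro φ
    have h0 : ∀ A : FreeGroup X, (((0 : ℝ) : ℂ)) * φ A = 0 := by intro A; simp
    have h1 : ∀ (A : FreeGroup X) (a b : ℝ), (((a + b : ℝ)) : ℂ) * φ A = (a : ℂ) * φ A + (b : ℂ) * φ A := by
      intro A a b; push_cast; ring
    rw [foxL, Finsupp.sum_add_index' h0 h1, Finsupp.sum_mapDomain_index h0 h1,
      ih (fun A => φ (FreeGroup.mk [x] * A)), splits, List.map_cons, List.sum_cons, List.map_map]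
    congr 1
    · split_ifs with h2 h3
      · rw [Finsupp.sum_single_index (h0 _)]; simp
      · rw [Finsupp.sum_single_index (h0 _)]
        simp [FreeGroup.one_eq_mk]
      · simp

/-- the Fox derivative as a sum over the splits of any list of letters -/
theorem foxD_sum_splits (i : X) (L : List (X × Bool)) (φ : FreeGroup X → ℂ) :
    ((foxD i (FreeGroup.mk L)).sum fun A n => (n : ℂ) * φ A) =
    ((splits L).map fun t => if t.2.1.1 = i then
      (if t.2.1.2 then φ (FreeGroup.mk (t.1 ++ [t.2.1])) else -φ (FreeGroup.mk t.1))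
      else 0).sum := by
  rw [← foxL_eq, A7a_foxL]

theorem mk_gword {X : Type} [DecidableEq X] (g : FreeGroup X) : FreeGroup.mk g.toWord = g :=
  FreeGroup.mk_toWord

/-- a moment with two pure group words at the ends of an `s` -/
theorem std_sd' {μ : List (Lt X) → ℂ} (hμ : StdLaw μ) (v w : List (Lt X)) :
    μ (v ++ none :: w) =
      ((splits (w ++ v)).map fun t => if t.2.1.isNone then μ t.1 * μ t.2.2 else 0).sum := by
  rw [hμ.tr, List.cons_append, hμ.sd]

omit [DecidableEq X] in
private theorem A7a_splits_map (L : List (X × Bool)) :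
    splits (L.map some) = (splits L).map fun t =>
      (t.1.map some, (some t.2.1 : Lt X), t.2.2.map some) := by
  induction L with
  | nil => rfl
  | cons x L ih =>
    rw [List.map_cons, splits, splits, ih, List.map_cons, List.map_map, List.map_map]
    rfl

/-- splitting off the first `s`: `v` a group word -/
theorem std_sd'' {μ : List (Lt X) → ℂ} (hμ : StdLaw μ) (L L' : List (X × Bool))
    (w : List (Lt X)) : μ (L.map some ++ none :: (w ++ L'.map some)) =
      ((splits w).map fun t => if t.2.1.isNone then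
        μ t.1 * μ (L.map some ++ (t.2.2 ++ L'.map some)) else 0).sum := by
  rw [std_sd' hμ, List.append_assoc, splits_append, List.map_append, List.sum_append,
    ← List.map_append, A7a_splits_map, List.map_map, List.map_map, List.map_map]
  have h1 : ((splits (L' ++ L)).map (((fun t : List (Lt X) × Lt X × List (Lt X) =>
      if t.2.1.isNone then μ t.1 * μ t.2.2 else 0) ∘ fun t => (w ++ t.1, t.2.1, t.2.2)) ∘
        fun t => (t.1.map some, (some t.2.1 : Lt X), t.2.2.map some))).sum = 0 := by
    apply List.sum_eq_zero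
    intro x hx
    obtain ⟨t, _, rfl⟩ := List.mem_map.1 hx
    simp
  rw [h1, add_zero]
  congr 1
  refine List.map_congr_left fun t _ => ?_
  simp only [Function.comp]
  split_ifs
  · congr 1
    rw [List.map_append, ← List.append_assoc, hμ.tr]
  · rfl

omit [DecidableEq X] in
private theorem A7a_grp1 {μ : List (Lt X) → ℂ} (hμ : StdLaw μ) {L : List (X × Bool)}
    (h : FreeGroup.mk L = 1) : μ (L.map some) = 1 := by
  rw [hμ.grp, if_pos h]

omit [DecidableEq X] in
private theorem A7a_grp0 {μ : List (Lt X) → ℂ} (hμ : StdLaw μ) {L : List (X × Bool)}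
    (h : FreeGroup.mk L ≠ 1) : μ (L.map some) = 0 := by
  rw [hμ.grp, if_neg h]

private theorem A7a_left {μ : List (Lt X) → ℂ} (hμ : StdLaw μ) (L : List (X × Bool))
    (a : FreeGroup X) : μ (L.map some ++ gword a⁻¹) = if a = FreeGroup.mk L then 1 else 0 := by
  rw [gword, ← List.map_append]
  have h : FreeGroup.mk (L ++ (a⁻¹).toWord) = FreeGroup.mk L * a⁻¹ := by
    rw [← FreeGroup.mul_mk, FreeGroup.mk_toWord]
  split_ifs with h1
  · apply A7a_grp1 hμ
    rw [h, h1, mul_inv_cancel]
  · apply A7a_grp0 hμ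
    rw [h]
    intro h2
    exact h1 (mul_inv_eq_one.1 h2).symm

private theorem A7a_right {μ : List (Lt X) → ℂ} (hμ : StdLaw μ) (L : List (X × Bool))
    (b : FreeGroup X) : μ (gword b⁻¹ ++ L.map some) = if b = FreeGroup.mk L then 1 else 0 := by
  rw [hμ.tr, A7a_left hμ]

private theorem A7a_pair (f : FreeGroup X × FreeGroup X →₀ ℝ) (A B : FreeGroup X) :
    (f.sum fun ab r => (r : ℂ) * (if ab.1 = A then 1 else 0) * (if ab.2 = B then 1 else 0)) =
      (f (A, B) : ℂ) := by
  classical
  rw [Finsupp.sum, Finset.sum_eq_single (A, B)]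
  · simp
  · rintro ⟨a, b⟩ _ hne
    by_cases h1 : a = A
    · by_cases h2 : b = B
      · exact absurd (by rw [h1, h2]) hne
      · simp [h2]
    · simp [h1]
  · intro h
    simp [Finsupp.notMem_support_iff.1 h]

private theorem A7a_single (P : FreeGroup X →₀ ℝ) (A : FreeGroup X) :
    (P.sum fun g c => (c : ℂ) * (if g = A then 1 else 0)) = (P A : ℂ) := by
  classical
  rw [Finsupp.sum, Finset.sum_eq_single A]
  · simp
  · intro a _ hne
    simp [hne]
  · intro h
    simp [Finsupp.notMem_support_iff.1 h]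

private theorem A7a_comm {τ : Type} (l : List τ) (f : τ → Fin m → ℂ) :
    (l.map fun t => ∑ i, f t i).sum = ∑ i, (l.map fun t => f t i).sum := by
  induction l with
  | nil => simp
  | cons x l ih => simp only [List.map_cons, List.sum_cons, ih, Finset.sum_add_distrib]

/-- `Λ` vanishes on group words -/
theorem lam0_group {P : FreeGroup X →₀ ℝ} {η : Fin m → (FreeGroup X × FreeGroup X →₀ ℝ)}
    (hdiv : ∀ v, divE e η v = P v) (hP : ∀ v, P v⁻¹ = P v) {μ : List (Lt X) → ℂ}
    (hμ : StdLaw μ) (L : List (X × Bool)) : lam0 e P η μ (L.map some) = 0 := by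
  have h1 : (P.sum fun g c => (c : ℂ) * μ (gword g ++ L.map some)) = (P (FreeGroup.mk L) : ℂ) := by
    rw [← hP, ← A7a_single P (FreeGroup.mk L)⁻¹]
    refine Finsupp.sum_congr fun g _ => ?_
    congr 1
    have h := A7a_right hμ L g⁻¹
    rw [inv_inv] at h
    rw [h]
    simp only [inv_eq_iff_eq_inv]
  have key : ∀ F : List (Lt X) × Lt X × List (Lt X) → ℂ,
      (∀ t ∈ splits L, F (t.1.map some, some t.2.1, t.2.2.map some) =
        ∑ i, if t.2.1.1 = e i then
          (if t.2.1.2 then ((η i (FreeGroup.mk (t.1 ++ [t.2.1]),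
            (FreeGroup.mk (t.1 ++ [t.2.1]))⁻¹ * FreeGroup.mk L) : ℝ) : ℂ)
          else -((η i (FreeGroup.mk t.1, (FreeGroup.mk t.1)⁻¹ * FreeGroup.mk L) : ℝ) : ℂ))
          else 0) → ((splits (L.map some)).map F).sum = (P (FreeGroup.mk L) : ℂ) := by
    intro F hF
    have h2 := List.map_congr_left hF
    rw [A7a_splits_map, List.map_map]
    show ((splits L).map fun t => F (t.1.map some, some t.2.1, t.2.2.map some)).sum = _
    rw [h2, A7a_comm, ← hdiv, divE]
    push_cast
    refine Finset.sum_congr rfl fun i _ => ?_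
    refine (foxD_sum_splits (e i) L
      (fun A => ((η i (A, A⁻¹ * FreeGroup.mk L) : ℝ) : ℂ))).symm.trans ?_
    rw [Finsupp.sum, Finsupp.sum]
    push_cast
    rfl
  rw [lam0, h1, key _ ?_]
  · ring
  rintro ⟨a, ⟨x, s⟩, b⟩ ht
  have hL : L = a ++ (x, s) :: b := mem_splits.1 ht
  cases s with
  | true =>
    refine Finset.sum_congr rfl fun i _ => ?_
    by_cases hi : e i = x
    · rw [if_pos hi, if_pos hi.symm, if_pos rfl]
      show ((η i).sum fun ab r =>
        (r : ℂ) * μ (a.map some ++ some (x, true) :: gword ab.1⁻¹) *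
          μ (gword ab.2⁻¹ ++ b.map some)) = ((η i (FreeGroup.mk (a ++ [(x, true)]),
            (FreeGroup.mk (a ++ [(x, true)]))⁻¹ * FreeGroup.mk L) : ℝ) : ℂ)
      rw [← A7a_pair]
      refine Finsupp.sum_congr fun ab _ => ?_
      have e1 : a.map some ++ (some (x, true) : Lt X) :: gword ab.1⁻¹ =
        (a ++ [(x, true)]).map some ++ gword ab.1⁻¹ := by simp
      have e2 : (FreeGroup.mk (a ++ [(x, true)]))⁻¹ * FreeGroup.mk L = FreeGroup.mk b := by
        have : FreeGroup.mk L = FreeGroup.mk (a ++ [(x, true)]) * FreeGroup.mk b := by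
          rw [FreeGroup.mul_mk, hL]; simp
        rw [this, inv_mul_cancel_left]
      rw [e1, A7a_left hμ, A7a_right hμ, e2]
    · rw [if_neg hi, if_neg (fun h => hi h.symm)]
  | false =>
    refine Finset.sum_congr rfl fun i _ => ?_
    by_cases hi : e i = x
    · rw [if_pos hi, if_pos hi.symm, if_neg (by simp)]
      show ((η i).sum fun ab r =>
        -((r : ℂ) * μ (a.map some ++ gword ab.1⁻¹) *
          μ (gword ab.2⁻¹ ++ some (x, false) :: b.map some))) =
        -((η i (FreeGroup.mk a, (FreeGroup.mk a)⁻¹ * FreeGroup.mk L) : ℝ) : ℂ)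
      rw [← A7a_pair, Finsupp.sum, Finsupp.sum, ← Finset.sum_neg_distrib]
      refine Finset.sum_congr rfl fun ab _ => ?_
      have e1 : gword ab.2⁻¹ ++ (some (x, false) : Lt X) :: b.map some =
        gword ab.2⁻¹ ++ ((x, false) :: b).map some := by simp
      have e2 : (FreeGroup.mk a)⁻¹ * FreeGroup.mk L = FreeGroup.mk ((x, false) :: b) := by
        rw [hL, ← FreeGroup.mul_mk, inv_mul_cancel_left]
      rw [e1, A7a_left hμ, A7a_right hμ, e2]
    · rw [if_neg hi, if_neg (fun h => hi h.symm)]

end Pool.Agent.H667R3.FF
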