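import Mathlib
import Pool.Agent.H667R3.FF.Defs
import Pool.Agent.H667R3.FF.A1
import Pool.Agent.H667R3.FF.A7a

/-! Task A8a (table h667b_tasks, shared note 777). -/

namespace Pool.Agent.H667R3.FF

open Pool.Agent.H667R2.FG
open scoped ComplexConjugate

variable {X : Type} [DecidableEq X] {m : ℕ} {e : Fin m → X} {H : Type} [NormedAddCommGroup H]
    [InnerProductSpace ℂ H] [CompleteSpace H]

theorem ev_canc {B : Type} [Monoid B] [StarMul B] {p : Lt X → B} (hp : Good p) :
    Canc (ev p) := by
  intro w₁ w₂ x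
  rw [ev_append, ev_cons, ev_cons, ev_append, ← mul_assoc (p (some x)), hp.uni, one_mul]

theorem ev_map_some {B : Type} [Monoid B] [StarMul B] {p : Lt X → B} (hp : Good p)
    (L : List (X × Bool)) : ev p (L.map some) = ev p (gword (FreeGroup.mk L)) := by
  have key : ∀ L₁ L₂ : List (X × Bool), FreeGroup.Red L₁ L₂ →
      ev p (L₁.map some) = ev p (L₂.map some) := by
    intro L₁ L₂ h
    induction h with
    | refl => rfl
    | tail _ hstep ih =>
      rw [ih]
      cases hstep with
      | @not M₁ M₂ x b =>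
        simp only [List.map_append, List.map_cons]
        exact ev_canc hp (M₁.map some) (M₂.map some) (x, b)
  unfold gword
  rw [FreeGroup.toWord_mk]
  exact key _ _ FreeGroup.reduce.red

theorem ev_gword_mul {B : Type} [Monoid B] [StarMul B] {p : Lt X → B} (hp : Good p)
    (g h : FreeGroup X) : ev p (gword (g * h)) = ev p (gword g) * ev p (gword h) := by
  have h1 : g * h = FreeGroup.mk (g.toWord ++ h.toWord) := by
    conv_lhs => rw [← FreeGroup.mk_toWord (x := g), ← FreeGroup.mk_toWord (x := h)]
    rw [FreeGroup.mul_mk]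
  rw [h1, ← ev_map_some hp, List.map_append, ev_append]
  rfl

theorem star_ev {B : Type} [Monoid B] [StarMul B] {p : Lt X → B} (hp : Good p)
    (w : List (Lt X)) : star (ev p w) = ev p (wstar w) := by
  induction w with
  | nil => 
    show star (ev p []) = ev p []
    rw [ev_nil, star_one]
  | cons l w ih =>
    have h1 : wstar (l :: w) = wstar w ++ [linv l] := by
      unfold wstar
      simp
    rw [ev_cons, star_mul, ih, h1, ev_append, hp.st, ev_cons, ev_nil, mul_one]

theorem A8a_law {μ : List (Lt X) → ℂ} (hμ : StdLaw μ) (g h : FreeGroup X) :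
    μ (gword g⁻¹ ++ gword h) = if g = h then 1 else 0 := by
  have h1 : gword g⁻¹ ++ gword h = ((g⁻¹).toWord ++ h.toWord).map some := by
    rw [List.map_append]; rfl
  have h2 : (FreeGroup.mk ((g⁻¹).toWord ++ h.toWord) = 1) ↔ g = h := by
    rw [← FreeGroup.mul_mk, FreeGroup.mk_toWord, FreeGroup.mk_toWord]
    exact inv_mul_eq_one
  rw [h1, hμ.grp]
  by_cases hgh : g = h
  · rw [if_pos (h2.mpr hgh), if_pos hgh]
  · rw [if_neg (fun h' => hgh (h2.mp h')), if_neg hgh]

omit [DecidableEq X] in
theorem A8a_splits_some {V : Type} [AddCommMonoid V] (L : List (X × Bool))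
    (f : List (Lt X) × Lt X × List (Lt X) → V) :
    ((splits (L.map (some : X × Bool → Lt X))).map fun t =>
      if t.2.1.isNone then f t else 0).sum = 0 := by
  apply List.sum_eq_zero
  intro v hv
  rw [List.mem_map] at hv
  obtain ⟨t, ht, rfl⟩ := hv
  obtain ⟨a, l, b⟩ := t
  rw [mem_splits] at ht
  have hl : l ∈ L.map (some : X × Bool → Lt X) := by rw [ht]; simp
  rw [List.mem_map] at hl
  obtain ⟨x, _, rfl⟩ := hl
  simp

theorem A8a_mom {μ : List (Lt X) → ℂ} (hμ : StdLaw μ) (x y x' y' : FreeGroup X) :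
    μ (wstar (gword x ++ none :: gword y) ++ (gword x' ++ none :: gword y')) =
      if (x, y) = (x', y') then 1 else 0 := by
  have h1 : wstar (gword x ++ none :: gword y) ++ (gword x' ++ none :: gword y') =
      ((y⁻¹).toWord).map some ++ none ::
        ((((x⁻¹).toWord ++ x'.toWord).map some ++ [none]) ++ (y'.toWord).map some) := by
    have h2 : wstar (none :: gword y) = gword y⁻¹ ++ [none] := by
      have : wstar (none :: gword y) = wstar (gword y) ++ [none] := by
        unfold wstar
        simp [linv]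
      rw [this, wstar_gword]
    rw [wstar_append, h2, wstar_gword]
    unfold gword
    simp
  rw [h1, std_sd'' hμ, splits_append, List.map_append, List.sum_append, List.map_map]
  have h3 : ((splits (((x⁻¹).toWord ++ x'.toWord).map (some : X × Bool → Lt X))).map
      ((fun t : List (Lt X) × Lt X × List (Lt X) => if t.2.1.isNone then
        μ t.1 * μ (((y⁻¹).toWord).map some ++ (t.2.2 ++ (y'.toWord).map some)) else 0) ∘
        (fun t : List (Lt X) × Lt X × List (Lt X) => (t.1, t.2.1, t.2.2 ++ [none])))).sum = 0 := by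
    exact A8a_splits_some (V := ℂ) ((x⁻¹).toWord ++ x'.toWord) (fun t =>
      μ t.1 * μ (((y⁻¹).toWord).map some ++ ((t.2.2 ++ [none]) ++ (y'.toWord).map some)))
  rw [h3, zero_add]
  simp only [splits, List.map_cons, List.map_nil, List.sum_cons, List.sum_nil, add_zero,
    List.append_nil, Option.isNone_none, if_true, List.nil_append]
  have h4 := A8a_law hμ x x'
  have h5 := A8a_law hμ y y'
  have h6 : ((x⁻¹).toWord ++ x'.toWord).map (some : X × Bool → Lt X) =
      gword x⁻¹ ++ gword x' := by
    rw [List.map_append]; rfl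
  rw [h6]
  change μ (gword x⁻¹ ++ gword x') * μ (gword y⁻¹ ++ gword y') = _
  rw [h4, h5]
  by_cases hx : x = x' <;> by_cases hy : y = y' <;> simp [hx, hy, Prod.ext_iff]

theorem l2_std {p : Lt X → (H →L[ℂ] H)} (hp : Good p) {Ω : H} (hμ : StdLaw (mom Ω p))
    (f : FreeGroup X × FreeGroup X →₀ ℝ) :
    ‖(f.sum fun xy r => (r : ℂ) • ev p (gword xy.1 ++ none :: gword xy.2)) Ω‖ ^ 2 = nrm2 f := by
  have hin : ∀ w w' : List (Lt X), inner ℂ (ev p w Ω) (ev p w' Ω) = mom Ω p (wstar w ++ w') := by
    intro w w'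
    unfold mom
    rw [ev_append, ← star_ev hp, ContinuousLinearMap.star_eq_adjoint]
    change _ = inner ℂ Ω ((ContinuousLinearMap.adjoint (ev p w)) (ev p w' Ω))
    rw [ContinuousLinearMap.adjoint_inner_right]
  set v : H := (f.sum fun xy r => (r : ℂ) • ev p (gword xy.1 ++ none :: gword xy.2)) Ω with hv
  have hv' : v = ∑ xy ∈ f.support, (f xy : ℂ) • ev p (gword xy.1 ++ none :: gword xy.2) Ω := by
    rw [hv]
    unfold Finsupp.sum
    rw [_root_.sum_apply]
    rfl
  have h2 : inner ℂ v v = ((nrm2 f : ℝ) : ℂ) := by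
    rw [hv', sum_inner]
    unfold nrm2 Finsupp.sum
    rw [Complex.ofReal_sum]
    refine Finset.sum_congr rfl (fun xy hxy => ?_)
    rw [inner_sum]
    rw [Finset.sum_eq_single xy]
    · rw [inner_smul_left, inner_smul_right, hin, A8a_mom hμ]
      simp [sq]
    · intro x'y' _ hne
      rw [inner_smul_left, inner_smul_right, hin, A8a_mom hμ, if_neg]
      · simp
      · intro h'
        exact hne h'.symm
    · intro h'
      exact absurd hxy h'
  have h3 := inner_self_eq_norm_sq_to_K (𝕜 := ℂ) v
  rw [h2] at h3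
  have h4 : ((nrm2 f : ℝ) : ℂ) = ((‖v‖ ^ 2 : ℝ) : ℂ) := by
    rw [h3]; push_cast; rfl
  exact (Complex.ofReal_injective h4).symm

end Pool.Agent.H667R3.FF
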