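import Mathlib
import Pool.Agent.H667R3.FF.Defs
import Pool.Agent.H667R3.FF.A1
import Pool.Agent.H667R3.FF.A8a

/-! Task A10 (table h667b_tasks, shared note 777). -/

namespace Pool.Agent.H667R3.FF

open Pool.Agent.H667R2.FG
open scoped ComplexConjugate

variable {L : Type} {H : Type} [NormedAddCommGroup H] [InnerProductSpace ℂ H] [CompleteSpace H]

namespace A10

theorem range_ev {B : Type} [Monoid B] (p : L → B) :
    Set.range (ev p) = (Submonoid.closure (Set.range p) : Set B) := by
  rw [← FreeMonoid.mrange_lift]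
  ext x
  constructor
  · rintro ⟨w, rfl⟩
    exact ⟨FreeMonoid.ofList w, by rw [FreeMonoid.lift_apply]; rfl⟩
  · rintro ⟨w, rfl⟩
    exact ⟨FreeMonoid.toList w, by rw [FreeMonoid.lift_apply]; rfl⟩

theorem adjoin_eq {B : Type} [NormedRing B] [NormedAlgebra ℂ B] (p : L → B) :
    (Algebra.adjoin ℂ (Set.range p)).toSubmodule = Submodule.span ℂ (Set.range (ev p)) := by
  rw [Algebra.adjoin_eq_span, range_ev]

theorem inAlg_iff {B : Type} [NormedRing B] [NormedAlgebra ℂ B] (p : L → B) (x : B) :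
    InAlg p x ↔ x ∈ closure (Submodule.span ℂ (Set.range (ev p)) : Set B) := by
  rw [Metric.mem_closure_iff]
  unfold InAlg
  constructor
  · intro h ε hε
    obtain ⟨R, hR⟩ := h ε hε
    refine ⟨_, ?_, by rw [dist_eq_norm]; exact hR⟩
    rw [← Finsupp.range_linearCombination]
    exact ⟨R, by rw [Finsupp.linearCombination_apply]⟩
  · intro h ε hε
    obtain ⟨b, hb, hd⟩ := h ε hε
    rw [SetLike.mem_coe, ← Finsupp.range_linearCombination] at hb
    obtain ⟨R, rfl⟩ := hb
    refine ⟨R, ?_⟩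
    rw [dist_eq_norm, Finsupp.linearCombination_apply] at hd
    exact hd

theorem inAlg_iff' {B : Type} [NormedRing B] [NormedAlgebra ℂ B] (p : L → B) (x : B) :
    InAlg p x ↔ x ∈ (Algebra.adjoin ℂ (Set.range p)).topologicalClosure := by
  rw [inAlg_iff, ← adjoin_eq]
  rfl

end A10

open A10

theorem inAlg_trans {B : Type} [NormedRing B] [NormedAlgebra ℂ B] {p q : L → B}
    (h : ∀ l, InAlg p (q l)) {x : B} (hx : InAlg q x) : InAlg p x := by
  rw [inAlg_iff'] at hx ⊢
  have h1 : Algebra.adjoin ℂ (Set.range q) ≤ (Algebra.adjoin ℂ (Set.range p)).topologicalClosure := by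
    apply Algebra.adjoin_le
    rintro _ ⟨l, rfl⟩
    exact (inAlg_iff' p _).1 (h l)
  exact Subalgebra.topologicalClosure_minimal h1 (Subalgebra.isClosed_topologicalClosure _) hx

theorem inAlg_mul {B : Type} [NormedRing B] [NormedAlgebra ℂ B] {p : L → B} {x y : B}
    (hx : InAlg p x) (hy : InAlg p y) : InAlg p (x * y) := by
  rw [inAlg_iff'] at hx hy ⊢
  exact mul_mem hx hy

theorem inAlg_add {B : Type} [NormedRing B] [NormedAlgebra ℂ B] {p : L → B} {x y : B}
    (hx : InAlg p x) (hy : InAlg p y) : InAlg p (x + y) := by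
  rw [inAlg_iff'] at hx hy ⊢
  exact add_mem hx hy

theorem inAlg_smul {B : Type} [NormedRing B] [NormedAlgebra ℂ B] {p : L → B} {x : B} (c : ℂ)
    (hx : InAlg p x) : InAlg p (c • x) := by
  rw [inAlg_iff'] at hx ⊢
  exact Subalgebra.smul_mem _ hx c

theorem inAlg_ev {B : Type} [NormedRing B] [NormedAlgebra ℂ B] (p : L → B) (w : List L) :
    InAlg p (ev p w) := by
  rw [inAlg_iff]
  exact subset_closure (Submodule.subset_span ⟨w, rfl⟩)

theorem inAlg_lim {B : Type} [NormedRing B] [NormedAlgebra ℂ B] {p : L → B} {x : B}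
    (h : ∀ ε : ℝ, 0 < ε → ∃ y, InAlg p y ∧ ‖x - y‖ < ε) : InAlg p x := by
  rw [inAlg_iff, ← closure_closure, Metric.mem_closure_iff]
  intro ε hε
  obtain ⟨y, hy, hd⟩ := h ε hε
  exact ⟨y, (inAlg_iff p y).1 hy, by rw [dist_eq_norm]; exact hd⟩

theorem inAlg_star {X : Type} {p : Lt X → (H →L[ℂ] H)} (hp : Good p) {x : H →L[ℂ] H}
    (hx : InAlg p x) : InAlg p (star x) := by
  rw [inAlg_iff'] at hx ⊢
  have h1 : ∀ a ∈ Algebra.adjoin ℂ (Set.range p), star a ∈ Algebra.adjoin ℂ (Set.range p) := by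
    intro a ha
    induction ha using Algebra.adjoin_induction with
    | mem a ha =>
      obtain ⟨l, rfl⟩ := ha
      rw [hp.st l]
      exact Algebra.subset_adjoin ⟨_, rfl⟩
    | algebraMap r =>
      rw [← algebraMap_star_comm]
      exact Subalgebra.algebraMap_mem _ _
    | add a b _ _ h3 h4 => rw [star_add]; exact add_mem h3 h4
    | mul a b _ _ h3 h4 => rw [star_mul]; exact mul_mem h4 h3
  exact map_mem_closure continuous_star hx h1

/-- trace property on the closed algebra -/
theorem tr_inAlg {p : L → (H →L[ℂ] H)} {Ω : H} (ht : ∀ v w, mom Ω p (v ++ w) = mom Ω p (w ++ v))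
    {x y : H →L[ℂ] H} (hx : InAlg p x) (hy : InAlg p y) :
    inner ℂ Ω ((x * y) Ω) = inner ℂ Ω ((y * x) Ω) := by
  rw [inAlg_iff] at hx hy
  have happ : ∀ v w, ev p (v ++ w) = ev p v * ev p w := by
    intro v w
    unfold ev
    rw [List.map_append, List.prod_append]
  have h0 : ∀ x ∈ Submodule.span ℂ (Set.range (ev p)), ∀ v,
      inner ℂ Ω ((x * ev p v) Ω) = inner ℂ Ω ((ev p v * x) Ω) := by
    intro x hx v
    induction hx using Submodule.span_induction with
    | mem x hx =>
      obtain ⟨w, rfl⟩ := hx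
      have := ht w v
      unfold mom at this
      rw [happ, happ] at this
      exact this
    | zero => simp
    | add a b _ _ h1 h2 =>
      rw [add_mul, mul_add, ContinuousLinearMap.add_apply, ContinuousLinearMap.add_apply,
        inner_add_right, inner_add_right, h1, h2]
    | smul c a _ h1 =>
      rw [smul_mul_assoc, mul_smul_comm, ContinuousLinearMap.smul_apply,
        ContinuousLinearMap.smul_apply, inner_smul_right, inner_smul_right, h1]
  have h1 : ∀ x ∈ Submodule.span ℂ (Set.range (ev p)), ∀ y ∈ Submodule.span ℂ (Set.range (ev p)),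
      inner ℂ Ω ((x * y) Ω) = inner ℂ Ω ((y * x) Ω) := by
    intro x hx y hy
    induction hy using Submodule.span_induction with
    | mem y hy =>
      obtain ⟨w, rfl⟩ := hy
      exact h0 x hx w
    | zero => simp
    | add a b _ _ h1 h2 =>
      rw [add_mul, mul_add, ContinuousLinearMap.add_apply, ContinuousLinearMap.add_apply,
        inner_add_right, inner_add_right, h1, h2]
    | smul c a _ h1 =>
      rw [smul_mul_assoc, mul_smul_comm, ContinuousLinearMap.smul_apply,
        ContinuousLinearMap.smul_apply, inner_smul_right, inner_smul_right, h1]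
  have hcl : ∀ f g : (H →L[ℂ] H) → (H →L[ℂ] H), Continuous f → Continuous g →
      IsClosed {x | inner ℂ Ω (f x Ω) = (inner ℂ Ω (g x Ω) : ℂ)} := by
    intro f g hf hg
    apply isClosed_eq
    · exact Continuous.inner continuous_const (hf.clm_apply continuous_const)
    · exact Continuous.inner continuous_const (hg.clm_apply continuous_const)
  have h2 : ∀ y ∈ Submodule.span ℂ (Set.range (ev p)),
      inner ℂ Ω ((x * y) Ω) = inner ℂ Ω ((y * x) Ω) := by
    intro y hy
    exact closure_minimal (fun a ha => h1 a ha y hy)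
      (hcl (fun x => x * y) (fun x => y * x) (by fun_prop) (by fun_prop)) hx
  exact closure_minimal (fun b hb => h2 b hb)
    (hcl (fun y => x * y) (fun y => y * x) (by fun_prop) (by fun_prop)) hy

theorem norm_star_vec {X : Type} {p : Lt X → (H →L[ℂ] H)} (hp : Good p) {Ω : H}
    (ht : ∀ v w, mom Ω p (v ++ w) = mom Ω p (w ++ v)) {x : H →L[ℂ] H} (hx : InAlg p x) :
    ‖(star x) Ω‖ = ‖x Ω‖ := by
  have h1 := tr_inAlg ht hx (inAlg_star hp hx)
  have e1 : inner ℂ Ω ((x * star x) Ω) = ((‖(star x) Ω‖ ^ 2 : ℝ) : ℂ) := by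
    rw [ContinuousLinearMap.mul_apply, ContinuousLinearMap.star_eq_adjoint,
      ← ContinuousLinearMap.adjoint_inner_left, inner_self_eq_norm_sq_to_K]
    push_cast
    rfl
  have e2 : inner ℂ Ω ((star x * x) Ω) = ((‖x Ω‖ ^ 2 : ℝ) : ℂ) := by
    rw [ContinuousLinearMap.mul_apply, ContinuousLinearMap.star_eq_adjoint,
      ContinuousLinearMap.adjoint_inner_right, inner_self_eq_norm_sq_to_K]
    push_cast
    rfl
  rw [e1, e2] at h1
  have h2 : ‖(star x) Ω‖ ^ 2 = ‖x Ω‖ ^ 2 := by exact_mod_cast h1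
  exact (sq_eq_sq₀ (norm_nonneg _) (norm_nonneg _)).1 h2

theorem norm_mul_vec {X : Type} {p : Lt X → (H →L[ℂ] H)} (hp : Good p) {Ω : H}
    (ht : ∀ v w, mom Ω p (v ++ w) = mom Ω p (w ++ v)) {x y : H →L[ℂ] H} (hx : InAlg p x)
    (hy : InAlg p y) : ‖(x * y) Ω‖ ≤ ‖y‖ * ‖x Ω‖ := by
  rw [← norm_star_vec hp ht (inAlg_mul hx hy), ← norm_star_vec hp ht hx, star_mul,
    ContinuousLinearMap.mul_apply]
  calc _ ≤ ‖star y‖ * ‖(star x) Ω‖ := ContinuousLinearMap.le_opNorm _ _
    _ = _ := by rw [norm_star]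

end Pool.Agent.H667R3.FF
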