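import Mathlib
import Pool.Agent.H667R3.FF.Defs
import Pool.Agent.H667R3.FF.A10

/-! Task A11 (table h667b_tasks, shared note 777). -/

namespace Pool.Agent.H667R3.FF

open Pool.Agent.H667R2.FG
open scoped ComplexConjugate

variable {H : Type} [NormedAddCommGroup H] [InnerProductSpace ℂ H] [CompleteSpace H]

namespace Chi

theorem sa_inner {q : H →L[ℂ] H} (hq : IsSelfAdjoint q) (x y : H) :
    inner ℂ (q x) y = inner ℂ x (q y) := hq.isSymmetric x y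

theorem sa_im {q : H →L[ℂ] H} (hq : IsSelfAdjoint q) (x : H) :
    (inner ℂ (q x) x : ℂ).im = 0 := by
  have h1 : conj (inner ℂ (q x) x : ℂ) = inner ℂ (q x) x := by
    rw [inner_conj_symm, sa_inner hq]
  exact Complex.conj_eq_iff_im.1 h1

/-- `‖(q + i t) ξ‖² = ‖q ξ‖² + t² ‖ξ‖²` -/
theorem norm_res_sq {q : H →L[ℂ] H} (hq : IsSelfAdjoint q) (t : ℝ) (x : H) :
    ‖q x + (Complex.I * t) • x‖ ^ 2 = ‖q x‖ ^ 2 + t ^ 2 * ‖x‖ ^ 2 := by
  rw [@norm_add_sq ℂ, inner_smul_right]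
  have h1 : RCLike.re ((Complex.I * t) * (inner ℂ (q x) x : ℂ)) = 0 := by
    have := sa_im hq x
    simp [this]
  rw [h1, norm_smul]
  have h2 : ‖Complex.I * (t : ℂ)‖ = |t| := by simp
  rw [h2, mul_pow, sq_abs]
  ring

theorem norm_sq_sub {q : H →L[ℂ] H} (hq : IsSelfAdjoint q) :
    ‖(((‖q‖ ^ 2 : ℝ) : ℂ)) • (1 : H →L[ℂ] H) - q * q‖ ≤ ‖q‖ ^ 2 := by
  refine ContinuousLinearMap.opNorm_le_bound _ (by positivity) fun x => ?_
  have e : ((((‖q‖ ^ 2 : ℝ) : ℂ)) • (1 : H →L[ℂ] H) - q * q) x =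
      (((‖q‖ ^ 2 : ℝ) : ℂ)) • x - q (q x) := rfl
  rw [e]
  refine (sq_le_sq₀ (norm_nonneg _) (by positivity)).1 ?_
  rw [@norm_sub_sq ℂ, inner_smul_left, norm_smul]
  have h1 : (inner ℂ x (q (q x)) : ℂ) = ((‖q x‖ ^ 2 : ℝ) : ℂ) := by
    rw [← sa_inner hq, inner_self_eq_norm_sq_to_K]
    simp
  have h2 : ‖q (q x)‖ ≤ ‖q‖ * ‖q x‖ := q.le_opNorm _
  have h2' : ‖q (q x)‖ ^ 2 ≤ (‖q‖ * ‖q x‖) ^ 2 := pow_le_pow_left₀ (norm_nonneg _) h2 2
  rw [h1]
  have h3 : RCLike.re (conj (((‖q‖ ^ 2 : ℝ) : ℂ)) * ((‖q x‖ ^ 2 : ℝ) : ℂ)) = ‖q‖ ^ 2 * ‖q x‖ ^ 2 := by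
    rw [Complex.conj_ofReal, ← Complex.ofReal_mul]
    exact Complex.ofReal_re _
  rw [h3]
  have h4 : ‖(((‖q‖ ^ 2 : ℝ) : ℂ))‖ = ‖q‖ ^ 2 := by
    rw [Complex.norm_real, Real.norm_of_nonneg (by positivity)]
  rw [h4]
  nlinarith [mul_nonneg (sq_nonneg ‖q‖) (sq_nonneg ‖q x‖)]

/-- `1 - (q² + t²)/(‖q‖² + t²)` -/
noncomputable def zz (t : ℝ) (q : H →L[ℂ] H) : H →L[ℂ] H :=
  (((‖q‖ ^ 2 + t ^ 2)⁻¹ : ℝ) : ℂ) • ((((‖q‖ ^ 2 : ℝ) : ℂ)) • (1 : H →L[ℂ] H) - q * q)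

/-- Neumann series for `(q² + t²)⁻¹` -/
noncomputable def RR (t : ℝ) (q : H →L[ℂ] H) : H →L[ℂ] H :=
  (((‖q‖ ^ 2 + t ^ 2)⁻¹ : ℝ) : ℂ) • ∑' n : ℕ, (zz t q) ^ n

theorem norm_zz {t : ℝ} (ht : 0 < t) {q : H →L[ℂ] H} (hq : IsSelfAdjoint q) : ‖zz t q‖ < 1 := by
  have hc : 0 < ‖q‖ ^ 2 + t ^ 2 := by positivity
  unfold zz
  rw [norm_smul, Complex.norm_real, Real.norm_of_nonneg (by positivity)]
  calc (‖q‖ ^ 2 + t ^ 2)⁻¹ * ‖(((‖q‖ ^ 2 : ℝ) : ℂ)) • (1 : H →L[ℂ] H) - q * q‖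
      ≤ (‖q‖ ^ 2 + t ^ 2)⁻¹ * ‖q‖ ^ 2 := by
        exact mul_le_mul_of_nonneg_left (norm_sq_sub hq) (by positivity)
    _ < 1 := by
        rw [inv_mul_lt_one₀ hc]
        have : 0 < t ^ 2 := by positivity
        linarith

omit [CompleteSpace H] in
theorem one_sub_zz {t : ℝ} (ht : 0 < t) (q : H →L[ℂ] H) :
    1 - zz t q = (((‖q‖ ^ 2 + t ^ 2)⁻¹ : ℝ) : ℂ) • (q * q + ((t ^ 2 : ℝ) : ℂ) • (1 : H →L[ℂ] H)) := by
  have hc : (((‖q‖ ^ 2 + t ^ 2 : ℝ)) : ℂ) ≠ 0 := by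
    have : 0 < ‖q‖ ^ 2 + t ^ 2 := by positivity
    exact_mod_cast this.ne'
  have h1 : (1 : H →L[ℂ] H) = (((‖q‖ ^ 2 + t ^ 2)⁻¹ : ℝ) : ℂ) •
      ((((‖q‖ ^ 2 + t ^ 2 : ℝ)) : ℂ) • (1 : H →L[ℂ] H)) := by
    rw [smul_smul, Complex.ofReal_inv, inv_mul_cancel₀ hc, one_smul]
  unfold zz
  calc (1 : H →L[ℂ] H) - (((‖q‖ ^ 2 + t ^ 2)⁻¹ : ℝ) : ℂ) • ((((‖q‖ ^ 2 : ℝ) : ℂ)) • (1 : H →L[ℂ] H) - q * q)
      = (((‖q‖ ^ 2 + t ^ 2)⁻¹ : ℝ) : ℂ) • ((((‖q‖ ^ 2 + t ^ 2 : ℝ)) : ℂ) • (1 : H →L[ℂ] H)) -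
        (((‖q‖ ^ 2 + t ^ 2)⁻¹ : ℝ) : ℂ) • ((((‖q‖ ^ 2 : ℝ) : ℂ)) • (1 : H →L[ℂ] H) - q * q) := by rw [← h1]
    _ = (((‖q‖ ^ 2 + t ^ 2)⁻¹ : ℝ) : ℂ) • ((((‖q‖ ^ 2 + t ^ 2 : ℝ)) : ℂ) • (1 : H →L[ℂ] H) -
        ((((‖q‖ ^ 2 : ℝ) : ℂ)) • (1 : H →L[ℂ] H) - q * q)) := (smul_sub _ _ _).symm
    _ = _ := by
        congr 1
        push_cast
        module

theorem mul_RR {t : ℝ} (ht : 0 < t) {q : H →L[ℂ] H} (hq : IsSelfAdjoint q) :
    (q * q + ((t ^ 2 : ℝ) : ℂ) • (1 : H →L[ℂ] H)) * RR t q = 1 := by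
  have h1 := mul_neg_geom_series (zz t q) (norm_zz ht hq)
  rw [one_sub_zz ht] at h1
  unfold RR
  rw [mul_smul_comm, ← smul_mul_assoc]
  exact h1

theorem RR_mul {t : ℝ} (ht : 0 < t) {q : H →L[ℂ] H} (hq : IsSelfAdjoint q) :
    RR t q * (q * q + ((t ^ 2 : ℝ) : ℂ) • (1 : H →L[ℂ] H)) = 1 := by
  have h1 := geom_series_mul_neg (zz t q) (norm_zz ht hq)
  rw [one_sub_zz ht] at h1
  unfold RR
  rw [smul_mul_assoc, ← mul_smul_comm]
  exact h1

/-- the resolvent `(q + i t)⁻¹` -/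
noncomputable def res (t : ℝ) (q : H →L[ℂ] H) : H →L[ℂ] H :=
  (q - (Complex.I * t) • (1 : H →L[ℂ] H)) * RR |t| q

theorem res_right {t : ℝ} (ht : t ≠ 0) {q : H →L[ℂ] H} (hq : IsSelfAdjoint q) :
    (q + (Complex.I * t) • (1 : H →L[ℂ] H)) * res t q = 1 := by
  have h1 := mul_RR (abs_pos.2 ht) hq
  unfold res
  rw [← mul_assoc]
  have h2 : (q + (Complex.I * t) • (1 : H →L[ℂ] H)) * (q - (Complex.I * t) • (1 : H →L[ℂ] H)) =
      q * q + ((|t| ^ 2 : ℝ) : ℂ) • (1 : H →L[ℂ] H) := by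
    rw [sq_abs, add_mul, mul_sub, mul_sub]
    simp only [mul_smul_comm, smul_mul_assoc, mul_one, one_mul, smul_smul]
    have h3 : (Complex.I * (t : ℂ)) * (Complex.I * t) = -(((t ^ 2 : ℝ)) : ℂ) := by
      push_cast
      linear_combination (t : ℂ) ^ 2 * Complex.I_mul_I
    rw [h3]
    module
  rw [h2, h1]

theorem RR_comm {t : ℝ} (ht : 0 < t) {q : H →L[ℂ] H} (hq : IsSelfAdjoint q) :
    RR t q * q = q * RR t q := by
  have h1 := mul_RR ht hq
  have h2 := RR_mul ht hq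
  set D := q * q + ((t ^ 2 : ℝ) : ℂ) • (1 : H →L[ℂ] H) with hD
  have h3 : D * q = q * D := by
    rw [hD, add_mul, mul_add, smul_mul_assoc, mul_smul_comm, one_mul, mul_one, mul_assoc]
  calc RR t q * q = RR t q * q * (D * RR t q) := by rw [h1, mul_one]
    _ = RR t q * (q * D) * RR t q := by simp only [mul_assoc]
    _ = RR t q * (D * q) * RR t q := by rw [h3]
    _ = (RR t q * D) * q * RR t q := by simp only [mul_assoc]
    _ = q * RR t q := by rw [h2, one_mul]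

theorem res_left {t : ℝ} (ht : t ≠ 0) {q : H →L[ℂ] H} (hq : IsSelfAdjoint q) :
    res t q * (q + (Complex.I * t) • (1 : H →L[ℂ] H)) = 1 := by
  have h1 := mul_RR (abs_pos.2 ht) hq
  have h0 := RR_comm (abs_pos.2 ht) hq
  unfold res
  have h4 : RR |t| q * (q + (Complex.I * t) • (1 : H →L[ℂ] H)) =
      (q + (Complex.I * t) • (1 : H →L[ℂ] H)) * RR |t| q := by
    rw [mul_add, add_mul, h0, mul_smul_comm, smul_mul_assoc, mul_one, one_mul]
  rw [mul_assoc, h4, ← mul_assoc]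
  have h2 : (q - (Complex.I * t) • (1 : H →L[ℂ] H)) * (q + (Complex.I * t) • (1 : H →L[ℂ] H)) =
      q * q + ((|t| ^ 2 : ℝ) : ℂ) • (1 : H →L[ℂ] H) := by
    rw [sq_abs, sub_mul, mul_add, mul_add]
    simp only [mul_smul_comm, smul_mul_assoc, mul_one, one_mul, smul_smul]
    have h3 : (Complex.I * (t : ℂ)) * (Complex.I * t) = -(((t ^ 2 : ℝ)) : ℂ) := by
      push_cast
      linear_combination (t : ℂ) ^ 2 * Complex.I_mul_I
    rw [h3]
    module
  rw [h2, h1]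

theorem norm_res {t : ℝ} (ht : t ≠ 0) {q : H →L[ℂ] H} (hq : IsSelfAdjoint q) :
    ‖res t q‖ ≤ |t|⁻¹ := by
  refine ContinuousLinearMap.opNorm_le_bound _ (by positivity) fun x => ?_
  have h1 : q (res t q x) + (Complex.I * t) • (res t q x) = x := by
    have := congrArg (fun A : H →L[ℂ] H => A x) (res_right ht hq)
    simpa using this
  have h2 := norm_res_sq hq t (res t q x)
  rw [h1] at h2
  have h3 : (|t| * ‖res t q x‖) ^ 2 ≤ ‖x‖ ^ 2 := by
    rw [mul_pow, sq_abs]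
    nlinarith [sq_nonneg ‖q (res t q x)‖]
  have h4 : |t| * ‖res t q x‖ ≤ ‖x‖ := (sq_le_sq₀ (by positivity) (norm_nonneg _)).1 h3
  rw [inv_mul_eq_div, le_div_iff₀ (abs_pos.2 ht)]
  linarith

/-- resolvent identity -/
theorem res_sub {t : ℝ} (ht : t ≠ 0) {q s : H →L[ℂ] H} (hq : IsSelfAdjoint q)
    (hs : IsSelfAdjoint s) : res t q - res t s = -(res t q * (q - s) * res t s) := by
  have h1 := res_left ht hq
  have h2 := res_right ht hs
  have h3 : q - s = (q + (Complex.I * t) • (1 : H →L[ℂ] H)) - (s + (Complex.I * t) • (1 : H →L[ℂ] H)) := by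
    abel
  rw [h3, mul_sub, sub_mul, h1, one_mul, mul_assoc, h2, mul_one]
  abel

/-- `χ(q) = t² q (t² + q²)⁻¹` -/
noncomputable def chi (t : ℝ) (q : H →L[ℂ] H) : H →L[ℂ] H :=
  ((t ^ 2 / 2 : ℝ) : ℂ) • (res t q + res (-t) q)

omit [CompleteSpace H] in
theorem res_add {t : ℝ} (q : H →L[ℂ] H) :
    res t q + res (-t) q = (2 : ℂ) • (q * RR |t| q) := by
  unfold res
  rw [abs_neg, ← add_mul]
  have : q - (Complex.I * t) • (1 : H →L[ℂ] H) + (q - (Complex.I * ((-t : ℝ) : ℂ)) • (1 : H →L[ℂ] H)) =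
      (2 : ℂ) • q := by
    push_cast
    module
  rw [this, smul_mul_assoc]

theorem inAlg_sum {L B : Type} [NormedRing B] [NormedAlgebra ℂ B] {p : L → B} (f : ℕ → B)
    (h : ∀ n, InAlg p (f n)) (N : ℕ) : InAlg p (∑ n ∈ Finset.range N, f n) := by
  induction N with
  | zero =>
    have := inAlg_smul 0 (inAlg_ev p [])
    simpa using this
  | succ N ih => rw [Finset.sum_range_succ]; exact inAlg_add ih (h N)

theorem inAlg_one {L B : Type} [NormedRing B] [NormedAlgebra ℂ B] (p : L → B) : InAlg p 1 :=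
  inAlg_ev p []

theorem inAlg_gen {L B : Type} [NormedRing B] [NormedAlgebra ℂ B] (p : L → B) (l : L) :
    InAlg p (p l) := by
  have := inAlg_ev p [l]
  simpa [ev] using this

theorem inAlg_pow {L B : Type} [NormedRing B] [NormedAlgebra ℂ B] {p : L → B} {x : B}
    (h : InAlg p x) (n : ℕ) : InAlg p (x ^ n) := by
  induction n with
  | zero => rw [pow_zero]; exact inAlg_one p
  | succ n ih => rw [pow_succ]; exact inAlg_mul ih h

theorem inAlg_sub {L B : Type} [NormedRing B] [NormedAlgebra ℂ B] {p : L → B} {x y : B}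
    (hx : InAlg p x) (hy : InAlg p y) : InAlg p (x - y) := by
  have := inAlg_add hx (inAlg_smul (-1) hy)
  rwa [neg_one_smul, ← sub_eq_add_neg] at this

theorem inAlg_res {L : Type} {p : L → (H →L[ℂ] H)} {t : ℝ} (ht : t ≠ 0) {q : H →L[ℂ] H}
    (hq : IsSelfAdjoint q) (h : InAlg p q) : InAlg p (res t q) := by
  have h0 : ∀ c : ℂ, InAlg p (c • (1 : H →L[ℂ] H)) := fun c => inAlg_smul c (inAlg_one p)
  have hz : InAlg p (zz |t| q) := inAlg_smul _ (inAlg_sub (h0 _) (inAlg_mul h h))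
  have hlt := norm_zz (abs_pos.2 ht) hq
  have hs : InAlg p (∑' n : ℕ, (zz |t| q) ^ n) := by
    refine inAlg_lim fun ε hε => ?_
    have hsum : Summable fun n : ℕ => (zz |t| q) ^ n := summable_geometric_of_norm_lt_one hlt
    have ht2 := hsum.hasSum.tendsto_sum_nat
    rw [Metric.tendsto_atTop] at ht2
    obtain ⟨N, hN⟩ := ht2 ε hε
    refine ⟨∑ n ∈ Finset.range N, (zz |t| q) ^ n, inAlg_sum _ (fun n => inAlg_pow hz n) N, ?_⟩
    have := hN N le_rfl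
    rwa [dist_comm, dist_eq_norm] at this
  unfold res
  refine inAlg_mul (inAlg_sub h (h0 _)) ?_
  unfold RR
  exact inAlg_smul _ hs

end Chi

open Chi

/-- For `t > 0` there is an assignment `q ↦ χ q` on self-adjoint operators
(`χ(q) = t² q (t² + q²)⁻¹`) with: `χ q` is a norm limit of polynomials in `q`, `‖χ q‖ ≤ t`,
`‖χ s - s‖ ≤ ‖s‖³/t²`, and `χ q - χ s` is a combination of products `a (q - s) b` (resolvents `a, b`
of norm `≤ 1/t`) which are norm limits of polynomials in `q`, `s`. -/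
theorem chi_exists (t : ℝ) (ht : 0 < t) : ∃ χ : (H →L[ℂ] H) → (H →L[ℂ] H),
    (∀ q, IsSelfAdjoint q → InAlg (fun _ : Unit => q) (χ q)) ∧
    (∀ q, IsSelfAdjoint q → ‖χ q‖ ≤ t) ∧
    (∀ s, IsSelfAdjoint s → ‖χ s - s‖ ≤ ‖s‖ ^ 3 / t ^ 2) ∧
    (∀ q s, IsSelfAdjoint q → IsSelfAdjoint s → ∃ a b a' b' : H →L[ℂ] H,
      χ q - χ s = a * (q - s) * b + a' * (q - s) * b' ∧
      ‖a‖ * ‖b‖ + ‖a'‖ * ‖b'‖ ≤ 1 ∧
      InAlg (fun x : Bool => if x then q else s) a ∧ InAlg (fun x : Bool => if x then q else s) b ∧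
      InAlg (fun x : Bool => if x then q else s) a' ∧
      InAlg (fun x : Bool => if x then q else s) b') := by
  have ht' : t ≠ 0 := ht.ne'
  have hnt : -t ≠ 0 := neg_ne_zero.2 ht'
  have habs : |t| = t := abs_of_pos ht
  have habs' : |-t| = t := by rw [abs_neg, habs]
  have hn : ‖((t ^ 2 / 2 : ℝ) : ℂ)‖ = t ^ 2 / 2 := by
    rw [Complex.norm_real, Real.norm_of_nonneg (by positivity)]
  refine ⟨chi t, ?_, ?_, ?_, ?_⟩
  · intro q hq
    have h := inAlg_gen (fun _ : Unit => q) ()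
    exact inAlg_smul _ (inAlg_add (inAlg_res ht' hq h) (inAlg_res hnt hq h))
  · intro q hq
    unfold chi
    rw [norm_smul, hn]
    have h1 := norm_res ht' hq
    have h2 := norm_res hnt hq
    rw [habs] at h1
    rw [habs'] at h2
    calc t ^ 2 / 2 * ‖res t q + res (-t) q‖ ≤ t ^ 2 / 2 * (t⁻¹ + t⁻¹) :=
          mul_le_mul_of_nonneg_left ((norm_add_le _ _).trans (add_le_add h1 h2)) (by positivity)
      _ = t := by field_simp; ring
  · intro s hs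
    have h1 := mul_RR ht hs
    have h0 := RR_comm ht hs
    -- `χ s - s = - s³ (s² + t²)⁻¹`
    have e1 : chi t s - s = -(s * s * s * RR t s) := by
      unfold chi
      rw [res_add, habs]
      have h2 : s = s * ((s * s + ((t ^ 2 : ℝ) : ℂ) • (1 : H →L[ℂ] H)) * RR t s) := by
        rw [h1, mul_one]
      have h3 : s * ((s * s + ((t ^ 2 : ℝ) : ℂ) • (1 : H →L[ℂ] H)) * RR t s) =
          s * s * s * RR t s + ((t ^ 2 : ℝ) : ℂ) • (s * RR t s) := by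
        rw [add_mul, mul_add, smul_mul_assoc, one_mul, mul_smul_comm]
        simp only [mul_assoc]
      have h4 : s = s * s * s * RR t s + ((t ^ 2 : ℝ) : ℂ) • (s * RR t s) := h2.trans h3
      have h5 : ((t ^ 2 / 2 : ℝ) : ℂ) • ((2 : ℂ) • (s * RR t s)) = ((t ^ 2 : ℝ) : ℂ) • (s * RR t s) := by
        rw [smul_smul]; congr 1; push_cast; ring
      rw [h5, sub_eq_iff_eq_add]
      calc ((t ^ 2 : ℝ) : ℂ) • (s * RR t s) =
          -(s * s * s * RR t s) + (s * s * s * RR t s + ((t ^ 2 : ℝ) : ℂ) • (s * RR t s)) := by abel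
        _ = -(s * s * s * RR t s) + s := by rw [← h4]
    have e2 : RR t s = res t s * res (-t) s := by
      -- both are inverses of `s² + t²`
      have g1 : (res t s * res (-t) s) * (s * s + ((t ^ 2 : ℝ) : ℂ) • (1 : H →L[ℂ] H)) = 1 := by
        have g2 : (s * s + ((t ^ 2 : ℝ) : ℂ) • (1 : H →L[ℂ] H)) =
            (s + (Complex.I * ((-t : ℝ) : ℂ)) • (1 : H →L[ℂ] H)) * (s + (Complex.I * t) • (1 : H →L[ℂ] H)) := by
          rw [add_mul, mul_add, mul_add]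
          simp only [mul_smul_comm, smul_mul_assoc, mul_one, one_mul, smul_smul]
          have h3 : (Complex.I * t) * (Complex.I * ((-t : ℝ) : ℂ)) = (((t ^ 2 : ℝ)) : ℂ) := by
            push_cast
            linear_combination -(t : ℂ) ^ 2 * Complex.I_mul_I
          rw [h3]
          push_cast
          module
        rw [g2, mul_assoc (res t s), ← mul_assoc (res (-t) s), res_left hnt hs, one_mul,
          res_left ht' hs]
      calc RR t s = (res t s * res (-t) s) * (s * s + ((t ^ 2 : ℝ) : ℂ) • (1 : H →L[ℂ] H)) * RR t s := by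
            rw [g1, one_mul]
        _ = res t s * res (-t) s := by rw [mul_assoc, h1, mul_one]
    have h3 := norm_res ht' hs
    have h4 := norm_res hnt hs
    rw [habs] at h3
    rw [habs'] at h4
    have h5 : ‖RR t s‖ ≤ t⁻¹ * t⁻¹ := by
      rw [e2]
      exact (norm_mul_le _ _).trans (mul_le_mul h3 h4 (norm_nonneg _) (by positivity))
    rw [e1, norm_neg]
    calc ‖s * s * s * RR t s‖ ≤ ‖s * s * s‖ * ‖RR t s‖ := norm_mul_le _ _
      _ ≤ (‖s‖ * ‖s‖ * ‖s‖) * (t⁻¹ * t⁻¹) := by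
          refine mul_le_mul ?_ h5 (norm_nonneg _) (by positivity)
          exact (norm_mul_le _ _).trans (mul_le_mul_of_nonneg_right (norm_mul_le _ _) (norm_nonneg _))
      _ = ‖s‖ ^ 3 / t ^ 2 := by field_simp
  · intro q s hq hs
    have hqi : InAlg (fun x : Bool => if x then q else s) q := by
      have := inAlg_gen (fun x : Bool => if x then q else s) true
      simpa using this
    have hsi : InAlg (fun x : Bool => if x then q else s) s := by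
      have := inAlg_gen (fun x : Bool => if x then q else s) false
      simpa using this
    refine ⟨(-((t ^ 2 / 2 : ℝ) : ℂ)) • res t q, res t s, (-((t ^ 2 / 2 : ℝ) : ℂ)) • res (-t) q, res (-t) s,
      ?_, ?_, inAlg_smul _ (inAlg_res ht' hq hqi), inAlg_res ht' hs hsi,
      inAlg_smul _ (inAlg_res hnt hq hqi), inAlg_res hnt hs hsi⟩
    · have h1 := res_sub ht' hq hs
      have h2 := res_sub hnt hq hs
      unfold chi
      rw [← smul_sub]
      have h3 : res t q + res (-t) q - (res t s + res (-t) s) =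
          (res t q - res t s) + (res (-t) q - res (-t) s) := by abel
      rw [h3, h1, h2]
      simp only [smul_mul_assoc, neg_smul, neg_mul, smul_add, smul_neg]
    · rw [norm_smul, norm_smul, norm_neg, hn]
      have h1 := norm_res ht' hq
      have h2 := norm_res hnt hq
      have h3 := norm_res ht' hs
      have h4 := norm_res hnt hs
      rw [habs] at h1 h3
      rw [habs'] at h2 h4
      have h5 : ‖res t q‖ * ‖res t s‖ ≤ t⁻¹ * t⁻¹ := mul_le_mul h1 h3 (norm_nonneg _) (by positivity)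
      have h6 : ‖res (-t) q‖ * ‖res (-t) s‖ ≤ t⁻¹ * t⁻¹ := mul_le_mul h2 h4 (norm_nonneg _) (by positivity)
      have h7 : t ^ 2 / 2 * (t⁻¹ * t⁻¹) = 1 / 2 := by field_simp
      have h8 : 0 ≤ t ^ 2 / 2 := by positivity
      nlinarith [mul_le_mul_of_nonneg_left h5 h8, mul_le_mul_of_nonneg_left h6 h8]

end Pool.Agent.H667R3.FF
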