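import Mathlib
import Pool.Agent.H667R3.FF.Defs
import Pool.Agent.H667R3.FF.A10
import Pool.Agent.H667R3.FF.A11

/-! Task A12a (table h667b_tasks, shared note 777). -/

namespace Pool.Agent.H667R3.FF

open Pool.Agent.H667R2.FG
open scoped ComplexConjugate

theorem A12a_zero {L B : Type} [NormedRing B] [NormedAlgebra ℂ B] (p : L → B) :
    InAlg p (0 : B) := fun ε hε => ⟨0, by simpa using hε⟩

theorem A12a_sum {L B : Type} [NormedRing B] [NormedAlgebra ℂ B] {p : L → B} {ι : Type}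
    (s : Finset ι) (c : ι → ℂ) (y : ι → B) (h : ∀ i ∈ s, InAlg p (y i)) :
    InAlg p (∑ i ∈ s, c i • y i) := by
  classical
  induction s using Finset.induction_on with
  | empty => simpa using A12a_zero p
  | insert a s ha ih =>
    rw [Finset.sum_insert ha]
    exact inAlg_add (inAlg_smul _ (h a (Finset.mem_insert_self a s)))
      (ih fun i hi => h i (Finset.mem_insert_of_mem hi))

theorem A12a_letter {L B : Type} [NormedRing B] [NormedAlgebra ℂ B] (p : L → B) (l : L) :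
    InAlg p (p l) := by
  have h := inAlg_ev p [l]
  rwa [ev_cons, ev_nil, mul_one] at h

theorem A12a_trans {L L' B : Type} [NormedRing B] [NormedAlgebra ℂ B] {p : L → B} {q : L' → B}
    (h : ∀ l, InAlg p (q l)) {x : B} (hx : InAlg q x) : InAlg p x := by
  refine inAlg_lim fun ε hε => ?_
  obtain ⟨R, hR⟩ := hx ε hε
  refine ⟨_, ?_, hR⟩
  unfold Finsupp.sum
  have key : ∀ w : List L', InAlg p (ev q w) := by
    intro w
    induction w with
    | nil =>
      have h1 := inAlg_ev p []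
      rw [ev_nil] at h1
      rw [ev_nil]
      exact h1
    | cons l w ih =>
      rw [ev_cons]
      exact inAlg_mul (h l) ih
  exact A12a_sum _ _ _ fun w _ => key w

set_option linter.unusedSectionVars false
set_option linter.deprecated false

section
variable {X : Type} [DecidableEq X] {H : Type} [NormedAddCommGroup H] [InnerProductSpace ℂ H]
  [CompleteSpace H]

theorem A12a_norm_uni {p : Lt X → (H →L[ℂ] H)} (hp : Good p) (x : X × Bool) :
    ‖p (some x)‖ ≤ 1 := by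
  have h1 : p (some x) * star (p (some x)) = 1 := by
    rw [hp.st]
    exact hp.uni x
  have h2 : ‖p (some x)‖ * ‖p (some x)‖ = ‖(1 : H →L[ℂ] H)‖ := by
    rw [← h1, CStarRing.norm_self_mul_star]
  have h3 : ‖(1 : H →L[ℂ] H)‖ ≤ 1 := ContinuousLinearMap.norm_id_le
  nlinarith [norm_nonneg (p (some x))]

theorem A12a_norm_ev {L B : Type} [NormedRing B] [NormedAlgebra ℂ B] (h1 : ‖(1 : B)‖ ≤ 1)
    {p : L → B} {S : ℝ} (hS : 0 ≤ S) (h : ∀ l, ‖p l‖ ≤ S) (w : List L) :
    ‖ev p w‖ ≤ S ^ w.length := by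
  induction w with
  | nil => rw [ev_nil]; simpa using h1
  | cons l w ih =>
    rw [ev_cons, List.length_cons, pow_succ, mul_comm (S ^ w.length)]
    exact (norm_mul_le _ _).trans (mul_le_mul (h l) ih (norm_nonneg _) hS)

theorem A12a_ev_diff {L B : Type} [NormedRing B] [NormedAlgebra ℂ B] (h1 : ‖(1 : B)‖ ≤ 1)
    {p p₁ : L → B} {S D : ℝ} (hS : 1 ≤ S) (hD : 0 ≤ D) (h : ∀ l, ‖p l‖ ≤ S)
    (h' : ∀ l, ‖p₁ l‖ ≤ S) (hd : ∀ l, ‖p l - p₁ l‖ ≤ D) (w : List L) :
    ‖ev p w - ev p₁ w‖ ≤ w.length * S ^ w.length * D := by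
  have hS0 : 0 ≤ S := by linarith
  induction w with
  | nil => simp [ev_nil]
  | cons l w ih =>
    rw [ev_cons, ev_cons]
    have e : p l * ev p w - p₁ l * ev p₁ w =
        p l * (ev p w - ev p₁ w) + (p l - p₁ l) * ev p₁ w := by noncomm_ring
    rw [e]
    have a1 : ‖p l * (ev p w - ev p₁ w)‖ ≤ S * (w.length * S ^ w.length * D) :=
      (norm_mul_le _ _).trans (mul_le_mul (h l) ih (norm_nonneg _) hS0)
    have a2 : ‖(p l - p₁ l) * ev p₁ w‖ ≤ D * S ^ w.length :=
      (norm_mul_le _ _).trans (mul_le_mul (hd l) (A12a_norm_ev h1 hS0 h' w) (norm_nonneg _) hD)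
    have a3 : D * S ^ w.length ≤ D * S ^ (w.length + 1) :=
      mul_le_mul_of_nonneg_left (pow_le_pow_right₀ hS (by omega)) hD
    refine (norm_add_le _ _).trans ?_
    rw [List.length_cons]
    rw [Nat.cast_add, Nat.cast_one]
    have e2 : ((w.length : ℝ) + 1) * S ^ (w.length + 1) * D =
        S * (w.length * S ^ w.length * D) + D * S ^ (w.length + 1) := by ring
    rw [e2]
    linarith

theorem A12a_vec_diff {p : Lt X → (H →L[ℂ] H)} (hp : Good p) {Ω : H}
    (ht : ∀ v w, mom Ω p (v ++ w) = mom Ω p (w ++ v)) {p₁ p₂ : Lt X → (H →L[ℂ] H)}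
    (hp₁ : ∀ l, InAlg p (p₁ l)) (hp₂ : ∀ l, InAlg p (p₂ l)) {t D : ℝ} (ht1 : 1 ≤ t) (hD : 0 ≤ D)
    (h₁ : ∀ l, ‖p₁ l‖ ≤ t) (h₂ : ∀ l, ‖p₂ l‖ ≤ t) (hd : ∀ l, ‖(p₂ l - p₁ l) Ω‖ ≤ D)
    (w : List (Lt X)) :
    ‖(ev p₂ w - ev p₁ w) Ω‖ ≤ w.length * t ^ w.length * D := by
  have ht0 : 0 ≤ t := by linarith
  induction w with
  | nil => simp [ev_nil]
  | cons l w ih =>
    rw [ev_cons, ev_cons]
    have e : p₂ l * ev p₂ w - p₁ l * ev p₁ w =
        p₂ l * (ev p₂ w - ev p₁ w) + (p₂ l - p₁ l) * ev p₁ w := by noncomm_ring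
    rw [e]
    have a1 : ‖(p₂ l * (ev p₂ w - ev p₁ w)) Ω‖ ≤ t * (w.length * t ^ w.length * D) := by
      exact (ContinuousLinearMap.le_opNorm (p₂ l) ((ev p₂ w - ev p₁ w) Ω)).trans
        (mul_le_mul (h₂ l) ih (norm_nonneg _) ht0)
    have hin : InAlg p (p₂ l - p₁ l) := by
      have h3 := inAlg_add (hp₂ l) (inAlg_smul (-1) (hp₁ l))
      rwa [neg_one_smul, ← sub_eq_add_neg] at h3
    have hin2 : InAlg p (ev p₁ w) := A12a_trans hp₁ (inAlg_ev p₁ w)
    have a2 : ‖((p₂ l - p₁ l) * ev p₁ w) Ω‖ ≤ t ^ w.length * D :=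
      (norm_mul_vec hp ht hin hin2).trans
        (mul_le_mul (A12a_norm_ev ContinuousLinearMap.norm_id_le ht0 h₁ w) (hd l)
          (norm_nonneg _) (by positivity))
    have a3 : t ^ w.length * D ≤ t ^ (w.length + 1) * D :=
      mul_le_mul_of_nonneg_right (pow_le_pow_right₀ ht1 (by omega)) hD
    refine (norm_add_le ((p₂ l * (ev p₂ w - ev p₁ w)) Ω)
      (((p₂ l - p₁ l) * ev p₁ w) Ω)).trans ?_
    rw [List.length_cons]
    rw [Nat.cast_add, Nat.cast_one]
    have e2 : ((w.length : ℝ) + 1) * t ^ (w.length + 1) * D =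
        t * (w.length * t ^ w.length * D) + t ^ (w.length + 1) * D := by ring
    rw [e2]
    linarith

/-- `evP` of a symmetric element is self-adjoint -/
theorem A12a_sa {p : Lt X → (H →L[ℂ] H)} (hp : Good p) (P : FreeGroup X →₀ ℝ)
    (hP : ∀ v, P v⁻¹ = P v) : IsSelfAdjoint (evP p P) := by
  unfold IsSelfAdjoint evP Finsupp.sum
  rw [star_sum]
  have h1 : ∀ g ∈ P.support, star (((P g : ℝ) : ℂ) • ev p (gword g)) =
      ((P g⁻¹ : ℝ) : ℂ) • ev p (gword g⁻¹) := by
    intro g _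
    rw [star_smul, star_ev hp, wstar_gword, hP]
    congr 1
    exact Complex.conj_ofReal _
  rw [Finset.sum_congr rfl h1]
  refine Finset.sum_equiv (Equiv.inv (FreeGroup X)) ?_ ?_
  · intro g
    rw [Equiv.inv_apply, Finsupp.mem_support_iff, Finsupp.mem_support_iff, hP]
  · intro g _
    rfl

theorem A12a_chi_vec {p : Lt X → (H →L[ℂ] H)} (hp : Good p) {Ω : H}
    (ht : ∀ v w, mom Ω p (v ++ w) = mom Ω p (w ++ v)) {q s d a b a' b' : H →L[ℂ] H}
    (hq : InAlg p q) (hs : InAlg p s) (hd : d = a * (q - s) * b + a' * (q - s) * b')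
    (hab : ‖a‖ * ‖b‖ + ‖a'‖ * ‖b'‖ ≤ 1)
    (hb : InAlg p b) (hb' : InAlg p b') : ‖d Ω‖ ≤ ‖(q - s) Ω‖ := by
  have hin : InAlg p (q - s) := by
    have h3 := inAlg_add hq (inAlg_smul (-1) hs)
    rwa [neg_one_smul, ← sub_eq_add_neg] at h3
  have key : ∀ a b : H →L[ℂ] H, InAlg p b →
      ‖(a * (q - s) * b) Ω‖ ≤ ‖a‖ * ‖b‖ * ‖(q - s) Ω‖ := by
    intro a b hb
    rw [mul_assoc, mul_assoc]
    exact (ContinuousLinearMap.le_opNorm a (((q - s) * b) Ω)).trans
      (mul_le_mul_of_nonneg_left (norm_mul_vec hp ht hin hb) (norm_nonneg _))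
  rw [hd]
  refine (norm_add_le ((a * (q - s) * b) Ω) ((a' * (q - s) * b') Ω)).trans
    ((add_le_add (key a b hb) (key a' b' hb')).trans ?_)
  rw [← add_mul]
  exact mul_le_of_le_one_left (norm_nonneg _) hab

end

theorem stage {X : Type} [DecidableEq X] [Fintype X] {H : Type} [NormedAddCommGroup H]
    [InnerProductSpace ℂ H] [CompleteSpace H] {Ω : H} (hΩ : ‖Ω‖ = 1)
    {p : Lt X → (H →L[ℂ] H)} (hp : Good p) (hμ : StdLaw (mom Ω p)) {x : H →L[ℂ] H}
    (hx : InAlg p x) (ε : ℝ) (hε : 0 < ε) : ∃ δ : ℝ, 0 < δ ∧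
    ∀ p' : Lt X → (H →L[ℂ] H), Good p' → StdLaw (mom Ω p') → (∀ l, InAlg p (p' l)) →
      (∀ y, ‖(p' (some (y, true)) - p (some (y, true))) Ω‖ ≤ δ) →
      (∃ P : FreeGroup X →₀ ℝ, (∀ v, P v⁻¹ = P v) ∧ ‖(evP p' P - p none) Ω‖ ≤ δ) →
      ∃ f : FreeGroup X →₀ ℂ, ‖x Ω - (f.sum fun g c => c • ev p' (gword g)) Ω‖ ≤ ε := by
  classical
  obtain ⟨R, hR⟩ := hx (ε / 4) (by linarith)
  set s := p none with hs
  have hssa : IsSelfAdjoint s := hp.st none
  -- constants
  set S : ℝ := 1 + ‖s‖ + ‖s‖ ^ 3 with hSdef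
  have hS1 : 1 ≤ S := by
    have := norm_nonneg s
    have h3 : 0 ≤ ‖s‖ ^ 3 := by positivity
    linarith
  set C : ℝ := ∑ w ∈ R.support, ‖R w‖ * (w.length * S ^ w.length) with hC
  have hC0 : 0 ≤ C := Finset.sum_nonneg fun w _ => by positivity
  set t : ℝ := 1 + ‖s‖ ^ 3 * C * 4 / ε with htdef
  have ht1 : 1 ≤ t := by
    have : 0 ≤ ‖s‖ ^ 3 * C * 4 / ε := by positivity
    linarith
  have ht0 : 0 < t := by linarith
  obtain ⟨χ, hχ1, hχ2, hχ3, hχ4⟩ := chi_exists (H := H) t ht0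
  set E : ℝ := ∑ w ∈ R.support, ‖R w‖ * (w.length * t ^ w.length) with hE
  have hE0 : 0 ≤ E := Finset.sum_nonneg fun w _ => by positivity
  refine ⟨ε / (4 * (E + 1)), by positivity, ?_⟩
  set δ : ℝ := ε / (4 * (E + 1)) with hδ
  have hδ0 : 0 ≤ δ := by positivity
  intro p' hp' hμ' hin hclose hPex
  obtain ⟨P, hPs, hPc⟩ := hPex
  set q := evP p' P with hq
  have hqsa : IsSelfAdjoint q := A12a_sa hp' P hPs
  have hq_in' : InAlg (fun z : X × Bool => p' (some z)) q := by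
    rw [hq]
    unfold evP Finsupp.sum
    refine A12a_sum _ _ _ fun g _ => ?_
    have h1 : ev p' (gword g) = ev (fun z : X × Bool => p' (some z)) g.toWord := by
      unfold ev gword
      rw [List.map_map]
      rfl
    rw [h1]
    exact inAlg_ev _ _
  have hq_in : InAlg p q := A12a_trans (fun z => hin (some z)) hq_in'
  have hs_in : InAlg p s := A12a_letter p none
  -- the two auxiliary points
  let p₁ : Lt X → (H →L[ℂ] H) := fun l => match l with
    | none => χ s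
    | some z => p (some z)
  let p₂ : Lt X → (H →L[ℂ] H) := fun l => match l with
    | none => χ q
    | some z => p' (some z)
  have hχs_in : InAlg p (χ s) := A12a_trans (fun _ => hs_in) (hχ1 s hssa)
  have hχq_in : InAlg p (χ q) := A12a_trans (fun _ => hq_in) (hχ1 q hqsa)
  have hχq_in' : InAlg (fun z : X × Bool => p' (some z)) (χ q) :=
    A12a_trans (fun _ => hq_in') (hχ1 q hqsa)
  have hp₁_in : ∀ l, InAlg p (p₁ l) := by
    rintro (_ | z)
    · exact hχs_in
    · exact A12a_letter p (some z)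
  have hp₂_in : ∀ l, InAlg p (p₂ l) := by
    rintro (_ | z)
    · exact hχq_in
    · exact hin (some z)
  have hp₂_in' : ∀ l, InAlg (fun z : X × Bool => p' (some z)) (p₂ l) := by
    rintro (_ | z)
    · exact hχq_in'
    · exact A12a_letter (fun z : X × Bool => p' (some z)) z
  -- step (i)
  have ht2 : ‖s‖ ^ 3 / t ^ 2 ≤ ‖s‖ ^ 3 := by
    rw [div_le_iff₀ (by positivity)]
    have h3 : 0 ≤ ‖s‖ ^ 3 := by positivity
    nlinarith [one_le_pow₀ (n := 2) ht1]
  have hnorm1 : ∀ l, ‖p l‖ ≤ S := by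
    rintro (_ | z)
    · show ‖s‖ ≤ S
      have h3 : 0 ≤ ‖s‖ ^ 3 := by positivity
      linarith
    · exact (A12a_norm_uni hp z).trans hS1
  have hnorm2 : ∀ l, ‖p₁ l‖ ≤ S := by
    rintro (_ | z)
    · show ‖χ s‖ ≤ S
      have h1 := hχ3 s hssa
      have h2 : ‖χ s‖ ≤ ‖χ s - s‖ + ‖s‖ := by
        have := norm_add_le (χ s - s) s
        rwa [sub_add_cancel] at this
      linarith
    · exact (A12a_norm_uni hp z).trans hS1
  have hdiff1 : ∀ l, ‖p l - p₁ l‖ ≤ ‖s‖ ^ 3 / t ^ 2 := by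
    rintro (_ | z)
    · show ‖s - χ s‖ ≤ _
      rw [norm_sub_rev]
      exact hχ3 s hssa
    · show ‖p (some z) - p (some z)‖ ≤ _
      rw [sub_self, norm_zero]
      positivity
  have hone : ‖(1 : H →L[ℂ] H)‖ ≤ 1 := ContinuousLinearMap.norm_id_le
  have hD1 : 0 ≤ ‖s‖ ^ 3 / t ^ 2 := by positivity
  have hi : ‖(R.sum fun w c => c • ev p w) - (R.sum fun w c => c • ev p₁ w)‖ ≤ ε / 4 := by
    unfold Finsupp.sum
    rw [← Finset.sum_sub_distrib]
    have h1 : ‖∑ w ∈ R.support, (R w • ev p w - R w • ev p₁ w)‖ ≤ C * (‖s‖ ^ 3 / t ^ 2) := by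
      refine (norm_sum_le _ _).trans ?_
      rw [hC, Finset.sum_mul]
      refine Finset.sum_le_sum fun w _ => ?_
      rw [← smul_sub, norm_smul, mul_assoc]
      exact mul_le_mul_of_nonneg_left (A12a_ev_diff hone hS1 hD1 hnorm1 hnorm2 hdiff1 w)
        (norm_nonneg _)
    refine h1.trans ?_
    have h2 : t ≤ t ^ 2 := by nlinarith
    have h3 : ‖s‖ ^ 3 * C * 4 / ε ≤ t ^ 2 := by linarith
    rw [div_le_iff₀ hε] at h3
    rw [mul_div_assoc', div_le_iff₀ (by positivity)]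
    linarith
  -- step (ii)
  have ht' := hμ.tr
  have hvec : ∀ l, ‖(p₂ l - p₁ l) Ω‖ ≤ δ := by
    rintro (_ | ⟨y, _ | _⟩)
    · show ‖(χ q - χ s) Ω‖ ≤ δ
      obtain ⟨a, b, a', b', e1, e2, e3, e4, e5, e6⟩ := hχ4 q s hqsa hssa
      have hbool : ∀ z : Bool, InAlg p (if z then q else s) := by
        intro z
        cases z
        · exact hs_in
        · exact hq_in
      exact (A12a_chi_vec hp ht' hq_in hs_in e1 e2 (A12a_trans hbool e4)
        (A12a_trans hbool e6)).trans hPc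
    · show ‖(p' (some (y, false)) - p (some (y, false))) Ω‖ ≤ δ
      have e1 : p' (some (y, false)) - p (some (y, false)) =
          star (p' (some (y, true)) - p (some (y, true))) := by
        rw [star_sub, hp.st, hp'.st]
        rfl
      have hin2 : InAlg p (p' (some (y, true)) - p (some (y, true))) := by
        have h3 := inAlg_add (hin (some (y, true)))
          (inAlg_smul (-1) (A12a_letter p (some (y, true))))
        rwa [neg_one_smul, ← sub_eq_add_neg] at h3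
      rw [e1, norm_star_vec hp ht' hin2]
      exact hclose y
    · exact hclose y
  have hn1 : ∀ l, ‖p₁ l‖ ≤ t := by
    rintro (_ | z)
    · exact hχ2 s hssa
    · exact (A12a_norm_uni hp z).trans ht1
  have hn2 : ∀ l, ‖p₂ l‖ ≤ t := by
    rintro (_ | z)
    · exact hχ2 q hqsa
    · exact (A12a_norm_uni hp' z).trans ht1
  have hii : ‖((R.sum fun w c => c • ev p₂ w) - (R.sum fun w c => c • ev p₁ w)) Ω‖ ≤ ε / 4 := by
    unfold Finsupp.sum
    rw [← Finset.sum_sub_distrib, ContinuousLinearMap.sum_apply]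
    have h1 : ‖∑ w ∈ R.support, (R w • ev p₂ w - R w • ev p₁ w) Ω‖ ≤ E * δ := by
      refine (norm_sum_le _ _).trans ?_
      rw [hE, Finset.sum_mul]
      refine Finset.sum_le_sum fun w _ => ?_
      rw [← smul_sub, ContinuousLinearMap.smul_apply, norm_smul, mul_assoc]
      exact mul_le_mul_of_nonneg_left
        (A12a_vec_diff hp ht' hp₁_in hp₂_in ht1 hδ0 hn1 hn2 hvec w) (norm_nonneg _)
    refine h1.trans ?_
    rw [hδ, mul_div_assoc', div_le_div_iff₀ (by positivity) (by norm_num)]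
    nlinarith
  -- step (iii)
  have hy₂ : InAlg (fun z : X × Bool => p' (some z)) (R.sum fun w c => c • ev p₂ w) := by
    unfold Finsupp.sum
    exact A12a_sum _ _ _ fun w _ => A12a_trans hp₂_in' (inAlg_ev p₂ w)
  obtain ⟨R', hR'⟩ := hy₂ (ε / 4) (by linarith)
  refine ⟨R'.mapDomain FreeGroup.mk, ?_⟩
  have e1 : ((R'.mapDomain FreeGroup.mk).sum fun g c => c • ev p' (gword g)) =
      R'.sum fun v c => c • ev (fun z : X × Bool => p' (some z)) v := by
    rw [Finsupp.sum_mapDomain_index (by intro b; rw [zero_smul]) (by intro b c d; rw [add_smul])]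
    refine Finsupp.sum_congr fun v _ => ?_
    rw [← ev_map_some hp']
    unfold ev
    rw [List.map_map]
    rfl
  rw [e1]
  set y₂ := R.sum fun w c => c • ev p₂ w with hy2def
  set y₁ := R.sum fun w c => c • ev p₁ w with hy1def
  set y := R.sum fun w c => c • ev p w with hydef
  set z := R'.sum fun v c => c • ev (fun z : X × Bool => p' (some z)) v with hzdef
  have e2 : x Ω - z Ω = (x - y) Ω + (y - y₁) Ω - (y₂ - y₁) Ω + (y₂ - z) Ω := by
    simp only [ContinuousLinearMap.sub_apply]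
    abel
  rw [e2]
  have b1 : ‖(x - y) Ω‖ ≤ ε / 4 := by
    have h := ContinuousLinearMap.le_opNorm (x - y) Ω
    rw [hΩ, mul_one] at h
    exact h.trans hR.le
  have b2 : ‖(y - y₁) Ω‖ ≤ ε / 4 := by
    have h := ContinuousLinearMap.le_opNorm (y - y₁) Ω
    rw [hΩ, mul_one] at h
    exact h.trans hi
  have b3 : ‖(y₂ - z) Ω‖ ≤ ε / 4 := by
    have h := ContinuousLinearMap.le_opNorm (y₂ - z) Ω
    rw [hΩ, mul_one] at h
    exact h.trans hR'.le
  have c1 := norm_add_le ((x - y) Ω + (y - y₁) Ω - (y₂ - y₁) Ω) ((y₂ - z) Ω)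
  have c2 := norm_sub_le ((x - y) Ω + (y - y₁) Ω) ((y₂ - y₁) Ω)
  have c3 := norm_add_le ((x - y) Ω) ((y - y₁) Ω)
  linarith

end Pool.Agent.H667R3.FF
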