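import Mathlib
import Pool.Agent.H667R3.FF.Defs
import Pool.Agent.H667R3.FF.A10

/-! Task A12b (table h667b_tasks, shared note 777). Stability and strong limits. -/

namespace Pool.Agent.H667R3.FF

open Pool.Agent.H667R2.FG
open scoped ComplexConjugate

section A12b
variable {X : Type} {H : Type} [NormedAddCommGroup H] [InnerProductSpace ℂ H] [CompleteSpace H]

theorem A12b_star {p : Lt X → (H →L[ℂ] H)} (hp : Good p) (x : X × Bool) :
    star (p (some x)) = p (some (x.1, !x.2)) := by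
  rw [hp.st]
  rfl

theorem A12b_uni1 {p : Lt X → (H →L[ℂ] H)} (hp : Good p) (x : X × Bool) :
    p (some x) * star (p (some x)) = 1 := by
  rw [A12b_star hp, hp.uni]

theorem A12b_uni2 {p : Lt X → (H →L[ℂ] H)} (hp : Good p) (x : X × Bool) :
    star (p (some x)) * p (some x) = 1 := by
  rw [A12b_star hp]
  have := hp.uni (x.1, !x.2)
  simpa using this

theorem A12b_norm_apply {v : H →L[ℂ] H} (hv : star v * v = 1) (ξ : H) : ‖v ξ‖ = ‖ξ‖ := by
  have h1 : inner ℂ (v ξ) (v ξ) = inner ℂ ξ ξ := by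
    have h0 : inner ℂ ((star v * v) ξ) ξ = inner ℂ (v ξ) (v ξ) :=
      ContinuousLinearMap.adjoint_inner_left v ξ (v ξ)
    rw [← h0, hv]
    rfl
  rw [inner_self_eq_norm_sq_to_K, inner_self_eq_norm_sq_to_K] at h1
  have h2 : (‖v ξ‖ : ℂ) ^ 2 = (‖ξ‖ : ℂ) ^ 2 := h1
  have h3 : ‖v ξ‖ ^ 2 = ‖ξ‖ ^ 2 := by exact_mod_cast h2
  exact (sq_eq_sq₀ (norm_nonneg _) (norm_nonneg _)).1 h3

theorem A12b_norm_le {v : H →L[ℂ] H} (hv : star v * v = 1) : ‖v‖ ≤ 1 := by
  refine ContinuousLinearMap.opNorm_le_bound _ zero_le_one fun ξ => ?_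
  rw [A12b_norm_apply hv, one_mul]

theorem A12b_norm_ev {p : Lt X → (H →L[ℂ] H)} (hp : Good p) (w : List (X × Bool)) :
    ‖ev p (w.map some)‖ ≤ 1 := by
  induction w with
  | nil =>
    show ‖(1 : H →L[ℂ] H)‖ ≤ 1
    exact ContinuousLinearMap.norm_id_le
  | cons x w ih =>
    have h1 : ev p ((x :: w).map some) = p (some x) * ev p (w.map some) := by
      simp [ev]
    rw [h1]
    calc ‖p (some x) * ev p (w.map some)‖ ≤ ‖p (some x)‖ * ‖ev p (w.map some)‖ := norm_mul_le _ _
      _ ≤ 1 * 1 := mul_le_mul (A12b_norm_le (A12b_uni2 hp x)) ih (norm_nonneg _) zero_le_one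
      _ = 1 := one_mul 1

theorem A12b_inAlg_sub {B : Type} [NormedRing B] [NormedAlgebra ℂ B] {L : Type} {p : L → B}
    {x y : B} (hx : InAlg p x) (hy : InAlg p y) : InAlg p (x - y) := by
  have h1 := inAlg_add hx (inAlg_smul (-1) hy)
  simpa [sub_eq_add_neg] using h1

theorem A12b_inAlg_letter {B : Type} [NormedRing B] [NormedAlgebra ℂ B] {L : Type} (p : L → B)
    (l : L) : InAlg p (p l) := by
  have := inAlg_ev p [l]
  simpa [ev] using this

theorem A12b_word {Ω : H} {p p' : Lt X → (H →L[ℂ] H)} (hp : Good p) (hμ : StdLaw (mom Ω p))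
    (hp' : Good p') (hin : ∀ l, InAlg p (p' l)) {δ : ℝ}
    (hδ : ∀ y, ‖(p' (some (y, true)) - p (some (y, true))) Ω‖ ≤ δ) (w : List (X × Bool)) :
    ‖(ev p' (w.map some) - ev p (w.map some)) Ω‖ ≤ w.length * δ := by
  induction w with
  | nil => simp [ev]
  | cons x w ih =>
    have h1 : ev p ((x :: w).map some) = p (some x) * ev p (w.map some) := by simp [ev]
    have h2 : ev p' ((x :: w).map some) = p' (some x) * ev p' (w.map some) := by simp [ev]
    have hlet : ‖(p' (some x) - p (some x)) Ω‖ ≤ δ := by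
      obtain ⟨y, b⟩ := x
      cases b with
      | true => exact hδ y
      | false =>
        have h3 : p' (some (y, false)) - p (some (y, false))
            = star (p' (some (y, true)) - p (some (y, true))) := by
          rw [star_sub, A12b_star hp, A12b_star hp']
          rfl
        rw [h3, norm_star_vec hp hμ.tr
          (A12b_inAlg_sub (hin _) (A12b_inAlg_letter p _))]
        exact hδ y
    have h3 : (ev p' ((x :: w).map some) - ev p ((x :: w).map some)) Ω
        = p' (some x) ((ev p' (w.map some) - ev p (w.map some)) Ω)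
          + ((p' (some x) - p (some x)) * ev p (w.map some)) Ω := by
      rw [h1, h2]
      have e1 : (p' (some x) * ev p' (w.map some) - p (some x) * ev p (w.map some)) Ω
          = p' (some x) (ev p' (w.map some) Ω) - p (some x) (ev p (w.map some) Ω) := rfl
      have e2 : (ev p' (w.map some) - ev p (w.map some)) Ω
          = ev p' (w.map some) Ω - ev p (w.map some) Ω := rfl
      have e3 : ((p' (some x) - p (some x)) * ev p (w.map some)) Ω
          = p' (some x) (ev p (w.map some) Ω) - p (some x) (ev p (w.map some) Ω) := rfl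
      rw [e1, e2, e3, map_sub]
      abel
    rw [h3]
    refine (norm_add_le _ _).trans ?_
    rw [A12b_norm_apply (A12b_uni2 hp' x)]
    have h4 := norm_mul_vec hp hμ.tr (A12b_inAlg_sub (hin (some x)) (A12b_inAlg_letter p (some x)))
      (inAlg_ev p (w.map some))
    have h5 : ‖ev p (w.map some)‖ * ‖(p' (some x) - p (some x)) Ω‖ ≤ 1 * δ :=
      mul_le_mul (A12b_norm_ev hp w) hlet (norm_nonneg _) zero_le_one
    rw [List.length_cons]
    push_cast
    have h6 := add_le_add ih ((h4.trans h5).trans_eq (one_mul δ))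
    refine h6.trans_eq ?_
    ring

/-- pointwise convergence -/
theorem A12b_conv {Ω : H} {p : Lt X → (H →L[ℂ] H)} (hp : Good p) (hμ : StdLaw (mom Ω p))
    (hd : ∀ (ξ : H) (ε : ℝ), 0 < ε → ∃ R : List (Lt X) →₀ ℂ,
      ‖ξ - (R.sum fun w c => c • ev p w) Ω‖ < ε)
    (v : ℕ → (H →L[ℂ] H)) (hv : ∀ n, InAlg p (v n)) (hv2 : ∀ n, star (v n) * v n = 1)
    (hc : ∀ n, ‖(v (n + 1) - v n) Ω‖ ≤ (1 / 2) ^ n) (ξ : H) :
    ∃ η, Filter.Tendsto (fun n => v n ξ) Filter.atTop (nhds η) := by
  apply cauchySeq_tendsto_of_complete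
  rw [Metric.cauchySeq_iff]
  intro ε hε
  obtain ⟨R, hR⟩ := hd ξ (ε / 3) (by linarith)
  set y := R.sum fun w c => c • ev p w with hy
  have hyA : InAlg p y := fun ε hε => ⟨R, by rw [hy, sub_self, norm_zero]; exact hε⟩
  have h1 : CauchySeq fun n => v n (y Ω) := by
    apply cauchySeq_of_le_geometric (1 / 2) ‖y‖ (by norm_num)
    intro n
    rw [dist_comm, dist_eq_norm]
    have h2 : v (n + 1) (y Ω) - v n (y Ω) = ((v (n + 1) - v n) * y) Ω := by
      simp [ContinuousLinearMap.mul_apply']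
    rw [h2]
    refine (norm_mul_vec hp hμ.tr (A12b_inAlg_sub (hv _) (hv _)) hyA).trans ?_
    exact mul_le_mul_of_nonneg_left (hc n) (norm_nonneg _)
  rw [Metric.cauchySeq_iff] at h1
  obtain ⟨N, hN⟩ := h1 (ε / 3) (by linarith)
  refine ⟨N, fun m hm n hn => ?_⟩
  have h2 := hN m hm n hn
  have h3 : ∀ k, dist (v k ξ) (v k (y Ω)) < ε / 3 := by
    intro k
    rw [dist_eq_norm, ← map_sub, A12b_norm_apply (hv2 k)]
    exact hR
  calc dist (v m ξ) (v n ξ) ≤ dist (v m ξ) (v m (y Ω)) + dist (v m (y Ω)) (v n (y Ω))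
        + dist (v n (y Ω)) (v n ξ) := dist_triangle4 _ _ _ _
    _ < ε / 3 + ε / 3 + ε / 3 := by
        have h4 := h3 n
        rw [dist_comm] at h4
        exact add_lt_add (add_lt_add (h3 m) h2) h4
    _ = ε := by ring

end A12b

/-- stability of group polynomials under small changes of the unitaries -/
theorem stab {X : Type} [DecidableEq X] [Fintype X] {H : Type} [NormedAddCommGroup H]
    [InnerProductSpace ℂ H] [CompleteSpace H] {Ω : H} (f : FreeGroup X →₀ ℂ) (ε : ℝ)
    (hε : 0 < ε) : ∃ δ : ℝ, 0 < δ ∧ ∀ p p' : Lt X → (H →L[ℂ] H), Good p → StdLaw (mom Ω p) →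
      Good p' → StdLaw (mom Ω p') → (∀ l, InAlg p (p' l)) →
      (∀ y, ‖(p' (some (y, true)) - p (some (y, true))) Ω‖ ≤ δ) →
      ‖(f.sum fun g c => c • ev p' (gword g)) Ω - (f.sum fun g c => c • ev p (gword g)) Ω‖ ≤ ε := by
  set M : ℝ := ∑ g ∈ f.support, ‖f g‖ * g.toWord.length with hM
  have hM0 : 0 ≤ M := Finset.sum_nonneg fun g _ => by positivity
  refine ⟨ε / (1 + M), by positivity, ?_⟩
  intro p p' hp hμ hp' _ hin hδ
  have h1 : (f.sum fun g c => c • ev p' (gword g)) Ω - (f.sum fun g c => c • ev p (gword g)) Ω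
      = ∑ g ∈ f.support, f g • (ev p' (gword g) - ev p (gword g)) Ω := by
    unfold Finsupp.sum
    rw [← sub_apply, ← Finset.sum_sub_distrib]
    rw [sum_apply]
    refine Finset.sum_congr rfl fun g _ => ?_
    rw [← smul_sub, smul_apply]
  rw [h1]
  refine (norm_sum_le _ _).trans ?_
  calc ∑ g ∈ f.support, ‖f g • (ev p' (gword g) - ev p (gword g)) Ω‖
      ≤ ∑ g ∈ f.support, ‖f g‖ * g.toWord.length * (ε / (1 + M)) := by
        refine Finset.sum_le_sum fun g _ => ?_
        rw [norm_smul, mul_assoc]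
        exact mul_le_mul_of_nonneg_left (A12b_word hp hμ hp' hin hδ g.toWord) (norm_nonneg _)
    _ = M * (ε / (1 + M)) := by rw [← Finset.sum_mul]
    _ ≤ ε := by
        rw [mul_div_assoc', div_le_iff₀ (by linarith)]
        nlinarith

/-- strong limits of unitaries -/
theorem strong_limit {X : Type} {H : Type} [NormedAddCommGroup H]
    [InnerProductSpace ℂ H] [CompleteSpace H] {Ω : H}
    {p : Lt X → (H →L[ℂ] H)} (hp : Good p) (hμ : StdLaw (mom Ω p))
    (hd : ∀ (ξ : H) (ε : ℝ), 0 < ε → ∃ R : List (Lt X) →₀ ℂ,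
      ‖ξ - (R.sum fun w c => c • ev p w) Ω‖ < ε)
    (u : ℕ → (H →L[ℂ] H)) (hu : ∀ n, InAlg p (u n)) (hu1 : ∀ n, u n * star (u n) = 1)
    (hu2 : ∀ n, star (u n) * u n = 1) (hc : ∀ n, ‖(u (n + 1) - u n) Ω‖ ≤ (1 / 2) ^ n) :
    ∃ U : unitary (H →L[ℂ] H), (∀ ξ, Filter.Tendsto (fun n => u n ξ) Filter.atTop
      (nhds ((U : H →L[ℂ] H) ξ))) ∧ (∀ ξ, Filter.Tendsto (fun n => star (u n) ξ) Filter.atTop
      (nhds (star (U : H →L[ℂ] H) ξ))) := by
  choose F hF using A12b_conv hp hμ hd u hu hu2 hc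
  have hc' : ∀ n, ‖(star (u (n + 1)) - star (u n)) Ω‖ ≤ (1 / 2) ^ n := by
    intro n
    rw [← star_sub, norm_star_vec hp hμ.tr (A12b_inAlg_sub (hu _) (hu _))]
    exact hc n
  choose G hG using A12b_conv hp hμ hd (fun n => star (u n)) (fun n => inAlg_star hp (hu n))
    (fun n => by rw [star_star]; exact hu1 n) hc'
  set V : H →L[ℂ] H := continuousLinearMapOfTendsto u (f := F) (by
    rw [tendsto_pi_nhds]; exact hF) with hV
  have hVF : ∀ ξ, V ξ = F ξ := fun ξ => rfl
  set W : H →L[ℂ] H := continuousLinearMapOfTendsto (fun n => star (u n)) (f := G) (by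
    rw [tendsto_pi_nhds]; exact hG) with hW
  have hWG : ∀ ξ, W ξ = G ξ := fun ξ => rfl
  have hin : ∀ (v : H →L[ℂ] H) (ξ η : H), inner ℂ ((star v) ξ) η = inner ℂ ξ (v η) := by
    intro v ξ η
    exact ContinuousLinearMap.adjoint_inner_left v η ξ
  -- W is the adjoint of V
  have hadj : star V = W := by
    have h1 : W = ContinuousLinearMap.adjoint V := by
      rw [ContinuousLinearMap.eq_adjoint_iff]
      intro ξ η
      have h2 : Filter.Tendsto (fun n => inner ℂ ((star (u n)) ξ) η) Filter.atTop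
          (nhds (inner ℂ (W ξ) η)) := by
        rw [hWG]
        exact (hG ξ).inner tendsto_const_nhds
      have h3 : Filter.Tendsto (fun n => inner ℂ ((star (u n)) ξ) η) Filter.atTop
          (nhds (inner ℂ ξ (V η))) := by
        simp only [hin]
        rw [hVF]
        exact tendsto_const_nhds.inner (hF η)
      exact tendsto_nhds_unique h2 h3
    rw [h1]
    rfl
  have key : ∀ (v : ℕ → (H →L[ℂ] H)) (Z : H →L[ℂ] H), (∀ n, star (v n) * v n = 1) →
      (∀ ξ, Filter.Tendsto (fun n => v n ξ) Filter.atTop (nhds (Z ξ))) → star Z * Z = 1 := by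
    intro v Z hv hZ
    ext ξ
    refine ext_inner_right ℂ fun η => ?_
    have h1 : inner ℂ ((star Z * Z) ξ) η = inner ℂ (Z ξ) (Z η) := hin Z (Z ξ) η
    rw [h1]
    have h2 : Filter.Tendsto (fun n => inner ℂ (v n ξ) (v n η)) Filter.atTop
        (nhds (inner ℂ (Z ξ) (Z η))) := (hZ ξ).inner (hZ η)
    have h3 : ∀ n, inner ℂ (v n ξ) (v n η) = inner ℂ ((1 : H →L[ℂ] H) ξ) η := by
      intro n
      rw [← hin (v n) (v n ξ) η, ← hv n]
      rfl
    simp only [h3] at h2
    exact (tendsto_nhds_unique h2 tendsto_const_nhds)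
  have hU1 : star V * V = 1 := key u V hu2 hF
  have hU2 : V * star V = 1 := by
    have h1 := key (fun n => star (u n)) W (fun n => by rw [star_star]; exact hu1 n) hG
    rw [← hadj, star_star] at h1
    exact h1
  refine ⟨⟨V, Unitary.mem_iff.2 ⟨hU1, hU2⟩⟩, fun ξ => ?_, fun ξ => ?_⟩
  · exact hF ξ
  · show Filter.Tendsto (fun n => star (u n) ξ) Filter.atTop (nhds ((star V) ξ))
    rw [hadj]
    exact hG ξ

end Pool.Agent.H667R3.FF
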