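import Mathlib
import Pool.Agent.H667R3.FF.Defs
import Pool.Agent.H667R3.FF.A12a
import Pool.Agent.H667R3.FF.A12b

/-! Task A13 (table h667b_tasks, shared note 777).  -/

namespace Pool.Agent.H667R3.FF

open Pool.Agent.H667R2.FG
open scoped ComplexConjugate

theorem A13_min {ι : Type*} (l : List ι) (P : ι → ℝ → Prop)
    (h : ∀ i ∈ l, ∃ δ : ℝ, 0 < δ ∧ ∀ δ' : ℝ, 0 < δ' → δ' ≤ δ → P i δ') :
    ∃ δ : ℝ, 0 < δ ∧ ∀ i ∈ l, ∀ δ' : ℝ, 0 < δ' → δ' ≤ δ → P i δ' := by
  induction l with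
  | nil => exact ⟨1, one_pos, by simp⟩
  | cons a l ih =>
    obtain ⟨δ₁, h₁, H₁⟩ := h a (by simp)
    obtain ⟨δ₂, h₂, H₂⟩ := ih (fun i hi => h i (by simp [hi]))
    refine ⟨min δ₁ δ₂, lt_min h₁ h₂, ?_⟩
    intro i hi δ' hδ' hle
    rcases List.mem_cons.1 hi with rfl | hi
    · exact H₁ δ' hδ' (hle.trans (min_le_left _ _))
    · exact H₂ i hi δ' hδ' (hle.trans (min_le_right _ _))

section
variable {X : Type} [DecidableEq X] {H : Type} [NormedAddCommGroup H]
    [InnerProductSpace ℂ H] [CompleteSpace H]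

/-- evaluation of a group polynomial at a point -/
noncomputable def A13pe (p : Lt X → (H →L[ℂ] H)) (f : FreeGroup X →₀ ℂ) : H →L[ℂ] H :=
  f.sum fun g c => c • ev p (gword g)

/-- the state of the recursion -/
structure A13St (Ω : H) (p₀ : Lt X → (H →L[ℂ] H)) where
  p : Lt X → (H →L[ℂ] H)
  fs : List (FreeGroup X →₀ ℂ)
  good : Good p
  law : StdLaw (mom Ω p)
  a : ∀ l, InAlg p₀ (p l)
  b : ∀ l, InAlg p (p₀ l)

theorem A13_next [Fintype X] {Ω : H} (hΩ : ‖Ω‖ = 1)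
    {p₀ : Lt X → (H →L[ℂ] H)}
    (hstep : ∀ p : Lt X → (H →L[ℂ] H), Good p → StdLaw (mom Ω p) → ∀ ε : ℝ, 0 < ε →
      ∃ p' : Lt X → (H →L[ℂ] H), Good p' ∧ StdLaw (mom Ω p') ∧
      (∀ l, InAlg p (p' l)) ∧ (∀ l, InAlg p' (p l)) ∧
      (∀ x, ‖(p' (some (x, true)) - p (some (x, true))) Ω‖ ≤ ε) ∧
      ∃ P : FreeGroup X →₀ ℝ, (∀ v, P v⁻¹ = P v) ∧ ‖(evP p' P - p none) Ω‖ ≤ ε)
    (W : ℕ → List (Lt X)) (n : ℕ) (s : A13St Ω p₀) :
    ∃ s' : A13St Ω p₀, (∀ f ∈ s.fs, f ∈ s'.fs) ∧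
      (∀ f ∈ s.fs, ‖A13pe s'.p f Ω - A13pe s.p f Ω‖ ≤ (1 / 2) ^ (n + 1)) ∧
      (∀ x, ‖(s'.p (some (x, true)) - s.p (some (x, true))) Ω‖ ≤ (1 / 2) ^ n) ∧
      ∀ j < n + 1, ∃ f ∈ s'.fs, ‖ev p₀ (W j) Ω - A13pe s'.p f Ω‖ ≤ (1 / 2) ^ n := by
  have hn : (0 : ℝ) < (1 / 2) ^ n := by positivity
  have hn1 : (0 : ℝ) < (1 / 2) ^ (n + 1) := by positivity
  obtain ⟨δ₁, hδ₁, H₁⟩ := A13_min s.fs (fun f δ' => ∀ p' : Lt X → (H →L[ℂ] H), Good p' →
    StdLaw (mom Ω p') → (∀ l, InAlg s.p (p' l)) →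
    (∀ y, ‖(p' (some (y, true)) - s.p (some (y, true))) Ω‖ ≤ δ') →
    ‖A13pe p' f Ω - A13pe s.p f Ω‖ ≤ (1 / 2) ^ (n + 1)) (by
      intro f _
      obtain ⟨δ, hδ, h⟩ := stab (Ω := Ω) f _ hn1
      refine ⟨δ, hδ, ?_⟩
      intro δ' _ hle p' g1 g2 g3 g4
      exact h s.p p' s.good s.law g1 g2 g3 (fun y => (g4 y).trans hle))
  obtain ⟨δ₂, hδ₂, H₂⟩ := A13_min (List.range (n + 1)) (fun j δ' =>
    ∀ p' : Lt X → (H →L[ℂ] H), Good p' → StdLaw (mom Ω p') → (∀ l, InAlg s.p (p' l)) →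
    (∀ y, ‖(p' (some (y, true)) - s.p (some (y, true))) Ω‖ ≤ δ') →
    (∃ P : FreeGroup X →₀ ℝ, (∀ v, P v⁻¹ = P v) ∧ ‖(evP p' P - s.p none) Ω‖ ≤ δ') →
    ∃ f : FreeGroup X →₀ ℂ, ‖ev p₀ (W j) Ω - A13pe p' f Ω‖ ≤ (1 / 2) ^ n) (by
      intro j _
      obtain ⟨δ, hδ, h⟩ := stage hΩ s.good s.law (inAlg_trans s.b (inAlg_ev p₀ (W j))) _ hn
      refine ⟨δ, hδ, ?_⟩
      intro δ' _ hle p' g1 g2 g3 g4 g5
      obtain ⟨P, hP, hP2⟩ := g5
      exact h p' g1 g2 g3 (fun y => (g4 y).trans hle) ⟨P, hP, hP2.trans hle⟩)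
  set δ := min (min δ₁ δ₂) ((1 / 2) ^ n) with hδdef
  have hδ : 0 < δ := lt_min (lt_min hδ₁ hδ₂) hn
  have hle1 : δ ≤ δ₁ := (min_le_left _ _).trans (min_le_left _ _)
  have hle2 : δ ≤ δ₂ := (min_le_left _ _).trans (min_le_right _ _)
  have hle3 : δ ≤ (1 / 2) ^ n := min_le_right _ _
  obtain ⟨p', k1, k2, k3, k4, k5, k6⟩ := hstep s.p s.good s.law δ hδ
  have hf : ∀ j, ∃ f : FreeGroup X →₀ ℂ, j < n + 1 →
      ‖ev p₀ (W j) Ω - A13pe p' f Ω‖ ≤ (1 / 2) ^ n := by
    intro j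
    by_cases hj : j < n + 1
    · obtain ⟨f, hf⟩ := H₂ j (List.mem_range.2 hj) δ hδ hle2 p' k1 k2 k3 k5 k6
      exact ⟨f, fun _ => hf⟩
    · exact ⟨0, fun h => absurd h hj⟩
  choose F hF using hf
  refine ⟨⟨p', s.fs ++ (List.range (n + 1)).map F, k1, k2, fun l => inAlg_trans s.a (k3 l),
    fun l => inAlg_trans k4 (s.b l)⟩, ?_, ?_, ?_, ?_⟩
  · intro f hf
    exact List.mem_append.2 (Or.inl hf)
  · intro f hf
    exact H₁ f hf δ hδ hle1 p' k1 k2 k3 k5
  · intro x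
    exact (k5 x).trans hle3
  · intro j hj
    exact ⟨F j, List.mem_append.2 (Or.inr (List.mem_map.2 ⟨j, List.mem_range.2 hj, rfl⟩)),
      hF j hj⟩

/-- an element commuting with the point commutes with its closed algebra -/
theorem A13_comm {p₀ : Lt X → (H →L[ℂ] H)} {T : H →L[ℂ] H} (hT : ∀ l, T * p₀ l = p₀ l * T)
    {x : H →L[ℂ] H} (hx : InAlg p₀ x) : T * x = x * T := by
  have h1 : ∀ w : List (Lt X), T * ev p₀ w = ev p₀ w * T := by
    intro w
    induction w with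
    | nil => simp [ev]
    | cons l w ih =>
      have : ev p₀ (l :: w) = p₀ l * ev p₀ w := by simp [ev]
      rw [this, ← mul_assoc, hT, mul_assoc, ih, mul_assoc]
  have h2 : ∀ R : List (Lt X) →₀ ℂ, T * (R.sum fun w c => c • ev p₀ w) =
      (R.sum fun w c => c • ev p₀ w) * T := by
    intro R
    rw [Finsupp.sum, Finset.mul_sum, Finset.sum_mul]
    refine Finset.sum_congr rfl fun w _ => ?_
    rw [mul_smul_comm, smul_mul_assoc, h1]
  by_contra hne
  have hpos : 0 < ‖T * x - x * T‖ := norm_pos_iff.2 (sub_ne_zero.2 hne)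
  obtain ⟨R, hR⟩ := hx (‖T * x - x * T‖ / (2 * (‖T‖ + 1))) (by positivity)
  have h3 : T * x - x * T = T * (x - R.sum fun w c => c • ev p₀ w) -
      (x - R.sum fun w c => c • ev p₀ w) * T := by
    rw [mul_sub, sub_mul, h2]
    abel
  have h4 : ‖T * x - x * T‖ ≤ 2 * ‖T‖ * ‖x - R.sum fun w c => c • ev p₀ w‖ := by
    rw [h3]
    refine (norm_sub_le _ _).trans ?_
    have a1 := norm_mul_le T (x - R.sum fun w c => c • ev p₀ w)
    have a2 := norm_mul_le (x - R.sum fun w c => c • ev p₀ w) T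
    linarith [mul_comm ‖T‖ ‖x - R.sum fun w c => c • ev p₀ w‖]
  have h5 : 2 * ‖T‖ * ‖x - R.sum fun w c => c • ev p₀ w‖ ≤
      2 * ‖T‖ * (‖T * x - x * T‖ / (2 * (‖T‖ + 1))) :=
    mul_le_mul_of_nonneg_left hR.le (by positivity)
  have h6 : 2 * ‖T‖ * (‖T * x - x * T‖ / (2 * (‖T‖ + 1))) < ‖T * x - x * T‖ := by
    have : 2 * ‖T‖ * (‖T * x - x * T‖ / (2 * (‖T‖ + 1))) =
        ‖T * x - x * T‖ * (‖T‖ / (‖T‖ + 1)) := by
      field_simp
    rw [this]
    have h7 : ‖T‖ / (‖T‖ + 1) < 1 := by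
      rw [div_lt_one (by positivity)]
      linarith
    nlinarith
  linarith

theorem A13_norm_le {u : H →L[ℂ] H} (h : star u * u = 1) (ξ : H) : ‖u ξ‖ = ‖ξ‖ := by
  have h1 : inner ℂ (u ξ) (u ξ) = inner ℂ ξ ξ := by
    have : inner ℂ ((star u) (u ξ)) ξ = inner ℂ (u ξ) (u ξ) := by
      rw [ContinuousLinearMap.star_eq_adjoint, ContinuousLinearMap.adjoint_inner_left]
    rw [← this]
    have h2 : (star u) (u ξ) = (star u * u) ξ := rfl
    rw [h2, h]
    rfl
  rw [@norm_eq_sqrt_re_inner ℂ, @norm_eq_sqrt_re_inner ℂ, h1]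

/-- composition of strongly convergent sequences of isometries -/
theorem A13_tend {u : ℕ → (H →L[ℂ] H)} (hu : ∀ n, star (u n) * u n = 1) {U : H →L[ℂ] H}
    (h : ∀ ξ, Filter.Tendsto (fun n => u n ξ) Filter.atTop (nhds (U ξ)))
    {y : ℕ → H} {z : H} (hy : Filter.Tendsto y Filter.atTop (nhds z)) :
    Filter.Tendsto (fun n => u n (y n)) Filter.atTop (nhds (U z)) := by
  have h1 : (fun n => u n (y n)) = fun n => u n z + u n (y n - z) := by
    funext n
    rw [map_sub]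
    abel
  rw [h1]
  have h2 : Filter.Tendsto (fun n => u n (y n - z)) Filter.atTop (nhds 0) := by
    rw [tendsto_zero_iff_norm_tendsto_zero]
    have : (fun n => ‖u n (y n - z)‖) = fun n => ‖y n - z‖ := by
      funext n
      exact A13_norm_le (hu n) _
    rw [this]
    exact tendsto_iff_norm_sub_tendsto_zero.1 hy
  simpa using (h z).add h2

end

theorem intertwine {X : Type} [DecidableEq X] [Fintype X] {H : Type} [NormedAddCommGroup H]
    [InnerProductSpace ℂ H] [CompleteSpace H] {Ω : H} (hΩ : ‖Ω‖ = 1)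
    {p₀ : Lt X → (H →L[ℂ] H)} (hp : Good p₀) (hμ : StdLaw (mom Ω p₀))
    (hd : ∀ (ξ : H) (ε : ℝ), 0 < ε → ∃ R : List (Lt X) →₀ ℂ,
      ‖ξ - (R.sum fun w c => c • ev p₀ w) Ω‖ < ε)
    (hstep : ∀ p : Lt X → (H →L[ℂ] H), Good p → StdLaw (mom Ω p) → ∀ ε : ℝ, 0 < ε →
      ∃ p' : Lt X → (H →L[ℂ] H), Good p' ∧ StdLaw (mom Ω p') ∧
      (∀ l, InAlg p (p' l)) ∧ (∀ l, InAlg p' (p l)) ∧
      (∀ x, ‖(p' (some (x, true)) - p (some (x, true))) Ω‖ ≤ ε) ∧
      ∃ P : FreeGroup X →₀ ℝ, (∀ v, P v⁻¹ = P v) ∧ ‖(evP p' P - p none) Ω‖ ≤ ε) :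
    ∃ U : X → unitary (H →L[ℂ] H),
      (∀ T : H →L[ℂ] H, (∀ l, T * p₀ l = p₀ l * T) → ∀ x,
        T * (U x : H →L[ℂ] H) = (U x : H →L[ℂ] H) * T) ∧
      (∀ w : FreeGroup X, w ≠ 1 → inner ℂ Ω ((wd U w : H →L[ℂ] H) Ω) = 0) ∧
      (∀ (ξ : H) (ε : ℝ), 0 < ε → ∃ f : FreeGroup X →₀ ℂ,
        ‖ξ - (pol U f : H →L[ℂ] H) Ω‖ < ε) := by
  classical
  obtain ⟨W, hW⟩ := exists_surjective_nat (List (Lt X))
  have hself : ∀ l, InAlg p₀ (p₀ l) := by
    intro l
    have h := inAlg_ev p₀ [l]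
    have h2 : ev p₀ [l] = p₀ l := by simp [ev]
    rwa [h2] at h
  let S0 : A13St Ω p₀ := ⟨p₀, [], hp, hμ, hself, hself⟩
  choose nx hn1 hn2 hn3 hn4 using A13_next hΩ hstep W
  let S : ℕ → A13St Ω p₀ := fun n => Nat.rec S0 (fun n s => nx n s) n
  have hS : ∀ n, S (n + 1) = nx n (S n) := fun n => rfl
  have g1 : ∀ n, ∀ f ∈ (S n).fs, f ∈ (S (n + 1)).fs := fun n => hn1 n (S n)
  have g2 : ∀ n, ∀ f ∈ (S n).fs,
      ‖A13pe (S (n + 1)).p f Ω - A13pe (S n).p f Ω‖ ≤ (1 / 2) ^ (n + 1) :=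
    fun n => hn2 n (S n)
  have g3 : ∀ n, ∀ x, ‖((S (n + 1)).p (some (x, true)) - (S n).p (some (x, true))) Ω‖ ≤
      (1 / 2) ^ n := fun n => hn3 n (S n)
  have g4 : ∀ n, ∀ j < n + 1, ∃ f ∈ (S (n + 1)).fs,
      ‖ev p₀ (W j) Ω - A13pe (S (n + 1)).p f Ω‖ ≤ (1 / 2) ^ n := fun n => hn4 n (S n)
  clear_value S
  -- unitarity of the letters
  have hst : ∀ n (x : X × Bool), star ((S n).p (some x)) = (S n).p (some (x.1, !x.2)) :=
    fun n x => (S n).good.st (some x)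
  have hu1 : ∀ n (x : X × Bool), (S n).p (some x) * star ((S n).p (some x)) = 1 := by
    intro n x
    rw [hst]
    exact (S n).good.uni x
  have hu2 : ∀ n (x : X × Bool), star ((S n).p (some x)) * (S n).p (some x) = 1 := by
    intro n x
    have h := (S n).good.uni (x.1, !x.2)
    rw [hst]
    simpa using h
  have hU := fun x : X => strong_limit hp hμ hd (fun n => (S n).p (some (x, true)))
    (fun n => (S n).a _) (fun n => hu1 n _) (fun n => hu2 n _) (fun n => g3 n x)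
  choose U hU1 hU2 using hU
  -- convergence of words
  have hconv : ∀ (L : List (X × Bool)) (ξ : H),
      Filter.Tendsto (fun n => ev (S n).p (L.map some) ξ) Filter.atTop
        (nhds ((wd U (FreeGroup.mk L) : H →L[ℂ] H) ξ)) := by
    intro L
    induction L with
    | nil =>
      intro ξ
      have h1 : (wd U (FreeGroup.mk ([] : List (X × Bool))) : H →L[ℂ] H) = 1 := by
        simp [wd, ← FreeGroup.one_eq_mk]
      simp [ev, h1]
    | cons x L ih =>
      intro ξ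
      have e1 : ∀ n, ev (S n).p ((x :: L).map some) ξ =
          (S n).p (some x) (ev (S n).p (L.map some) ξ) := by
        intro n
        simp [ev]
      have e2 : (wd U (FreeGroup.mk (x :: L)) : H →L[ℂ] H) =
          (wd U (FreeGroup.mk [x]) : H →L[ℂ] H) * (wd U (FreeGroup.mk L) : H →L[ℂ] H) := by
        have : FreeGroup.mk (x :: L) = FreeGroup.mk [x] * FreeGroup.mk L := by
          rw [FreeGroup.mul_mk]; rfl
        rw [this]
        simp [wd]
      simp_rw [e1]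
      rw [e2]
      have e3 : ∀ ξ, Filter.Tendsto (fun n => (S n).p (some x) ξ) Filter.atTop
          (nhds ((wd U (FreeGroup.mk [x]) : H →L[ℂ] H) ξ)) := by
        intro ξ
        obtain ⟨i, b⟩ := x
        cases b with
        | true =>
          have : (wd U (FreeGroup.mk [(i, true)]) : H →L[ℂ] H) = (U i : H →L[ℂ] H) := by
            simp [wd]
          rw [this]
          exact hU1 i ξ
        | false =>
          have : (wd U (FreeGroup.mk [(i, false)]) : H →L[ℂ] H) = star (U i : H →L[ℂ] H) := by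
            simp [wd]
            rfl
          rw [this]
          have h := hU2 i ξ
          have h' : ∀ n, star ((S n).p (some (i, true))) = (S n).p (some (i, false)) :=
            fun n => hst n (i, true)
          simp_rw [h'] at h
          exact h
      exact A13_tend (fun n => hu2 n x) e3 (ih ξ)
  have hconvg : ∀ (w : FreeGroup X) (ξ : H),
      Filter.Tendsto (fun n => ev (S n).p (gword w) ξ) Filter.atTop
        (nhds ((wd U w : H →L[ℂ] H) ξ)) := by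
    intro w ξ
    have h := hconv w.toWord ξ
    rw [FreeGroup.mk_toWord] at h
    exact h
  have hconvf : ∀ (f : FreeGroup X →₀ ℂ),
      Filter.Tendsto (fun n => A13pe (S n).p f Ω) Filter.atTop
        (nhds ((pol U f : H →L[ℂ] H) Ω)) := by
    intro f
    simp only [A13pe, pol, Finsupp.sum, ContinuousLinearMap.sum_apply,
      ContinuousLinearMap.smul_apply]
    exact tendsto_finset_sum _ fun w _ => (hconvg w Ω).const_smul _
  refine ⟨U, ?_, ?_, ?_⟩
  · intro T hT x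
    ext ξ
    have h1 : Filter.Tendsto (fun n => T ((S n).p (some (x, true)) ξ)) Filter.atTop
        (nhds (T ((U x : H →L[ℂ] H) ξ))) := (T.continuous.tendsto _).comp (hU1 x ξ)
    have h2 : Filter.Tendsto (fun n => (S n).p (some (x, true)) (T ξ)) Filter.atTop
        (nhds ((U x : H →L[ℂ] H) (T ξ))) := hU1 x (T ξ)
    have h3 : (fun n => T ((S n).p (some (x, true)) ξ)) =
        fun n => (S n).p (some (x, true)) (T ξ) := by
      funext n
      have := A13_comm hT ((S n).a (some (x, true)))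
      exact congrArg (fun A : H →L[ℂ] H => A ξ) this
    rw [h3] at h1
    exact tendsto_nhds_unique h1 h2
  · intro w hw
    have h1 : Filter.Tendsto (fun n => inner ℂ Ω (ev (S n).p (gword w) Ω)) Filter.atTop
        (nhds (inner ℂ Ω ((wd U w : H →L[ℂ] H) Ω))) :=
      (Filter.Tendsto.inner tendsto_const_nhds (hconvg w Ω))
    have h2 : (fun n => inner ℂ Ω (ev (S n).p (gword w) Ω)) = fun _ => (0 : ℂ) := by
      funext n
      have h := (S n).law.grp w.toWord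
      rw [FreeGroup.mk_toWord, if_neg hw] at h
      exact h
    rw [h2] at h1
    exact (tendsto_nhds_unique h1 tendsto_const_nhds)
  · -- density
    have hmono : ∀ n, ∀ f ∈ (S n).fs, ∀ m, n ≤ m → f ∈ (S m).fs := by
      intro n f hf m hm
      induction m, hm using Nat.le_induction with
      | base => exact hf
      | succ m _ ih => exact g1 m f ih
    have hdist : ∀ n, ∀ f ∈ (S n).fs, ∀ m, n ≤ m →
        ‖A13pe (S m).p f Ω - A13pe (S n).p f Ω‖ ≤ (1 / 2) ^ n - (1 / 2) ^ m := by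
      intro n f hf m hm
      induction m, hm using Nat.le_induction with
      | base => simp
      | succ m hm ih =>
        have h1 := g2 m f (hmono n f hf m hm)
        have h2 : A13pe (S (m + 1)).p f Ω - A13pe (S n).p f Ω =
          (A13pe (S (m + 1)).p f Ω - A13pe (S m).p f Ω) +
          (A13pe (S m).p f Ω - A13pe (S n).p f Ω) := by abel
        rw [h2]
        refine (norm_add_le _ _).trans ?_
        have h3 : (1 / 2 : ℝ) ^ m = 2 * (1 / 2) ^ (m + 1) := by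
          rw [pow_succ]; ring
        linarith
    have hlim : ∀ n, ∀ f ∈ (S n).fs,
        ‖(pol U f : H →L[ℂ] H) Ω - A13pe (S n).p f Ω‖ ≤ (1 / 2) ^ n := by
      intro n f hf
      have h1 : Filter.Tendsto (fun m => ‖A13pe (S m).p f Ω - A13pe (S n).p f Ω‖) Filter.atTop
        (nhds ‖(pol U f : H →L[ℂ] H) Ω - A13pe (S n).p f Ω‖) :=
        ((hconvf f).sub_const _).norm
      refine le_of_tendsto h1 ?_
      filter_upwards [Filter.eventually_ge_atTop n] with m hm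
      have := hdist n f hf m hm
      have h2 : (0 : ℝ) ≤ (1 / 2) ^ m := by positivity
      linarith
    let Φ : (FreeGroup X →₀ ℂ) →ₗ[ℂ] H := Finsupp.lsum ℂ fun w =>
      (LinearMap.toSpanSingleton ℂ H ((wd U w : H →L[ℂ] H) Ω))
    have hΦ : ∀ f, Φ f = (pol U f : H →L[ℂ] H) Ω := by
      intro f
      simp [Φ, pol, Finsupp.sum, ContinuousLinearMap.sum_apply]
    let K : Submodule ℂ H := (LinearMap.range Φ).topologicalClosure
    have hwK : ∀ w : List (Lt X), ev p₀ w Ω ∈ K := by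
      intro w
      obtain ⟨j, rfl⟩ := hW w
      show _ ∈ ((LinearMap.range Φ).topologicalClosure : Submodule ℂ H)
      rw [← SetLike.mem_coe, Submodule.topologicalClosure_coe, Metric.mem_closure_iff]
      intro ε hε
      obtain ⟨n, hn⟩ := exists_pow_lt_of_lt_one (show (0 : ℝ) < ε / 2 by positivity)
        (show (1 / 2 : ℝ) < 1 by norm_num)
      set m := max n j with hm
      obtain ⟨f, hf, hf2⟩ := g4 m j (by omega)
      refine ⟨(pol U f : H →L[ℂ] H) Ω, ⟨f, hΦ f⟩, ?_⟩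
      rw [dist_eq_norm]
      have h1 : ev p₀ (W j) Ω - (pol U f : H →L[ℂ] H) Ω =
        (ev p₀ (W j) Ω - A13pe (S (m + 1)).p f Ω) -
        ((pol U f : H →L[ℂ] H) Ω - A13pe (S (m + 1)).p f Ω) := by abel
      rw [h1]
      refine (norm_sub_le _ _).trans_lt ?_
      have h2 := hlim (m + 1) f hf
      have h3 : (1 / 2 : ℝ) ^ m ≤ (1 / 2) ^ n :=
        pow_le_pow_of_le_one (by norm_num) (by norm_num) (by omega)
      have h4 : (1 / 2 : ℝ) ^ (m + 1) ≤ (1 / 2) ^ n :=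
        pow_le_pow_of_le_one (by norm_num) (by norm_num) (by omega)
      linarith
    intro ξ ε hε
    have hξ : ξ ∈ K := by
      show _ ∈ ((LinearMap.range Φ).topologicalClosure : Submodule ℂ H)
      rw [← SetLike.mem_coe, Submodule.topologicalClosure_coe]
      rw [← closure_closure, Metric.mem_closure_iff]
      intro ε hε
      obtain ⟨R, hR⟩ := hd ξ ε hε
      refine ⟨_, ?_, by rw [dist_eq_norm]; exact hR⟩
      rw [← Submodule.topologicalClosure_coe, SetLike.mem_coe]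
      simp only [Finsupp.sum, ContinuousLinearMap.sum_apply, ContinuousLinearMap.smul_apply]
      exact Submodule.sum_mem _ fun w _ => Submodule.smul_mem _ _ (hwK w)
    have hξ2 : ξ ∈ closure ((LinearMap.range Φ : Submodule ℂ H) : Set H) := by
      rw [← Submodule.topologicalClosure_coe]
      exact hξ
    rw [Metric.mem_closure_iff] at hξ2
    obtain ⟨y, ⟨f, hf⟩, hy⟩ := hξ2 ε hε
    refine ⟨f, ?_⟩
    rw [← hΦ, hf, ← dist_eq_norm]
    exact hy

end Pool.Agent.H667R3.FF
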