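import Mathlib
import Pool.Agent.H667R3.FF.Defs
import Pool.Agent.H667R3.FF.A1

/-! Task A2 (table h667b_tasks, shared note 777): the operator `DD`. -/

namespace Pool.Agent.H667R3.FF

open Pool.Agent.H667R2.FG
open scoped ComplexConjugate

variable {L V W : Type} [AddCommGroup V] [Module ℂ V] [AddCommGroup W] [Module ℂ W]
  (d : L → (List L →₀ ℂ))

theorem DD_nil (F : List L → V) : DD d F [] = 0 := by
  simp [DD, splits]

theorem DD_append (F : List L → V) (v w : List L) : DD d F (v ++ w) =
    DD d (fun u => F (u ++ w)) v + DD d (fun u => F (v ++ u)) w := by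
  unfold DD
  rw [splits_append, List.map_append, List.sum_append, List.map_map, List.map_map]
  simp only [Function.comp_def, List.append_assoc]

theorem DD_singleton (F : List L → V) (l : L) : DD d F [l] = (d l).sum fun v c => c • F v := by
  simp [DD, splits]

theorem DD_map (F : List L → V) (f : V →ₗ[ℂ] W) (w : List L) :
    DD d (fun u => f (F u)) w = f (DD d F w) := by
  unfold DD
  rw [map_list_sum, List.map_map]
  congr 1
  apply List.map_congr_left
  intro t _
  simp only [Function.comp_def, map_finsuppSum, map_smul]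

theorem DD_add (F F' : List L → V) (w : List L) :
    DD d (fun u => F u + F' u) w = DD d F w + DD d F' w := by
  unfold DD
  rw [← List.sum_map_add]
  congr 1
  apply List.map_congr_left
  intro t _
  simp only [smul_add, Finsupp.sum_add]

theorem DD_smul (c : ℂ) (F : List L → V) (w : List L) :
    DD d (fun u => c • F u) w = c • DD d F w :=
  DD_map d F (LinearMap.lsmul ℂ V c) w

theorem DD_iter_map (F : List L → V) (f : V →ₗ[ℂ] W) (n : ℕ) (w : List L) :
    (DD d)^[n] (fun u => f (F u)) w = f ((DD d)^[n] F w) := by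
  induction n generalizing w with
  | zero => rfl
  | succ n ih =>
    rw [Function.iterate_succ_apply', Function.iterate_succ_apply', ← DD_map]
    congr 1
    funext u
    exact ih u

theorem DD_zero (w : List L) : DD d (fun _ => (0 : V)) w = 0 := by
  have h := DD_smul d (0 : ℂ) (fun _ : List L => (0 : V)) w
  simpa using h

theorem DD_sum {ι : Type*} (s : Finset ι) (F : ι → List L → V) (w : List L) :
    DD d (fun u => ∑ i ∈ s, F i u) w = ∑ i ∈ s, DD d (F i) w := by
  classical
  induction s using Finset.induction_on with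
  | empty => simpa using DD_zero d w
  | insert a s ha ih =>
    rw [Finset.sum_insert ha, ← ih, ← DD_add]
    congr 1
    funext u
    rw [Finset.sum_insert ha]

theorem A2_pascal (a : ℕ → ℕ → V) (n : ℕ) :
    ∑ k ∈ Finset.range (n + 1), (n.choose k : ℂ) • a (k + 1) (n - k) +
      ∑ k ∈ Finset.range (n + 1), (n.choose k : ℂ) • a k (n - k + 1) =
    ∑ k ∈ Finset.range (n + 2), ((n + 1).choose k : ℂ) • a k (n + 1 - k) := by
  have h := Finset.sum_antidiagonal_choose_succ_nsmul (fun i j => a i j) n
  rw [Finset.Nat.sum_antidiagonal_eq_sum_range_succ (fun i j => ((n + 1).choose i) • a i j) (n + 1),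
    Finset.Nat.sum_antidiagonal_eq_sum_range_succ (fun i j => (n.choose i) • a i (j + 1)) n,
    Finset.Nat.sum_antidiagonal_eq_sum_range_succ (fun i j => (n.choose j) • a (i + 1) j) n] at h
  simp only [Nat.cast_smul_eq_nsmul]
  rw [show n + 2 = (n + 1).succ from rfl, h, add_comm]
  congr 1
  apply Finset.sum_congr rfl
  intro k hk
  rw [Finset.mem_range] at hk
  rw [Nat.choose_symm (by omega)]

/-- iterated Leibniz rule -/
theorem DD_iter_ev {B : Type} [Ring B] [Algebra ℂ B] (p : L → B) (n : ℕ) (v w : List L) :
    (DD d)^[n] (ev p) (v ++ w) = ∑ k ∈ Finset.range (n + 1),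
      (n.choose k : ℂ) • ((DD d)^[k] (ev p) v * (DD d)^[n - k] (ev p) w) := by
  induction n generalizing v w with
  | zero => simp [ev_append]
  | succ n ih =>
    rw [Function.iterate_succ_apply', DD_append]
    simp only [ih]
    rw [DD_sum, DD_sum]
    simp only [DD_smul]
    have h1 : ∀ k, DD d (fun u => (DD d)^[k] (ev p) u * (DD d)^[n - k] (ev p) w) v =
        (DD d)^[k + 1] (ev p) v * (DD d)^[n - k] (ev p) w := by
      intro k
      rw [Function.iterate_succ_apply']
      exact DD_map d ((DD d)^[k] (ev p)) (LinearMap.mulRight ℂ ((DD d)^[n - k] (ev p) w)) v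
    have h2 : ∀ k, DD d (fun u => (DD d)^[k] (ev p) v * (DD d)^[n - k] (ev p) u) w =
        (DD d)^[k] (ev p) v * (DD d)^[n - k + 1] (ev p) w := by
      intro k
      rw [Function.iterate_succ_apply']
      exact DD_map d ((DD d)^[n - k] (ev p)) (LinearMap.mulLeft ℂ ((DD d)^[k] (ev p) v)) w
    simp only [h1, h2]
    exact A2_pascal (fun i j => (DD d)^[i] (ev p) v * (DD d)^[j] (ev p) w) n

end Pool.Agent.H667R3.FF
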