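import Mathlib
import Pool.Agent.H667R3.FF.Defs

/-! Task A3 (table h667b_tasks, shared note 777). -/

namespace Pool.Agent.H667R3.FF

open Pool.Agent.H667R2.FG
open scoped ComplexConjugate

theorem a3_splits_length {α : Type} (w : List α) : (splits w).length = w.length := by
  induction w with
  | nil => rfl
  | cons a w ih => simp [splits, ih]

theorem a3_splits_mem {α : Type} (w : List α) :
    ∀ t ∈ splits w, t.1.length + 1 + t.2.2.length = w.length := by
  induction w with
  | nil => intro t ht; simp [splits] at ht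
  | cons a w ih =>
    intro t ht
    simp only [splits, List.mem_cons, List.mem_map] at ht
    rcases ht with rfl | ⟨s, hs, rfl⟩
    · simp [add_comm]
    · have := ih s hs
      simp only [List.length_cons]
      omega

theorem a3_sum_le {V : Type} [SeminormedAddCommGroup V] (l : List V) (c : ℝ)
    (h : ∀ x ∈ l, ‖x‖ ≤ c) : ‖l.sum‖ ≤ l.length * c := by
  induction l with
  | nil => simp
  | cons a l ih =>
    rw [List.sum_cons, List.length_cons]
    have h1 := h a (by simp)
    have h2 := ih fun x hx => h x (by simp [hx])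
    calc ‖a + l.sum‖ ≤ ‖a‖ + ‖l.sum‖ := norm_add_le _ _
      _ ≤ c + l.length * c := add_le_add h1 h2
      _ = ((l.length + 1 : ℕ) : ℝ) * c := by push_cast; ring

/-- one step -/
theorem a3_step {L : Type} (d : L → (List L →₀ ℂ)) (S : ℝ) (hS : 1 ≤ S) (D : ℕ) (K0 : ℝ)
    (hD : ∀ l, ∀ v ∈ (d l).support, v.length ≤ D)
    (hK0 : ∀ l, (d l).sum (fun v c => ‖c‖ * S ^ v.length) ≤ K0)
    {V : Type} [NormedAddCommGroup V] [NormedSpace ℂ V] (G : List L → V) (C : ℝ) (hC : 0 ≤ C)
    (φ : ℕ → ℕ) (hφ : Monotone φ) (hG : ∀ w, ‖G w‖ ≤ C * φ w.length * S ^ w.length) (w : List L) :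
    ‖DD d G w‖ ≤ C * K0 * (w.length * φ (w.length + D) : ℕ) * S ^ w.length := by
  have hS0 : (0:ℝ) ≤ S := by linarith
  have hb : ∀ t ∈ splits w, ‖(d t.2.1).sum fun v c => c • G (t.1 ++ v ++ t.2.2)‖ ≤
      C * K0 * φ (w.length + D) * S ^ w.length := by
    intro t ht
    have hl := a3_splits_mem w t ht
    unfold Finsupp.sum
    calc ‖∑ v ∈ (d t.2.1).support, (d t.2.1) v • G (t.1 ++ v ++ t.2.2)‖
        ≤ ∑ v ∈ (d t.2.1).support, (C * φ (w.length + D) * S ^ w.length) *
            (‖(d t.2.1) v‖ * S ^ v.length) := by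
          refine norm_sum_le_of_le _ fun v hv => ?_
          rw [norm_smul]
          have h1 := hG (t.1 ++ v ++ t.2.2)
          have h2 : (t.1 ++ v ++ t.2.2).length = (w.length - 1) + v.length := by
            simp only [List.length_append]
            omega
          rw [h2] at h1
          have h3 : φ (w.length - 1 + v.length) ≤ φ (w.length + D) :=
            hφ (by have := hD t.2.1 v hv; omega)
          have h3' : (φ (w.length - 1 + v.length) : ℝ) ≤ φ (w.length + D) := by exact_mod_cast h3
          have h4 : S ^ (w.length - 1 + v.length) ≤ S ^ w.length * S ^ v.length := by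
            rw [← pow_add]
            exact pow_le_pow_right₀ hS (by omega)
          calc ‖(d t.2.1) v‖ * ‖G (t.1 ++ v ++ t.2.2)‖
              ≤ ‖(d t.2.1) v‖ * (C * φ (w.length - 1 + v.length) * S ^ (w.length - 1 + v.length)) :=
                mul_le_mul_of_nonneg_left h1 (norm_nonneg _)
            _ ≤ ‖(d t.2.1) v‖ * (C * φ (w.length + D) * (S ^ w.length * S ^ v.length)) := by
                gcongr
            _ = _ := by ring
      _ = (C * φ (w.length + D) * S ^ w.length) *
            ∑ v ∈ (d t.2.1).support, (‖(d t.2.1) v‖ * S ^ v.length) := by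
          rw [Finset.mul_sum]
      _ ≤ (C * φ (w.length + D) * S ^ w.length) * K0 := by
          refine mul_le_mul_of_nonneg_left (hK0 t.2.1) (by positivity)
      _ = C * K0 * φ (w.length + D) * S ^ w.length := by ring
  unfold DD
  refine (a3_sum_le _ (C * K0 * φ (w.length + D) * S ^ w.length) ?_).trans (le_of_eq ?_)
  · intro x hx
    rw [List.mem_map] at hx
    obtain ⟨t, ht, rfl⟩ := hx
    exact hb t ht
  · rw [List.length_map, a3_splits_length]
    push_cast
    ring

theorem a3_prod (D : ℕ) (hD : 1 ≤ D) (n x : ℕ) :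
    ∏ j ∈ Finset.range n, (x + j * D) ≤ D ^ n * n.factorial * 2 ^ (x + n) := by
  calc ∏ j ∈ Finset.range n, (x + j * D) ≤ ∏ j ∈ Finset.range n, (D * (x + 1 + j)) := by
        refine Finset.prod_le_prod' fun j _ => ?_
        have : x ≤ D * x := Nat.le_mul_of_pos_left x hD
        nlinarith
    _ = D ^ n * (x + 1).ascFactorial n := by
        rw [Finset.prod_mul_distrib, Nat.ascFactorial_eq_prod_range]
        simp
    _ = D ^ n * n.factorial * (x + n).choose n := by
        rw [Nat.ascFactorial_eq_factorial_mul_choose, mul_assoc]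
    _ ≤ D ^ n * n.factorial * 2 ^ (x + n) := by
        gcongr
        exact Nat.choose_le_two_pow _ _

theorem dd_bound {L : Type} [Fintype L] (d : L → (List L →₀ ℂ)) (S : ℝ) (hS : 1 ≤ S) :
    ∃ K : ℝ, 0 < K ∧ ∀ (V : Type) [NormedAddCommGroup V] [NormedSpace ℂ V] (F : List L → V),
      (∀ w, ‖F w‖ ≤ S ^ w.length) → ∀ (n : ℕ) (w : List L),
        ‖(DD d)^[n] F w‖ ≤ K ^ n * n.factorial * (2 * S) ^ w.length := by
  classical
  have hS0 : (0:ℝ) ≤ S := by linarith
  -- constants
  let D : ℕ := 1 + ∑ l, ∑ v ∈ (d l).support, v.length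
  let K0 : ℝ := 1 + ∑ l, (d l).sum (fun v c => ‖c‖ * S ^ v.length)
  have hnn : ∀ l, 0 ≤ (d l).sum (fun v c => ‖c‖ * S ^ v.length) := fun l =>
    Finset.sum_nonneg fun v _ => by positivity
  have hD1 : 1 ≤ D := Nat.le_add_right _ _
  have hD : ∀ l, ∀ v ∈ (d l).support, v.length ≤ D := by
    intro l v hv
    have h1 : v.length ≤ ∑ v ∈ (d l).support, v.length :=
      Finset.single_le_sum (f := fun v : List L => v.length) (fun _ _ => Nat.zero_le _) hv
    have h2 : ∑ v ∈ (d l).support, v.length ≤ ∑ l, ∑ v ∈ (d l).support, v.length :=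
      Finset.single_le_sum (f := fun l => ∑ v ∈ (d l).support, v.length)
        (fun _ _ => Nat.zero_le _) (Finset.mem_univ l)
    simp only [D]
    omega
  have hK0 : ∀ l, (d l).sum (fun v c => ‖c‖ * S ^ v.length) ≤ K0 := by
    intro l
    have h2 : (d l).sum (fun v c => ‖c‖ * S ^ v.length) ≤
        ∑ l, (d l).sum (fun v c => ‖c‖ * S ^ v.length) :=
      Finset.single_le_sum (f := fun l => (d l).sum (fun v c => ‖c‖ * S ^ v.length))
        (fun l _ => hnn l) (Finset.mem_univ l)
    simp only [K0]
    linarith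
  have hK01 : 1 ≤ K0 := by
    have : 0 ≤ ∑ l, (d l).sum (fun v c => ‖c‖ * S ^ v.length) :=
      Finset.sum_nonneg fun l _ => hnn l
    simp only [K0]
    linarith
  refine ⟨2 * D * K0, by positivity, ?_⟩
  intro V _ _ F hF n w
  have key : ∀ n : ℕ, ∀ w, ‖(DD d)^[n] F w‖ ≤
      K0 ^ n * (∏ j ∈ Finset.range n, (w.length + j * D) : ℕ) * S ^ w.length := by
    intro n
    induction n with
    | zero => intro w; simpa using hF w
    | succ n ih =>
      intro w
      rw [Function.iterate_succ']
      have := a3_step d S hS D K0 hD hK0 ((DD d)^[n] F) (K0 ^ n) (by positivity)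
        (fun x => ∏ j ∈ Finset.range n, (x + j * D))
        (fun x y hxy => Finset.prod_le_prod' fun j _ => by omega) ih w
      refine this.trans (le_of_eq ?_)
      rw [Finset.prod_range_succ', pow_succ]
      have e : ∏ j ∈ Finset.range n, (w.length + D + j * D) =
          ∏ j ∈ Finset.range n, (w.length + (j + 1) * D) := by
        refine Finset.prod_congr rfl fun j _ => ?_
        ring
      simp only [e]
      push_cast
      ring
  refine (key n w).trans ?_
  have h1 : ((∏ j ∈ Finset.range n, (w.length + j * D) : ℕ) : ℝ) ≤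
      (D:ℝ) ^ n * n.factorial * 2 ^ (w.length + n) := by
    exact_mod_cast a3_prod D hD1 n w.length
  calc K0 ^ n * ((∏ j ∈ Finset.range n, (w.length + j * D) : ℕ) : ℝ) * S ^ w.length
      ≤ K0 ^ n * ((D:ℝ) ^ n * n.factorial * 2 ^ (w.length + n)) * S ^ w.length := by
        gcongr
    _ = (2 * D * K0) ^ n * n.factorial * (2 * S) ^ w.length := by
        rw [pow_add, mul_pow, mul_pow, mul_pow]
        ring

theorem norm_ev_le {L B : Type} [NormedRing B] [NormOneClass B] (p : L → B) (S : ℝ)
    (hp : ∀ l, ‖p l‖ ≤ S) (w : List L) : ‖ev p w‖ ≤ S ^ w.length := by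
  induction w with
  | nil => simp [ev]
  | cons a w ih =>
    have e : ev p (a :: w) = p a * ev p w := by simp [ev]
    rw [e, List.length_cons, pow_succ']
    refine (norm_mul_le _ _).trans ?_
    have hS : 0 ≤ S := (norm_nonneg _).trans (hp a)
    exact mul_le_mul (hp a) ih (norm_nonneg _) hS

end Pool.Agent.H667R3.FF
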