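import Mathlib
import Pool.Agent.H667R3.FF.Defs
import Pool.Agent.H667R3.FF.A2
import Pool.Agent.H667R3.FF.A3

/-! Task A4a (table h667b_tasks, shared note 777). -/

namespace Pool.Agent.H667R3.FF

open Pool.Agent.H667R2.FG
open scoped ComplexConjugate

variable {L : Type} [Fintype L]

omit [Fintype L] in
theorem a4a_DD_hasSum (d : L → (List L →₀ ℂ)) {V : Type} [NormedAddCommGroup V]
    [NormedSpace ℂ V] (F : ℕ → List L → V) (G : List L → V)
    (h : ∀ w, HasSum (fun n => F n w) (G w)) (w : List L) :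
    HasSum (fun n => DD d (F n) w) (DD d G w) := by
  unfold DD
  generalize splits w = l
  induction l with
  | nil => simp
  | cons t l ih =>
    simp only [List.map_cons, List.sum_cons]
    refine HasSum.add ?_ ih
    unfold Finsupp.sum
    exact hasSum_sum fun v _ => (h _).const_smul _

omit [Fintype L] in
theorem a4a_iter_nil (d : L → (List L →₀ ℂ)) {V : Type} [AddCommGroup V]
    [Module ℂ V] (F : List L → V) (n : ℕ) : (DD d)^[n + 1] F [] = 0 := by
  rw [Function.iterate_succ']
  show DD d ((DD d)^[n] F) [] = 0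
  unfold DD splits
  simp

theorem a4a_coef (h : ℝ) (n k : ℕ) (hk : k ≤ n) :
    (((h ^ k / k.factorial : ℝ)) : ℂ) * (((h ^ (n - k) / (n - k).factorial : ℝ)) : ℂ) =
      (((h ^ n / n.factorial : ℝ)) : ℂ) * (n.choose k : ℂ) := by
  rw [← Complex.ofReal_mul, ← Complex.ofReal_natCast, ← Complex.ofReal_mul]
  congr 1
  have h1 : (n.choose k : ℝ) * k.factorial * (n - k).factorial = n.factorial := by
    exact_mod_cast Nat.choose_mul_factorial_mul_factorial hk
  have h2 : (k.factorial : ℝ) ≠ 0 := by exact_mod_cast Nat.factorial_ne_zero k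
  have h3 : ((n - k).factorial : ℝ) ≠ 0 := by exact_mod_cast Nat.factorial_ne_zero (n - k)
  have h4 : (n.factorial : ℝ) ≠ 0 := by exact_mod_cast Nat.factorial_ne_zero n
  have h5 : h ^ n = h ^ k * h ^ (n - k) := by rw [← pow_add, Nat.add_sub_cancel' hk]
  rw [h5, div_mul_div_comm, div_mul_eq_mul_div, div_eq_div_iff (mul_ne_zero h2 h3) h4, ← h1]
  ring

/-- evaluation at the flow is the exponential series of `DD d` -/
theorem ev_flow (d : L → (List L →₀ ℂ)) (S : ℝ) (hS : 1 ≤ S) : ∃ h₀ : ℝ, 0 < h₀ ∧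
    ∀ (B : Type) [NormedRing B] [NormedAlgebra ℂ B] [NormOneClass B] [CompleteSpace B]
      (p : L → B), (∀ l, ‖p l‖ ≤ S) → ∀ h : ℝ, |h| ≤ h₀ →
      (∀ (m : ℕ) (w : List L), Summable fun n : ℕ =>
        ‖(((h ^ n / n.factorial : ℝ)) : ℂ) • (DD d)^[n + m] (ev p) w‖) ∧
      (∀ (m : ℕ) (w : List L), (DD d)^[m] (ev (flow d p h)) w =
        ∑' n : ℕ, (((h ^ n / n.factorial : ℝ)) : ℂ) • (DD d)^[n + m] (ev p) w) := by
  obtain ⟨K, hK, hb⟩ := dd_bound d S hS
  refine ⟨1 / (4 * K), by positivity, ?_⟩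
  intro B _ _ _ _ p hp h hh
  have hev : ∀ w, ‖ev p w‖ ≤ S ^ w.length := norm_ev_le p S hp
  have hsum : ∀ (m : ℕ) (w : List L), Summable fun n : ℕ =>
      ‖(((h ^ n / n.factorial : ℝ)) : ℂ) • (DD d)^[n + m] (ev p) w‖ := by
    intro m w
    have h2K : 2 * K * |h| ≤ 1 / 2 := by
      calc 2 * K * |h| ≤ 2 * K * (1 / (4 * K)) := by gcongr
        _ = 1 / 2 := by field_simp; norm_num
    have h2K0 : 0 ≤ 2 * K * |h| := by positivity
    refine Summable.of_nonneg_of_le (fun n => norm_nonneg _) (fun n => ?_)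
      ((summable_geometric_of_lt_one h2K0 (by linarith)).mul_left
        (m.factorial * (2 * K) ^ m * (2 * S) ^ w.length))
    rw [norm_smul, Complex.norm_real, Real.norm_eq_abs, abs_div, abs_pow, Nat.abs_cast]
    have h1 := hb B (ev p) hev (n + m) w
    have h2 : ((n + m).factorial : ℝ) ≤ 2 ^ (n + m) * n.factorial * m.factorial := by
      have h3 : (n + m).choose n * n.factorial * m.factorial = (n + m).factorial := by
        have := Nat.choose_mul_factorial_mul_factorial (Nat.le_add_right n m)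
        rwa [Nat.add_sub_cancel_left] at this
      rw [← h3]
      push_cast
      have h4 : ((n + m).choose n : ℝ) ≤ 2 ^ (n + m) := by
        exact_mod_cast Nat.choose_le_two_pow _ _
      gcongr
    have hS0 : 0 ≤ S := by linarith
    have hn0 : (0 : ℝ) < n.factorial := by exact_mod_cast Nat.factorial_pos n
    calc |h| ^ n / n.factorial * ‖(DD d)^[n + m] (ev p) w‖
        ≤ |h| ^ n / n.factorial * (K ^ (n + m) * (n + m).factorial * (2 * S) ^ w.length) := by
          gcongr
      _ ≤ |h| ^ n / n.factorial * (K ^ (n + m) * (2 ^ (n + m) * n.factorial * m.factorial) *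
          (2 * S) ^ w.length) := by
          gcongr
      _ = m.factorial * (2 * K) ^ m * (2 * S) ^ w.length * (2 * K * |h|) ^ n := by
          field_simp
          rw [pow_add, pow_add]
          simp only [mul_pow]
          ring
  have hbase : ∀ w : List L, HasSum (fun n : ℕ =>
      (((h ^ n / n.factorial : ℝ)) : ℂ) • (DD d)^[n] (ev p) w) (ev (flow d p h) w) := by
    intro w
    have hs0 : ∀ w : List L, Summable fun n : ℕ =>
        ‖(((h ^ n / n.factorial : ℝ)) : ℂ) • (DD d)^[n] (ev p) w‖ := fun w => hsum 0 w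
    induction w with
    | nil =>
      have e : ev (flow d p h) [] = (((h ^ 0 / (0 : ℕ).factorial : ℝ)) : ℂ) •
          (DD d)^[0] (ev p) [] := by
        simp [ev]
      rw [e]
      refine hasSum_single 0 ?_
      intro n hn
      obtain ⟨k, rfl⟩ := Nat.exists_eq_succ_of_ne_zero hn
      rw [a4a_iter_nil, smul_zero]
    | cons l w ih =>
      have e : ev (flow d p h) (l :: w) = flow d p h l * ev (flow d p h) w := by
        simp [ev]
      have e2 : ev (flow d p h) w = ∑' n : ℕ,
          (((h ^ n / n.factorial : ℝ)) : ℂ) • (DD d)^[n] (ev p) w := ih.tsum_eq.symm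
      have e3 : (fun n : ℕ => (((h ^ n / n.factorial : ℝ)) : ℂ) • (DD d)^[n] (ev p) (l :: w)) =
          fun n : ℕ => ∑ k ∈ Finset.range (n + 1),
            ((((h ^ k / k.factorial : ℝ)) : ℂ) • (DD d)^[k] (ev p) [l]) *
            ((((h ^ (n - k) / (n - k).factorial : ℝ)) : ℂ) • (DD d)^[n - k] (ev p) w) := by
        funext n
        have h1 := DD_iter_ev (d := d) p n [l] w
        have h1' : (DD d)^[n] (ev p) (l :: w) = _ := h1
        rw [h1', Finset.smul_sum]
        refine Finset.sum_congr rfl fun k hk => ?_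
        rw [smul_smul, smul_mul_smul_comm, a4a_coef h n k
          (Nat.lt_succ_iff.1 (Finset.mem_range.1 hk))]
      have h4 := tsum_mul_tsum_eq_tsum_sum_range_of_summable_norm (hs0 [l]) (hs0 w)
      have h5 := summable_norm_sum_mul_range_of_summable_norm (hs0 [l]) (hs0 w)
      rw [e3, e, e2]
      have e6 : flow d p h l = ∑' n : ℕ,
          (((h ^ n / n.factorial : ℝ)) : ℂ) • (DD d)^[n] (ev p) [l] := rfl
      rw [e6, h4]
      exact h5.of_norm.hasSum
  refine ⟨hsum, ?_⟩
  have hm : ∀ (m : ℕ) (w : List L), HasSum (fun n : ℕ =>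
      (((h ^ n / n.factorial : ℝ)) : ℂ) • (DD d)^[n + m] (ev p) w)
      ((DD d)^[m] (ev (flow d p h)) w) := by
    intro m
    induction m with
    | zero => exact hbase
    | succ m ih =>
      intro w
      have h1 := a4a_DD_hasSum d (fun (n : ℕ) (w : List L) =>
        (((h ^ n / n.factorial : ℝ)) : ℂ) • (DD d)^[n + m] (ev p) w)
        ((DD d)^[m] (ev (flow d p h))) ih w
      have e1 : (DD d)^[m + 1] (ev (flow d p h)) w = DD d ((DD d)^[m] (ev (flow d p h))) w := by
        rw [Function.iterate_succ']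
        rfl
      have e2 : (fun n : ℕ => (((h ^ n / n.factorial : ℝ)) : ℂ) •
          (DD d)^[n + (m + 1)] (ev p) w) = fun n : ℕ => DD d (fun (w : List L) =>
          (((h ^ n / n.factorial : ℝ)) : ℂ) • (DD d)^[n + m] (ev p) w) w := by
        funext n
        rw [DD_smul]
        congr 1
        rw [← add_assoc, Function.iterate_succ']
        rfl
      rw [e1, e2]
      exact h1
  intro m w
  exact (hm m w).tsum_eq.symm

end Pool.Agent.H667R3.FF
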