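import Mathlib
import Pool.Agent.H667R3.FF.Defs
import Pool.Agent.H667R3.FF.A4a

/-! Task A4b (table h667b_tasks, shared note 777). The flow is reversible, Taylor expansion, closed algebra, law. -/

namespace Pool.Agent.H667R3.FF

open Pool.Agent.H667R2.FG
open scoped ComplexConjugate

/-! ### auxiliary lemmas -/

theorem A4b_fac (x y : ℝ) (N : ℕ) :
    ∑ q ∈ Finset.HasAntidiagonal.antidiagonal N, (x ^ q.1 / q.1.factorial) * (y ^ q.2 / q.2.factorial)
      = (x + y) ^ N / N.factorial := by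
  rw [(Commute.all x y).add_pow', Finset.sum_div]
  refine Finset.sum_congr rfl fun q hq => ?_
  have h1 : q.1 + q.2 = N := Finset.HasAntidiagonal.mem_antidiagonal.1 hq
  have h2 : (N.choose q.1 : ℝ) = N.factorial / (q.1.factorial * q.2.factorial) := by
    rw [← h1, Nat.cast_add_choose]
  have h3 : (N.factorial : ℝ) ≠ 0 := by exact_mod_cast N.factorial_ne_zero
  have h4 : (q.1.factorial : ℝ) ≠ 0 := by exact_mod_cast q.1.factorial_ne_zero
  have h5 : (q.2.factorial : ℝ) ≠ 0 := by exact_mod_cast q.2.factorial_ne_zero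
  rw [nsmul_eq_mul, h2]
  field_simp

/-- the double series -/
theorem A4b_double {B : Type} [NormedAddCommGroup B] [NormedSpace ℂ B] [CompleteSpace B]
    (a : ℕ → B) (K S h : ℝ) (hK : 0 < K) (ha : ∀ n, ‖a n‖ ≤ K ^ n * n.factorial * S)
    (hh : 2 * K * |h| < 1) :
    ∑' m : ℕ, ((((-h) ^ m / m.factorial : ℝ)) : ℂ) •
      ∑' n : ℕ, (((h ^ n / n.factorial : ℝ)) : ℂ) • a (n + m) = a 0 := by
  set f : ℕ × ℕ → B := fun q =>
    ((((-h) ^ q.1 / q.1.factorial : ℝ)) : ℂ) • (((h ^ q.2 / q.2.factorial : ℝ)) : ℂ) •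
      a (q.2 + q.1) with hf
  have hS0 : 0 ≤ S := by
    have := (norm_nonneg _).trans (ha 0)
    simpa using this
  have habs : 0 ≤ |h| := abs_nonneg h
  have hnf : ∀ q : ℕ × ℕ, ‖f q‖ ≤ (|h| ^ q.1 / q.1.factorial) * (|h| ^ q.2 / q.2.factorial) *
      (K ^ (q.2 + q.1) * (q.2 + q.1).factorial * S) := by
    intro q
    simp only [hf, norm_smul, Complex.norm_real, Real.norm_eq_abs, abs_div, abs_pow, abs_neg,
      Nat.abs_cast]
    rw [← mul_assoc]
    exact mul_le_mul_of_nonneg_left (ha _) (by positivity)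
  -- summability over the antidiagonals
  have hsum : Summable f := by
    apply Summable.of_norm
    rw [← (Finset.HasAntidiagonal.sigmaAntidiagonalEquivProd (A := ℕ)).summable_iff]
    rw [summable_sigma_of_nonneg]
    · refine ⟨fun N => (hasSum_fintype _).summable, ?_⟩
      have hgeo : Summable fun N : ℕ => (2 * K * |h|) ^ N * S :=
        (summable_geometric_of_lt_one (by positivity) hh).mul_right S
      refine Summable.of_nonneg_of_le (fun N => tsum_nonneg fun _ => norm_nonneg _) (fun N => ?_) hgeo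
      rw [tsum_fintype]
      have h1 : ∑ b : Finset.HasAntidiagonal.antidiagonal N,
          ((fun x => ‖f x‖) ∘ Finset.HasAntidiagonal.sigmaAntidiagonalEquivProd) ⟨N, b⟩
          = ∑ q ∈ Finset.HasAntidiagonal.antidiagonal N, ‖f q‖ := by
        rw [← Finset.sum_coe_sort (Finset.HasAntidiagonal.antidiagonal N) (fun q => ‖f q‖)]
        rfl
      rw [h1]
      calc ∑ q ∈ Finset.HasAntidiagonal.antidiagonal N, ‖f q‖
          ≤ ∑ q ∈ Finset.HasAntidiagonal.antidiagonal N, (|h| ^ q.1 / q.1.factorial) * (|h| ^ q.2 / q.2.factorial)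
              * (K ^ N * N.factorial * S) := by
            refine Finset.sum_le_sum fun q hq => ?_
            have h2 : q.2 + q.1 = N := by rw [add_comm]; exact Finset.HasAntidiagonal.mem_antidiagonal.1 hq
            have h3 := hnf q
            rw [h2] at h3
            exact h3
        _ = (|h| + |h|) ^ N / N.factorial * (K ^ N * N.factorial * S) := by
            rw [← Finset.sum_mul, A4b_fac]
        _ = (2 * K * |h|) ^ N * S := by
            have h3 : (N.factorial : ℝ) ≠ 0 := by exact_mod_cast N.factorial_ne_zero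
            have h4 : (2 * K * |h|) ^ N = (|h| + |h|) ^ N * K ^ N := by
              rw [← mul_pow]; ring
            rw [h4]
            field_simp
    · intro x
      exact norm_nonneg _
  have h1 : ∑' m : ℕ, ((((-h) ^ m / m.factorial : ℝ)) : ℂ) •
      ∑' n : ℕ, (((h ^ n / n.factorial : ℝ)) : ℂ) • a (n + m) = ∑' m : ℕ, ∑' n : ℕ, f (m, n) := by
    refine tsum_congr fun m => ?_
    exact (tsum_const_smul'' _).symm
  rw [h1, ← hsum.tsum_prod, ← (Finset.HasAntidiagonal.sigmaAntidiagonalEquivProd (A := ℕ)).tsum_eq f]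
  have hsum' : Summable fun x : (Σ N : ℕ, Finset.HasAntidiagonal.antidiagonal N) =>
      f (Finset.HasAntidiagonal.sigmaAntidiagonalEquivProd x) :=
    (Finset.HasAntidiagonal.sigmaAntidiagonalEquivProd (A := ℕ)).summable_iff.2 hsum
  rw [hsum'.tsum_sigma' (fun N => (hasSum_fintype _).summable)]
  have h2 : ∀ N : ℕ, ∑' c : Finset.HasAntidiagonal.antidiagonal N, f (Finset.HasAntidiagonal.sigmaAntidiagonalEquivProd ⟨N, c⟩)
      = ((((-h + h) ^ N / N.factorial : ℝ)) : ℂ) • a N := by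
    intro N
    rw [tsum_fintype]
    have h3 : ∑ c : Finset.HasAntidiagonal.antidiagonal N, f (Finset.HasAntidiagonal.sigmaAntidiagonalEquivProd ⟨N, c⟩)
        = ∑ q ∈ Finset.HasAntidiagonal.antidiagonal N, f q := by
      rw [← Finset.sum_coe_sort (Finset.HasAntidiagonal.antidiagonal N) f]
      rfl
    rw [h3, ← A4b_fac]
    push_cast
    rw [Finset.sum_smul]
    refine Finset.sum_congr rfl fun q hq => ?_
    have h4 : q.2 + q.1 = N := by rw [add_comm]; exact Finset.HasAntidiagonal.mem_antidiagonal.1 hq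
    simp only [hf]
    rw [h4, smul_smul]
    push_cast
    rfl
  rw [tsum_congr h2, tsum_eq_single 0]
  · simp
  · intro N hN
    rw [neg_add_cancel, zero_pow hN, zero_div]
    simp

/-- all iterates lie in the span of the words -/
theorem A4b_span {L : Type} {B : Type} [NormedRing B] [NormedAlgebra ℂ B]
    (d : L → (List L →₀ ℂ)) (p : L → B) (n : ℕ) (w : List L) :
    (DD d)^[n] (ev p) w ∈ Submodule.span ℂ (Set.range (ev p)) := by
  induction n generalizing w with
  | zero => exact Submodule.subset_span ⟨w, rfl⟩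
  | succ n ih =>
    rw [Function.iterate_succ_apply']
    unfold DD
    refine list_sum_mem ?_
    intro x hx
    rw [List.mem_map] at hx
    obtain ⟨t, _, rfl⟩ := hx
    refine Submodule.sum_mem _ fun v _ => ?_
    exact Submodule.smul_mem _ _ (ih _)

theorem A4b_DD_zero {L V : Type} [AddCommGroup V] [Module ℂ V] (d : L → (List L →₀ ℂ)) :
    DD d (fun _ => (0 : V)) = fun _ => 0 := by
  funext w
  unfold DD
  simp

theorem A4b_iter_zero {L V : Type} [AddCommGroup V] [Module ℂ V] (d : L → (List L →₀ ℂ)) (n : ℕ) :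
    (DD d)^[n] (fun _ => (0 : V)) = fun _ => 0 := by
  induction n with
  | zero => rfl
  | succ n ih => rw [Function.iterate_succ_apply', ih, A4b_DD_zero]

variable {L : Type} [Fintype L]

/-- the flow is reversible -/
theorem flow_flow (d : L → (List L →₀ ℂ)) (S : ℝ) (hS : 1 ≤ S) : ∃ h₀ : ℝ, 0 < h₀ ∧
    ∀ (B : Type) [NormedRing B] [NormedAlgebra ℂ B] [NormOneClass B] [CompleteSpace B]
      (p : L → B), (∀ l, ‖p l‖ ≤ S) → ∀ h : ℝ, |h| ≤ h₀ → flow d (flow d p h) (-h) = p := by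
  obtain ⟨h₁, hh₁, H1⟩ := ev_flow d S hS
  obtain ⟨K, hK, H2⟩ := dd_bound d S hS
  refine ⟨min h₁ (1 / (4 * K)), by positivity, ?_⟩
  intro B _ _ _ _ p hp h hh
  obtain ⟨-, H3⟩ := H1 B p hp h (hh.trans (min_le_left _ _))
  funext l
  have h4 : 2 * K * |h| < 1 := by
    have h5 := hh.trans (min_le_right _ _)
    rw [le_div_iff₀ (by positivity)] at h5
    nlinarith [abs_nonneg h]
  have h5 := A4b_double (fun n => (DD d)^[n] (ev p) [l]) K (2 * S) h hK (fun n => by
    have := H2 B (ev p) (norm_ev_le p S hp) n [l]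
    simpa using this) h4
  have h6 : ((DD d)^[0] (ev p) [l]) = p l := by simp [ev]
  rw [h6] at h5
  rw [← h5]
  unfold flow
  refine tsum_congr fun m => ?_
  congr 1
  have h7 := H3 m [l]
  exact h7

/-- first order expansion -/
theorem flow_taylor (d : L → (List L →₀ ℂ)) (S : ℝ) (hS : 1 ≤ S) : ∃ h₀ : ℝ, 0 < h₀ ∧
    ∃ C : ℝ, 0 ≤ C ∧ ∀ (B : Type) [NormedRing B] [NormedAlgebra ℂ B] [NormOneClass B]
      [CompleteSpace B] (p : L → B), (∀ l, ‖p l‖ ≤ S) → ∀ h : ℝ, |h| ≤ h₀ → ∀ w : List L,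
      ‖ev (flow d p h) w - ev p w - (h : ℂ) • DD d (ev p) w‖ ≤ C * (2 * S) ^ w.length * h ^ 2 := by
  obtain ⟨h₁, hh₁, H1⟩ := ev_flow d S hS
  obtain ⟨K, hK, H2⟩ := dd_bound d S hS
  refine ⟨min h₁ (1 / (2 * K)), by positivity, 2 * K ^ 2, by positivity, ?_⟩
  intro B _ _ _ _ p hp h hh w
  obtain ⟨H3, H4⟩ := H1 B p hp h (hh.trans (min_le_left _ _))
  have hs := (H3 0 w).of_norm
  have h5 := H4 0 w
  simp only [Function.iterate_zero, id_eq, add_zero] at h5 hs
  have hKh : K * |h| ≤ 1 / 2 := by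
    have h6 := hh.trans (min_le_right _ _)
    rw [le_div_iff₀ (by positivity)] at h6
    linarith
  rw [h5, ← hs.sum_add_tsum_nat_add 2, Finset.sum_range_succ, Finset.sum_range_one]
  have e0 : (((h ^ 0 / (Nat.factorial 0 : ℕ) : ℝ)) : ℂ) • (DD d)^[0] (ev p) w = ev p w := by simp
  have e1 : (((h ^ 1 / (Nat.factorial 1 : ℕ) : ℝ)) : ℂ) • (DD d)^[1] (ev p) w
      = (h : ℂ) • DD d (ev p) w := by simp
  rw [e0, e1]
  have e2 : ev p w + (h : ℂ) • DD d (ev p) w +
      ∑' i : ℕ, (((h ^ (i + 2) / (i + 2).factorial : ℝ)) : ℂ) • (DD d)^[i + 2] (ev p) w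
        - ev p w - (h : ℂ) • DD d (ev p) w
      = ∑' i : ℕ, (((h ^ (i + 2) / (i + 2).factorial : ℝ)) : ℂ) • (DD d)^[i + 2] (ev p) w := by
    abel
  rw [e2]
  have hb : ∀ i : ℕ, ‖(((h ^ (i + 2) / (i + 2).factorial : ℝ)) : ℂ) • (DD d)^[i + 2] (ev p) w‖
      ≤ (K * |h|) ^ i * ((K * |h|) ^ 2 * (2 * S) ^ w.length) := by
    intro i
    rw [norm_smul, Complex.norm_real, Real.norm_eq_abs, abs_div, abs_pow, Nat.abs_cast]
    have h7 := H2 B (ev p) (norm_ev_le p S hp) (i + 2) w
    have h8 : ((i + 2).factorial : ℝ) ≠ 0 := by exact_mod_cast (i + 2).factorial_ne_zero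
    calc |h| ^ (i + 2) / ((i + 2).factorial : ℝ) * ‖(DD d)^[i + 2] (ev p) w‖
        ≤ |h| ^ (i + 2) / ((i + 2).factorial : ℝ) *
          (K ^ (i + 2) * (i + 2).factorial * (2 * S) ^ w.length) :=
          mul_le_mul_of_nonneg_left h7 (by positivity)
      _ = (K * |h|) ^ i * ((K * |h|) ^ 2 * (2 * S) ^ w.length) := by
          rw [mul_pow, mul_pow, pow_add, pow_add]
          field_simp
  have hgeo : HasSum (fun i : ℕ => (K * |h|) ^ i * ((K * |h|) ^ 2 * (2 * S) ^ w.length))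
      ((1 - K * |h|)⁻¹ * ((K * |h|) ^ 2 * (2 * S) ^ w.length)) :=
    (hasSum_geometric_of_lt_one (by positivity) (by linarith)).mul_right _
  refine (tsum_of_norm_bounded hgeo hb).trans ?_
  have h9 : (1 - K * |h|)⁻¹ ≤ 2 := by
    rw [inv_le_comm₀ (by linarith) (by norm_num)]
    linarith
  calc (1 - K * |h|)⁻¹ * ((K * |h|) ^ 2 * (2 * S) ^ w.length)
      ≤ 2 * ((K * |h|) ^ 2 * (2 * S) ^ w.length) :=
        mul_le_mul_of_nonneg_right h9 (by positivity)
    _ = 2 * K ^ 2 * (2 * S) ^ w.length * h ^ 2 := by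
        rw [mul_pow, sq_abs]; ring

/-- the flow stays in the closed algebra (also if the series diverges: then it is `0`) -/
theorem flow_inAlg {L : Type} {B : Type} [NormedRing B] [NormedAlgebra ℂ B]
    (d : L → (List L →₀ ℂ)) (p : L → B) (h : ℝ) (l : L) : InAlg p (flow d p h l) := by
  have key : ∀ y ∈ Submodule.span ℂ (Set.range (ev p)), ∃ R : List L →₀ ℂ,
      (R.sum fun w c => c • ev p w) = y := by
    intro y hy
    exact Finsupp.mem_span_range_iff_exists_finsupp.1 hy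
  intro ε hε
  by_cases hs : Summable fun n : ℕ => (((h ^ n / n.factorial : ℝ)) : ℂ) • ((DD d)^[n] (ev p)) [l]
  · have h1 := hs.hasSum
    have h2 := h1 (Metric.ball_mem_nhds _ hε)
    rw [Filter.mem_map, SummationFilter.unconditional_filter] at h2
    obtain ⟨s, hs2⟩ := Filter.mem_atTop_sets.1 h2
    have h3 := hs2 s le_rfl
    rw [Set.mem_preimage, Metric.mem_ball, dist_comm, dist_eq_norm] at h3
    have h4 : ∑ n ∈ s, (((h ^ n / n.factorial : ℝ)) : ℂ) • ((DD d)^[n] (ev p)) [l] ∈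
        Submodule.span ℂ (Set.range (ev p)) :=
      Submodule.sum_mem _ fun n _ => Submodule.smul_mem _ _ (A4b_span d p n [l])
    obtain ⟨R, hR⟩ := key _ h4
    refine ⟨R, ?_⟩
    rw [hR]
    exact h3
  · refine ⟨0, ?_⟩
    unfold flow
    rw [tsum_eq_zero_of_not_summable hs]
    simpa using hε

/-- linear functionals killed by `DD d` are preserved -/
theorem flow_law (d : L → (List L →₀ ℂ)) (S : ℝ) (hS : 1 ≤ S) : ∃ h₀ : ℝ, 0 < h₀ ∧
    ∀ (B : Type) [NormedRing B] [NormedAlgebra ℂ B] [NormOneClass B] [CompleteSpace B]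
      (p : L → B), (∀ l, ‖p l‖ ≤ S) → ∀ h : ℝ, |h| ≤ h₀ → ∀ φ : B →L[ℂ] ℂ,
      (∀ w, DD d (fun u => φ (ev p u)) w = 0) → ∀ w, φ (ev (flow d p h) w) = φ (ev p w) := by
  obtain ⟨h₁, hh₁, H1⟩ := ev_flow d S hS
  refine ⟨h₁, hh₁, ?_⟩
  intro B _ _ _ _ p hp h hh φ hφ w
  obtain ⟨H3, H4⟩ := H1 B p hp h hh
  have hs := (H3 0 w).of_norm
  have h5 := H4 0 w
  simp only [Function.iterate_zero, id_eq, add_zero] at h5 hs
  rw [h5, φ.map_tsum hs, tsum_eq_single 0]
  · simp
  · intro n hn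
    obtain ⟨m, rfl⟩ := Nat.exists_eq_succ_of_ne_zero hn
    rw [map_smul]
    have h6 := DD_iter_map d (ev p) (φ : B →ₗ[ℂ] ℂ) (m + 1) w
    have h7 : (DD d)^[m + 1] (fun u => (φ : B →ₗ[ℂ] ℂ) (ev p u)) = fun _ => 0 := by
      rw [Function.iterate_succ_apply]
      have h8 : DD d (fun u => (φ : B →ₗ[ℂ] ℂ) (ev p u)) = fun _ => 0 := by
        funext w'
        exact hφ w'
      rw [h8, A4b_iter_zero]
    rw [h7] at h6
    have h8 : φ ((DD d)^[m + 1] (ev p) w) = 0 := h6.symm
    rw [Nat.succ_eq_add_one, h8, smul_zero]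

end Pool.Agent.H667R3.FF
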