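import Mathlib
import Pool.Agent.H667R3.FF.Defs
import Pool.Agent.H667R3.FF.A4a

/-! Task A4c (table h667b_tasks, shared note 777). Replace every `sorry`; keep the statements. -/

namespace Pool.Agent.H667R3.FF

open Pool.Agent.H667R2.FG
open scoped ComplexConjugate

theorem A4c_canc_ev {X B : Type} [Monoid B] (p : Lt X → B)
    (hp : ∀ x : X × Bool, p (some x) * p (some (x.1, !x.2)) = 1) : Canc (ev p) := by
  intro w₁ w₂ x
  rw [ev_append, ev_cons, ev_cons, ev_append, ← mul_assoc (p (some x)), hp x, one_mul]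

theorem A4c_canc_iter {X V : Type} [AddCommGroup V] [Module ℂ V]
    (d : Lt X → (List (Lt X) →₀ ℂ))
    (hcanc : ∀ (F : List (Lt X) → V), Canc F → Canc (DD d F)) (F : List (Lt X) → V)
    (hF : Canc F) (n : ℕ) : Canc ((DD d)^[n] F) := by
  induction n with
  | zero => exact hF
  | succ n ih =>
    rw [Function.iterate_succ_apply']
    exact hcanc _ ih

theorem A4c_star_one {X B : Type} [AddCommGroup B] [Module ℂ B] (d : Lt X → (List (Lt X) →₀ ℂ))
    (hst : ∀ l v, d (linv l) (wstar v) = conj (d l v)) (l : Lt X) (G : List (Lt X) → B) :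
    (d (linv l)).sum (fun v c => c • G v) = (d l).sum fun v c => conj c • G (wstar v) := by
  unfold Finsupp.sum
  refine Finset.sum_nbij' wstar wstar ?_ ?_ ?_ ?_ ?_
  · intro v hv
    rw [Finsupp.mem_support_iff] at hv ⊢
    intro h0
    apply hv
    have := hst l (wstar v)
    rw [wstar_wstar, h0, map_zero] at this
    exact this
  · intro v hv
    rw [Finsupp.mem_support_iff] at hv ⊢
    rw [hst]
    exact fun h0 => hv (by simpa using h0)
  · intro v _; exact wstar_wstar v
  · intro v _; exact wstar_wstar v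
  · intro v _
    have := hst l (wstar v)
    rw [wstar_wstar] at this
    simp only [wstar_wstar, this]

theorem A4c_star_DD {X B : Type} [AddCommGroup B] [Module ℂ B] [StarAddMonoid B]
    [StarModule ℂ B] (d : Lt X → (List (Lt X) →₀ ℂ))
    (hst : ∀ l v, d (linv l) (wstar v) = conj (d l v)) (F : List (Lt X) → B)
    (hF : ∀ w, star (F w) = F (wstar w)) (w : List (Lt X)) :
    star (DD d F w) = DD d F (wstar w) := by
  unfold DD
  rw [splits_wstar, List.map_reverse, List.sum_reverse, List.map_map]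
  have h1 : ∀ L : List B, star L.sum = (L.map star).sum := by
    intro L
    induction L with
    | nil => simp
    | cons a L ih => rw [List.sum_cons, star_add, ih, List.map_cons, List.sum_cons]
  rw [h1, List.map_map]
  congr 1
  refine List.map_congr_left fun t _ => ?_
  simp only [Function.comp_apply]
  rw [A4c_star_one d hst t.2.1 (fun v => F (wstar t.2.2 ++ v ++ wstar t.1))]
  unfold Finsupp.sum
  rw [star_sum]
  refine Finset.sum_congr rfl fun v _ => ?_
  rw [star_smul, hF, wstar_append, wstar_append]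
  simp only [List.append_assoc]
  rfl

theorem A4c_star_ev {X B : Type} [Monoid B] [StarMul B] (p : Lt X → B)
    (hp : ∀ l, star (p l) = p (linv l)) (w : List (Lt X)) : star (ev p w) = ev p (wstar w) := by
  induction w with
  | nil =>
    have : wstar ([] : List (Lt X)) = [] := rfl
    rw [this, ev_nil, star_one]
  | cons l w ih =>
    have h1 : wstar (l :: w) = wstar w ++ [linv l] := by
      unfold wstar
      rw [List.map_cons, List.reverse_cons]
    rw [ev_cons, star_mul, ih, hp, h1, ev_append, ev_cons, ev_nil, mul_one]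

theorem A4c_star_iter {X B : Type} [Ring B] [Algebra ℂ B] [StarRing B]
    [StarModule ℂ B] (d : Lt X → (List (Lt X) →₀ ℂ))
    (hst : ∀ l v, d (linv l) (wstar v) = conj (d l v)) (p : Lt X → B)
    (hp : ∀ l, star (p l) = p (linv l)) (n : ℕ) (w : List (Lt X)) :
    star ((DD d)^[n] (ev p) w) = (DD d)^[n] (ev p) (wstar w) := by
  induction n generalizing w with
  | zero => exact A4c_star_ev p hp w
  | succ n ih =>
    rw [Function.iterate_succ_apply']
    exact A4c_star_DD d hst _ ih w

/-- values of `ev (flow)` on cancelling pairs -/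
theorem flow_uni {X : Type} [Fintype X] (d : Lt X → (List (Lt X) →₀ ℂ)) (S : ℝ) (hS : 1 ≤ S)
    (hcanc : ∀ (V : Type) [AddCommGroup V] [Module ℂ V] (F : List (Lt X) → V),
      Canc F → Canc (DD d F)) : ∃ h₀ : ℝ, 0 < h₀ ∧
    ∀ (B : Type) [NormedRing B] [NormedAlgebra ℂ B] [NormOneClass B] [CompleteSpace B]
      (p : Lt X → B), (∀ l, ‖p l‖ ≤ S) → (∀ x : X × Bool, p (some x) * p (some (x.1, !x.2)) = 1) →
      ∀ h : ℝ, |h| ≤ h₀ →
      ∀ x : X × Bool, flow d p h (some x) * flow d p h (some (x.1, !x.2)) = 1 := by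
  obtain ⟨h₀, hpos, H⟩ := ev_flow d S hS
  refine ⟨h₀, hpos, ?_⟩
  intro B _ _ _ _ p hpS hp h hh x
  have h1 := (H B p hpS h hh).2 0 [some x, some (x.1, !x.2)]
  rw [Function.iterate_zero, id_eq, ev_cons, ev_cons, ev_nil, mul_one] at h1
  rw [h1, tsum_eq_single 0]
  · simp only [pow_zero, Nat.factorial_zero, Nat.cast_one, div_one, Complex.ofReal_one, one_smul,
      Nat.zero_add, Function.iterate_zero, id_eq]
    rw [ev_cons, ev_cons, ev_nil, mul_one, hp x]
  · intro n hn
    have h2 := A4c_canc_iter d (hcanc B) (ev p) (A4c_canc_ev p hp) (n + 0) [] [] x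
    obtain ⟨k, rfl⟩ := Nat.exists_eq_succ_of_ne_zero hn
    have h3 : (DD d)^[k.succ + 0] (ev p) [] = 0 := by
      rw [Nat.add_zero, Function.iterate_succ_apply', DD_nil]
    rw [List.nil_append, List.nil_append, h3] at h2
    rw [h2, smul_zero]

/-- star compatibility of the flow -/
theorem flow_star {X : Type} [Fintype X] (d : Lt X → (List (Lt X) →₀ ℂ)) (S : ℝ) (hS : 1 ≤ S)
    (hst : ∀ l v, d (linv l) (wstar v) = conj (d l v)) : ∃ h₀ : ℝ, 0 < h₀ ∧
    ∀ (B : Type) [NormedRing B] [NormedAlgebra ℂ B] [NormOneClass B] [CompleteSpace B]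
      [StarRing B] [NormedStarGroup B] [StarModule ℂ B]
      (p : Lt X → B), (∀ l, ‖p l‖ ≤ S) → (∀ l, star (p l) = p (linv l)) →
      ∀ h : ℝ, |h| ≤ h₀ → ∀ l, star (flow d p h l) = flow d p h (linv l) := by
  refine ⟨1, one_pos, ?_⟩
  intro B _ _ _ _ _ _ _ p _ hp h _ l
  unfold flow
  rw [tsum_star]
  refine tsum_congr fun n => ?_
  rw [star_smul, A4c_star_iter d hst p hp]
  congr 1
  exact Complex.conj_ofReal _

end Pool.Agent.H667R3.FF
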