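import Mathlib
import Pool.Agent.H667R3.FF.Defs
import Pool.Agent.H667R3.FF.A4b
import Pool.Agent.H667R3.FF.A4c

/-! Task A5 (table h667b_tasks, shared note 777). -/

namespace Pool.Agent.H667R3.FF

open Pool.Agent.H667R2.FG
open scoped ComplexConjugate

theorem one_step {X : Type} [Fintype X] {H : Type} [NormedAddCommGroup H]
    [InnerProductSpace ℂ H] [CompleteSpace H] [Nontrivial H]
    (d : Lt X → (List (Lt X) →₀ ℂ))
    (hst : ∀ l v, d (linv l) (wstar v) = conj (d l v))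
    (hcanc : ∀ (V : Type) [AddCommGroup V] [Module ℂ V] (F : List (Lt X) → V),
      Canc F → Canc (DD d F)) (S : ℝ) (hS : 1 ≤ S) :
    ∃ h₀ : ℝ, 0 < h₀ ∧ ∃ C : ℝ, 0 ≤ C ∧
    ∀ p : Lt X → (H →L[ℂ] H), Good p → (∀ l, ‖p l‖ ≤ S) → ∀ h : ℝ, |h| ≤ h₀ →
    ∃ p' : Lt X → (H →L[ℂ] H), Good p' ∧
      (∀ w, ‖ev p' w - ev p w - (h : ℂ) • DD d (ev p) w‖ ≤ C * (2 * S) ^ w.length * h ^ 2) ∧
      (∀ l, InAlg p (p' l)) ∧ (∀ l, InAlg p' (p l)) ∧
      (∀ Ω : H, (∀ w, DD d (mom Ω p) w = 0) → ∀ w, mom Ω p' w = mom Ω p w) := by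
  obtain ⟨h₁, hh₁, H1⟩ := flow_flow (L := Lt X) d S hS
  obtain ⟨h₂, hh₂, C, hC, H2⟩ := flow_taylor (L := Lt X) d S hS
  obtain ⟨h₃, hh₃, H3⟩ := flow_law (L := Lt X) d S hS
  obtain ⟨h₄, hh₄, H4⟩ := flow_uni d S hS hcanc
  obtain ⟨h₅, hh₅, H5⟩ := flow_star d S hS hst
  refine ⟨min h₁ (min h₂ (min h₃ (min h₄ h₅))), by positivity, C, hC, ?_⟩
  intro p hp hpS h hh
  have g1 : |h| ≤ h₁ := hh.trans (min_le_left _ _)
  have g2 : |h| ≤ h₂ := hh.trans ((min_le_right _ _).trans (min_le_left _ _))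
  have g3 : |h| ≤ h₃ :=
    hh.trans ((min_le_right _ _).trans ((min_le_right _ _).trans (min_le_left _ _)))
  have g4 : |h| ≤ h₄ := hh.trans ((min_le_right _ _).trans ((min_le_right _ _).trans
    ((min_le_right _ _).trans (min_le_left _ _))))
  have g5 : |h| ≤ h₅ := hh.trans ((min_le_right _ _).trans ((min_le_right _ _).trans
    ((min_le_right _ _).trans (min_le_right _ _))))
  have hback : flow d (flow d p h) (-h) = p := H1 (H →L[ℂ] H) p hpS h g1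
  refine ⟨flow d p h, ⟨?_, ?_⟩, ?_, ?_, ?_, ?_⟩
  · exact H4 (H →L[ℂ] H) p hpS hp.uni h g4
  · exact H5 (H →L[ℂ] H) p hpS hp.st h g5
  · intro w
    exact H2 (H →L[ℂ] H) p hpS h g2 w
  · intro l
    exact flow_inAlg d p h l
  · intro l
    have := flow_inAlg d (flow d p h) (-h) l
    rwa [hback] at this
  · intro Ω hΩ w
    let φ : (H →L[ℂ] H) →L[ℂ] ℂ := (innerSL ℂ Ω).comp (ContinuousLinearMap.apply ℂ H Ω)
    have hφ : ∀ x : H →L[ℂ] H, φ x = inner ℂ Ω (x Ω) := fun x => rfl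
    have := H3 (H →L[ℂ] H) p hpS h g3 φ (by
      intro w
      exact hΩ w) w
    exact this

end Pool.Agent.H667R3.FF
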