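import Mathlib
import Pool.Agent.H667R3.FF.Defs
import Pool.Agent.H667R3.FF.A1
import Pool.Agent.H667R3.FF.A2

/-! Task A6 (table h667b_tasks, shared note 777). -/

namespace Pool.Agent.H667R3.FF

open Pool.Agent.H667R2.FG
open scoped ComplexConjugate

variable {X : Type} [DecidableEq X] {m : ℕ} {e : Fin m → X}

theorem A6_sum_true (P : FreeGroup X →₀ ℝ)
    (η : Fin m → (FreeGroup X × FreeGroup X →₀ ℝ)) {V : Type} [AddCommGroup V] [Module ℂ V]
    (G : List (Lt X) → V) (x : X) :
    (dd e P η (some (x, true))).sum (fun v c => c • G v) =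
      ∑ i, if e i = x then (η i).sum fun ab r =>
        (r : ℂ) • G (some (x, true) :: (gword ab.1⁻¹ ++ none :: gword ab.2⁻¹)) else 0 := by
  have h : ∀ f : List (Lt X) →₀ ℂ, f.sum (fun v c => c • G v) =
      Finsupp.linearCombination ℂ G f := fun f => rfl
  rw [h, dd, map_sum]
  refine Finset.sum_congr rfl fun i _ => ?_
  split_ifs with hi
  · rw [map_finsuppSum]
    simp only [Finsupp.linearCombination_single]
  · exact map_zero _

theorem A6_sum_false (P : FreeGroup X →₀ ℝ)
    (η : Fin m → (FreeGroup X × FreeGroup X →₀ ℝ)) {V : Type} [AddCommGroup V] [Module ℂ V]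
    (G : List (Lt X) → V) (x : X) :
    (dd e P η (some (x, false))).sum (fun v c => c • G v) =
      ∑ i, if e i = x then (η i).sum fun ab r =>
        (-(r : ℂ)) • G (gword ab.1⁻¹ ++ none :: (gword ab.2⁻¹ ++ [some (x, false)])) else 0 := by
  have h : ∀ f : List (Lt X) →₀ ℂ, f.sum (fun v c => c • G v) =
      Finsupp.linearCombination ℂ G f := fun f => rfl
  rw [h, dd, map_sum]
  refine Finset.sum_congr rfl fun i _ => ?_
  split_ifs with hi
  · rw [map_finsuppSum]
    simp only [Finsupp.linearCombination_single]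
  · exact map_zero _

theorem A6_pair (P : FreeGroup X →₀ ℝ)
    (η : Fin m → (FreeGroup X × FreeGroup X →₀ ℝ)) (V : Type) [AddCommGroup V] [Module ℂ V]
    (F : List (Lt X) → V) (hF : Canc F) (w₁ w₂ : List (Lt X)) (x : X × Bool) :
    DD (dd e P η) (fun u => F (w₁ ++ (u ++ w₂))) ([some x] ++ [some (x.1, !x.2)]) = 0 := by
  rw [DD_append, DD_singleton, DD_singleton]
  obtain ⟨x, b⟩ := x
  cases b with
  | true =>
    simp only [Bool.not_true]
    rw [A6_sum_true P η (fun v => F (w₁ ++ (v ++ [some (x, false)] ++ w₂))),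
      A6_sum_false P η (fun v => F (w₁ ++ ([some (x, true)] ++ v ++ w₂))),
      ← Finset.sum_add_distrib]
    refine Finset.sum_eq_zero fun i _ => ?_
    split_ifs with hi
    · rw [← Finsupp.sum_add]
      refine Finset.sum_eq_zero fun ab _ => ?_
      simp
    · exact add_zero _
  | false =>
    simp only [Bool.not_false]
    rw [A6_sum_false P η (fun v => F (w₁ ++ (v ++ [some (x, true)] ++ w₂))),
      A6_sum_true P η (fun v => F (w₁ ++ ([some (x, false)] ++ v ++ w₂))),
      ← Finset.sum_add_distrib]
    refine Finset.sum_eq_zero fun i _ => ?_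
    split_ifs with hi
    · rw [← Finsupp.sum_add]
      refine Finset.sum_eq_zero fun ab _ => ?_
      have h1 : ∀ A B : List (Lt X),
          F (w₁ ++ (A ++ none :: (B ++ [some (x, false)]) ++ [some (x, true)] ++ w₂)) =
          F (w₁ ++ (A ++ none :: B) ++ w₂) := by
        intro A B
        have := hF (w₁ ++ (A ++ none :: B)) w₂ (x, false)
        simpa using this
      have h2 : ∀ A B : List (Lt X),
          F (w₁ ++ ([some (x, false)] ++ (some (x, true) :: (A ++ none :: B)) ++ w₂)) =
          F (w₁ ++ (A ++ none :: B) ++ w₂) := by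
        intro A B
        have := hF w₁ ((A ++ none :: B) ++ w₂) (x, false)
        simpa using this
      simp only [h1, h2]
      simp
    · exact add_zero _

theorem dd_canc (P : FreeGroup X →₀ ℝ)
    (η : Fin m → (FreeGroup X × FreeGroup X →₀ ℝ)) (V : Type) [AddCommGroup V] [Module ℂ V]
    (F : List (Lt X) → V) (hF : Canc F) : Canc (DD (dd e P η) F) := by
  intro w₁ w₂ x
  have h0 : w₁ ++ some x :: some (x.1, !x.2) :: w₂ =
      w₁ ++ (([some x] ++ [some (x.1, !x.2)]) ++ w₂) := by simp
  rw [h0, DD_append, DD_append, A6_pair P η V F hF w₁ w₂ x, DD_append, zero_add]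
  have h1 : (fun u => F (u ++ ([some x] ++ [some (x.1, !x.2)] ++ w₂))) =
      fun u => F (u ++ w₂) := by
    funext u
    have := hF u w₂ x
    simpa using this
  have h2 : (fun u => F (w₁ ++ ([some x] ++ [some (x.1, !x.2)] ++ u))) =
      fun u => F (w₁ ++ u) := by
    funext u
    have := hF w₁ u x
    simpa using this
  rw [h1, h2]

theorem A6_wstar_inj {v w : List (Lt X)} : wstar v = wstar w ↔ v = w := by
  constructor
  · intro h
    have := congrArg wstar h
    rwa [wstar_wstar, wstar_wstar] at this
  · rintro rfl; rfl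

theorem A6_single (w v : List (Lt X)) (r : ℂ) (hr : conj r = r) :
    (Finsupp.single (wstar w) r) (wstar v) = conj ((Finsupp.single w r) v) := by
  classical
  rw [Finsupp.single_apply, Finsupp.single_apply]
  by_cases h : w = v
  · rw [if_pos h, if_pos (A6_wstar_inj.2 h), hr]
  · rw [if_neg h, if_neg (fun h' => h (A6_wstar_inj.1 h')), map_zero]

theorem A6_eta {η : FreeGroup X × FreeGroup X →₀ ℝ}
    (hη : ∀ a b, η (b⁻¹, a⁻¹) = -η (a, b)) {V : Type} [AddCommGroup V]
    (f : FreeGroup X × FreeGroup X → ℝ → V) (hf0 : ∀ a, f a 0 = 0)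
    (hf : ∀ a r s, f a (r + s) = f a r + f a s) :
    η.sum f = η.sum fun ab r => f (ab.2⁻¹, ab.1⁻¹) (-r) := by
  classical
  have hinj : Function.Injective
      (fun ab : FreeGroup X × FreeGroup X => ((ab.2⁻¹, ab.1⁻¹) : FreeGroup X × FreeGroup X)) := by
    rintro ⟨a, b⟩ ⟨c, d⟩ h
    simp only [Prod.mk.injEq, inv_inj] at h
    exact Prod.ext h.2 h.1
  have h1 : η = (-η).mapDomain
      (fun ab : FreeGroup X × FreeGroup X => ((ab.2⁻¹, ab.1⁻¹) : FreeGroup X × FreeGroup X)) := by
    ext ⟨a, b⟩
    have h2 := Finsupp.mapDomain_apply hinj (-η) (b⁻¹, a⁻¹)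
    simp only [inv_inv] at h2
    rw [h2, Finsupp.neg_apply, hη, neg_neg]
  conv_lhs => rw [h1]
  rw [Finsupp.sum_mapDomain_index hf0 hf, Finsupp.sum_neg_index]
  intro a
  exact hf0 _

theorem dd_star {P : FreeGroup X →₀ ℝ} {η : Fin m → (FreeGroup X × FreeGroup X →₀ ℝ)}
    (hP : ∀ v, P v⁻¹ = P v) (hη : ∀ i a b, η i (b⁻¹, a⁻¹) = -η i (a, b))
    (l : Lt X) (v : List (Lt X)) : dd e P η (linv l) (wstar v) = conj (dd e P η l v) := by
  classical
  rcases l with _ | ⟨x, b⟩
  · have h1 : P = P.mapDomain (fun g => g⁻¹) := by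
      ext g
      have h2 := Finsupp.mapDomain_apply inv_injective P g⁻¹
      simp only [inv_inv] at h2
      exact (h2.trans (hP g)).symm
    have h3 : dd e P η (none : Lt X) =
        P.sum fun g c => Finsupp.single (wstar (gword g)) (-(c : ℂ)) := by
      rw [dd]
      conv_lhs => rw [h1]
      rw [Finsupp.sum_mapDomain_index]
      · simp only [wstar_gword]
      · intro g; simp
      · intro g r s
        rw [← Finsupp.single_add]
        congr 1
        push_cast; ring
    have h3' : dd e P η (none : Lt X) =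
        P.sum fun g c => Finsupp.single (gword g) (-(c : ℂ)) := rfl
    rw [linv]
    conv_lhs => rw [h3]
    conv_rhs => rw [h3']
    rw [Finsupp.sum_apply, Finsupp.sum_apply, map_finsuppSum]
    refine Finset.sum_congr rfl fun g _ => ?_
    exact A6_single _ _ _ (by simp)
  · cases b with
    | true =>
      rw [linv]
      simp only [Bool.not_true, dd]
      rw [Finsupp.finsetSum_apply, Finsupp.finsetSum_apply, map_sum]
      refine Finset.sum_congr rfl fun i _ => ?_
      split_ifs with hi
      · rw [A6_eta (hη i) _ (by intro a; simp)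
          (by intro a r s; rw [← Finsupp.single_add]; congr 1; push_cast; ring),
          Finsupp.sum_apply, Finsupp.sum_apply, map_finsuppSum]
        refine Finset.sum_congr rfl fun ab _ => ?_
        have h4 : gword (ab.2⁻¹)⁻¹ ++ none :: (gword (ab.1⁻¹)⁻¹ ++ [some (x, false)]) =
            wstar (some (x, true) :: (gword ab.1⁻¹ ++ none :: gword ab.2⁻¹)) := by
          rw [← wstar_gword ab.2⁻¹, ← wstar_gword ab.1⁻¹]
          simp [wstar, linv]
        simp only [h4]
        have h5 := A6_single (some (x, true) :: (gword ab.1⁻¹ ++ none :: gword ab.2⁻¹)) v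
          ((η i ab : ℝ) : ℂ) (Complex.conj_ofReal _)
        convert h5 using 3
        push_cast; ring
      · simp
    | false =>
      rw [linv]
      simp only [Bool.not_false, dd]
      rw [Finsupp.finsetSum_apply, Finsupp.finsetSum_apply, map_sum]
      refine Finset.sum_congr rfl fun i _ => ?_
      split_ifs with hi
      · rw [A6_eta (hη i) _ (by intro a; simp)
          (by intro a r s; rw [← Finsupp.single_add]; congr 1; push_cast; ring),
          Finsupp.sum_apply, Finsupp.sum_apply, map_finsuppSum]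
        refine Finset.sum_congr rfl fun ab _ => ?_
        have h4 : some (x, true) :: (gword (ab.2⁻¹)⁻¹ ++ none :: gword (ab.1⁻¹)⁻¹) =
            wstar (gword ab.1⁻¹ ++ none :: (gword ab.2⁻¹ ++ [some (x, false)])) := by
          rw [← wstar_gword ab.2⁻¹, ← wstar_gword ab.1⁻¹]
          simp [wstar, linv]
        simp only [h4]
        have h5 := A6_single (gword ab.1⁻¹ ++ none :: (gword ab.2⁻¹ ++ [some (x, false)])) v
          (-((η i ab : ℝ) : ℂ)) (by rw [map_neg, Complex.conj_ofReal])
        convert h5 using 3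
        push_cast; ring
      · simp

end Pool.Agent.H667R3.FF
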