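import Mathlib
import Pool.Agent.H667R3.FF.Defs
import Pool.Agent.H667R3.FF.A7a

/-! Task A7b (table h667b_tasks, shared note 777). -/

namespace Pool.Agent.H667R3.FF

open Pool.Agent.H667R2.FG
open scoped ComplexConjugate

variable {X : Type} [DecidableEq X] {m : ℕ} {e : Fin m → X}

/-- one split term of `Λ` -/
noncomputable def A7b_term (e : Fin m → X) (η : Fin m → (FreeGroup X × FreeGroup X →₀ ℝ))
    (μ : List (Lt X) → ℂ) (V : List (Lt X)) (l : Lt X) (V' : List (Lt X)) : ℂ :=
  match l with
    | none => 0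
    | some (x, true) => ∑ i, if e i = x then (η i).sum fun ab r =>
        (r : ℂ) * μ (V ++ some (x, true) :: gword ab.1⁻¹) * μ (gword ab.2⁻¹ ++ V') else 0
    | some (x, false) => ∑ i, if e i = x then (η i).sum fun ab r =>
        -((r : ℂ) * μ (V ++ gword ab.1⁻¹) * μ (gword ab.2⁻¹ ++ some (x, false) :: V'))
        else 0

theorem A7b_lam0 (e : Fin m → X) (P : FreeGroup X →₀ ℝ)
    (η : Fin m → (FreeGroup X × FreeGroup X →₀ ℝ)) (μ : List (Lt X) → ℂ) (W : List (Lt X)) :
    lam0 e P η μ W = -(P.sum fun g c => (c : ℂ) * μ (gword g ++ W)) +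
      ((splits W).map fun t => A7b_term e η μ t.1 t.2.1 t.2.2).sum := by
  unfold lam0 A7b_term
  rfl

/-- `A7b_term` as a linear functional of the right word -/
noncomputable def A7b_R (e : Fin m → X) (η : Fin m → (FreeGroup X × FreeGroup X →₀ ℝ))
    (μ : List (Lt X) → ℂ) (V : List (Lt X)) (l : Lt X) : (List (X × Bool) → ℂ) →ₗ[ℂ] ℂ :=
  match l with
    | none => 0
    | some (x, true) => ∑ i, if e i = x then (η i).sum fun ab r =>
        ((r : ℂ) * μ (V ++ some (x, true) :: gword ab.1⁻¹)) •
          (LinearMap.proj (ab.2⁻¹.toWord) : (List (X × Bool) → ℂ) →ₗ[ℂ] ℂ) else 0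
    | some (x, false) => ∑ i, if e i = x then (η i).sum fun ab r =>
        (-((r : ℂ) * μ (V ++ gword ab.1⁻¹))) •
          (LinearMap.proj (ab.2⁻¹.toWord ++ [(x, false)]) : (List (X × Bool) → ℂ) →ₗ[ℂ] ℂ) else 0

theorem A7b_R_apply (e : Fin m → X) (η : Fin m → (FreeGroup X × FreeGroup X →₀ ℝ))
    (μ : List (Lt X) → ℂ) (V : List (Lt X)) (l : Lt X) (V' : List (Lt X)) :
    A7b_R e η μ V l (fun U => μ (U.map some ++ V')) = A7b_term e η μ V l V' := by
  match l with
  | none => rfl
  | some (x, true) =>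
    show (∑ i, if e i = x then (η i).sum fun ab r =>
        ((r : ℂ) * μ (V ++ some (x, true) :: gword ab.1⁻¹)) •
          (LinearMap.proj (ab.2⁻¹.toWord) : (List (X × Bool) → ℂ) →ₗ[ℂ] ℂ) else 0) _ =
      ∑ i, if e i = x then (η i).sum fun ab r =>
        (r : ℂ) * μ (V ++ some (x, true) :: gword ab.1⁻¹) * μ (gword ab.2⁻¹ ++ V') else 0
    rw [LinearMap.sum_apply]
    refine Finset.sum_congr rfl fun i _ => ?_
    split_ifs
    · rw [Finsupp.sum, LinearMap.sum_apply, Finsupp.sum]
      refine Finset.sum_congr rfl fun ab _ => ?_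
      simp [gword]
    · rfl
  | some (x, false) =>
    show (∑ i, if e i = x then (η i).sum fun ab r =>
        (-((r : ℂ) * μ (V ++ gword ab.1⁻¹))) •
          (LinearMap.proj (ab.2⁻¹.toWord ++ [(x, false)]) : (List (X × Bool) → ℂ) →ₗ[ℂ] ℂ)
          else 0) _ =
      ∑ i, if e i = x then (η i).sum fun ab r =>
        -((r : ℂ) * μ (V ++ gword ab.1⁻¹) * μ (gword ab.2⁻¹ ++ some (x, false) :: V'))
        else 0
    rw [LinearMap.sum_apply]
    refine Finset.sum_congr rfl fun i _ => ?_
    split_ifs
    · rw [Finsupp.sum, LinearMap.sum_apply, Finsupp.sum]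
      refine Finset.sum_congr rfl fun ab _ => ?_
      simp [gword]
    · rfl

/-- `A7b_term` as a linear functional of the left word -/
noncomputable def A7b_L (e : Fin m → X) (η : Fin m → (FreeGroup X × FreeGroup X →₀ ℝ))
    (μ : List (Lt X) → ℂ) (l : Lt X) (V' : List (Lt X)) : (List (X × Bool) → ℂ) →ₗ[ℂ] ℂ :=
  match l with
    | none => 0
    | some (x, true) => ∑ i, if e i = x then (η i).sum fun ab r =>
        ((r : ℂ) * μ (gword ab.2⁻¹ ++ V')) •
          (LinearMap.proj ((x, true) :: ab.1⁻¹.toWord) : (List (X × Bool) → ℂ) →ₗ[ℂ] ℂ) else 0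
    | some (x, false) => ∑ i, if e i = x then (η i).sum fun ab r =>
        (-((r : ℂ) * μ (gword ab.2⁻¹ ++ some (x, false) :: V'))) •
          (LinearMap.proj (ab.1⁻¹.toWord) : (List (X × Bool) → ℂ) →ₗ[ℂ] ℂ) else 0

theorem A7b_L_apply (e : Fin m → X) (η : Fin m → (FreeGroup X × FreeGroup X →₀ ℝ))
    (μ : List (Lt X) → ℂ) (V : List (Lt X)) (l : Lt X) (V' : List (Lt X)) :
    A7b_L e η μ l V' (fun U => μ (V ++ U.map some)) = A7b_term e η μ V l V' := by
  match l with
  | none => rfl
  | some (x, true) =>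
    show (∑ i, if e i = x then (η i).sum fun ab r =>
        ((r : ℂ) * μ (gword ab.2⁻¹ ++ V')) •
          (LinearMap.proj ((x, true) :: ab.1⁻¹.toWord) : (List (X × Bool) → ℂ) →ₗ[ℂ] ℂ)
          else 0) _ =
      ∑ i, if e i = x then (η i).sum fun ab r =>
        (r : ℂ) * μ (V ++ some (x, true) :: gword ab.1⁻¹) * μ (gword ab.2⁻¹ ++ V') else 0
    rw [LinearMap.sum_apply]
    refine Finset.sum_congr rfl fun i _ => ?_
    split_ifs
    · rw [Finsupp.sum, LinearMap.sum_apply, Finsupp.sum]
      refine Finset.sum_congr rfl fun ab _ => ?_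
      simp only [LinearMap.smul_apply, LinearMap.proj_apply, smul_eq_mul, gword, List.map_cons]
      ring
    · rfl
  | some (x, false) =>
    show (∑ i, if e i = x then (η i).sum fun ab r =>
        (-((r : ℂ) * μ (gword ab.2⁻¹ ++ some (x, false) :: V'))) •
          (LinearMap.proj (ab.1⁻¹.toWord) : (List (X × Bool) → ℂ) →ₗ[ℂ] ℂ)
          else 0) _ =
      ∑ i, if e i = x then (η i).sum fun ab r =>
        -((r : ℂ) * μ (V ++ gword ab.1⁻¹) * μ (gword ab.2⁻¹ ++ some (x, false) :: V'))
        else 0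
    rw [LinearMap.sum_apply]
    refine Finset.sum_congr rfl fun i _ => ?_
    split_ifs
    · rw [Finsupp.sum, LinearMap.sum_apply, Finsupp.sum]
      refine Finset.sum_congr rfl fun ab _ => ?_
      simp only [LinearMap.smul_apply, LinearMap.proj_apply, smul_eq_mul, gword]
      ring
    · rfl

/-- the `P` term as a linear functional -/
noncomputable def A7b_P (P : FreeGroup X →₀ ℝ) : (List (X × Bool) → ℂ) →ₗ[ℂ] ℂ :=
  P.sum fun g c => (c : ℂ) • (LinearMap.proj g.toWord : (List (X × Bool) → ℂ) →ₗ[ℂ] ℂ)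

theorem A7b_P_apply (P : FreeGroup X →₀ ℝ) (μ : List (Lt X) → ℂ) (W : List (Lt X)) :
    A7b_P P (fun U => μ (U.map some ++ W)) = P.sum fun g c => (c : ℂ) * μ (gword g ++ W) := by
  unfold A7b_P
  rw [Finsupp.sum, LinearMap.sum_apply, Finsupp.sum]
  refine Finset.sum_congr rfl fun g _ => ?_
  simp [gword]

/-- linear functionals and list sums -/
theorem A7b_lin {Y σ : Type} (Φ : (Y → ℂ) →ₗ[ℂ] ℂ) (S : List σ) (c : σ → ℂ)
    (f : Y → ℂ) (g : σ → Y → ℂ) (h : ∀ U, f U = (S.map fun s => c s * g s U).sum) :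
    Φ f = (S.map fun s => c s * Φ (g s)).sum := by
  have h1 : f = (S.map fun s => c s • g s).sum := by
    funext U
    rw [h U]
    clear h
    induction S with
    | nil => rfl
    | cons a S ih =>
      rw [List.map_cons, List.map_cons, List.sum_cons, List.sum_cons, ih]
      rfl
  rw [h1, map_list_sum, List.map_map]
  congr 1
  refine List.map_congr_left fun s _ => ?_
  simp

/-- the coefficient of a split -/
noncomputable def A7b_c (μ : List (Lt X) → ℂ) (s : List (Lt X) × Lt X × List (Lt X)) : ℂ :=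
  if s.2.1.isNone then μ s.1 else 0

theorem A7b_hR {μ : List (Lt X) → ℂ} (hμ : StdLaw μ) (L : List (X × Bool)) (w : List (Lt X))
    (U : List (X × Bool)) : μ (U.map some ++ (L.map some ++ none :: w)) =
      ((splits w).map fun s => A7b_c μ s * μ (U.map some ++ (L.map some ++ s.2.2))).sum := by
  have h := std_sd'' hμ (U ++ L) [] w
  simp only [List.map_append, List.map_nil, List.append_nil, List.append_assoc] at h
  rw [h]
  congr 1
  refine List.map_congr_left fun s _ => ?_
  unfold A7b_c
  split_ifs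
  · rfl
  · rw [zero_mul]

theorem A7b_hL {μ : List (Lt X) → ℂ} (hμ : StdLaw μ) (L : List (X × Bool)) (w : List (Lt X))
    (U : List (X × Bool)) : μ ((L.map some ++ none :: w) ++ U.map some) =
      ((splits w).map fun s => A7b_c μ s * μ ((L.map some ++ s.2.2) ++ U.map some)).sum := by
  have h := std_sd'' hμ L U w
  rw [List.append_assoc, List.cons_append, h]
  congr 1
  refine List.map_congr_left fun s _ => ?_
  unfold A7b_c
  rw [List.append_assoc]
  split_ifs
  · rfl
  · rw [zero_mul]

theorem A7b_sum_add {σ : Type} (S : List σ) (f g : σ → ℂ) :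
    (S.map fun s => f s + g s).sum = (S.map f).sum + (S.map g).sum := by
  induction S with
  | nil => simp
  | cons a S ih =>
    simp only [List.map_cons, List.sum_cons, ih]
    ring

theorem A7b_sum_mul {σ : Type} (S : List σ) (c : ℂ) (f : σ → ℂ) :
    (S.map fun s => c * f s).sum = c * (S.map f).sum := by
  induction S with
  | nil => simp
  | cons a S ih =>
    simp only [List.map_cons, List.sum_cons, ih]
    ring

theorem A7b_sum_comm {σ τ : Type} (S : List σ) (T : List τ) (f : σ → τ → ℂ) :
    (S.map fun s => (T.map fun t => f s t).sum).sum =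
      (T.map fun t => (S.map fun s => f s t).sum).sum := by
  induction S with
  | nil => simp
  | cons a S ih =>
    simp only [List.map_cons, List.sum_cons, ih]
    rw [A7b_sum_add]

/-- a split of a list of group letters -/
theorem A7b_suffix (L : List (X × Bool)) (t : List (Lt X) × Lt X × List (Lt X))
    (ht : t ∈ splits (L.map some)) : ∃ L2 : List (X × Bool), t.2.2 = L2.map some := by
  have h := (mem_splits (w := L.map some) (a := t.1) (l := t.2.1) (b := t.2.2)).1 ht
  have h2 : t.2.2 = (L.map some).drop (t.1.length + 1) := by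
    rw [h]
    simp
  exact ⟨L.drop (t.1.length + 1), by rw [h2, List.map_drop]⟩

/-- recursion for `Λ` -/
theorem lam0_rec {P : FreeGroup X →₀ ℝ} {η : Fin m → (FreeGroup X × FreeGroup X →₀ ℝ)}
    {μ : List (Lt X) → ℂ} (hμ : StdLaw μ) (L : List (X × Bool)) (w : List (Lt X)) :
    lam0 e P η μ (L.map some ++ none :: w) =
      ((splits w).map fun t => if t.2.1.isNone then
        μ t.1 * lam0 e P η μ (L.map some ++ t.2.2) else 0).sum := by
  -- first term
  have h1 : (P.sum fun g c => (c : ℂ) * μ (gword g ++ (L.map some ++ none :: w))) =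
      ((splits w).map fun s => A7b_c μ s *
        (P.sum fun g c => (c : ℂ) * μ (gword g ++ (L.map some ++ s.2.2)))).sum := by
    rw [← A7b_P_apply]
    rw [A7b_lin (A7b_P P) (splits w) (A7b_c μ) _ _ (A7b_hR hμ L w)]
    congr 1
    refine List.map_congr_left fun s _ => ?_
    rw [A7b_P_apply]
  -- second term
  have h2 : ((splits (L.map some)).map fun t =>
      A7b_term e η μ t.1 t.2.1 (t.2.2 ++ none :: w)).sum =
      ((splits w).map fun s => A7b_c μ s * ((splits (L.map some)).map fun t =>
        A7b_term e η μ t.1 t.2.1 (t.2.2 ++ s.2.2)).sum).sum := by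
    have h3 : ((splits (L.map some)).map fun t =>
        A7b_term e η μ t.1 t.2.1 (t.2.2 ++ none :: w)) =
        ((splits (L.map some)).map fun t => ((splits w).map fun s => A7b_c μ s *
          A7b_term e η μ t.1 t.2.1 (t.2.2 ++ s.2.2)).sum) := by
      refine List.map_congr_left fun t ht => ?_
      obtain ⟨L2, hL2⟩ := A7b_suffix L t ht
      rw [hL2, ← A7b_R_apply, A7b_lin (A7b_R e η μ t.1 t.2.1) (splits w) (A7b_c μ) _ _
        (A7b_hR hμ L2 w)]
      congr 1
      refine List.map_congr_left fun s _ => ?_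
      rw [A7b_R_apply]
    rw [h3, A7b_sum_comm]
    congr 1
    refine List.map_congr_left fun s _ => ?_
    rw [A7b_sum_mul]
  -- third term
  have h4 : ((splits w).map fun t => A7b_term e η μ (L.map some ++ none :: t.1) t.2.1 t.2.2).sum =
      ((splits w).map fun s => A7b_c μ s * ((splits s.2.2).map fun t =>
        A7b_term e η μ (L.map some ++ t.1) t.2.1 t.2.2).sum).sum := by
    have h5 : ((splits w).map fun t => A7b_term e η μ (L.map some ++ none :: t.1) t.2.1 t.2.2) =
        ((splits w).map fun t => ((splits t.1).map fun s =>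
          (if s.2.1.isNone then μ s.1 else 0) *
            A7b_term e η μ (L.map some ++ s.2.2) t.2.1 t.2.2).sum) := by
      refine List.map_congr_left fun t _ => ?_
      rw [← A7b_L_apply, A7b_lin (A7b_L e η μ t.2.1 t.2.2) (splits t.1) (A7b_c μ) _ _
        (A7b_hL hμ L t.1)]
      congr 1
      refine List.map_congr_left fun s _ => ?_
      rw [A7b_L_apply]
      rfl
    rw [h5, ← splits_exchange w (fun a l b l' c => (if l.isNone then μ a else 0) *
      A7b_term e η μ (L.map some ++ b) l' c)]
    congr 1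
    refine List.map_congr_left fun s _ => ?_
    rw [A7b_sum_mul]
    rfl
  rw [A7b_lam0, h1, splits_append, List.map_append, List.sum_append, List.map_map, List.map_map]
  have h6 : ((splits (none :: w)).map ((fun t => A7b_term e η μ t.1 t.2.1 t.2.2) ∘
      fun t => (L.map some ++ t.1, t.2.1, t.2.2))).sum =
      ((splits w).map fun t => A7b_term e η μ (L.map some ++ none :: t.1) t.2.1 t.2.2).sum := by
    show ((([], none, w) :: (splits w).map (fun t => (none :: t.1, t.2.1, t.2.2))).map
      ((fun t => A7b_term e η μ t.1 t.2.1 t.2.2) ∘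
      fun t => (L.map some ++ t.1, t.2.1, t.2.2))).sum = _
    rw [List.map_cons, List.sum_cons, List.map_map]
    have h7 : ((fun t : List (Lt X) × Lt X × List (Lt X) => A7b_term e η μ t.1 t.2.1 t.2.2) ∘
      fun t => (L.map some ++ t.1, t.2.1, t.2.2)) ([], none, w) = 0 := rfl
    rw [h7, zero_add]
    rfl
  have h8 : ((splits (L.map some)).map ((fun t => A7b_term e η μ t.1 t.2.1 t.2.2) ∘
      fun t => (t.1, t.2.1, t.2.2 ++ none :: w))).sum =
      ((splits (L.map some)).map fun t =>
      A7b_term e η μ t.1 t.2.1 (t.2.2 ++ none :: w)).sum := rfl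
  rw [h6, h8, h2, h4]
  have h9 : ∀ s : List (Lt X) × Lt X × List (Lt X), (if s.2.1.isNone then
        μ s.1 * lam0 e P η μ (L.map some ++ s.2.2) else 0) =
      A7b_c μ s * (-(P.sum fun g c => (c : ℂ) * μ (gword g ++ (L.map some ++ s.2.2)))) +
      (A7b_c μ s * ((splits (L.map some)).map fun t =>
        A7b_term e η μ t.1 t.2.1 (t.2.2 ++ s.2.2)).sum +
      A7b_c μ s * ((splits s.2.2).map fun t =>
        A7b_term e η μ (L.map some ++ t.1) t.2.1 t.2.2).sum) := by
    intro s
    rw [A7b_lam0, splits_append, List.map_append, List.sum_append, List.map_map, List.map_map]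
    unfold A7b_c
    split_ifs
    · rw [← mul_add, ← mul_add]
      rfl
    · ring
  rw [List.map_congr_left (fun s _ => h9 s), A7b_sum_add, A7b_sum_add]
  congr 1
  rw [← neg_one_mul, ← A7b_sum_mul]
  congr 1
  refine List.map_congr_left fun s _ => ?_
  ring

theorem A7b_first_none (w : List (Lt X)) : (∃ L : List (X × Bool), w = L.map some) ∨
    ∃ (L : List (X × Bool)) (w' : List (Lt X)), w = L.map some ++ none :: w' := by
  induction w with
  | nil => exact Or.inl ⟨[], rfl⟩
  | cons a w ih =>
    rcases a with _ | x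
    · exact Or.inr ⟨[], w, rfl⟩
    · rcases ih with ⟨L, rfl⟩ | ⟨L, w', rfl⟩
      · exact Or.inl ⟨x :: L, rfl⟩
      · exact Or.inr ⟨x :: L, w', rfl⟩

theorem lam0_zero {P : FreeGroup X →₀ ℝ} {η : Fin m → (FreeGroup X × FreeGroup X →₀ ℝ)}
    (hdiv : ∀ v, divE e η v = P v) (hP : ∀ v, P v⁻¹ = P v) {μ : List (Lt X) → ℂ}
    (hμ : StdLaw μ) (w : List (Lt X)) : lam0 e P η μ w = 0 := by
  induction hn : w.length using Nat.strong_induction_on generalizing w with
  | _ n ih =>
    rcases A7b_first_none w with ⟨L, rfl⟩ | ⟨L, w', rfl⟩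
    · exact lam0_group hdiv hP hμ L
    · rw [lam0_rec hμ]
      apply List.sum_eq_zero
      intro x hx
      obtain ⟨t, ht, rfl⟩ := List.mem_map.1 hx
      have h := (mem_splits (w := w') (a := t.1) (l := t.2.1) (b := t.2.2)).1 ht
      have h2 : (L.map some ++ t.2.2).length < n := by
        rw [← hn, h]
        simp
        omega
      rw [ih _ h2 (L.map some ++ t.2.2) rfl, mul_zero, ite_self]

end Pool.Agent.H667R3.FF
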