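import Mathlib
import Pool.Agent.H667R3.FF.Defs
import Pool.Agent.H667R3.FF.A7b

/-! Task A7c (table h667b_tasks, shared note 777). -/

namespace Pool.Agent.H667R3.FF

open Pool.Agent.H667R2.FG
open scoped ComplexConjugate

variable {X : Type} [DecidableEq X] {m : ℕ} {e : Fin m → X}

theorem A7c_sum_comm {ι β V : Type} [AddCommMonoid V] (s : Finset ι) (l : List β)
    (f : ι → β → V) :
    ∑ i ∈ s, (l.map fun t => f i t).sum = (l.map fun t => ∑ i ∈ s, f i t).sum := by
  induction l with
  | nil => simp
  | cons a l ih => simp only [List.map_cons, List.sum_cons, Finset.sum_add_distrib, ih]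

theorem A7c_sum_add {β V : Type} [AddCommMonoid V] (l : List β) (f g : β → V) :
    (l.map fun t => f t + g t).sum = (l.map f).sum + (l.map g).sum := by
  induction l with
  | nil => simp
  | cons a l ih =>
    simp only [List.map_cons, List.sum_cons, ih]
    abel

theorem A7c_sum_zero {β V : Type} [AddCommMonoid V] (l : List β) (f : β → V)
    (h : ∀ t ∈ l, f t = 0) : (l.map f).sum = 0 := by
  induction l with
  | nil => simp
  | cons a l ih =>
    simp only [List.map_cons, List.sum_cons]
    rw [h a (by simp), ih (fun t ht => h t (by simp [ht])), add_zero]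

theorem A7c_mul_sum {β : Type} (l : List β) (r : ℂ) (f : β → ℂ) :
    r * (l.map f).sum = (l.map fun t => r * f t).sum := by
  induction l with
  | nil => simp
  | cons a l ih =>
    simp only [List.map_cons, List.sum_cons, ← ih]
    ring

/-- cyclic exchange of two positions -/
theorem A7c_cyc {α V : Type} [AddCommMonoid V] (w : List α)
    (g : α → List α → α → List α → V) :
    ((splits w).map fun t => ((splits (t.2.2 ++ t.1)).map fun s => g t.2.1 s.1 s.2.1 s.2.2).sum).sum =
    ((splits w).map fun t => ((splits (t.2.2 ++ t.1)).map fun s =>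
      g s.2.1 s.2.2 t.2.1 s.1).sum).sum := by
  simp only [splits_append, List.map_append, List.sum_append, List.map_map, Function.comp_def]
  rw [A7c_sum_add, A7c_sum_add]
  have h1 := splits_exchange w fun w1 l s1 c s2 => g l s1 c (s2 ++ w1)
  have h2 := splits_exchange w fun s1 c s2 l w2 => g l (w2 ++ s1) c s2
  rw [h1, ← h2, add_comm]

/-- sums over the `none`s of a word with group words at its ends -/
theorem A7c_mid (p m q : List (Lt X)) (hp : ∀ l ∈ p, l.isNone = false)
    (hq : ∀ l ∈ q, l.isNone = false) (F : List (Lt X) → List (Lt X) → ℂ) :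
    ((splits (p ++ (m ++ q))).map fun t => if t.2.1.isNone then F t.1 t.2.2 else 0).sum =
      ((splits m).map fun t => if t.2.1.isNone then F (p ++ t.1) (t.2.2 ++ q) else 0).sum := by
  have hz : ∀ p : List (Lt X), (∀ l ∈ p, l.isNone = false) →
      ∀ f : List (Lt X) × Lt X × List (Lt X) → ℂ,
      ((splits p).map fun t => if t.2.1.isNone then f t else 0).sum = 0 := by
    intro p hp f
    apply A7c_sum_zero
    rintro ⟨a, l, b⟩ ht
    have h1 := mem_splits.1 ht
    have h2 : l ∈ p := by rw [h1]; simp
    simp [hp l h2]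
  simp only [splits_append, List.map_append, List.sum_append, List.map_map, Function.comp_def]
  rw [hz p hp fun t => F t.1 (t.2.2 ++ (m ++ q)), hz q hq fun t => F (p ++ (m ++ t.1)) t.2.2,
    zero_add, add_zero]

/-- the summand of `lam0` at a letter -/
noncomputable def A7c_Phi (e : Fin m → X) (η : Fin m → (FreeGroup X × FreeGroup X →₀ ℝ))
    (μ : List (Lt X) → ℂ) (l : Lt X) (t1 t2 : List (Lt X)) : ℂ :=
  match l with
    | none => 0
    | some (x, true) => ∑ i, if e i = x then (η i).sum fun ab r =>
        (r : ℂ) * μ (t1 ++ some (x, true) :: gword ab.1⁻¹) * μ (gword ab.2⁻¹ ++ t2) else 0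
    | some (x, false) => ∑ i, if e i = x then (η i).sum fun ab r =>
        -((r : ℂ) * μ (t1 ++ gword ab.1⁻¹) * μ (gword ab.2⁻¹ ++ some (x, false) :: t2))
        else 0

theorem A7c_lam0 (P : FreeGroup X →₀ ℝ) (η : Fin m → (FreeGroup X × FreeGroup X →₀ ℝ))
    (μ : List (Lt X) → ℂ) (W : List (Lt X)) : lam0 e P η μ W =
      -(P.sum fun g c => (c : ℂ) * μ (gword g ++ W)) +
      ((splits W).map fun t => A7c_Phi e η μ t.2.1 t.1 t.2.2).sum := by
  rfl

theorem A7c_gw (g : FreeGroup X) : ∀ l ∈ gword g, l.isNone = false := by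
  intro l hl
  unfold gword at hl
  obtain ⟨x, _, rfl⟩ := List.mem_map.1 hl
  rfl

/-- the contribution of one letter -/
theorem A7c_letter {P : FreeGroup X →₀ ℝ} {η : Fin m → (FreeGroup X × FreeGroup X →₀ ℝ)}
    {μ : List (Lt X) → ℂ} (hμ : StdLaw μ) (w1 : List (Lt X)) (l : Lt X) (w2 : List (Lt X)) :
    ((dd e P η l).sum fun v c => c • μ (w1 ++ v ++ w2)) =
      (if l.isNone then -(P.sum fun g c => (c : ℂ) * μ (gword g ++ (w2 ++ w1))) else 0) +
      ((splits (w2 ++ w1)).map fun s => if s.2.1.isNone then A7c_Phi e η μ l s.2.2 s.1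
        else 0).sum := by
  have hlc : ∀ f : List (Lt X) →₀ ℂ, (f.sum fun v c => c • μ (w1 ++ v ++ w2)) =
      Finsupp.linearCombination ℂ (fun v => μ (w1 ++ v ++ w2)) f := fun f => rfl
  rw [hlc]
  match l with
  | none =>
    have h0 : ((splits (w2 ++ w1)).map fun s => if s.2.1.isNone then
        A7c_Phi e η μ (none : Lt X) s.2.2 s.1 else 0).sum = 0 := by
      apply A7c_sum_zero
      intro t _
      simp [A7c_Phi]
    rw [h0, add_zero]
    simp only [dd, Option.isNone_none, if_true]
    rw [map_finsuppSum, ← Finsupp.sum_neg]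
    apply Finsupp.sum_congr
    intro g _
    rw [Finsupp.linearCombination_single, smul_eq_mul, List.append_assoc, hμ.tr,
      List.append_assoc]
    ring
  | some (x, true) =>
    simp only [dd, Option.isNone_some, Bool.false_eq_true, if_false, zero_add]
    rw [map_sum]
    have h1 : ((splits (w2 ++ w1)).map fun s => if s.2.1.isNone then
        A7c_Phi e η μ (some (x, true)) s.2.2 s.1 else 0).sum =
        ((splits (w2 ++ w1)).map fun s => ∑ i, if s.2.1.isNone then
          (if e i = x then (η i).sum fun ab r =>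
        (r : ℂ) * μ (s.2.2 ++ some (x, true) :: gword ab.1⁻¹) * μ (gword ab.2⁻¹ ++ s.1) else 0)
          else 0).sum := by
      congr 1
      apply List.map_congr_left
      intro s _
      by_cases hs : s.2.1.isNone
      · simp only [hs, if_true, A7c_Phi]
      · simp only [hs, Bool.false_eq_true, if_false, Finset.sum_const_zero]
    rw [h1, ← A7c_sum_comm]
    refine Finset.sum_congr rfl fun i _ => ?_
    by_cases hi : e i = x
    · simp only [hi, if_true]
      rw [map_finsuppSum]
      have h2 : ((splits (w2 ++ w1)).map fun s => if s.2.1.isNone then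
          ((η i).sum fun ab r =>
        (r : ℂ) * μ (s.2.2 ++ some (x, true) :: gword ab.1⁻¹) * μ (gword ab.2⁻¹ ++ s.1)) else 0).sum =
          ((splits (w2 ++ w1)).map fun s => ∑ ab ∈ (η i).support, if s.2.1.isNone then
        ((η i ab : ℝ) : ℂ) * μ (s.2.2 ++ some (x, true) :: gword ab.1⁻¹) * μ (gword ab.2⁻¹ ++ s.1)
            else 0).sum := by
        congr 1
        apply List.map_congr_left
        intro s _
        by_cases hs : s.2.1.isNone
        · simp only [hs, if_true, Finsupp.sum]
        · simp only [hs, Bool.false_eq_true, if_false, Finset.sum_const_zero]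
      rw [h2, ← A7c_sum_comm, Finsupp.sum]
      refine Finset.sum_congr rfl fun ab _ => ?_
      rw [Finsupp.linearCombination_single, smul_eq_mul]
      have h3 : w1 ++ some (x, true) :: (gword ab.1⁻¹ ++ none :: gword ab.2⁻¹) ++ w2 =
          (w1 ++ some (x, true) :: gword ab.1⁻¹) ++ none :: (gword ab.2⁻¹ ++ w2) := by
        simp
      have h4 : (gword ab.2⁻¹ ++ w2) ++ (w1 ++ some (x, true) :: gword ab.1⁻¹) =
          gword ab.2⁻¹ ++ ((w2 ++ w1) ++ (some (x, true) :: gword ab.1⁻¹)) := by
        simp
      rw [h3, std_sd' hμ, h4, A7c_mid (gword ab.2⁻¹) (w2 ++ w1) (some (x, true) :: gword ab.1⁻¹)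
        (A7c_gw _) (by
          intro l hl
          rcases List.mem_cons.1 hl with rfl | hl
          · rfl
          · exact A7c_gw _ l hl) (fun a b => μ a * μ b), A7c_mul_sum]
      congr 1
      apply List.map_congr_left
      intro s _
      by_cases hs : s.2.1.isNone
      · simp only [hs, if_true]
        ring
      · simp only [hs, Bool.false_eq_true, if_false, mul_zero]
    · simp only [hi, if_false, map_zero, ite_self]
      rw [A7c_sum_zero _ _ (fun t _ => rfl)]
  | some (x, false) =>
    simp only [dd, Option.isNone_some, Bool.false_eq_true, if_false, zero_add]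
    rw [map_sum]
    have h1 : ((splits (w2 ++ w1)).map fun s => if s.2.1.isNone then
        A7c_Phi e η μ (some (x, false)) s.2.2 s.1 else 0).sum =
        ((splits (w2 ++ w1)).map fun s => ∑ i, if s.2.1.isNone then
          (if e i = x then (η i).sum fun ab r =>
        -((r : ℂ) * μ (s.2.2 ++ gword ab.1⁻¹) * μ (gword ab.2⁻¹ ++ some (x, false) :: s.1)) else 0)
          else 0).sum := by
      congr 1
      apply List.map_congr_left
      intro s _
      by_cases hs : s.2.1.isNone
      · simp only [hs, if_true, A7c_Phi]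
      · simp only [hs, Bool.false_eq_true, if_false, Finset.sum_const_zero]
    rw [h1, ← A7c_sum_comm]
    refine Finset.sum_congr rfl fun i _ => ?_
    by_cases hi : e i = x
    · simp only [hi, if_true]
      rw [map_finsuppSum]
      have h2 : ((splits (w2 ++ w1)).map fun s => if s.2.1.isNone then
          ((η i).sum fun ab r =>
        -((r : ℂ) * μ (s.2.2 ++ gword ab.1⁻¹) * μ (gword ab.2⁻¹ ++ some (x, false) :: s.1)))
          else 0).sum =
          ((splits (w2 ++ w1)).map fun s => ∑ ab ∈ (η i).support, if s.2.1.isNone then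
        -(((η i ab : ℝ) : ℂ) * μ (s.2.2 ++ gword ab.1⁻¹) * μ (gword ab.2⁻¹ ++ some (x, false) :: s.1))
            else 0).sum := by
        congr 1
        apply List.map_congr_left
        intro s _
        by_cases hs : s.2.1.isNone
        · simp only [hs, if_true, Finsupp.sum]
        · simp only [hs, Bool.false_eq_true, if_false, Finset.sum_const_zero]
      rw [h2, ← A7c_sum_comm, Finsupp.sum]
      refine Finset.sum_congr rfl fun ab _ => ?_
      rw [Finsupp.linearCombination_single, smul_eq_mul]
      have h3 : w1 ++ (gword ab.1⁻¹ ++ none :: (gword ab.2⁻¹ ++ [some (x, false)])) ++ w2 =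
          (w1 ++ gword ab.1⁻¹) ++ none :: (gword ab.2⁻¹ ++ some (x, false) :: w2) := by
        simp
      have h4 : (gword ab.2⁻¹ ++ some (x, false) :: w2) ++ (w1 ++ gword ab.1⁻¹) =
          (gword ab.2⁻¹ ++ [some (x, false)]) ++ ((w2 ++ w1) ++ gword ab.1⁻¹) := by
        simp
      rw [h3, std_sd' hμ, h4, A7c_mid (gword ab.2⁻¹ ++ [some (x, false)]) (w2 ++ w1)
        (gword ab.1⁻¹) (by
          intro l hl
          rcases List.mem_append.1 hl with hl | hl
          · exact A7c_gw _ l hl
          · rw [List.mem_singleton.1 hl]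
            rfl) (A7c_gw _) (fun a b => μ a * μ b), A7c_mul_sum]
      congr 1
      apply List.map_congr_left
      intro s _
      by_cases hs : s.2.1.isNone
      · simp only [hs, if_true, List.append_assoc, List.singleton_append]
        ring
      · simp only [hs, Bool.false_eq_true, if_false, mul_zero]
    · simp only [hi, if_false, map_zero, ite_self]
      rw [A7c_sum_zero _ _ (fun t _ => rfl)]

/-- `DD (dd e P η) μ w` is the sum of `Λ(w₂ ++ w₁)` over the `s`-positions `w = w₁ ++ s :: w₂` -/
theorem DD_dd_eq {P : FreeGroup X →₀ ℝ} {η : Fin m → (FreeGroup X × FreeGroup X →₀ ℝ)}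
    {μ : List (Lt X) → ℂ} (hμ : StdLaw μ) (w : List (Lt X)) :
    DD (dd e P η) μ w = ((splits w).map fun t => if t.2.1.isNone then
      lam0 e P η μ (t.2.2 ++ t.1) else 0).sum := by
  unfold DD
  have h1 : ((splits w).map fun t => (dd e P η t.2.1).sum fun v c =>
      c • μ (t.1 ++ v ++ t.2.2)).sum = ((splits w).map fun t =>
      (if t.2.1.isNone then -(P.sum fun g c => (c : ℂ) * μ (gword g ++ (t.2.2 ++ t.1))) else 0) +
      ((splits (t.2.2 ++ t.1)).map fun s => if s.2.1.isNone then A7c_Phi e η μ t.2.1 s.2.2 s.1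
        else 0).sum).sum := by
    congr 1
    apply List.map_congr_left
    intro t _
    exact A7c_letter hμ t.1 t.2.1 t.2.2
  rw [h1, A7c_sum_add, A7c_cyc w fun l V1 c V2 => if c.isNone then A7c_Phi e η μ l V2 V1 else 0,
    ← A7c_sum_add]
  congr 1
  apply List.map_congr_left
  intro t _
  by_cases ht : t.2.1.isNone
  · simp only [ht, if_true]
    rw [A7c_lam0]
  · simp only [ht, Bool.false_eq_true, if_false, zero_add]
    exact A7c_sum_zero _ _ (fun t _ => rfl)

theorem dd_law {P : FreeGroup X →₀ ℝ} {η : Fin m → (FreeGroup X × FreeGroup X →₀ ℝ)}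
    (hdiv : ∀ v, divE e η v = P v) (hP : ∀ v, P v⁻¹ = P v) {μ : List (Lt X) → ℂ}
    (hμ : StdLaw μ) (w : List (Lt X)) : DD (dd e P η) μ w = 0 := by
  rw [DD_dd_eq hμ]
  apply A7c_sum_zero
  intro t _
  rw [lam0_zero hdiv hP hμ]
  simp

end Pool.Agent.H667R3.FF
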