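import Mathlib
import Pool.Agent.H667R3.FF.Defs
import Pool.Agent.H667R3.FF.A8a
import Pool.Agent.H667R3.FF.A2
import Pool.Agent.H667R3.FF.C3

/-! Task A8b (table h667b_tasks, shared note 777); proofs: helper605. -/

namespace Pool.Agent.H667R3.FF

open Pool.Agent.H667R2.FG
open scoped ComplexConjugate

variable {X : Type} [DecidableEq X] {m : ℕ} {e : Fin m → X} {H : Type} [NormedAddCommGroup H]
    [InnerProductSpace ℂ H] [CompleteSpace H]

theorem A8b_foxL {V : Type} [AddCommGroup V] [Module ℂ V] (i : X) (L : List (X × Bool)) :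
    ∀ (φ : FreeGroup X → V),
    ((foxL i L).sum fun A n => (n : ℂ) • φ A) =
    ((splits L).map fun t => if t.2.1.1 = i then
      (if t.2.1.2 then φ (FreeGroup.mk (t.1 ++ [t.2.1])) else -φ (FreeGroup.mk t.1))
      else 0).sum := by
  induction L with
  | nil => intro φ; simp [foxL, splits]
  | cons x L ih =>
    intro φ
    have h0 : ∀ A : FreeGroup X, (((0 : ℝ) : ℂ)) • φ A = 0 := by intro A; simp
    have h1 : ∀ (A : FreeGroup X) (a b : ℝ), (((a + b : ℝ)) : ℂ) • φ A =
        (a : ℂ) • φ A + (b : ℂ) • φ A := by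
      intro A a b; push_cast; rw [add_smul]
    rw [foxL, Finsupp.sum_add_index' h0 h1, Finsupp.sum_mapDomain_index h0 h1,
      ih (fun A => φ (FreeGroup.mk [x] * A)), splits, List.map_cons, List.sum_cons, List.map_map]
    congr 1
    · split_ifs with h2 h3
      · rw [Finsupp.sum_single_index (h0 _)]; simp
      · rw [Finsupp.sum_single_index (h0 _)]
        simp [FreeGroup.one_eq_mk]
      · simp

omit [DecidableEq X] in
theorem A8b_splits_map (L : List (X × Bool)) :
    splits (L.map some) = (splits L).map fun t =>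
      (t.1.map some, (some t.2.1 : Lt X), t.2.2.map some) := by
  induction L with
  | nil => rfl
  | cons x L ih =>
    rw [List.map_cons, splits, splits, ih, List.map_cons, List.map_map, List.map_map]
    rfl

/-- additive extension -/
noncomputable def A8b_lin {V : Type} [AddCommGroup V] [Module ℂ V] {κ : Type} (F : κ → V) :
    (κ →₀ ℝ) →+ V :=
  Finsupp.liftAddHom fun k =>
    { toFun := fun r : ℝ => (r : ℂ) • F k
      map_zero' := by simp
      map_add' := fun a b => by push_cast; rw [add_smul] }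

theorem A8b_lin_apply {V : Type} [AddCommGroup V] [Module ℂ V] {κ : Type} (F : κ → V)
    (f : κ →₀ ℝ) : A8b_lin F f = f.sum fun k r => (r : ℂ) • F k := rfl

theorem A8b_lin_single {V : Type} [AddCommGroup V] [Module ℂ V] {κ : Type} (F : κ → V)
    (k : κ) (r : ℝ) : A8b_lin F (Finsupp.single k r) = (r : ℂ) • F k := by
  rw [A8b_lin_apply, Finsupp.sum_single_index]
  simp

/-- complex additive extension -/
noncomputable def A8b_linC {V : Type} [AddCommGroup V] [Module ℂ V] {κ : Type} (F : κ → V) :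
    (κ →₀ ℂ) →+ V :=
  Finsupp.liftAddHom fun k =>
    { toFun := fun r : ℂ => r • F k
      map_zero' := by simp
      map_add' := fun a b => by rw [add_smul] }

theorem A8b_linC_apply {V : Type} [AddCommGroup V] [Module ℂ V] {κ : Type} (F : κ → V)
    (f : κ →₀ ℂ) : A8b_linC F f = f.sum fun k r => r • F k := rfl

theorem A8b_linC_single {V : Type} [AddCommGroup V] [Module ℂ V] {κ : Type} (F : κ → V)
    (k : κ) (r : ℂ) : A8b_linC F (Finsupp.single k r) = r • F k := by
  rw [A8b_linC_apply, Finsupp.sum_single_index]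
  simp

/-- the sum over `dd` of a positive letter -/
theorem A8b_dd_true {V : Type} [AddCommGroup V] [Module ℂ V] (P : FreeGroup X →₀ ℝ)
    (η : Fin m → (FreeGroup X × FreeGroup X →₀ ℝ)) (x : X) (F : List (Lt X) → V) :
    ((dd e P η (some (x, true))).sum fun v c => c • F v) =
      ∑ i, if e i = x then (η i).sum fun ab r =>
        (r : ℂ) • F (some (x, true) :: (gword ab.1⁻¹ ++ none :: gword ab.2⁻¹)) else 0 := by
  rw [← A8b_linC_apply]
  unfold dd
  rw [map_sum]
  refine Finset.sum_congr rfl fun i _ => ?_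
  split_ifs
  · rw [map_finsuppSum]
    refine Finsupp.sum_congr fun ab _ => ?_
    rw [A8b_linC_single]
  · rw [map_zero]

/-- the sum over `dd` of a negative letter -/
theorem A8b_dd_false {V : Type} [AddCommGroup V] [Module ℂ V] (P : FreeGroup X →₀ ℝ)
    (η : Fin m → (FreeGroup X × FreeGroup X →₀ ℝ)) (x : X) (F : List (Lt X) → V) :
    ((dd e P η (some (x, false))).sum fun v c => c • F v) =
      ∑ i, if e i = x then (η i).sum fun ab r =>
        (-(r : ℂ)) • F (gword ab.1⁻¹ ++ none :: (gword ab.2⁻¹ ++ [some (x, false)])) else 0 := by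
  rw [← A8b_linC_apply]
  unfold dd
  rw [map_sum]
  refine Finset.sum_congr rfl fun i _ => ?_
  split_ifs
  · rw [map_finsuppSum]
    refine Finsupp.sum_congr fun ab _ => ?_
    rw [A8b_linC_single]
  · rw [map_zero]

theorem A8b_comm {V τ : Type} [AddCommMonoid V] (l : List τ) (f : τ → Fin m → V) :
    (l.map fun t => ∑ i, f t i).sum = ∑ i, (l.map fun t => f t i).sum := by
  induction l with
  | nil => simp
  | cons x l ih => simp only [List.map_cons, List.sum_cons, ih, Finset.sum_add_distrib]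

/-- the value of the field -/
noncomputable def A8b_phi {B : Type} [Ring B] [Algebra ℂ B] (p : Lt X → B)
    (g : FreeGroup X) (η : FreeGroup X × FreeGroup X →₀ ℝ) (A : FreeGroup X) : B :=
  η.sum fun ab r => (r : ℂ) • ev p (gword (A * ab.1⁻¹) ++ none :: gword (ab.2⁻¹ * A⁻¹ * g))

theorem A8b_pos {B : Type} [Ring B] [Algebra ℂ B] [StarRing B] {p : Lt X → B} (hp : Good p)
    (L₁ L₂ : List (X × Bool)) (x : X) (a b : FreeGroup X) :
    ev p (L₁.map some ++ (some (x, true) :: (gword a⁻¹ ++ none :: gword b⁻¹)) ++ L₂.map some) =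
      ev p (gword (FreeGroup.mk (L₁ ++ [(x, true)]) * a⁻¹) ++ none ::
        gword (b⁻¹ * (FreeGroup.mk (L₁ ++ [(x, true)]))⁻¹ *
          FreeGroup.mk (L₁ ++ (x, true) :: L₂))) := by
  have h1 : (FreeGroup.mk (L₁ ++ [(x, true)]))⁻¹ * FreeGroup.mk (L₁ ++ (x, true) :: L₂) =
      FreeGroup.mk L₂ := by
    rw [show L₁ ++ (x, true) :: L₂ = (L₁ ++ [(x, true)]) ++ L₂ by simp,
      ← FreeGroup.mul_mk (L₁ := L₁ ++ [(x, true)]) (L₂ := L₂), inv_mul_cancel_left]
  rw [mul_assoc b⁻¹, h1]
  simp only [ev_append, ev_cons, ev_gword_mul hp]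
  rw [← ev_map_some hp (L₁ ++ [(x, true)]), ← ev_map_some hp L₂, List.map_append, ev_append]
  simp only [List.map_cons, List.map_nil, ev_cons, ev_nil, mul_one, mul_assoc]

theorem A8b_neg {B : Type} [Ring B] [Algebra ℂ B] [StarRing B] {p : Lt X → B} (hp : Good p)
    (L₁ L₂ : List (X × Bool)) (x : X) (a b : FreeGroup X) :
    ev p (L₁.map some ++ (gword a⁻¹ ++ none :: (gword b⁻¹ ++ [some (x, false)])) ++
        L₂.map some) =
      ev p (gword (FreeGroup.mk L₁ * a⁻¹) ++ none ::
        gword (b⁻¹ * (FreeGroup.mk L₁)⁻¹ * FreeGroup.mk (L₁ ++ (x, false) :: L₂))) := by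
  have h1 : (FreeGroup.mk L₁)⁻¹ * FreeGroup.mk (L₁ ++ (x, false) :: L₂) =
      FreeGroup.mk ((x, false) :: L₂) := by
    rw [← FreeGroup.mul_mk, inv_mul_cancel_left]
  rw [mul_assoc b⁻¹, h1]
  simp only [ev_append, ev_cons, ev_gword_mul hp]
  rw [← ev_map_some hp L₁, ← ev_map_some hp ((x, false) :: L₂)]
  simp only [List.map_cons, ev_cons, ev_nil, mul_one, mul_assoc]

theorem A8b_word {B : Type} [Ring B] [Algebra ℂ B] [StarRing B] {p : Lt X → B} (hp : Good p)
    (P : FreeGroup X →₀ ℝ) (η : Fin m → (FreeGroup X × FreeGroup X →₀ ℝ)) (g : FreeGroup X) :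
    DD (dd e P η) (ev p) (gword g) =
      ∑ i, (foxD (e i) g).sum fun A n => (n : ℂ) • A8b_phi p g (η i) A := by
  unfold DD gword
  rw [A8b_splits_map, List.map_map]
  have hr : ∀ i, ((foxD (e i) g).sum fun A n => (n : ℂ) • A8b_phi p g (η i) A) =
      ((splits g.toWord).map fun t => if t.2.1.1 = e i then
        (if t.2.1.2 then A8b_phi p g (η i) (FreeGroup.mk (t.1 ++ [t.2.1]))
          else -A8b_phi p g (η i) (FreeGroup.mk t.1)) else 0).sum := by
    intro i
    unfold foxD
    exact A8b_foxL (e i) g.toWord _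
  rw [Finset.sum_congr rfl fun i _ => hr i, ← A8b_comm]
  congr 1
  refine List.map_congr_left fun t ht => ?_
  obtain ⟨L₁, ⟨x, b⟩, L₂⟩ := t
  rw [mem_splits] at ht
  have hg : g = FreeGroup.mk (L₁ ++ (x, b) :: L₂) := by
    rw [← ht, FreeGroup.mk_toWord]
  simp only [Function.comp_apply]
  cases b with
  | true =>
    rw [A8b_dd_true P η x (fun v => ev p (L₁.map some ++ v ++ L₂.map some))]
    refine Finset.sum_congr rfl fun i _ => ?_
    by_cases hi : e i = x
    · rw [if_pos hi, if_pos hi.symm, if_pos rfl]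
      unfold A8b_phi
      refine Finsupp.sum_congr fun ab _ => ?_
      congr 1
      rw [A8b_pos hp, ← hg]
    · rw [if_neg hi, if_neg (fun h => hi h.symm)]
  | false =>
    rw [A8b_dd_false P η x (fun v => ev p (L₁.map some ++ v ++ L₂.map some))]
    refine Finset.sum_congr rfl fun i _ => ?_
    by_cases hi : e i = x
    · rw [if_pos hi, if_pos hi.symm, if_neg (by simp)]
      unfold A8b_phi Finsupp.sum
      rw [← Finset.sum_neg_distrib]
      refine Finset.sum_congr rfl fun ab _ => ?_
      beta_reduce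
      rw [neg_smul]
      congr 2
      rw [A8b_neg hp, ← hg]
    · rw [if_neg hi, if_neg (fun h => hi h.symm)]

theorem DD_dd_P {B : Type} [Ring B] [Algebra ℂ B] [StarRing B] {p : Lt X → B} (hp : Good p)
    (P : FreeGroup X →₀ ℝ) (η : Fin m → (FreeGroup X × FreeGroup X →₀ ℝ)) :
    (P.sum fun g c => (c : ℂ) • DD (dd e P η) (ev p) (gword g)) =
    (opT e P η).sum fun xy r => (r : ℂ) • ev p (gword xy.1 ++ none :: gword xy.2) := by
  rw [← A8b_lin_apply (fun xy : FreeGroup X × FreeGroup X =>
    ev p (gword xy.1 ++ none :: gword xy.2))]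
  unfold opT
  rw [map_sum]
  have h1 : ∀ i, A8b_lin (fun xy : FreeGroup X × FreeGroup X =>
      ev p (gword xy.1 ++ none :: gword xy.2)) (P.sum fun g c => (foxD (e i) g).sum fun A n =>
        (η i).sum fun ab r =>
          Finsupp.single (A * ab.1⁻¹, ab.2⁻¹ * A⁻¹ * g) (c * n * r)) =
      P.sum fun g c => (c : ℂ) • ((foxD (e i) g).sum fun A n =>
        (n : ℂ) • A8b_phi p g (η i) A) := by
    intro i
    rw [map_finsuppSum]
    refine Finsupp.sum_congr fun g _ => ?_
    rw [map_finsuppSum, Finsupp.smul_sum]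
    refine Finsupp.sum_congr fun A _ => ?_
    unfold A8b_phi
    rw [map_finsuppSum, Finsupp.smul_sum, Finsupp.smul_sum]
    refine Finsupp.sum_congr fun ab _ => ?_
    rw [A8b_lin_single, smul_smul, smul_smul]
    congr 1
    push_cast
    ring
  rw [Finset.sum_congr rfl fun i _ => h1 i]
  unfold Finsupp.sum
  rw [Finset.sum_comm]
  refine Finset.sum_congr rfl fun g _ => ?_
  beta_reduce
  rw [A8b_word hp, Finset.smul_sum]
  rfl

theorem DD_dd_none {B : Type} [Ring B] [Algebra ℂ B] [StarRing B] (p : Lt X → B)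
    (P : FreeGroup X →₀ ℝ) (η : Fin m → (FreeGroup X × FreeGroup X →₀ ℝ)) :
    DD (dd e P η) (ev p) [none] = -evP p P := by
  rw [DD_singleton, ← A8b_linC_apply]
  unfold dd evP
  rw [map_finsuppSum]
  unfold Finsupp.sum
  rw [← Finset.sum_neg_distrib]
  refine Finset.sum_congr rfl fun g _ => ?_
  beta_reduce
  rw [A8b_linC_single, neg_smul]

theorem norm_DD_dd_some (he : Function.Injective e) {p : Lt X → (H →L[ℂ] H)} (hp : Good p)
    {Ω : H} (hμ : StdLaw (mom Ω p))
    (P : FreeGroup X →₀ ℝ) (η : Fin m → (FreeGroup X × FreeGroup X →₀ ℝ)) (x : X) :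
    ‖(DD (dd e P η) (ev p) [some (x, true)]) Ω‖ ^ 2 ≤ ∑ i, nrm2 (η i) := by
  have hnn : ∀ i, 0 ≤ nrm2 (η i) := fun i =>
    Finset.sum_nonneg fun _ _ => sq_nonneg _
  rw [DD_singleton, A8b_dd_true]
  by_cases hx : ∃ i, e i = x
  · obtain ⟨i, hi⟩ := hx
    rw [Finset.sum_eq_single i (fun j _ hj => if_neg fun h => hj (he (h.trans hi.symm)))
      (fun h => absurd (Finset.mem_univ i) h), if_pos hi]
    have h1 : ((η i).sum fun ab r => (r : ℂ) •
        ev p (some (x, true) :: (gword ab.1⁻¹ ++ none :: gword ab.2⁻¹))) =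
        p (some (x, true)) * (((η i).mapDomain (fun ab => (ab.1⁻¹, ab.2⁻¹))).sum fun xy r =>
          (r : ℂ) • ev p (gword xy.1 ++ none :: gword xy.2)) := by
      rw [Finsupp.sum_mapDomain_index_inj, Finsupp.mul_sum]
      · refine Finsupp.sum_congr fun ab _ => ?_
        rw [ev_cons, mul_smul_comm]
      · rintro ⟨a, b⟩ ⟨c, d⟩ h
        simpa using h
    rw [h1]
    have h2 : ∀ v : H, ‖p (some (x, true)) v‖ = ‖v‖ := by
      intro v
      have h3 : star (p (some (x, true))) * p (some (x, true)) = 1 := by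
        rw [hp.st]
        exact hp.uni (x, false)
      have h4 : inner ℂ (p (some (x, true)) v) (p (some (x, true)) v) = inner ℂ v v := by
        rw [← ContinuousLinearMap.adjoint_inner_left, ← ContinuousLinearMap.star_eq_adjoint]
        have h5 : (star (p (some (x, true)))) (p (some (x, true)) v) = v := by
          have := congrArg (fun T : H →L[ℂ] H => T v) h3
          simpa using this
        rw [h5]
      rw [inner_self_eq_norm_sq_to_K, inner_self_eq_norm_sq_to_K] at h4
      have h6 : ‖p (some (x, true)) v‖ ^ 2 = ‖v‖ ^ 2 := by exact_mod_cast h4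
      exact (pow_left_inj₀ (norm_nonneg _) (norm_nonneg _) two_ne_zero).1 h6
    rw [mul_apply_eq_comp, h2, l2_std hp hμ]
    have h7 : nrm2 ((η i).mapDomain (fun ab => (ab.1⁻¹, ab.2⁻¹))) = nrm2 (η i) := by
      unfold nrm2
      rw [Finsupp.sum_mapDomain_index_inj]
      rintro ⟨a, b⟩ ⟨c, d⟩ h
      simpa using h
    rw [h7]
    exact Finset.single_le_sum (fun j _ => hnn j) (Finset.mem_univ i)
  · rw [Finset.sum_eq_zero fun i _ => if_neg fun h => hx ⟨i, h⟩]
    simp only [zero_apply, norm_zero]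
    rw [zero_pow two_ne_zero]
    exact Finset.sum_nonneg fun j _ => hnn j

end Pool.Agent.H667R3.FF
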