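import Mathlib
import Pool.Agent.H667R3.FF.Defs
import Pool.Agent.H667R3.FF.A5
import Pool.Agent.H667R3.FF.A6
import Pool.Agent.H667R3.FF.A7c
import Pool.Agent.H667R3.FF.A8b
import Pool.Agent.H667R3.FF.A10

/-! Task A9 (table h667b_tasks, shared note 777). Replace every `sorry`; keep the statements. -/

namespace Pool.Agent.H667R3.FF

open Pool.Agent.H667R2.FG
open scoped ComplexConjugate

section A9aux

variable {X : Type} [DecidableEq X] {H : Type} [NormedAddCommGroup H]
    [InnerProductSpace ℂ H] [CompleteSpace H]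

omit [DecidableEq X] in
theorem A9_norm_some [Nontrivial H] {p : Lt X → (H →L[ℂ] H)} (hp : Good p) (x : X × Bool) :
    ‖p (some x)‖ ≤ 1 := by
  have h1 : p (some x) * star (p (some x)) = 1 := by
    rw [hp.st]; exact hp.uni x
  have h2 : ‖p (some x)‖ * ‖p (some x)‖ = 1 := by
    rw [← CStarRing.norm_self_mul_star, h1, norm_one]
  nlinarith [norm_nonneg (p (some x))]

omit [DecidableEq X] in
theorem A9_norm_ev [Nontrivial H] {p : Lt X → (H →L[ℂ] H)} (hp : Good p)
    (L : List (X × Bool)) : ‖ev p (L.map some)‖ ≤ 1 := by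
  induction L with
  | nil => simp [ev]
  | cons x L ih =>
    have h : ev p ((x :: L).map some) = p (some x) * ev p (L.map some) := by simp [ev]
    rw [h]
    calc _ ≤ ‖p (some x)‖ * ‖ev p (L.map some)‖ := norm_mul_le _ _
      _ ≤ 1 * 1 := mul_le_mul (A9_norm_some hp x) ih (norm_nonneg _) zero_le_one
      _ = 1 := one_mul 1

theorem A9_norm_evP [Nontrivial H] {p : Lt X → (H →L[ℂ] H)} (hp : Good p)
    (P : FreeGroup X →₀ ℝ) : ‖evP p P‖ ≤ P.sum fun _ c => |c| := by
  unfold evP Finsupp.sum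
  refine (norm_sum_le _ _).trans (Finset.sum_le_sum fun g _ => ?_)
  rw [norm_smul, Complex.norm_real, Real.norm_eq_abs]
  calc _ ≤ |P g| * 1 := mul_le_mul_of_nonneg_left (A9_norm_ev hp _) (abs_nonneg _)
    _ = |P g| := mul_one _

theorem A9_ev_one {B : Type} [Monoid B] (q : Lt X → B) :
    ev q (gword (1 : FreeGroup X) ++ none :: gword (1 : FreeGroup X)) = q none := by
  simp [ev, gword]

theorem A9_est {m : ℕ} {e : Fin m → X} (he : Function.Injective e) [Nontrivial H] {Ω : H}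
    (hΩ : ‖Ω‖ = 1) {ε : ℝ}
    {P : FreeGroup X →₀ ℝ} {η : Fin m → (FreeGroup X × FreeGroup X →₀ ℝ)} (hs : Sol e ε P η)
    {q q' : Lt X → (H →L[ℂ] H)} (hq : Good q) (hμ : StdLaw (mom Ω q)) {C S h : ℝ}
    (hh : 0 ≤ h)
    (hw : ∀ w, ‖ev q' w - ev q w - (h : ℂ) • DD (dd e P η) (ev q) w‖ ≤
      C * (2 * S) ^ w.length * h ^ 2) :
    ‖q' none‖ ≤ ‖q none‖ + (h * (P.sum fun _ c => |c|) + C * (2 * S) * h ^ 2) ∧
    (∀ x, ‖(q' (some (x, true)) - q (some (x, true))) Ω‖ ≤
      h * Real.sqrt ε + C * (2 * S) * h ^ 2) ∧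
    ‖evP q' P Ω - evP q P Ω - (h : ℂ) • (q none Ω)‖ ≤
      h * Real.sqrt ε + (P.sum fun g c => |c| * (C * (2 * S) ^ (gword g).length)) * h ^ 2 ∧
    ‖q' none Ω - q none Ω + (h : ℂ) • (evP q P Ω)‖ ≤ C * (2 * S) * h ^ 2 := by
  have hop : ∀ T : H →L[ℂ] H, ‖T Ω‖ ≤ ‖T‖ := by
    intro T
    have := T.le_opNorm Ω
    rwa [hΩ, mul_one] at this
  have hN := hw [none]
  have hev1 : ∀ (r : Lt X → (H →L[ℂ] H)) (l : Lt X), ev r [l] = r l := by
    intro r l; simp [ev]
  rw [hev1, hev1, DD_dd_none] at hN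
  simp only [List.length_singleton, pow_one] at hN
  have hN' : q' none - q none - (h : ℂ) • (-evP q P) =
      q' none - q none + (h : ℂ) • evP q P := by
    rw [smul_neg, sub_neg_eq_add]
  rw [hN'] at hN
  refine ⟨?_, ?_, ?_, ?_⟩
  · have e1 : q' none = q none + ((q' none - q none + (h : ℂ) • evP q P) - (h : ℂ) • evP q P) := by
      abel
    have e2 : ‖(h : ℂ) • evP q P‖ ≤ h * (P.sum fun _ c => |c|) := by
      rw [norm_smul, Complex.norm_real, Real.norm_eq_abs, abs_of_nonneg hh]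
      exact mul_le_mul_of_nonneg_left (A9_norm_evP hq P) hh
    calc ‖q' none‖ = ‖q none + ((q' none - q none + (h : ℂ) • evP q P) - (h : ℂ) • evP q P)‖ := by
          rw [← e1]
      _ ≤ ‖q none‖ + ‖(q' none - q none + (h : ℂ) • evP q P) - (h : ℂ) • evP q P‖ :=
          norm_add_le _ _
      _ ≤ ‖q none‖ + (‖q' none - q none + (h : ℂ) • evP q P‖ + ‖(h : ℂ) • evP q P‖) := by
          gcongr; exact norm_sub_le _ _
      _ ≤ _ := by linarith
  · intro x
    have hx := hw [some (x, true)]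
    rw [hev1, hev1] at hx
    simp only [List.length_singleton, pow_one] at hx
    have h1 := norm_DD_dd_some he hq hμ P η x
    have h2 : ‖(DD (dd e P η) (ev q) [some (x, true)]) Ω‖ ≤ Real.sqrt ε := by
      apply Real.le_sqrt_of_sq_le
      exact h1.trans hs.small
    set D := DD (dd e P η) (ev q) [some (x, true)] with hD
    have e1 : (q' (some (x, true)) - q (some (x, true))) Ω =
        (q' (some (x, true)) - q (some (x, true)) - (h : ℂ) • D) Ω + (h : ℂ) • (D Ω) := by
      simp only [sub_apply, smul_apply]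
      abel
    rw [e1]
    calc _ ≤ ‖(q' (some (x, true)) - q (some (x, true)) - (h : ℂ) • D) Ω‖ + ‖(h : ℂ) • (D Ω)‖ :=
          norm_add_le _ _
      _ ≤ C * (2 * S) * h ^ 2 + h * Real.sqrt ε := by
          apply add_le_add
          · exact (hop _).trans hx
          · rw [norm_smul, Complex.norm_real, Real.norm_eq_abs, abs_of_nonneg hh]
            exact mul_le_mul_of_nonneg_left h2 hh
      _ = _ := by ring
  · -- the derivative of `P`
    set f := opT e P η - Finsupp.single (1, 1) 1 with hf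
    have h1 : f.sum (fun xy r => (r : ℂ) • ev q (gword xy.1 ++ none :: gword xy.2)) =
        (P.sum fun g c => (c : ℂ) • DD (dd e P η) (ev q) (gword g)) - q none := by
      rw [hf, Finsupp.sum_sub_index, DD_dd_P hq]
      · congr 1
        rw [Finsupp.sum_single_index]
        · simp only [Complex.ofReal_one, one_smul]
          exact A9_ev_one q
        · simp
      · intro a b c
        push_cast
        rw [sub_smul]
    have h2 := l2_std hq hμ f
    have h3 : ‖(f.sum (fun xy r => (r : ℂ) • ev q (gword xy.1 ++ none :: gword xy.2))) Ω‖ ≤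
        Real.sqrt ε := by
      apply Real.le_sqrt_of_sq_le
      rw [h2]
      exact hs.tt
    rw [h1] at h3
    set D := (P.sum fun g c => (c : ℂ) • DD (dd e P η) (ev q) (gword g)) with hD
    have e1 : evP q' P - evP q P - (h : ℂ) • D =
        P.sum fun g c => (c : ℂ) • (ev q' (gword g) - ev q (gword g) -
          (h : ℂ) • DD (dd e P η) (ev q) (gword g)) := by
      rw [hD]
      unfold evP Finsupp.sum
      rw [Finset.smul_sum, ← Finset.sum_sub_distrib, ← Finset.sum_sub_distrib]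
      apply Finset.sum_congr rfl
      intro g _
      beta_reduce
      rw [smul_sub, smul_sub, smul_comm (h : ℂ)]
    have e2 : ‖evP q' P - evP q P - (h : ℂ) • D‖ ≤
        (P.sum fun g c => |c| * (C * (2 * S) ^ (gword g).length)) * h ^ 2 := by
      rw [e1]
      unfold Finsupp.sum
      rw [Finset.sum_mul]
      refine (norm_sum_le _ _).trans (Finset.sum_le_sum fun g _ => ?_)
      rw [norm_smul, Complex.norm_real, Real.norm_eq_abs, mul_assoc]
      exact mul_le_mul_of_nonneg_left (hw (gword g)) (abs_nonneg _)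
    have e3 : evP q' P Ω - evP q P Ω - (h : ℂ) • (q none Ω) =
        (evP q' P - evP q P - (h : ℂ) • D) Ω + (h : ℂ) • ((D - q none) Ω) := by
      simp only [sub_apply, smul_apply, smul_sub]
      abel
    rw [e3]
    calc _ ≤ ‖(evP q' P - evP q P - (h : ℂ) • D) Ω‖ + ‖(h : ℂ) • ((D - q none) Ω)‖ :=
          norm_add_le _ _
      _ ≤ (P.sum fun g c => |c| * (C * (2 * S) ^ (gword g).length)) * h ^ 2 +
          h * Real.sqrt ε := by
          apply add_le_add
          · exact (hop _).trans e2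
          · rw [norm_smul, Complex.norm_real, Real.norm_eq_abs, abs_of_nonneg hh]
            exact mul_le_mul_of_nonneg_left h3 hh
      _ = _ := by ring
  · have e1 : q' none Ω - q none Ω + (h : ℂ) • (evP q P Ω) =
        (q' none - q none + (h : ℂ) • evP q P) Ω := by
      simp only [sub_apply, smul_apply,
        add_apply]
    rw [e1]
    exact (hop _).trans hN

/-- the complex combination `a ± i b` -/
noncomputable def A9_zz (Ω : H) (P : FreeGroup X →₀ ℝ) (s : ℝ) (q : Lt X → (H →L[ℂ] H)) : H :=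
  evP q P Ω + ((s : ℂ) * Complex.I) • (q none Ω)

theorem A9_norm_rot (s h : ℝ) (hs : s ^ 2 = 1) : ‖(1 - (s : ℂ) * Complex.I * h : ℂ)‖ ≤ 1 + h ^ 2 := by
  have h1 : ‖(1 - (s : ℂ) * Complex.I * h : ℂ)‖ ^ 2 = 1 + h ^ 2 := by
    rw [Complex.sq_norm, Complex.normSq_apply]
    have e1 : (1 - (s : ℂ) * Complex.I * h : ℂ).re = 1 := by simp
    have e2 : (1 - (s : ℂ) * Complex.I * h : ℂ).im = -(s * h) := by simp
    rw [e1, e2]
    nlinarith
  apply abs_le_of_sq_le_sq' _ (by positivity) |>.2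
  rw [h1]
  nlinarith [sq_nonneg h, sq_nonneg (h ^ 2)]

theorem A9_iter [Fintype X] {m : ℕ} {e : Fin m → X} (he : Function.Injective e) [Nontrivial H]
    {Ω : H} (hΩ : ‖Ω‖ = 1) {ε : ℝ}
    {P : FreeGroup X →₀ ℝ} {η : Fin m → (FreeGroup X × FreeGroup X →₀ ℝ)} (hs : Sol e ε P η)
    {p : Lt X → (H →L[ℂ] H)} (hp : Good p) (hμ : StdLaw (mom Ω p)) {S C h₀ : ℝ} (hS1 : 1 ≤ S)
    (hC : 0 ≤ C)
    (hstep : ∀ p : Lt X → (H →L[ℂ] H), Good p → (∀ l, ‖p l‖ ≤ S) → ∀ h : ℝ, |h| ≤ h₀ →
      ∃ p' : Lt X → (H →L[ℂ] H), Good p' ∧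
        (∀ w, ‖ev p' w - ev p w - (h : ℂ) • DD (dd e P η) (ev p) w‖ ≤
          C * (2 * S) ^ w.length * h ^ 2) ∧
        (∀ l, InAlg p (p' l)) ∧ (∀ l, InAlg p' (p l)) ∧
        (∀ Ω : H, (∀ w, DD (dd e P η) (mom Ω p) w = 0) → ∀ w, mom Ω p' w = mom Ω p w))
    {h : ℝ} (hh : 0 ≤ h) (hh0 : h ≤ h₀) {N : ℕ}
    (hNS : ‖p none‖ + N * (h * (P.sum fun _ c => |c|) + C * (2 * S) * h ^ 2) ≤ S) :
    ∀ k : ℕ, k ≤ N → ∃ q : Lt X → (H →L[ℂ] H), Good q ∧ (∀ w, mom Ω q w = mom Ω p w) ∧
      (∀ l, InAlg p (q l)) ∧ (∀ l, InAlg q (p l)) ∧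
      ‖q none‖ ≤ ‖p none‖ + k * (h * (P.sum fun _ c => |c|) + C * (2 * S) * h ^ 2) ∧
      (∀ x, ‖(q (some (x, true)) - p (some (x, true))) Ω‖ ≤
        k * (h * Real.sqrt ε + C * (2 * S) * h ^ 2)) ∧
      (∀ s : ℝ, s ^ 2 = 1 → ‖A9_zz Ω P s q - (1 - (s : ℂ) * Complex.I * h) ^ k • A9_zz Ω P s p‖ ≤
        k * (h * Real.sqrt ε + ((P.sum fun g c => |c| * (C * (2 * S) ^ (gword g).length)) +
          C * (2 * S)) * h ^ 2) * (1 + h ^ 2) ^ k) := by
  have hPabs : 0 ≤ P.sum fun _ c => |c| := Finset.sum_nonneg fun g _ => abs_nonneg _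
  have hC1 : 0 ≤ P.sum fun g c => |c| * (C * (2 * S) ^ (gword g).length) :=
    Finset.sum_nonneg fun g _ => by positivity
  intro k
  induction k with
  | zero =>
    intro _
    refine ⟨p, hp, fun _ => rfl, ?_, ?_, by simp, by simp, ?_⟩
    · intro l
      have := inAlg_ev p [l]
      simpa [ev] using this
    · intro l
      have := inAlg_ev p [l]
      simpa [ev] using this
    · intro s _
      simp
  | succ k ih =>
    intro hk
    obtain ⟨q, hq, hqm, hpq, hqp, hqn, hqx, hqz⟩ := ih (by omega)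
    have hqμ : StdLaw (mom Ω q) := by
      have : mom Ω q = mom Ω p := funext hqm
      rw [this]; exact hμ
    have hqS : ∀ l, ‖q l‖ ≤ S := by
      intro l
      cases l with
      | none =>
        refine hqn.trans (le_trans ?_ hNS)
        gcongr
        omega
      | some x => exact (A9_norm_some hq x).trans hS1
    obtain ⟨q', hq', hw, hqq', hq'q, hm⟩ := hstep q hq hqS h (by rw [abs_of_nonneg hh]; exact hh0)
    obtain ⟨t1, t2, t3, t4⟩ := A9_est he hΩ hs hq hqμ hh hw
    have hm' := hm Ω (fun w => dd_law hs.div hs.sym hqμ w)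
    refine ⟨q', hq', ?_, ?_, ?_, ?_, ?_, ?_⟩
    · intro w; rw [hm' w, hqm w]
    · intro l; exact inAlg_trans hpq (hqq' l)
    · intro l; exact inAlg_trans hq'q (hqp l)
    · push_cast
      linarith
    · intro x
      have e1 : (q' (some (x, true)) - p (some (x, true))) Ω =
          (q' (some (x, true)) - q (some (x, true))) Ω +
            (q (some (x, true)) - p (some (x, true))) Ω := by
        simp only [sub_apply]
        abel
      rw [e1]
      refine (norm_add_le _ _).trans ?_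
      have h1 := t2 x
      have h2 := hqx x
      rw [Nat.cast_add, Nat.cast_one]
      linarith
    · intro s hs1
      set δ := h * Real.sqrt ε + ((P.sum fun g c => |c| * (C * (2 * S) ^ (gword g).length)) +
          C * (2 * S)) * h ^ 2 with hδ
      have hδ0 : 0 ≤ δ := by positivity
      have hI2 : ((s : ℂ) * Complex.I) * ((s : ℂ) * Complex.I) = -1 := by
        have : (s : ℂ) ^ 2 = 1 := by exact_mod_cast hs1
        calc ((s : ℂ) * Complex.I) * ((s : ℂ) * Complex.I) = (s : ℂ) ^ 2 * (Complex.I * Complex.I) := by ring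
          _ = -1 := by rw [this, Complex.I_mul_I]; ring
      have z1 : A9_zz Ω P s q' - (1 - (s : ℂ) * Complex.I * h) • A9_zz Ω P s q =
          (evP q' P Ω - evP q P Ω - (h : ℂ) • (q none Ω)) +
          ((s : ℂ) * Complex.I) • (q' none Ω - q none Ω + (h : ℂ) • (evP q P Ω)) := by
        unfold A9_zz
        generalize evP q' P Ω = a'
        generalize evP q P Ω = a
        generalize q' none Ω = b'
        generalize q none Ω = b
        have hx : ((s : ℂ) * Complex.I * h) • (((s : ℂ) * Complex.I) • b) = -((h : ℂ) • b) := by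
          rw [smul_smul, mul_right_comm, hI2, neg_one_mul, neg_smul]
        rw [sub_smul, one_smul, smul_add, hx, smul_add, smul_sub, smul_smul]
        abel
      have z2 : ‖A9_zz Ω P s q' - (1 - (s : ℂ) * Complex.I * h) • A9_zz Ω P s q‖ ≤ δ := by
        rw [z1]
        have hsI : ‖((s : ℂ) * Complex.I)‖ = 1 := by
          rw [norm_mul, Complex.norm_I, mul_one, Complex.norm_real, Real.norm_eq_abs]
          have : |s| ^ 2 = 1 := by rw [sq_abs]; exact hs1
          nlinarith [abs_nonneg s]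
        refine (norm_add_le _ _).trans ?_
        rw [norm_smul, hsI, one_mul, hδ]
        linarith
      have z3 : A9_zz Ω P s q' - (1 - (s : ℂ) * Complex.I * h) ^ (k + 1) • A9_zz Ω P s p =
          (A9_zz Ω P s q' - (1 - (s : ℂ) * Complex.I * h) • A9_zz Ω P s q) +
          (1 - (s : ℂ) * Complex.I * h) •
            (A9_zz Ω P s q - (1 - (s : ℂ) * Complex.I * h) ^ k • A9_zz Ω P s p) := by
        rw [smul_sub, smul_smul, pow_succ']
        abel
      rw [z3]
      refine (norm_add_le _ _).trans ?_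
      rw [norm_smul]
      have z4 := hqz s hs1
      have z5 := A9_norm_rot s h hs1
      have z6 : (1 : ℝ) ≤ (1 + h ^ 2) ^ (k + 1) := one_le_pow₀ (by nlinarith [sq_nonneg h])
      calc _ ≤ δ + (1 + h ^ 2) * (k * δ * (1 + h ^ 2) ^ k) := by
            apply add_le_add z2
            exact mul_le_mul z5 z4 (norm_nonneg _) (by positivity)
        _ = δ * 1 + k * δ * (1 + h ^ 2) ^ (k + 1) := by rw [pow_succ]; ring
        _ ≤ δ * (1 + h ^ 2) ^ (k + 1) + k * δ * (1 + h ^ 2) ^ (k + 1) := by gcongr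
        _ = _ := by push_cast; ring

omit [CompleteSpace H] in
/-- the rotation by the angle `π / 2` -/
theorem A9_fin {Ω : H} {P : FreeGroup X →₀ ℝ} {q p : Lt X → (H →L[ℂ] H)} (N : ℕ) (h E : ℝ)
    (hz : ∀ s : ℝ, s ^ 2 = 1 →
      ‖A9_zz Ω P s q - (1 - (s : ℂ) * Complex.I * h) ^ N • A9_zz Ω P s p‖ ≤ E) :
    ‖(evP q P - p none) Ω‖ ≤ E +
      (‖(1 - Complex.I * h) ^ N + Complex.I‖ * ‖A9_zz Ω P 1 p‖ +
        ‖(1 + Complex.I * h) ^ N - Complex.I‖ * ‖A9_zz Ω P (-1) p‖) / 2 := by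
  have h1 := hz 1 (by norm_num)
  have h2 := hz (-1) (by norm_num)
  have e1 : (1 - ((1 : ℝ) : ℂ) * Complex.I * h : ℂ) = 1 - Complex.I * h := by push_cast; ring
  have e2 : (1 - ((-1 : ℝ) : ℂ) * Complex.I * h : ℂ) = 1 + Complex.I * h := by push_cast; ring
  rw [e1] at h1
  rw [e2] at h2
  generalize (1 - Complex.I * h) ^ N = α at *
  generalize (1 + Complex.I * h) ^ N = β at *
  have key : (2 : ℂ) • ((evP q P - p none) Ω) =
      (A9_zz Ω P 1 q - α • A9_zz Ω P 1 p) + (A9_zz Ω P (-1) q - β • A9_zz Ω P (-1) p) +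
        ((α + Complex.I) • A9_zz Ω P 1 p + (β - Complex.I) • A9_zz Ω P (-1) p) := by
    unfold A9_zz
    rw [sub_apply]
    generalize evP q P Ω = a'
    generalize evP p P Ω = a
    generalize q none Ω = b'
    generalize p none Ω = b
    have hI := Complex.I_mul_I
    push_cast
    match_scalars
    · ring
    · linear_combination (-2 : ℂ) * hI
    · ring
    · ring
  have h3 : ‖(2 : ℂ) • ((evP q P - p none) Ω)‖ = 2 * ‖(evP q P - p none) Ω‖ := by
    rw [norm_smul]; norm_num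
  have h4 : 2 * ‖(evP q P - p none) Ω‖ ≤ (E + E) +
      (‖α + Complex.I‖ * ‖A9_zz Ω P 1 p‖ + ‖β - Complex.I‖ * ‖A9_zz Ω P (-1) p‖) := by
    rw [← h3, key]
    refine (norm_add_le _ _).trans (add_le_add ((norm_add_le _ _).trans (add_le_add h1 h2)) ?_)
    refine (norm_add_le _ _).trans (add_le_add ?_ ?_)
    · rw [norm_smul]
    · rw [norm_smul]
  linarith

open Filter Topology in
theorem A9_lim (K Z1 Z2 σ : ℝ) :
    Tendsto (fun N : ℕ => Real.pi / 2 * (σ + K * (Real.pi / 2 / N)) *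
      (1 + (Real.pi / 2 / N : ℝ) ^ 2) ^ N +
      (‖(1 - Complex.I * ((Real.pi / 2 / N : ℝ) : ℂ)) ^ N + Complex.I‖ * Z1 +
        ‖(1 + Complex.I * ((Real.pi / 2 / N : ℝ) : ℂ)) ^ N - Complex.I‖ * Z2) / 2) atTop
      (𝓝 (Real.pi / 2 * σ)) := by
  have h0 : Tendsto (fun N : ℕ => (Real.pi / 2 / N : ℝ)) atTop (𝓝 0) :=
    tendsto_const_div_atTop_nhds_zero_nat _
  have h1 : Tendsto (fun N : ℕ => (1 + (Real.pi / 2 / N : ℝ) ^ 2) ^ N) atTop (𝓝 1) := by
    have : Tendsto (fun N : ℕ => (N : ℝ) * (Real.pi / 2 / N : ℝ) ^ 2) atTop (𝓝 0) := by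
      have h2 : Tendsto (fun N : ℕ => Real.pi / 2 * (Real.pi / 2 / N : ℝ)) atTop (𝓝 (Real.pi / 2 * 0)) :=
        h0.const_mul _
      rw [mul_zero] at h2
      refine h2.congr' ?_
      filter_upwards [eventually_ge_atTop 1] with N hN
      have : (N : ℝ) ≠ 0 := by positivity
      field_simp
    have h3 := Real.tendsto_one_add_pow_exp_of_tendsto this
    rwa [Real.exp_zero] at h3
  have h2 : Tendsto (fun N : ℕ => (1 - Complex.I * ((Real.pi / 2 / N : ℝ) : ℂ)) ^ N) atTop
      (𝓝 (-Complex.I)) := by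
    have h3 := Complex.tendsto_one_add_div_pow_exp (-(Real.pi / 2 : ℝ) * Complex.I)
    have h4 : Complex.exp (-(Real.pi / 2 : ℝ) * Complex.I) = -Complex.I := by
      rw [neg_mul, Complex.exp_neg]
      push_cast
      rw [Complex.exp_pi_div_two_mul_I, Complex.inv_I]
    rw [h4] at h3
    refine h3.congr ?_
    intro N
    congr 1
    push_cast
    ring
  have h3 : Tendsto (fun N : ℕ => (1 + Complex.I * ((Real.pi / 2 / N : ℝ) : ℂ)) ^ N) atTop
      (𝓝 (Complex.I)) := by
    have h3 := Complex.tendsto_one_add_div_pow_exp ((Real.pi / 2 : ℝ) * Complex.I)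
    have h4 : Complex.exp ((Real.pi / 2 : ℝ) * Complex.I) = Complex.I := by
      push_cast
      rw [Complex.exp_pi_div_two_mul_I]
    rw [h4] at h3
    refine h3.congr ?_
    intro N
    congr 1
    push_cast
    ring
  have h4 : Tendsto (fun N : ℕ => ‖(1 - Complex.I * ((Real.pi / 2 / N : ℝ) : ℂ)) ^ N + Complex.I‖)
      atTop (𝓝 0) := by
    have := (h2.add_const Complex.I).norm
    simpa using this
  have h5 : Tendsto (fun N : ℕ => ‖(1 + Complex.I * ((Real.pi / 2 / N : ℝ) : ℂ)) ^ N - Complex.I‖)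
      atTop (𝓝 0) := by
    have := (h3.sub_const Complex.I).norm
    simpa using this
  have h6 := ((((h0.const_mul K).const_add σ).const_mul (Real.pi / 2)).mul h1).add
    (((h4.mul_const Z1).add (h5.mul_const Z2)).div_const 2)
  simpa using h6

end A9aux

open Filter Topology in
theorem big_step {X : Type} [DecidableEq X] [Fintype X] {m : ℕ} {e : Fin m → X}
    (he : Function.Injective e) {H : Type} [NormedAddCommGroup H]
    [InnerProductSpace ℂ H] [CompleteSpace H] {Ω : H} (hΩ : ‖Ω‖ = 1) {ε : ℝ} (hε : 0 < ε)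
    {P : FreeGroup X →₀ ℝ} {η : Fin m → (FreeGroup X × FreeGroup X →₀ ℝ)} (hs : Sol e ε P η)
    (hη : ∀ i a b, η i (b⁻¹, a⁻¹) = -η i (a, b))
    {p : Lt X → (H →L[ℂ] H)} (hp : Good p) (hμ : StdLaw (mom Ω p)) :
    ∃ p' : Lt X → (H →L[ℂ] H), Good p' ∧ (∀ w, mom Ω p' w = mom Ω p w) ∧
      (∀ l, InAlg p (p' l)) ∧ (∀ l, InAlg p' (p l)) ∧
      (∀ x, ‖(p' (some (x, true)) - p (some (x, true))) Ω‖ ≤ 3 * Real.sqrt ε) ∧
      ‖(evP p' P - p none) Ω‖ ≤ 3 * Real.sqrt ε := by
  have hΩ0 : Ω ≠ 0 := by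
    intro h; rw [h, norm_zero] at hΩ; exact zero_ne_one hΩ
  have : Nontrivial H := nontrivial_of_ne Ω 0 hΩ0
  have hPabs : 0 ≤ P.sum fun _ c => |c| := Finset.sum_nonneg fun g _ => abs_nonneg _
  set S : ℝ := ‖p none‖ + 2 * (P.sum fun _ c => |c|) + 1 with hSdef
  have hS1 : 1 ≤ S := by
    have := norm_nonneg (p none)
    linarith
  obtain ⟨h₀, hh₀, C, hC, hstep⟩ := one_step (H := H) (dd e P η)
    (fun l v => dd_star hs.sym hη l v) (fun V _ _ F hF => dd_canc P η V F hF) S hS1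
  set C1 : ℝ := P.sum fun g c => |c| * (C * (2 * S) ^ (gword g).length) with hC1def
  set K : ℝ := C1 + C * (2 * S) with hKdef
  have hσ : 0 < Real.sqrt ε := Real.sqrt_pos.mpr hε
  have hpi := Real.pi_lt_d2
  have hpi0 := Real.pi_pos
  have hlim := A9_lim K ‖A9_zz Ω P 1 p‖ ‖A9_zz Ω P (-1) p‖ (Real.sqrt ε)
  have h0 : Tendsto (fun N : ℕ => (Real.pi / 2 / N : ℝ)) atTop (𝓝 0) :=
    tendsto_const_div_atTop_nhds_zero_nat _
  have h1 : Tendsto (fun N : ℕ => Real.pi / 2 * (C * (2 * S)) * (Real.pi / 2 / N : ℝ)) atTop (𝓝 0) := by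
    have := h0.const_mul (Real.pi / 2 * (C * (2 * S)))
    rwa [mul_zero] at this
  have ev1 := hlim.eventually_lt_const (show Real.pi / 2 * Real.sqrt ε < 3 * Real.sqrt ε by nlinarith)
  have ev2 := h0.eventually_lt_const hh₀
  have ev3 := h1.eventually_lt_const zero_lt_one
  have ev4 := h1.eventually_lt_const hσ
  obtain ⟨N, hN1, hN2, hN3, hN4, hN5⟩ :=
    ((eventually_ge_atTop 1).and (ev1.and (ev2.and (ev3.and ev4)))).exists
  set h : ℝ := Real.pi / 2 / N with hh
  have hNpos : (0 : ℝ) < N := by exact_mod_cast hN1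
  have hNh : (N : ℝ) * h = Real.pi / 2 := by rw [hh]; field_simp
  have hhpos : 0 ≤ h := by rw [hh]; positivity
  have hNS : ‖p none‖ + N * (h * (P.sum fun _ c => |c|) + C * (2 * S) * h ^ 2) ≤ S := by
    have e1 : N * (h * (P.sum fun _ c => |c|) + C * (2 * S) * h ^ 2) =
        (N * h) * (P.sum fun _ c => |c|) + (N * h) * (C * (2 * S)) * h := by ring
    rw [e1, hNh, hSdef]
    rw [← hSdef]
    nlinarith
  obtain ⟨q, hq, hqm, hpq, hqp, hqn, hqx, hqz⟩ :=
    A9_iter he hΩ hs hp hμ hS1 hC hstep hhpos hN3.le hNS N le_rfl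
  refine ⟨q, hq, hqm, hpq, hqp, ?_, ?_⟩
  · intro x
    refine (hqx x).trans ?_
    have e1 : N * (h * Real.sqrt ε + C * (2 * S) * h ^ 2) =
        (N * h) * Real.sqrt ε + (N * h) * (C * (2 * S)) * h := by ring
    rw [e1, hNh]
    nlinarith
  · have hfin := A9_fin N h _ hqz
    refine hfin.trans (le_trans (le_of_eq ?_) hN2.le)
    congr 1
    have e1 : N * (h * Real.sqrt ε + (C1 + C * (2 * S)) * h ^ 2) =
        (N * h) * (Real.sqrt ε + (C1 + C * (2 * S)) * h) := by ring
    rw [e1, hNh]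

end Pool.Agent.H667R3.FF
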