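import Mathlib
import Pool.Agent.H667R3.FF.Defs

/-! Task C1 (table h667b_tasks, shared note 777). -/

namespace Pool.Agent.H667R3.FF

open Pool.Agent.H667R2.FG
open scoped ComplexConjugate

theorem ex_one (j : ℕ) : ex j 1 = 0 := by
  simp [ex]

theorem ex_mul (j : ℕ) (g h : Gm) : ex j (g * h) = ex j g + ex j h := by
  simp [ex, toAdd_mul]

theorem ex_inv (j : ℕ) (g : Gm) : ex j g⁻¹ = -ex j g := by
  simp [ex, toAdd_inv]

theorem ex_wl (j k : ℕ) : ex j (wl k) = if k = j then 1 else 0 := by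
  simp [ex, wl]

theorem ex_ul (j : ℕ) (i : Fin 4) : ex j (ul i) = 0 := by
  simp [ex, ul]

/-- induction for homomorphism-like identities -/
theorem C1_ind {P : Gm → Prop} (h1 : P 1) (hw : ∀ k, P (wl k)) (hu : ∀ i, P (ul i))
    (hi : ∀ g, P g → P g⁻¹) (hm : ∀ g h, P g → P h → P (g * h)) (g : Gm) : P g := by
  induction g using FreeGroup.induction_on with
  | C1 => exact h1
  | of x =>
    rcases x with k | i
    · exact hw k
    · exact hu i
  | inv_of x h => exact hi _ h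
  | mul x y hx hy => exact hm x y hx hy

theorem C1_hp_wl (j j' k : ℕ) : hp j j' (wl k) =
    if k = j then ⟨1, 0, 0⟩ else if k = j' then ⟨0, 1, 0⟩ else 1 := by
  simp [hp, wl]

theorem C1_hp_ul (j j' : ℕ) (i : Fin 4) : hp j j' (ul i) = 1 := by
  simp [hp, ul]

theorem hp_a (j j' : ℕ) (g : Gm) : (hp j j' g).a = ex j g := by
  induction g using C1_ind with
  | h1 => simp [ex_one]
  | hw k =>
    rw [C1_hp_wl, ex_wl]
    split_ifs <;> rfl
  | hu i => rw [C1_hp_ul, ex_ul]; rfl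
  | hi g h => rw [map_inv, Heis.inv_a, h, ex_inv]
  | hm g h hg hh => rw [map_mul, Heis.mul_a, hg, hh, ex_mul]

theorem hp_b {j j' : ℕ} (h : j ≠ j') (g : Gm) : (hp j j' g).b = ex j' g := by
  induction g using C1_ind with
  | h1 => simp [ex_one]
  | hw k =>
    rw [C1_hp_wl, ex_wl]
    by_cases hk : k = j
    · have : ¬ (k = j') := fun h' => h (hk.symm.trans h')
      rw [if_pos hk, if_neg this]
    · rw [if_neg hk]
      split_ifs <;> rfl
  | hu i => rw [C1_hp_ul, ex_ul]; rfl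
  | hi g h => rw [map_inv, Heis.inv_b, h, ex_inv]
  | hm g h hg hh => rw [map_mul, Heis.mul_b, hg, hh, ex_mul]

theorem GI_mono {I I' : Set ℕ} (h : I ⊆ I') : GI I ≤ GI I' :=
  Subgroup.closure_mono (Set.union_subset_union_left _ (Set.image_mono h))

theorem C1_wl_mem {I : Set ℕ} {k : ℕ} (hk : k ∈ I) : wl k ∈ GI I :=
  Subgroup.subset_closure (Or.inl ⟨k, hk, rfl⟩)

theorem C1_ul_mem (I : Set ℕ) (i : Fin 4) : ul i ∈ GI I :=
  Subgroup.subset_closure (Or.inr ⟨i, rfl⟩)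

theorem ex_of_mem {I : Set ℕ} {g : Gm} (hg : g ∈ GI I) {j : ℕ} (hj : j ∉ I) : ex j g = 0 := by
  induction hg using Subgroup.closure_induction with
  | mem x hx =>
    rcases hx with ⟨k, hk, rfl⟩ | ⟨i, rfl⟩
    · rw [ex_wl, if_neg]
      rintro rfl
      exact hj hk
    · exact ex_ul j i
  | one => exact ex_one j
  | mul x y _ _ hx hy => rw [ex_mul, hx, hy, add_zero]
  | inv x _ hx => rw [ex_inv, hx, neg_zero]

theorem hp_c_of_mem {I : Set ℕ} {g : Gm} (hg : g ∈ GI I) {j j' : ℕ} (h : j ≠ j')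
    (hj : j ∉ I ∨ j' ∉ I) : (hp j j' g).c = 0 := by
  have key : ∀ x ∈ GI I, ∀ y ∈ GI I, ex j x * ex j' y = 0 := by
    intro x hx y hy
    rcases hj with hj | hj
    · rw [ex_of_mem hx hj, zero_mul]
    · rw [ex_of_mem hy hj, mul_zero]
  induction hg using Subgroup.closure_induction with
  | mem x hx =>
    rcases hx with ⟨k, hk, rfl⟩ | ⟨i, rfl⟩
    · rw [C1_hp_wl]
      split_ifs <;> rfl
    · rw [C1_hp_ul]; rfl
  | one => simp
  | mul x y hx hy hxc hyc =>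
    rw [map_mul, Heis.mul_c, hxc, hyc, hp_a, hp_b h, key x hx y hy]
    simp
  | inv x hx hxc =>
    rw [map_inv, Heis.inv_c, hxc, hp_a, hp_b h, key x hx x hx]
    simp

theorem aw_mem (j l : ℕ) : aw j l ∈ GI {j} := by
  induction l with
  | zero => exact one_mem _
  | succ l ih => exact mul_mem ih (mul_mem (C1_wl_mem rfl) (C1_ul_mem _ _))

theorem gw_mem (L j : ℕ) : gw L j ∈ GI {j} := mul_mem (aw_mem j L) (C1_wl_mem rfl)

theorem al_mem (L : ℕ) (σ : Sg) (l : ℕ) : al L σ l ∈ GI {σ.1} := by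
  unfold al
  split_ifs
  · exact aw_mem _ _
  · exact mul_mem (inv_mem (gw_mem _ _)) (aw_mem _ _)

theorem be_mem (L : ℕ) (σ : Sg) (l : ℕ) : be L σ l ∈ GI {σ.1} := by
  unfold be
  split_ifs
  · exact mul_mem (inv_mem (aw_mem _ _)) (gw_mem _ _)
  · exact inv_mem (aw_mem _ _)

theorem gs_mem (L : ℕ) (σ : Sg) : gs L σ ∈ GI {σ.1} := by
  unfold gs
  split_ifs
  · exact gw_mem _ _
  · exact inv_mem (gw_mem _ _)

theorem al_mul_be (L : ℕ) (σ : Sg) (l : ℕ) : al L σ l * be L σ l = gs L σ := by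
  unfold al be gs
  split_ifs
  · group
  · group

theorem ex_aw (j l : ℕ) : ex j (aw j l) = l := by
  induction l with
  | zero => exact ex_one j
  | succ l ih =>
    rw [aw, ex_mul, ex_mul, ih, ex_wl, ex_ul, if_pos rfl]
    push_cast
    ring

theorem ex_gw (L j : ℕ) : ex j (gw L j) = L + 1 := by
  rw [gw, ex_mul, ex_aw, ex_wl, if_pos rfl]

theorem ex_gs (L : ℕ) (σ : Sg) : ex σ.1 (gs L σ) = if σ.2 then (L : ℤ) + 1 else -(L + 1) := by
  unfold gs
  split_ifs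
  · exact ex_gw _ _
  · rw [ex_inv, ex_gw]

theorem ex_al (L : ℕ) (σ : Sg) (l : ℕ) :
    ex σ.1 (al L σ l) = if σ.2 then (l : ℤ) + 1 else (l : ℤ) - L := by
  unfold al
  split_ifs
  · rw [ex_aw]; push_cast; ring
  · rw [ex_mul, ex_inv, ex_gw, ex_aw]; push_cast; ring

theorem ex_be (L : ℕ) (σ : Sg) (l : ℕ) :
    ex σ.1 (be L σ l) = if σ.2 then (L : ℤ) - l else -((l : ℤ) + 1) := by
  unfold be
  split_ifs
  · rw [ex_mul, ex_inv, ex_gw, ex_aw]; push_cast; ring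
  · rw [ex_inv, ex_aw]; push_cast; ring

theorem ex_al_ne {L : ℕ} {σ : Sg} {l : ℕ} {j : ℕ} (h : j ≠ σ.1) : ex j (al L σ l) = 0 :=
  ex_of_mem (al_mem L σ l) h

theorem ex_be_ne {L : ℕ} {σ : Sg} {l : ℕ} {j : ℕ} (h : j ≠ σ.1) : ex j (be L σ l) = 0 :=
  ex_of_mem (be_mem L σ l) h

theorem ex_gs_ne {L : ℕ} {σ : Sg} {j : ℕ} (h : j ≠ σ.1) : ex j (gs L σ) = 0 :=
  ex_of_mem (gs_mem L σ) h

/-- the exponent of `al` determines `(σ, l)` -/
theorem al_decode {L : ℕ} {σ σ' : Sg} {l l' : ℕ} (hl : l < L) (hl' : l' < L) (h : σ.1 = σ'.1)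
    (he : ex σ.1 (al L σ l) = ex σ.1 (al L σ' l')) : σ = σ' ∧ l = l' := by
  obtain ⟨j, s⟩ := σ
  obtain ⟨j', s'⟩ := σ'
  simp only at h
  subst h
  have e1 := ex_al L (j, s) l
  have e2 := ex_al L (j, s') l'
  simp only at e1 e2 he
  rw [e1, e2] at he
  cases s <;> cases s' <;> simp at he ⊢ <;> omega

theorem be_decode {L : ℕ} {σ σ' : Sg} {l l' : ℕ} (hl : l < L) (hl' : l' < L) (h : σ.1 = σ'.1)
    (he : ex σ.1 (be L σ l) = ex σ.1 (be L σ' l')) : σ = σ' ∧ l = l' := by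
  obtain ⟨j, s⟩ := σ
  obtain ⟨j', s'⟩ := σ'
  simp only at h
  subst h
  have e1 := ex_be L (j, s) l
  have e2 := ex_be L (j, s') l'
  simp only at e1 e2 he
  rw [e1, e2] at he
  cases s <;> cases s' <;> simp at he ⊢ <;> omega

theorem ex_al_pos {L : ℕ} {σ : Sg} {l : ℕ} (hl : l < L) : ex σ.1 (al L σ l) ≠ 0 := by
  rw [ex_al]
  split_ifs <;> omega

theorem ex_be_pos {L : ℕ} {σ : Sg} {l : ℕ} (hl : l < L) : ex σ.1 (be L σ l) ≠ 0 := by
  rw [ex_be]
  split_ifs <;> omega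

theorem ex_gs_pos (L : ℕ) (σ : Sg) : ex σ.1 (gs L σ) ≠ 0 := by
  rw [ex_gs]
  split_ifs <;> omega

theorem gs_decode {L : ℕ} {σ σ' : Sg} (h : gs L σ = gs L σ') : σ = σ' := by
  have h1 : σ.1 = σ'.1 := by
    by_contra hne
    have e1 := ex_gs_pos L σ
    rw [h] at e1
    exact e1 (ex_gs_ne hne)
  obtain ⟨j, s⟩ := σ
  obtain ⟨j', s'⟩ := σ'
  simp only at h1
  subst h1
  have e1 := ex_gs L (j, s)
  have e2 := ex_gs L (j, s')
  rw [h] at e1
  simp only at e1 e2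
  rw [e1] at e2
  cases s <;> cases s' <;> simp at e2 ⊢ <;> omega

end Pool.Agent.H667R3.FF
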