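import Mathlib
import Pool.Agent.H667R3.FF.Defs

/-! Task C14 (table h667b_tasks, shared note 777). -/

namespace Pool.Agent.H667R3.FF

open Pool.Agent.H667R2.FG
open scoped ComplexConjugate

theorem divE_add {X : Type} [DecidableEq X] {m : ℕ} (e : Fin m → X)
    (η ζ : Fin m → (FreeGroup X × FreeGroup X →₀ ℝ)) (v : FreeGroup X) :
    divE e (η + ζ) v = divE e η v + divE e ζ v := by
  unfold divE
  rw [← Finset.sum_add_distrib]
  apply Finset.sum_congr rfl
  intro i _
  simp only [Finsupp.sum]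
  rw [← Finset.sum_add_distrib]
  apply Finset.sum_congr rfl
  intro A _
  simp only [Pi.add_apply, Finsupp.add_apply]
  ring

theorem divE_smul {X : Type} [DecidableEq X] {m : ℕ} (e : Fin m → X) (c : ℝ)
    (η : Fin m → (FreeGroup X × FreeGroup X →₀ ℝ)) (v : FreeGroup X) :
    divE e (c • η) v = c * divE e η v := by
  unfold divE
  rw [Finset.mul_sum]
  apply Finset.sum_congr rfl
  intro i _
  simp only [Finsupp.sum]
  rw [Finset.mul_sum]
  apply Finset.sum_congr rfl
  intro A _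
  simp only [Pi.smul_apply, Finsupp.smul_apply, smul_eq_mul]
  ring

theorem opT_add {X : Type} [DecidableEq X] {m : ℕ} (e : Fin m → X) (P : FreeGroup X →₀ ℝ)
    (η ζ : Fin m → (FreeGroup X × FreeGroup X →₀ ℝ)) :
    opT e P (η + ζ) = opT e P η + opT e P ζ := by
  unfold opT
  rw [← Finset.sum_add_distrib]
  apply Finset.sum_congr rfl
  intro i _
  rw [← Finsupp.sum_add]
  apply Finsupp.sum_congr
  intro g _
  rw [← Finsupp.sum_add]
  apply Finsupp.sum_congr
  intro A _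
  rw [Pi.add_apply]
  rw [Finsupp.sum_add_index']
  · intro ab; simp
  · intro ab b1 b2
    rw [← Finsupp.single_add]; congr 1; ring

theorem opT_smul {X : Type} [DecidableEq X] {m : ℕ} (e : Fin m → X) (P : FreeGroup X →₀ ℝ)
    (c : ℝ) (η : Fin m → (FreeGroup X × FreeGroup X →₀ ℝ)) :
    opT e P (c • η) = c • opT e P η := by
  unfold opT
  rw [Finset.smul_sum]
  apply Finset.sum_congr rfl
  intro i _
  rw [Finsupp.smul_sum]
  apply Finsupp.sum_congr
  intro g _
  rw [Finsupp.smul_sum]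
  apply Finsupp.sum_congr
  intro A _
  rw [Finsupp.smul_sum, Pi.smul_apply, Finsupp.sum_smul_index']
  · apply Finsupp.sum_congr
    intro ab _
    rw [Finsupp.smul_single]
    congr 1
    simp only [smul_eq_mul]; ring
  · intro ab; simp

theorem nrm2_nonneg {α : Type} (f : α →₀ ℝ) : 0 ≤ nrm2 f := by
  unfold nrm2
  exact Finset.sum_nonneg fun _ _ => sq_nonneg _

theorem nrm2_zero {α : Type} : nrm2 (0 : α →₀ ℝ) = 0 := by
  simp [nrm2]

theorem nrm2_smul {α : Type} (c : ℝ) (f : α →₀ ℝ) : nrm2 (c • f) = c ^ 2 * nrm2 f := by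
  unfold nrm2
  rw [Finsupp.sum_smul_index']
  · simp only [Finsupp.sum]
    rw [Finset.mul_sum]
    apply Finset.sum_congr rfl
    intro a _
    simp only [smul_eq_mul]; ring
  · intro a; simp

theorem nrm2_neg {α : Type} (f : α →₀ ℝ) : nrm2 (-f) = nrm2 f := by
  have := nrm2_smul (-1) f
  rw [neg_one_smul] at this
  rw [this]; ring

/-- the square norm over a larger finite set -/
theorem nrm2_eq_sum {α : Type} (f : α →₀ ℝ) (S : Finset α) (hS : f.support ⊆ S) :
    nrm2 f = ∑ a ∈ S, f a ^ 2 := by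
  unfold nrm2
  exact Finsupp.sum_of_support_subset f hS _ (by intro i _; simp)

theorem C14_sqrt_add {ι : Type} (S : Finset ι) (f g : ι → ℝ) :
    Real.sqrt (∑ a ∈ S, (f a + g a) ^ 2) ≤ Real.sqrt (∑ a ∈ S, f a ^ 2) + Real.sqrt (∑ a ∈ S, g a ^ 2) := by
  have hf : 0 ≤ ∑ a ∈ S, f a ^ 2 := Finset.sum_nonneg fun _ _ => sq_nonneg _
  have hg : 0 ≤ ∑ a ∈ S, g a ^ 2 := Finset.sum_nonneg fun _ _ => sq_nonneg _
  apply Real.sqrt_le_iff.2
  refine ⟨by positivity, ?_⟩
  have hcs := Finset.sum_mul_sq_le_sq_mul_sq S f g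
  have h1 : ∑ a ∈ S, f a * g a ≤ Real.sqrt (∑ a ∈ S, f a ^ 2) * Real.sqrt (∑ a ∈ S, g a ^ 2) := by
    rw [← Real.sqrt_mul hf]
    exact Real.le_sqrt_of_sq_le hcs
  have h2 : ∑ a ∈ S, (f a + g a) ^ 2 = ∑ a ∈ S, f a ^ 2 + 2 * ∑ a ∈ S, f a * g a + ∑ a ∈ S, g a ^ 2 := by
    rw [Finset.mul_sum, ← Finset.sum_add_distrib, ← Finset.sum_add_distrib]
    apply Finset.sum_congr rfl
    intro a _; ring
  rw [h2, add_sq, Real.sq_sqrt hf, Real.sq_sqrt hg]
  linarith

theorem sqrt_nrm2_add {α : Type} (f g : α →₀ ℝ) :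
    Real.sqrt (nrm2 (f + g)) ≤ Real.sqrt (nrm2 f) + Real.sqrt (nrm2 g) := by
  classical
  rw [nrm2_eq_sum (f + g) (f.support ∪ g.support) Finsupp.support_add,
    nrm2_eq_sum f (f.support ∪ g.support) Finset.subset_union_left,
    nrm2_eq_sum g (f.support ∪ g.support) Finset.subset_union_right]
  simp only [Finsupp.add_apply]
  exact C14_sqrt_add _ _ _

theorem sqrt_nrm2_sub {α : Type} (f g : α →₀ ℝ) :
    Real.sqrt (nrm2 (f - g)) ≤ Real.sqrt (nrm2 f) + Real.sqrt (nrm2 g) := by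
  have := sqrt_nrm2_add f (-g)
  rwa [nrm2_neg, ← sub_eq_add_neg] at this

theorem sqrt_sum_nrm2_add {α : Type} {m : ℕ} (f g : Fin m → (α →₀ ℝ)) :
    Real.sqrt (∑ i, nrm2 ((f + g) i)) ≤
      Real.sqrt (∑ i, nrm2 (f i)) + Real.sqrt (∑ i, nrm2 (g i)) := by
  classical
  have e1 : ∀ i, nrm2 ((f + g) i) = ∑ a ∈ (f i).support ∪ (g i).support, ((f i) a + (g i) a) ^ 2 := by
    intro i
    rw [Pi.add_apply, nrm2_eq_sum (f i + g i) ((f i).support ∪ (g i).support) Finsupp.support_add]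
    rfl
  have e2 : ∀ i, nrm2 (f i) = ∑ a ∈ (f i).support ∪ (g i).support, (f i) a ^ 2 := fun i =>
    nrm2_eq_sum (f i) _ Finset.subset_union_left
  have e3 : ∀ i, nrm2 (g i) = ∑ a ∈ (f i).support ∪ (g i).support, (g i) a ^ 2 := fun i =>
    nrm2_eq_sum (g i) _ Finset.subset_union_right
  simp_rw [e1, e2, e3]
  have h := C14_sqrt_add ((Finset.univ : Finset (Fin m)).sigma fun i => (f i).support ∪ (g i).support)
    (fun x => f x.1 x.2) (fun x => g x.1 x.2)
  rw [Finset.sum_sigma, Finset.sum_sigma, Finset.sum_sigma] at h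
  exact h

theorem C14_apply {ι α : Type} [DecidableEq α] (K : Finset ι) (out : ι → α) (c : ι → ℝ) (a : α) :
    (∑ k ∈ K, Finsupp.single (out k) (c k)) a = ∑ k ∈ K.filter (fun k => out k = a), c k := by
  rw [Finsupp.finsetSum_apply, Finset.sum_filter]
  apply Finset.sum_congr rfl
  intro k _
  rw [Finsupp.single_apply]

theorem C14_supp {ι α : Type} [DecidableEq α] (K : Finset ι) (out : ι → α) (c : ι → ℝ) :
    (∑ k ∈ K, Finsupp.single (out k) (c k)).support ⊆ K.image out := by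
  intro a ha
  rw [Finsupp.mem_support_iff, C14_apply] at ha
  obtain ⟨k, hk, -⟩ := Finset.exists_ne_zero_of_sum_ne_zero ha
  rw [Finset.mem_filter] at hk
  exact Finset.mem_image.2 ⟨k, hk.1, hk.2⟩

theorem C14_fiber {ι α : Type} [DecidableEq α] (K : Finset ι) (out : ι → α) (c : ι → ℝ) :
    ∑ a ∈ K.image out, ∑ k ∈ K.filter (fun k => out k = a), c k ^ 2 = ∑ k ∈ K, c k ^ 2 :=
  Finset.sum_fiberwise_of_maps_to (fun k hk => Finset.mem_image_of_mem out hk) _

/-- Cauchy–Schwarz with multiplicity `M`: if every value of `out` is taken at most `M` times -/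
theorem nrm2_sum_single {ι α : Type} [DecidableEq α] (K : Finset ι) (out : ι → α) (c : ι → ℝ)
    (M : ℕ) (hM : ∀ a, (K.filter fun k => out k = a).card ≤ M) :
    nrm2 (∑ k ∈ K, Finsupp.single (out k) (c k)) ≤ M * ∑ k ∈ K, c k ^ 2 := by
  rw [nrm2_eq_sum _ (K.image out) (C14_supp K out c), ← C14_fiber K out c, Finset.mul_sum]
  apply Finset.sum_le_sum
  intro a _
  rw [C14_apply]
  have h1 := sq_sum_le_card_mul_sum_sq (s := K.filter fun k => out k = a) (f := c)
  have h2 : 0 ≤ ∑ k ∈ K.filter (fun k => out k = a), c k ^ 2 :=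
    Finset.sum_nonneg fun _ _ => sq_nonneg _
  have h3 : (((K.filter fun k => out k = a).card : ℝ)) ≤ M := by exact_mod_cast hM a
  exact h1.trans (mul_le_mul_of_nonneg_right h3 h2)

theorem nrm2_sum_single_inj {ι α : Type} (K : Finset ι) (out : ι → α) (c : ι → ℝ)
    (hinj : ∀ k ∈ K, ∀ k' ∈ K, out k = out k' → k = k') :
    nrm2 (∑ k ∈ K, Finsupp.single (out k) (c k)) = ∑ k ∈ K, c k ^ 2 := by
  classical
  rw [nrm2_eq_sum _ (K.image out) (C14_supp K out c), ← C14_fiber K out c]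
  apply Finset.sum_congr rfl
  intro a ha
  rw [C14_apply]
  obtain ⟨k, hk, rfl⟩ := Finset.mem_image.1 ha
  have e : K.filter (fun k' => out k' = out k) = {k} := by
    ext k'
    rw [Finset.mem_filter, Finset.mem_singleton]
    constructor
    · rintro ⟨h1, h2⟩
      exact hinj k' h1 k hk h2
    · rintro rfl
      exact ⟨hk, rfl⟩
  rw [e, Finset.sum_singleton, Finset.sum_singleton]

end Pool.Agent.H667R3.FF
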