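import Mathlib
import Pool.Agent.H667R3.FF.Defs
import Pool.Agent.H667R3.FF.C1
import Pool.Agent.H667R3.FF.C14

/-! Task C10 (table h667b_tasks, shared note 777). Replace every `sorry`; keep the statements. -/

namespace Pool.Agent.H667R3.FF

open Pool.Agent.H667R2.FG
open scoped ComplexConjugate

/-- outcome -/
noncomputable def C10_out {τ : Type} (L : ℕ) (F : PF τ) (k : τ × Sg × ℕ) : Gm × Gm :=
  (al L k.2.1 k.2.2 * (F.A k.1)⁻¹, (F.B k.1)⁻¹ * be L k.2.1 k.2.2)

/-- coefficient -/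
noncomputable def C10_w {τ : Type} (J : ℕ) (F : PF τ) (k : τ × Sg × ℕ) : ℝ :=
  (Real.sqrt (2 * J))⁻¹ * sg k.2.1 * F.c k.1

open Classical in
/-- all indices -/
noncomputable def C10_K {τ : Type} (J L : ℕ) (F : PF τ) : Finset (τ × Sg × ℕ) :=
  (F.S ×ˢ (SG J ×ˢ Finset.range L)).filter fun k => cc k.2.2 = F.i k.1

theorem C10_TJ {τ : Type} (J L : ℕ) (F : PF τ) :
    TJ J L F.fld = ∑ k ∈ C10_K J L F, Finsupp.single (C10_out L F k) (C10_w J F k) := by
  classical
  unfold C10_K
  rw [Finset.sum_filter, Finset.sum_product, Finset.sum_comm]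
  simp only [Finset.sum_product]
  unfold TJ
  refine Finset.sum_congr rfl fun σ _ => Finset.sum_congr rfl fun l _ => ?_
  unfold PF.fld
  rw [← Finsupp.sum_finsetSum_index]
  · refine Finset.sum_congr rfl fun t _ => ?_
    by_cases h : F.i t = cc l
    · rw [if_pos h, if_pos h.symm, Finsupp.sum_single_index]
      · rfl
      · simp
    · rw [if_neg h, if_neg (fun h' => h h'.symm)]
      exact Finsupp.sum_zero_index
  · intro a
    simp
  · intro a b c
    rw [mul_add, Finsupp.single_add]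

theorem C10_Yv {τ : Type} (J L : ℕ) (F : PF τ) :
    F.Yv J L = ∑ k ∈ (C10_K J L F).filter (fun k => k.2.1.1 ∉ F.I k.1),
      Finsupp.single (C10_out L F k) (C10_w J F k) := by
  classical
  rw [Finset.sum_filter]
  unfold C10_K
  rw [Finset.sum_filter, Finset.sum_product]
  unfold PF.Yv
  refine Finset.sum_congr rfl fun t _ => ?_
  rw [Finset.sum_product]
  have h1 : fresh J (F.I t) = (SG J).filter (fun σ => σ.1 ∉ F.I t) := by
    ext ⟨j, b⟩
    simp [fresh, SG]
  rw [h1, Finset.sum_filter]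
  refine Finset.sum_congr rfl fun σ _ => ?_
  by_cases h2 : σ.1 ∉ F.I t
  · rw [if_pos h2]
    unfold pos
    rw [Finset.sum_filter]
    refine Finset.sum_congr rfl fun l _ => ?_
    by_cases h3 : cc l = F.i t
    · rw [if_pos h3, if_pos h3, if_pos h2]
      rfl
    · rw [if_neg h3, if_neg h3]
  · rw [if_neg h2]
    symm
    refine Finset.sum_eq_zero fun l _ => ?_
    by_cases h3 : cc l = F.i t
    · rw [if_pos h3, if_neg h2]
    · rw [if_neg h3]

theorem C10_Mv {τ : Type} {J L N : ℕ} {F : PF τ} (h : F.Ok J L N) :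
    F.Mv J L = ∑ k ∈ (C10_K J L F).filter (fun k => F.main k.1 = some k.2),
      Finsupp.single (C10_out L F k) (C10_w J F k) := by
  classical
  rw [Finset.sum_filter]
  unfold C10_K
  rw [Finset.sum_filter, Finset.sum_product]
  unfold PF.Mv
  refine Finset.sum_congr rfl fun t ht => ?_
  rcases hm : F.main t with _ | q
  · symm
    refine Finset.sum_eq_zero fun x _ => ?_
    split_ifs with h3 h4
    · have h5 : F.main t = some x := h4
      rw [hm] at h5
      exact absurd h5 (by simp)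
    · rfl
    · rfl
  · obtain ⟨h1, h2, h3⟩ := h.mainI t ht q hm
    rw [Finset.sum_eq_single q]
    · have h4 : F.main ((t, q) : τ × Sg × ℕ).1 = some ((t, q) : τ × Sg × ℕ).2 := hm
      rw [if_pos h3, if_pos h4]
      rfl
    · intro x _ hx
      split_ifs with h4 h5
      · exfalso
        have h6 : F.main t = some x := h5
        rw [hm] at h6
        exact hx (Option.some.inj h6).symm
      · rfl
      · rfl
    · intro hq
      exfalso
      apply hq
      rw [Finset.mem_product, SG, Finset.mem_product]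
      exact ⟨⟨h.sub t ht h1, Finset.mem_univ _⟩, Finset.mem_range.mpr h2⟩

open Classical in
/-- remaining indices -/
noncomputable def C10_R {τ : Type} (J L : ℕ) (F : PF τ) : Finset (τ × Sg × ℕ) :=
  (C10_K J L F).filter fun k => k.2.1.1 ∈ F.I k.1 ∧ F.main k.1 ≠ some k.2

theorem C10_diff {τ : Type} {J L N : ℕ} {F : PF τ} (h : F.Ok J L N) :
    TJ J L F.fld - F.Mv J L - F.Yv J L =
      ∑ k ∈ C10_R J L F, Finsupp.single (C10_out L F k) (C10_w J F k) := by
  classical
  rw [C10_TJ, C10_Mv h, C10_Yv, Finset.sum_filter, Finset.sum_filter, ← Finset.sum_sub_distrib,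
    ← Finset.sum_sub_distrib]
  unfold C10_R
  rw [Finset.sum_filter]
  refine Finset.sum_congr rfl fun k hk => ?_
  by_cases h1 : F.main k.1 = some k.2
  · have hkS : k.1 ∈ F.S := by
      unfold C10_K at hk
      exact (Finset.mem_product.mp (Finset.mem_filter.mp hk).1).1
    have h2 := (h.mainI k.1 hkS k.2 h1).1
    simp [h1, h2]
  · by_cases h2 : k.2.1.1 ∈ F.I k.1
    · simp [h1, h2]
    · simp [h1, h2]

theorem C10_mem {τ : Type} {J L : ℕ} {F : PF τ} {k : τ × Sg × ℕ} (hk : k ∈ C10_R J L F) :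
    k.1 ∈ F.S ∧ k.2.1.1 ∈ F.I k.1 ∧ k.2.2 < L ∧ cc k.2.2 = F.i k.1 ∧ F.main k.1 ≠ some k.2 := by
  classical
  unfold C10_R C10_K at hk
  rw [Finset.mem_filter, Finset.mem_filter, Finset.mem_product, Finset.mem_product,
    Finset.mem_range] at hk
  exact ⟨hk.1.1.1, hk.2.1, hk.1.1.2.2, hk.1.2, hk.2.2⟩

theorem C10_mult {τ : Type} {J L N : ℕ} {F : PF τ} (h : F.Ok J L N) [DecidableEq (Gm × Gm)]
    (a : Gm × Gm) :
    ((C10_R J L F).filter fun k => C10_out L F k = a).card ≤ 2 * N * L := by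
  classical
  rcases Finset.eq_empty_or_nonempty ((C10_R J L F).filter fun k => C10_out L F k = a) with h0 | h0
  · rw [h0]
    simp
  obtain ⟨k0, hk0⟩ := h0
  rw [Finset.mem_filter] at hk0
  obtain ⟨hS0, hI0, hl0, hc0, hm0⟩ := C10_mem hk0.1
  have hkey : ∀ k ∈ (C10_R J L F).filter (fun k => C10_out L F k = a),
      k.2.1.1 ∈ F.I k0.1 := by
    intro k hk
    rw [Finset.mem_filter] at hk
    obtain ⟨hS, hI, hl, hc, hm⟩ := C10_mem hk.1
    by_contra hcon
    apply hm
    have h1 : al L k.2.1 k.2.2 * (F.A k.1)⁻¹ = al L k0.2.1 k0.2.2 * (F.A k0.1)⁻¹ := by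
      have := congrArg Prod.fst (hk.2.trans hk0.2.symm)
      exact this
    have h2 : (F.B k.1)⁻¹ * be L k.2.1 k.2.2 = (F.B k0.1)⁻¹ * be L k0.2.1 k0.2.2 := by
      have := congrArg Prod.snd (hk.2.trans hk0.2.symm)
      exact this
    have hmono : GI (F.I k0.1 : Set ℕ) ≤ GI {j | j ≠ k.2.1.1} := by
      apply GI_mono
      intro j hj hjk
      apply hcon
      have : j = k.2.1.1 := hjk
      rw [← this]
      exact hj
    have hs : GI {k0.2.1.1} ≤ GI (F.I k0.1 : Set ℕ) := by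
      apply GI_mono
      intro j hj
      rw [Set.mem_singleton_iff] at hj
      rw [hj]
      exact hI0
    refine h.vis k.1 hS k.2.1 k.2.2 hI hl hc ?_ ?_
    · rw [h1]
      exact hmono (mul_mem (hs (al_mem L k0.2.1 k0.2.2)) (inv_mem (h.memA k0.1 hS0)))
    · rw [h2]
      exact hmono (mul_mem (inv_mem (h.memB k0.1 hS0)) (hs (be_mem L k0.2.1 k0.2.2)))
  have hinj : Set.InjOn (fun k : τ × Sg × ℕ => k.2)
      ((C10_R J L F).filter (fun k => C10_out L F k = a) : Set (τ × Sg × ℕ)) := by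
    rintro ⟨t, σ, l⟩ hk ⟨t', σ', l'⟩ hk' heq
    simp only [Prod.mk.injEq] at heq
    obtain ⟨rfl, rfl⟩ := heq
    rw [Finset.mem_coe, Finset.mem_filter] at hk hk'
    obtain ⟨hS, hI, hl, hc, hm⟩ := C10_mem hk.1
    obtain ⟨hS', hI', hl', hc', hm'⟩ := C10_mem hk'.1
    have h1 : al L σ l * (F.A t)⁻¹ = al L σ l * (F.A t')⁻¹ :=
      congrArg Prod.fst (hk.2.trans hk'.2.symm)
    have h2 : (F.B t)⁻¹ * be L σ l = (F.B t')⁻¹ * be L σ l :=
      congrArg Prod.snd (hk.2.trans hk'.2.symm)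
    have h3 : F.A t = F.A t' := inv_injective (mul_left_cancel h1)
    have h4 : F.B t = F.B t' := inv_injective (mul_right_cancel h2)
    have h5 : F.i t = F.i t' := hc.symm.trans hc'
    have := h.inj t hS t' hS' h5 h3 h4
    rw [this]
  have hcard := Finset.card_le_card_of_injOn (s := (C10_R J L F).filter fun k => C10_out L F k = a)
    (t := ((F.I k0.1) ×ˢ (Finset.univ : Finset Bool)) ×ˢ Finset.range L)
    (fun k : τ × Sg × ℕ => k.2) (by
      intro k hk
      have h1 := hkey k hk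
      rw [Finset.mem_coe, Finset.mem_filter] at hk
      have h2 := (C10_mem hk.1).2.2.1
      rw [Finset.mem_coe, Finset.mem_product, Finset.mem_product]
      exact ⟨⟨h1, Finset.mem_univ _⟩, Finset.mem_range.mpr h2⟩) hinj
  refine hcard.trans ?_
  rw [Finset.card_product, Finset.card_product, h.card k0.1 hS0, Finset.card_univ,
    Fintype.card_bool, Finset.card_range]
  apply le_of_eq
  ring

theorem C10_sum {τ : Type} {J L N : ℕ} {F : PF τ} (h : F.Ok J L N) (hJ : 0 < J) :
    ∑ k ∈ C10_R J L F, C10_w J F k ^ 2 ≤ (2 * N * L) / (2 * J) * F.n2 := by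
  classical
  have h1 : ∀ k : τ × Sg × ℕ, C10_w J F k ^ 2 = (2 * (J : ℝ))⁻¹ * F.c k.1 ^ 2 := by
    intro k
    unfold C10_w sg
    have h2 : ((Real.sqrt (2 * J))⁻¹) ^ 2 = (2 * (J : ℝ))⁻¹ := by
      rw [inv_pow, Real.sq_sqrt (by positivity)]
    rw [mul_pow, mul_pow, h2]
    split_ifs <;> ring
  simp only [h1]
  have h3 : C10_R J L F ⊆ (F.S.sigma (fun t => ((F.I t) ×ˢ (Finset.univ : Finset Bool)) ×ˢ
      Finset.range L)).image (fun k => (k.1, k.2)) := by
    intro k hk
    obtain ⟨hS, hI, hl, hc, hm⟩ := C10_mem hk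
    rw [Finset.mem_image]
    refine ⟨⟨k.1, k.2⟩, ?_, rfl⟩
    rw [Finset.mem_sigma, Finset.mem_product, Finset.mem_product]
    exact ⟨hS, ⟨hI, Finset.mem_univ _⟩, Finset.mem_range.mpr hl⟩
  refine (Finset.sum_le_sum_of_subset_of_nonneg h3 (fun k _ _ => by positivity)).trans ?_
  rw [Finset.sum_image (by
    rintro ⟨t, x⟩ _ ⟨t', x'⟩ _ hh
    simp only [Prod.mk.injEq] at hh
    obtain ⟨rfl, rfl⟩ := hh
    rfl)]
  rw [Finset.sum_sigma]
  simp only [Finset.sum_const, nsmul_eq_mul]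
  unfold PF.n2
  rw [Finset.mul_sum]
  refine Finset.sum_le_sum fun t ht => ?_
  rw [Finset.card_product, Finset.card_product, h.card t ht, Finset.card_univ,
    Fintype.card_bool, Finset.card_range]
  apply le_of_eq
  push_cast
  have : (J : ℝ) ≠ 0 := by positivity
  field_simp

theorem nrm2_rest {τ : Type} {J L N : ℕ} {F : PF τ} (h : F.Ok J L N) (hJ : 0 < J) :
    nrm2 (TJ J L F.fld - F.Mv J L - F.Yv J L) ≤ (2 * N * L) ^ 2 / (2 * J) * F.n2 := by
  classical
  rw [C10_diff h]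
  refine (nrm2_sum_single (C10_R J L F) (C10_out L F) (C10_w J F) (2 * N * L)
    (fun a => C10_mult h a)).trans ?_
  have h1 := C10_sum h hJ
  have h2 : (0 : ℝ) ≤ ((2 * N * L : ℕ) : ℝ) := by positivity
  refine (mul_le_mul_of_nonneg_left h1 h2).trans (le_of_eq ?_)
  push_cast
  ring

end Pool.Agent.H667R3.FF
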