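import Mathlib
import Pool.Agent.H667R3.FF.Defs
import Pool.Agent.H667R3.FF.C1

/-! Task C11 (table h667b_tasks, shared note 777). -/

namespace Pool.Agent.H667R3.FF

open Pool.Agent.H667R2.FG
open scoped ComplexConjugate

theorem C11_sg_sq (σ : Sg) : sg σ * sg σ = 1 := by
  unfold sg; split <;> norm_num

theorem C11_card_SG (J : ℕ) : (SG J).card = J * 2 := by
  simp [SG]

theorem C11_card {J : ℕ} {I : Finset ℕ} (hI : I ⊆ Finset.range J) :
    ((SG J).filter fun σ => σ.1 ∉ I).card = (J - I.card) * 2 := by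
  have : ((SG J).filter fun σ => σ.1 ∉ I) = (Finset.range J \ I) ×ˢ (Finset.univ : Finset Bool) := by
    ext σ; simp [SG]
  rw [this, Finset.card_product, Finset.card_sdiff_of_subset hI, Finset.card_range]
  simp

theorem Mv_base {J L : ℕ} (hJ : 0 < J) (hL : 0 < L) :
    (PF.base J L).Mv J L = Finsupp.single (1, 1) 1 := by
  have hJ' : (0 : ℝ) < J := by exact_mod_cast hJ
  have hL' : (0 : ℝ) < L := by exact_mod_cast hL
  have hs : Real.sqrt (2 * J) * Real.sqrt (2 * J) = 2 * J := Real.mul_self_sqrt (by positivity)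
  have hs0 : Real.sqrt (2 * J) ≠ 0 := by
    intro h; rw [h] at hs; linarith
  have h : ∀ t ∈ SG J ×ˢ Finset.range L,
      Finsupp.single (al L t.1 t.2 * (al L t.1 t.2)⁻¹, (be L t.1 t.2)⁻¹ * be L t.1 t.2)
        ((Real.sqrt (2 * J))⁻¹ * sg t.1 * (sg t.1 / (Real.sqrt (2 * J) * L))) =
      (Finsupp.single (1, 1) (1 / (2 * J * L)) : Gm × Gm →₀ ℝ) := by
    intro t _
    rw [mul_inv_cancel, inv_mul_cancel]
    congr 1
    have e : (Real.sqrt (2 * J))⁻¹ * sg t.1 * (sg t.1 / (Real.sqrt (2 * J) * L)) =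
        (sg t.1 * sg t.1) / ((Real.sqrt (2 * J) * Real.sqrt (2 * J)) * L) := by
      field_simp
    rw [e, C11_sg_sq, hs]
  show ∑ t ∈ SG J ×ˢ Finset.range L,
      Finsupp.single (al L t.1 t.2 * (al L t.1 t.2)⁻¹, (be L t.1 t.2)⁻¹ * be L t.1 t.2)
        ((Real.sqrt (2 * J))⁻¹ * sg t.1 * (sg t.1 / (Real.sqrt (2 * J) * L))) = _
  rw [Finset.sum_congr rfl h, Finset.sum_const, Finset.card_product, C11_card_SG,
    Finset.card_range, Finsupp.smul_single]
  congr 1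
  rw [nsmul_eq_mul]
  push_cast
  field_simp

theorem C11_expand {τ : Type} {J L : ℕ} (F : PF τ) :
    (F.next J L).Mv J L = ∑ t ∈ F.S, ∑ σ₁ ∈ SG J, ∑ l₁ ∈ Finset.range L, ∑ σ₂ ∈ SG J,
      ∑ m ∈ Finset.range L,
      if (σ₁.1 ∉ F.I t ∧ cc l₁ = F.i t) ∧ (σ₂.1 ∉ insert σ₁.1 (F.I t)) then
        Finsupp.single (al L σ₁ l₁ * (F.A t)⁻¹, (F.B t)⁻¹ * be L σ₁ l₁)
          (-((Real.sqrt (2 * J))⁻¹ * sg σ₁ * F.c t / (2 * J * L))) else 0 := by
  classical
  unfold PF.Mv PF.next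
  simp only [Finset.sum_filter, Finset.sum_product, Fintype.sum_bool]
  refine Finset.sum_congr rfl fun t _ => Finset.sum_congr rfl fun σ₁ _ =>
    Finset.sum_congr rfl fun l₁ _ => Finset.sum_congr rfl fun σ₂ _ => ?_
  have e2 : (∑ x ∈ Finset.range L, if σ₁.1 ∉ F.I t ∧ cc l₁ = F.i t ∧ σ₂.1 ∉ F.I t ∧ σ₂.1 ≠ σ₁.1 ∧
      (false = false → x ≠ l₁) then (0 : Gm × Gm →₀ ℝ) else 0) = 0 := by
    simp
  simp only [if_true, Bool.false_eq_true, if_false]
  rw [show ∀ a b : Gm × Gm →₀ ℝ, b = 0 → a + b = a from fun a b h => by rw [h, add_zero]]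
  · refine Finset.sum_congr rfl fun m _ => ?_
    have hcond : (σ₁.1 ∉ F.I t ∧ cc l₁ = F.i t ∧ σ₂.1 ∉ F.I t ∧ σ₂.1 ≠ σ₁.1 ∧
        (true = false → m ≠ l₁)) ↔
        ((σ₁.1 ∉ F.I t ∧ cc l₁ = F.i t) ∧ (σ₂.1 ∉ insert σ₁.1 (F.I t))) := by
      rw [Finset.mem_insert, not_or]
      constructor
      · rintro ⟨h1, h2, h3, h4, -⟩; exact ⟨⟨h1, h2⟩, h4, h3⟩
      · rintro ⟨⟨h1, h2⟩, h4, h3⟩; exact ⟨h1, h2, h3, h4, by simp⟩
    by_cases hc : ((σ₁.1 ∉ F.I t ∧ cc l₁ = F.i t) ∧ (σ₂.1 ∉ insert σ₁.1 (F.I t)))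
    · rw [if_pos hc, if_pos (hcond.2 hc)]
      have ea : al L σ₂ m * (A1 L (F.A t) σ₁ l₁ σ₂ m)⁻¹ = al L σ₁ l₁ * (F.A t)⁻¹ := by
        unfold A1; group
      have eb : (B1 L (F.B t) σ₁ l₁ σ₂ m)⁻¹ * be L σ₂ m = (F.B t)⁻¹ * be L σ₁ l₁ := by
        unfold B1; group
      rw [ea, eb]
      congr 1
      have := C11_sg_sq σ₂
      calc (Real.sqrt (2 * J))⁻¹ * sg σ₂ * -(F.c t * sg σ₁ * sg σ₂ / (2 * J * L)) =
          -((Real.sqrt (2 * J))⁻¹ * sg σ₁ * F.c t / (2 * J * L)) * (sg σ₂ * sg σ₂) := by ring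
        _ = _ := by rw [this, mul_one]
    · rw [if_neg hc, if_neg (fun h => hc (hcond.1 h))]
  · simp

theorem Mv_next {τ : Type} {J L N : ℕ} {F : PF τ} (h : F.Ok J L N) (hJ : N + 1 ≤ J) (hL : 0 < L) :
    (F.next J L).Mv J L = (-(((J : ℝ) - N - 1) / J)) • F.Yv J L := by
  classical
  have hJ' : (0 : ℝ) < J := by
    have : 0 < J := by omega
    exact_mod_cast this
  have hL' : (0 : ℝ) < L := by exact_mod_cast hL
  rw [C11_expand]
  unfold PF.Yv
  rw [Finset.smul_sum]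
  refine Finset.sum_congr rfl fun t ht => ?_
  have hfresh : fresh J (F.I t) = (SG J).filter (fun σ => σ.1 ∉ F.I t) := by
    ext σ; simp [fresh, SG]
  rw [hfresh, Finset.smul_sum, Finset.sum_filter]
  refine Finset.sum_congr rfl fun σ₁ hσ₁ => ?_
  by_cases h1 : σ₁.1 ∉ F.I t
  · rw [if_pos h1, Finset.smul_sum]
    unfold pos
    rw [Finset.sum_filter]
    refine Finset.sum_congr rfl fun l₁ _ => ?_
    by_cases h2 : cc l₁ = F.i t
    · rw [if_pos h2]
      simp only [h1, h2, not_false_eq_true, and_self, true_and, Finset.sum_const, Finset.card_range]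
      rw [← Finset.smul_sum, ← Finset.sum_filter, Finset.sum_const]
      have hsub : insert σ₁.1 (F.I t) ⊆ Finset.range J := by
        intro x hx
        rw [Finset.mem_insert] at hx
        rcases hx with rfl | hx
        · unfold SG at hσ₁
          exact (Finset.mem_product.1 hσ₁).1
        · exact h.sub t ht hx
      rw [C11_card hsub, Finset.card_insert_of_notMem h1, h.card t ht, smul_smul,
        Finsupp.smul_single, Finsupp.smul_single]
      congr 1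
      rw [nsmul_eq_mul, smul_eq_mul]
      push_cast [Nat.cast_sub hJ]
      field_simp
      ring
    · rw [if_neg h2]
      simp [h2]
  · rw [if_neg h1]
    simp [h1]

end Pool.Agent.H667R3.FF
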