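import Mathlib
import Pool.Agent.H667R3.FF.Defs
import Pool.Agent.H667R3.FF.C1
import Pool.Agent.H667R3.FF.C3

/-! Task C4 (table h667b_tasks, shared note 777), proofs by helper398. -/

namespace Pool.Agent.H667R3.FF

open Pool.Agent.H667R2.FG
open scoped ComplexConjugate

theorem foxD_mem {I : Set ℕ} {g : Gm} (hg : g ∈ GI I) (i : ℕ ⊕ Fin 4) {A : Gm}
    (hA : foxD i g A ≠ 0) : A ∈ GI I := by
  unfold GI at hg
  revert A
  refine Subgroup.closure_induction (p := fun g _ => ∀ {A : Gm}, foxD i g A ≠ 0 → A ∈ GI I)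
    ?_ ?_ ?_ ?_ hg
  · intro x hx A hA
    have hx' : x ∈ GI I := Subgroup.subset_closure hx
    obtain ⟨y, rfl⟩ : ∃ y, x = FreeGroup.of y := by
      rcases hx with ⟨j, _, rfl⟩ | ⟨k, rfl⟩
      · exact ⟨_, rfl⟩
      · exact ⟨_, rfl⟩
    rw [foxD_of] at hA
    split_ifs at hA with h
    · rw [Finsupp.single_apply] at hA
      split_ifs at hA with h2
      · rw [← h2]; exact hx'
      · exact absurd rfl hA
    · exact absurd rfl hA
  · intro A hA
    rw [foxD_one] at hA
    exact absurd rfl hA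
  · intro g h hg hh ihg ihh A hA
    rw [foxD_mul_apply] at hA
    by_cases h1 : foxD i g A = 0
    · rw [h1, zero_add] at hA
      have h2 := ihh hA
      have h3 : A = g * (g⁻¹ * A) := by group
      rw [h3]
      exact (GI I).mul_mem hg h2
    · exact ihg h1
  · intro g hg ih A hA
    rw [foxD_inv_apply] at hA
    have h1 : foxD i g (g * A) ≠ 0 := fun h => hA (by rw [h, neg_zero])
    have h2 := ih h1
    have h3 : A = g⁻¹ * (g * A) := by group
    rw [h3]
    exact (GI I).mul_mem ((GI I).inv_mem hg) h2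

theorem foxD_zero_of_ex {I : Set ℕ} {g : Gm} (hg : g ∈ GI I) (i : ℕ ⊕ Fin 4) {A : Gm} {j : ℕ}
    (hj : j ∉ I) (hA : ex j A ≠ 0) : foxD i g A = 0 := by
  by_contra h
  exact hA (ex_of_mem (foxD_mem hg i h) hj)

theorem C4_foxD_wl (j : ℕ) (i : Fin 4) : foxD (Sum.inr i) (wl j) = 0 := by
  unfold wl
  rw [foxD_of, if_neg (by simp)]

theorem foxD_aw (j l : ℕ) (i : Fin 4) : foxD (Sum.inr i) (aw j l) =
    ∑ r ∈ (Finset.range l).filter (fun r => cc r = i), Finsupp.single (aw j (r + 1)) 1 := by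
  induction l with
  | zero =>
    have : aw j 0 = 1 := rfl
    rw [this, foxD_one]
    simp
  | succ l ih =>
    have e : aw j (l + 1) = aw j l * (wl j * ul (cc l)) := rfl
    have h1 : foxD (Sum.inr i) (wl j * ul (cc l)) =
        if cc l = i then Finsupp.single (wl j * ul (cc l)) 1 else 0 := by
      rw [foxD_mul, C4_foxD_wl, zero_add]
      have h2 : foxD (Sum.inr i) (ul (cc l)) = if cc l = i then Finsupp.single (ul (cc l)) 1 else 0 := by
        unfold ul
        rw [foxD_of]
        simp only [Sum.inr.injEq]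
      rw [h2]
      split_ifs with h
      · rw [Finsupp.mapDomain_single]
      · rw [Finsupp.mapDomain_zero]
    rw [Finset.range_add_one, Finset.filter_insert]
    by_cases h : cc l = i
    · rw [if_pos h, Finset.sum_insert (by simp), ← ih]
      conv_lhs => rw [e]
      rw [foxD_mul, h1, if_pos h, Finsupp.mapDomain_single, ← e, add_comm]
    · rw [if_neg h, ← ih, e, foxD_mul, h1, if_neg h, Finsupp.mapDomain_zero, add_zero]

theorem C4_foxD_gw (L j : ℕ) (i : Fin 4) : foxD (Sum.inr i) (gw L j) =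
    ∑ l ∈ pos L i, Finsupp.single (aw j (l + 1)) 1 := by
  unfold gw pos
  rw [foxD_mul, C4_foxD_wl, Finsupp.mapDomain_zero, add_zero, foxD_aw]

theorem C4_aw_inj {j l l' : ℕ} (h : aw j l = aw j l') : l = l' := by
  have h1 := congrArg (ex j) h
  rw [ex_aw, ex_aw] at h1
  exact_mod_cast h1

theorem C4_aw_apply (j l r : ℕ) : foxD (Sum.inr (cc r)) (aw j l) (aw j (r + 1)) =
    if r < l then 1 else 0 := by
  rw [foxD_aw, Finsupp.finsetSum_apply]
  split_ifs with h
  · rw [Finset.sum_eq_single r]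
    · rw [Finsupp.single_eq_same]
    · intro b _ hb
      rw [Finsupp.single_apply, if_neg]
      intro h2
      have := C4_aw_inj h2
      omega
    · intro hr
      exfalso
      apply hr
      rw [Finset.mem_filter, Finset.mem_range]
      exact ⟨h, rfl⟩
  · refine Finset.sum_eq_zero ?_
    intro b hb
    rw [Finset.mem_filter, Finset.mem_range] at hb
    rw [Finsupp.single_apply, if_neg]
    intro h2
    have := C4_aw_inj h2
    omega

theorem C4_gw_apply (L j r : ℕ) : foxD (Sum.inr (cc r)) (gw L j) (aw j (r + 1)) =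
    if r < L then 1 else 0 := by
  have h : foxD (Sum.inr (cc r)) (gw L j) = foxD (Sum.inr (cc r)) (aw j L) := by
    unfold gw
    rw [foxD_mul, C4_foxD_wl, Finsupp.mapDomain_zero, add_zero]
  rw [h, C4_aw_apply]

theorem foxD_gs (L : ℕ) (σ : Sg) (i : Fin 4) : foxD (Sum.inr i) (gs L σ) =
    ∑ l ∈ pos L i, Finsupp.single (al L σ l) (sg σ) := by
  obtain ⟨j, b⟩ := σ
  cases b
  · ext A
    have h1 : gs L (j, false) = (gw L j)⁻¹ := by simp [gs]
    rw [h1, foxD_inv_apply, C4_foxD_gw, Finsupp.finsetSum_apply, Finsupp.finsetSum_apply,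
      ← Finset.sum_neg_distrib]
    refine Finset.sum_congr rfl fun l _ => ?_
    have h2 : al L (j, false) l = (gw L j)⁻¹ * aw j (l + 1) := by simp [al]
    have h3 : sg (j, false) = -1 := by simp [sg]
    rw [h2, h3, Finsupp.single_apply, Finsupp.single_apply]
    have h4 : (aw j (l + 1) = gw L j * A) ↔ ((gw L j)⁻¹ * aw j (l + 1) = A) := by
      constructor
      · intro h; rw [h]; group
      · intro h; rw [← h]; group
    by_cases h : aw j (l + 1) = gw L j * A
    · rw [if_pos h, if_pos (h4.mp h)]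
    · rw [if_neg h, if_neg (fun h' => h (h4.mpr h')), neg_zero]
  · have h1 : gs L (j, true) = gw L j := by simp [gs]
    rw [h1, C4_foxD_gw]
    refine Finset.sum_congr rfl fun l _ => ?_
    have h2 : al L (j, true) l = aw j (l + 1) := by simp [al]
    have h3 : sg (j, true) = 1 := by simp [sg]
    rw [h2, h3]

theorem foxD_gs_al {L : ℕ} {σ : Sg} {l : ℕ} (hl : l < L) :
    foxD (Sum.inr (cc l)) (gs L σ) (al L σ l) = sg σ := by
  rw [foxD_gs, Finsupp.finsetSum_apply, Finset.sum_eq_single l]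
  · rw [Finsupp.single_eq_same]
  · intro b hb hbl
    unfold pos at hb
    rw [Finset.mem_filter, Finset.mem_range] at hb
    rw [Finsupp.single_apply, if_neg]
    intro h2
    exact hbl (al_decode hb.1 hl rfl (by rw [h2])).2
  · intro hr
    exfalso
    apply hr
    unfold pos
    rw [Finset.mem_filter, Finset.mem_range]
    exact ⟨hl, rfl⟩

/-- prefix of `g_σ` up to the letter `l`: coefficient at an earlier or equal letter -/
theorem foxD_al_al {L : ℕ} {σ : Sg} {l r : ℕ} (hl : l < L) (hr : r < L) (h : bef σ l r) :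
    foxD (Sum.inr (cc r)) (al L σ l) (al L σ r) = sg σ := by
  obtain ⟨j, b⟩ := σ
  cases b
  · have hlr : l < r := by simpa [bef] using h
    have h2 : ∀ l, al L (j, false) l = (gw L j)⁻¹ * aw j (l + 1) := fun l => by simp [al]
    have h3 : sg (j, false) = -1 := by simp [sg]
    rw [h2, h2, h3, foxD_mul_apply, foxD_inv_apply]
    have e1 : gw L j * ((gw L j)⁻¹ * aw j (r + 1)) = aw j (r + 1) := by group
    have e2 : ((gw L j)⁻¹)⁻¹ * ((gw L j)⁻¹ * aw j (r + 1)) = aw j (r + 1) := by group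
    rw [e1, e2, C4_gw_apply, C4_aw_apply, if_pos hr, if_neg (by omega)]
    norm_num
  · have hlr : r < l := by simpa [bef] using h
    have h2 : ∀ l, al L (j, true) l = aw j (l + 1) := fun l => by simp [al]
    have h3 : sg (j, true) = 1 := by simp [sg]
    rw [h2, h2, h3, C4_aw_apply, if_pos (by omega)]

theorem foxD_be_be {L : ℕ} {σ : Sg} {l r : ℕ} (hl : l < L) (hr : r < L) (hne : r ≠ l)
    (h : ¬ bef σ l r) :
    foxD (Sum.inr (cc r)) (be L σ l) (be L σ l * (be L σ r)⁻¹) = sg σ := by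
  obtain ⟨j, b⟩ := σ
  cases b
  · have hlr : ¬ l < r := by simpa [bef] using h
    have h2 : ∀ l, be L (j, false) l = (aw j (l + 1))⁻¹ := fun l => by simp [be]
    have h3 : sg (j, false) = -1 := by simp [sg]
    rw [h2, h2, h3, foxD_inv_apply]
    have e1 : aw j (l + 1) * ((aw j (l + 1))⁻¹ * ((aw j (r + 1))⁻¹)⁻¹) = aw j (r + 1) := by group
    rw [e1, C4_aw_apply, if_pos (by omega)]
  · have hlr : ¬ r < l := by simpa [bef] using h
    have h2 : ∀ l, be L (j, true) l = (aw j (l + 1))⁻¹ * gw L j := fun l => by simp [be]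
    have h3 : sg (j, true) = 1 := by simp [sg]
    rw [h2, h2, h3, foxD_mul_apply, foxD_inv_apply]
    have e1 : aw j (l + 1) * ((aw j (l + 1))⁻¹ * gw L j * ((aw j (r + 1))⁻¹ * gw L j)⁻¹) =
        aw j (r + 1) := by group
    have e2 : ((aw j (l + 1))⁻¹)⁻¹ * ((aw j (l + 1))⁻¹ * gw L j * ((aw j (r + 1))⁻¹ * gw L j)⁻¹) =
        aw j (r + 1) := by group
    rw [e1, e2, C4_gw_apply, C4_aw_apply, if_pos hr, if_neg (by omega)]
    norm_num

end Pool.Agent.H667R3.FF
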