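import Mathlib
import Pool.Agent.H667R3.FF.Defs
import Pool.Agent.H667R3.FF.C1
import Pool.Agent.H667R3.FF.C4

/-! Task C5 (table h667b_tasks, shared note 777). Coefficient of the new splits. -/

namespace Pool.Agent.H667R3.FF

open Pool.Agent.H667R2.FG
open scoped ComplexConjugate

variable {I : Set ℕ} {L : ℕ} {A B : Gm} {σ₁ σ₂ : Sg} {l₁ : ℕ}

private theorem c5_fox5 (i : ℕ ⊕ Fin 4) (A X g Y B P : Gm) :
    foxD i (A * X * g * Y * B) P = foxD i A P + foxD i X (A⁻¹ * P) +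
      foxD i g ((A * X)⁻¹ * P) + foxD i Y ((A * X * g)⁻¹ * P) +
      foxD i B ((A * X * g * Y)⁻¹ * P) := by
  rw [foxD_mul_apply i (A * X * g * Y) B, foxD_mul_apply i (A * X * g) Y,
    foxD_mul_apply i (A * X) g, foxD_mul_apply i A X]

theorem A1_mul_B1 (m : ℕ) : A1 L A σ₁ l₁ σ₂ m * B1 L B σ₁ l₁ σ₂ m =
    A * (al L σ₁ l₁)⁻¹ * gs L σ₂ * (be L σ₁ l₁)⁻¹ * B := by
  unfold A1 B1
  rw [← al_mul_be L σ₂ m]
  simp only [mul_assoc]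

theorem A2_mul_B2 (r : ℕ) : A2 L A σ₁ l₁ σ₂ r * B2 L B σ₁ l₁ σ₂ r =
    A * (al L σ₁ l₁)⁻¹ * gs L σ₂ * (be L σ₁ l₁)⁻¹ * B := by
  unfold A2 B2
  by_cases h : bef σ₁ l₁ r
  · rw [if_pos h, if_pos h]
    simp only [mul_assoc, mul_inv_cancel_left]
  · rw [if_neg h, if_neg h]
    simp only [mul_assoc, inv_mul_cancel_left]

theorem fox1 (hA : A ∈ GI I) (hB : B ∈ GI I) (h1 : σ₁.1 ∉ I) (h2 : σ₂.1 ∉ I)
    (h12 : σ₂.1 ≠ σ₁.1) (hl : l₁ < L) {m : ℕ} (hm : m < L) :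
    foxD (Sum.inr (cc m)) (A1 L A σ₁ l₁ σ₂ m * B1 L B σ₁ l₁ σ₂ m) (A1 L A σ₁ l₁ σ₂ m) = sg σ₂ := by
  have hs : σ₂.1 ∉ ({σ₁.1} : Set ℕ) := h12
  have ea : ex σ₂.1 (al L σ₁ l₁) = 0 := ex_al_ne h12
  have eA : ex σ₂.1 A = 0 := ex_of_mem hA h2
  have eb : ex σ₂.1 (be L σ₁ l₁) = 0 := ex_be_ne h12
  have em : ex σ₂.1 (al L σ₂ m) ≠ 0 := ex_al_pos hm
  have en : ex σ₂.1 (be L σ₂ m) ≠ 0 := ex_be_pos hm
  have eg : ex σ₂.1 (gs L σ₂) = ex σ₂.1 (al L σ₂ m) + ex σ₂.1 (be L σ₂ m) := by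
    rw [← ex_mul, al_mul_be]
  rw [A1_mul_B1, c5_fox5]
  have t1 : foxD (Sum.inr (cc m)) A (A1 L A σ₁ l₁ σ₂ m) = 0 := by
    apply foxD_zero_of_ex hA _ h2
    unfold A1
    rw [ex_mul, ex_mul, ex_inv, ea, eA]
    simpa using em
  have t2 : foxD (Sum.inr (cc m)) (al L σ₁ l₁)⁻¹ (A⁻¹ * A1 L A σ₁ l₁ σ₂ m) = 0 := by
    apply foxD_zero_of_ex ((GI {σ₁.1}).inv_mem (al_mem L σ₁ l₁)) _ hs
    unfold A1
    rw [ex_mul, ex_mul, ex_mul, ex_inv, ex_inv, ea, eA]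
    simpa using em
  have t3 : foxD (Sum.inr (cc m)) (gs L σ₂) ((A * (al L σ₁ l₁)⁻¹)⁻¹ * A1 L A σ₁ l₁ σ₂ m) =
      sg σ₂ := by
    unfold A1
    rw [inv_mul_cancel_left]
    exact foxD_gs_al hm
  have t4 : foxD (Sum.inr (cc m)) (be L σ₁ l₁)⁻¹
      ((A * (al L σ₁ l₁)⁻¹ * gs L σ₂)⁻¹ * A1 L A σ₁ l₁ σ₂ m) = 0 := by
    apply foxD_zero_of_ex ((GI {σ₁.1}).inv_mem (be_mem L σ₁ l₁)) _ hs
    unfold A1
    simp only [ex_mul, ex_inv, ea, eA, eg]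
    intro h
    apply en
    omega
  have t5 : foxD (Sum.inr (cc m)) B
      ((A * (al L σ₁ l₁)⁻¹ * gs L σ₂ * (be L σ₁ l₁)⁻¹)⁻¹ * A1 L A σ₁ l₁ σ₂ m) = 0 := by
    apply foxD_zero_of_ex hB _ h2
    unfold A1
    simp only [ex_mul, ex_inv, ea, eA, eg, eb]
    intro h
    apply en
    omega
  rw [t1, t2, t3, t4, t5]
  ring

theorem fox2 (hA : A ∈ GI I) (hB : B ∈ GI I) (h1 : σ₁.1 ∉ I) (h2 : σ₂.1 ∉ I)
    (h12 : σ₂.1 ≠ σ₁.1) (hl : l₁ < L) {r : ℕ} (hr : r < L) (hne : r ≠ l₁) :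
    foxD (Sum.inr (cc r)) (A2 L A σ₁ l₁ σ₂ r * B2 L B σ₁ l₁ σ₂ r) (A2 L A σ₁ l₁ σ₂ r) = -sg σ₁ := by
  have hs : σ₂.1 ∉ ({σ₁.1} : Set ℕ) := h12
  have hs' : σ₁.1 ∉ ({σ₂.1} : Set ℕ) := fun h => h12 (Set.mem_singleton_iff.1 h).symm
  have ea : ex σ₂.1 (al L σ₁ l₁) = 0 := ex_al_ne h12
  have ear : ex σ₂.1 (al L σ₁ r) = 0 := ex_al_ne h12
  have ebr : ex σ₂.1 (be L σ₁ r) = 0 := ex_be_ne h12
  have eA : ex σ₂.1 A = 0 := ex_of_mem hA h2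
  have eA1 : ex σ₁.1 A = 0 := ex_of_mem hA h1
  have eb : ex σ₂.1 (be L σ₁ l₁) = 0 := ex_be_ne h12
  have eg : ex σ₂.1 (gs L σ₂) ≠ 0 := ex_gs_pos L σ₂
  have eg1 : ex σ₁.1 (gs L σ₂) = 0 := ex_gs_ne (fun h => h12 h.symm)
  have e1 : ex σ₁.1 (al L σ₁ l₁) ≠ ex σ₁.1 (al L σ₁ r) := fun h =>
    hne (al_decode hl hr rfl h).2.symm
  have e2 : ex σ₁.1 (be L σ₁ l₁) ≠ ex σ₁.1 (be L σ₁ r) := fun h =>
    hne (be_decode hl hr rfl h).2.symm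
  rw [A2_mul_B2, c5_fox5]
  by_cases hb : bef σ₁ l₁ r
  · have hP : A2 L A σ₁ l₁ σ₂ r = A * (al L σ₁ l₁)⁻¹ * al L σ₁ r := by
      unfold A2
      rw [if_pos hb]
    rw [hP]
    have t1 : foxD (Sum.inr (cc r)) A (A * (al L σ₁ l₁)⁻¹ * al L σ₁ r) = 0 := by
      apply foxD_zero_of_ex hA _ h1
      simp only [ex_mul, ex_inv, eA1]
      intro h
      apply e1
      omega
    have t2 : foxD (Sum.inr (cc r)) (al L σ₁ l₁)⁻¹ (A⁻¹ * (A * (al L σ₁ l₁)⁻¹ * al L σ₁ r)) =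
        -sg σ₁ := by
      rw [mul_assoc A, inv_mul_cancel_left, foxD_inv_apply, mul_inv_cancel_left,
        foxD_al_al hl hr hb]
    have t3 : foxD (Sum.inr (cc r)) (gs L σ₂)
        ((A * (al L σ₁ l₁)⁻¹)⁻¹ * (A * (al L σ₁ l₁)⁻¹ * al L σ₁ r)) = 0 := by
      rw [inv_mul_cancel_left]
      exact foxD_zero_of_ex (gs_mem L σ₂) _ hs' (ex_al_pos hr)
    have t4 : foxD (Sum.inr (cc r)) (be L σ₁ l₁)⁻¹
        ((A * (al L σ₁ l₁)⁻¹ * gs L σ₂)⁻¹ * (A * (al L σ₁ l₁)⁻¹ * al L σ₁ r)) = 0 := by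
      apply foxD_zero_of_ex ((GI {σ₁.1}).inv_mem (be_mem L σ₁ l₁)) _ hs
      simp only [ex_mul, ex_inv, ea, eA, ear]
      intro h
      apply eg
      omega
    have t5 : foxD (Sum.inr (cc r)) B
        ((A * (al L σ₁ l₁)⁻¹ * gs L σ₂ * (be L σ₁ l₁)⁻¹)⁻¹ *
          (A * (al L σ₁ l₁)⁻¹ * al L σ₁ r)) = 0 := by
      apply foxD_zero_of_ex hB _ h2
      simp only [ex_mul, ex_inv, ea, eA, ear, eb]
      intro h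
      apply eg
      omega
    rw [t1, t2, t3, t4, t5]
    ring
  · have hP : A2 L A σ₁ l₁ σ₂ r = A * (al L σ₁ l₁)⁻¹ * gs L σ₂ * (be L σ₁ r)⁻¹ := by
      unfold A2
      rw [if_neg hb]
    rw [hP]
    have t1 : foxD (Sum.inr (cc r)) A (A * (al L σ₁ l₁)⁻¹ * gs L σ₂ * (be L σ₁ r)⁻¹) = 0 := by
      apply foxD_zero_of_ex hA _ h2
      simp only [ex_mul, ex_inv, ea, eA, ebr]
      intro h
      apply eg
      omega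
    have t2 : foxD (Sum.inr (cc r)) (al L σ₁ l₁)⁻¹
        (A⁻¹ * (A * (al L σ₁ l₁)⁻¹ * gs L σ₂ * (be L σ₁ r)⁻¹)) = 0 := by
      apply foxD_zero_of_ex ((GI {σ₁.1}).inv_mem (al_mem L σ₁ l₁)) _ hs
      simp only [ex_mul, ex_inv, ea, eA, ebr]
      intro h
      apply eg
      omega
    have t3 : foxD (Sum.inr (cc r)) (gs L σ₂)
        ((A * (al L σ₁ l₁)⁻¹)⁻¹ * (A * (al L σ₁ l₁)⁻¹ * gs L σ₂ * (be L σ₁ r)⁻¹)) = 0 := by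
      rw [mul_assoc (A * (al L σ₁ l₁)⁻¹), inv_mul_cancel_left]
      apply foxD_zero_of_ex (gs_mem L σ₂) _ hs'
      simp only [ex_mul, ex_inv, eg1]
      intro h
      apply ex_be_pos (σ := σ₁) hr
      omega
    have t4 : foxD (Sum.inr (cc r)) (be L σ₁ l₁)⁻¹
        ((A * (al L σ₁ l₁)⁻¹ * gs L σ₂)⁻¹ *
          (A * (al L σ₁ l₁)⁻¹ * gs L σ₂ * (be L σ₁ r)⁻¹)) = -sg σ₁ := by
      rw [inv_mul_cancel_left, foxD_inv_apply, foxD_be_be hl hr hne hb]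
    have t5 : foxD (Sum.inr (cc r)) B
        ((A * (al L σ₁ l₁)⁻¹ * gs L σ₂ * (be L σ₁ l₁)⁻¹)⁻¹ *
          (A * (al L σ₁ l₁)⁻¹ * gs L σ₂ * (be L σ₁ r)⁻¹)) = 0 := by
      apply foxD_zero_of_ex hB _ h1
      simp only [ex_mul, ex_inv]
      intro h
      apply e2
      omega
    rw [t1, t2, t3, t4, t5]
    ring

end Pool.Agent.H667R3.FF
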