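import Mathlib
import Pool.Agent.H667R3.FF.Defs
import Pool.Agent.H667R3.FF.C5
import Pool.Agent.H667R3.FF.C14

/-! Task C12 (table h667b_tasks, shared note 777): the divergence of the fields. -/

namespace Pool.Agent.H667R3.FF

open Pool.Agent.H667R2.FG
open scoped ComplexConjugate

/-- divergence of the field of a family -/
theorem c12_divE {τ : Type} (F : PF τ) (v : Gm) :
    divE (Sum.inr : Fin 4 → ℕ ⊕ Fin 4) F.fld v =
      ∑ t ∈ F.S, if F.A t * F.B t = v then F.c t * foxD (Sum.inr (F.i t)) v (F.A t) else 0 := by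
  classical
  unfold divE
  have key : ∀ (i : Fin 4), ((foxD (Sum.inr i : ℕ ⊕ Fin 4) v).sum fun A n =>
      n * F.fld i (A, A⁻¹ * v)) = ∑ t ∈ F.S, if F.i t = i then
        (if F.A t * F.B t = v then F.c t * foxD (Sum.inr i) v (F.A t) else 0) else 0 := by
    intro i
    unfold PF.fld
    simp only [Finsupp.sum, Finsupp.finsetSum_apply, Finset.mul_sum]
    rw [Finset.sum_comm]
    refine Finset.sum_congr rfl fun t _ => ?_
    by_cases hi : F.i t = i
    · simp only [if_pos hi]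
      rw [Finset.sum_eq_single (F.A t)]
      · rw [Finsupp.single_apply]
        by_cases hv : F.A t * F.B t = v
        · rw [if_pos hv, if_pos (by rw [← hv, inv_mul_cancel_left]), mul_comm]
        · rw [if_neg hv, if_neg, mul_zero]
          intro h
          apply hv
          rw [(Prod.mk.inj h).2, mul_inv_cancel_left]
      · intro A _ hA
        rw [Finsupp.single_apply, if_neg, mul_zero]
        intro h
        exact hA (Prod.mk.inj h).1.symm
      · intro h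
        rw [Finsupp.notMem_support_iff.1 h, zero_mul]
    · simp only [if_neg hi]
      simp
  rw [Finset.sum_congr rfl fun i _ => key i, Finset.sum_comm]
  refine Finset.sum_congr rfl fun t _ => ?_
  rw [Finset.sum_ite_eq]
  simp

theorem div_base {J L : ℕ} (hJ : 0 < J) (hL : 0 < L) (v : Gm) :
    divE (Sum.inr : Fin 4 → ℕ ⊕ Fin 4) (PF.base J L).fld v = PJ J L v := by
  classical
  rw [c12_divE]
  show ∑ t ∈ SG J ×ˢ Finset.range L, (if al L t.1 t.2 * be L t.1 t.2 = v then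
    sg t.1 / (Real.sqrt (2 * J) * L) * foxD (Sum.inr (cc t.2)) v (al L t.1 t.2) else 0) = _
  rw [Finset.sum_product, PJ, Finsupp.finsetSum_apply]
  refine Finset.sum_congr rfl fun σ _ => ?_
  rw [Finsupp.single_apply]
  by_cases hv : gs L σ = v
  · rw [if_pos hv]
    have h1 : ∀ l ∈ Finset.range L, (if al L σ l * be L σ l = v then
        sg σ / (Real.sqrt (2 * J) * L) * foxD (Sum.inr (cc l)) v (al L σ l) else 0) =
        (Real.sqrt (2 * J))⁻¹ * (L : ℝ)⁻¹ := by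
      intro l hl
      rw [al_mul_be, if_pos hv, ← hv, foxD_gs_al (Finset.mem_range.1 hl)]
      have h2 : sg σ * sg σ = 1 := by
        unfold sg
        split_ifs <;> norm_num
      rw [div_mul_eq_mul_div, h2, one_div, mul_inv]
    rw [Finset.sum_congr rfl h1, Finset.sum_const, Finset.card_range, nsmul_eq_mul]
    have hL' : (L : ℝ) ≠ 0 := by
      rw [Nat.cast_ne_zero]
      omega
    field_simp
  · rw [if_neg hv]
    refine Finset.sum_eq_zero fun l _ => ?_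
    rw [al_mul_be, if_neg hv]

theorem div_next {τ : Type} {J L N : ℕ} {F : PF τ} (h : F.Ok J L N) (hJ : 0 < J) (hL : 2 ≤ L)
    (v : Gm) : divE (Sum.inr : Fin 4 → ℕ ⊕ Fin 4) (F.next J L).fld v = 0 := by
  classical
  rw [c12_divE]
  have hJ' : (J : ℝ) ≠ 0 := by
    rw [Nat.cast_ne_zero]
    omega
  have hL' : (L : ℝ) ≠ 0 := by
    rw [Nat.cast_ne_zero]
    omega
  have hL1 : (L : ℝ) - 1 ≠ 0 := by
    have : (2 : ℝ) ≤ L := by exact_mod_cast hL
    intro h0
    linarith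
  show ∑ q ∈ ((F.S ×ˢ SG J ×ˢ Finset.range L) ×ˢ
      (SG J ×ˢ Finset.univ ×ˢ Finset.range L)).filter
    (fun q => q.1.2.1.1 ∉ F.I q.1.1 ∧ cc q.1.2.2 = F.i q.1.1 ∧ q.2.1.1 ∉ F.I q.1.1 ∧
      q.2.1.1 ≠ q.1.2.1.1 ∧ (q.2.2.1 = false → q.2.2.2 ≠ q.1.2.2)),
    (if (F.next J L).A q * (F.next J L).B q = v then
      (F.next J L).c q * foxD (Sum.inr ((F.next J L).i q)) v ((F.next J L).A q) else 0) = 0
  rw [Finset.sum_filter, Finset.sum_product]
  refine Finset.sum_eq_zero fun p hp => ?_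
  obtain ⟨t, σ₁, l₁⟩ := p
  rw [Finset.mem_product, Finset.mem_product] at hp
  obtain ⟨ht, hσ₁, hl₁⟩ := hp
  have hl₁' : l₁ < L := Finset.mem_range.1 hl₁
  rw [Finset.sum_product]
  refine Finset.sum_eq_zero fun σ₂ _ => ?_
  rw [Finset.sum_product, Fintype.sum_bool]
  by_cases hC : σ₁.1 ∉ F.I t ∧ cc l₁ = F.i t ∧ σ₂.1 ∉ F.I t ∧ σ₂.1 ≠ σ₁.1
  swap
  · have e1 : ∀ (k : Bool) (r : ℕ), (if σ₁.1 ∉ F.I t ∧ cc l₁ = F.i t ∧ σ₂.1 ∉ F.I t ∧
        σ₂.1 ≠ σ₁.1 ∧ (k = false → r ≠ l₁) then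
        (if (F.next J L).A ((t, σ₁, l₁), (σ₂, k, r)) *
          (F.next J L).B ((t, σ₁, l₁), (σ₂, k, r)) = v then
          (F.next J L).c ((t, σ₁, l₁), (σ₂, k, r)) *
            foxD (Sum.inr ((F.next J L).i ((t, σ₁, l₁), (σ₂, k, r)))) v
              ((F.next J L).A ((t, σ₁, l₁), (σ₂, k, r))) else 0) else 0) = 0 := by
      intro k r
      rw [if_neg]
      rintro ⟨h1, h2, h3, h4, -⟩
      exact hC ⟨h1, h2, h3, h4⟩
    have e2 : ∀ k : Bool, ∑ r ∈ Finset.range L, (if σ₁.1 ∉ F.I t ∧ cc l₁ = F.i t ∧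
        σ₂.1 ∉ F.I t ∧ σ₂.1 ≠ σ₁.1 ∧ (k = false → r ≠ l₁) then
        (if (F.next J L).A ((t, σ₁, l₁), (σ₂, k, r)) *
          (F.next J L).B ((t, σ₁, l₁), (σ₂, k, r)) = v then
          (F.next J L).c ((t, σ₁, l₁), (σ₂, k, r)) *
            foxD (Sum.inr ((F.next J L).i ((t, σ₁, l₁), (σ₂, k, r)))) v
              ((F.next J L).A ((t, σ₁, l₁), (σ₂, k, r))) else 0) else 0) = 0 :=
      fun k => Finset.sum_eq_zero fun r _ => e1 k r
    exact (congrArg₂ (· + ·) (e2 true) (e2 false)).trans (add_zero 0)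
  obtain ⟨h1, h2, h3, h4⟩ := hC
  have h1' : σ₁.1 ∉ ((F.I t : Finset ℕ) : Set ℕ) := fun hh => h1 (Finset.mem_coe.1 hh)
  have h3' : σ₂.1 ∉ ((F.I t : Finset ℕ) : Set ℕ) := fun hh => h3 (Finset.mem_coe.1 hh)
  have hA := h.memA t ht
  have hB := h.memB t ht
  set V : Gm := F.A t * (al L σ₁ l₁)⁻¹ * gs L σ₂ * (be L σ₁ l₁)⁻¹ * F.B t with hV
  have hs1 : sg σ₁ * sg σ₁ = 1 := by
    unfold sg
    split_ifs <;> norm_num
  have hs2 : sg σ₂ * sg σ₂ = 1 := by
    unfold sg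
    split_ifs <;> norm_num
  -- kind = true
  have et : ∀ r ∈ Finset.range L, (if σ₁.1 ∉ F.I t ∧ cc l₁ = F.i t ∧ σ₂.1 ∉ F.I t ∧
        σ₂.1 ≠ σ₁.1 ∧ (true = false → r ≠ l₁) then
        (if (F.next J L).A ((t, σ₁, l₁), (σ₂, true, r)) *
          (F.next J L).B ((t, σ₁, l₁), (σ₂, true, r)) = v then
          (F.next J L).c ((t, σ₁, l₁), (σ₂, true, r)) *
            foxD (Sum.inr ((F.next J L).i ((t, σ₁, l₁), (σ₂, true, r)))) v
              ((F.next J L).A ((t, σ₁, l₁), (σ₂, true, r))) else 0) else 0) =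
        if V = v then -(F.c t * sg σ₁ / (2 * J * L)) else 0 := by
    intro r hr
    rw [if_pos ⟨h1, h2, h3, h4, fun hh => absurd hh (by decide)⟩]
    show (if A1 L (F.A t) σ₁ l₁ σ₂ r * B1 L (F.B t) σ₁ l₁ σ₂ r = v then
      -(F.c t * sg σ₁ * sg σ₂ / (2 * J * L)) *
        foxD (Sum.inr (cc r)) v (A1 L (F.A t) σ₁ l₁ σ₂ r) else 0) = _
    rw [A1_mul_B1, ← hV]
    by_cases hv : V = v
    · rw [if_pos hv, if_pos hv, ← hv, hV, ← A1_mul_B1 (σ₂ := σ₂) r,
        fox1 hA hB h1' h3' h4 hl₁' (Finset.mem_range.1 hr)]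
      have : F.c t * sg σ₁ * sg σ₂ / (2 * J * L) * sg σ₂ = F.c t * sg σ₁ / (2 * J * L) := by
        rw [div_mul_eq_mul_div, mul_assoc, hs2, mul_one]
      rw [neg_mul, this]
    · rw [if_neg hv, if_neg hv]
  -- kind = false
  have ef : ∀ r ∈ Finset.range L, (if σ₁.1 ∉ F.I t ∧ cc l₁ = F.i t ∧ σ₂.1 ∉ F.I t ∧
        σ₂.1 ≠ σ₁.1 ∧ (false = false → r ≠ l₁) then
        (if (F.next J L).A ((t, σ₁, l₁), (σ₂, false, r)) *
          (F.next J L).B ((t, σ₁, l₁), (σ₂, false, r)) = v then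
          (F.next J L).c ((t, σ₁, l₁), (σ₂, false, r)) *
            foxD (Sum.inr ((F.next J L).i ((t, σ₁, l₁), (σ₂, false, r)))) v
              ((F.next J L).A ((t, σ₁, l₁), (σ₂, false, r))) else 0) else 0) =
        if r = l₁ then 0 else
          if V = v then F.c t * sg σ₁ / (2 * J * (L - 1)) else 0 := by
    intro r hr
    by_cases hrl : r = l₁
    · rw [if_pos hrl, if_neg]
      rintro ⟨-, -, -, -, hh⟩
      exact hh rfl hrl
    rw [if_pos ⟨h1, h2, h3, h4, fun _ => hrl⟩, if_neg hrl]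
    show (if A2 L (F.A t) σ₁ l₁ σ₂ r * B2 L (F.B t) σ₁ l₁ σ₂ r = v then
      -(F.c t / (2 * J * (L - 1))) *
        foxD (Sum.inr (cc r)) v (A2 L (F.A t) σ₁ l₁ σ₂ r) else 0) = _
    rw [A2_mul_B2, ← hV]
    by_cases hv : V = v
    · rw [if_pos hv, if_pos hv, ← hv, hV, ← A2_mul_B2 (σ₂ := σ₂) r,
        fox2 hA hB h1' h3' h4 hl₁' (Finset.mem_range.1 hr) hrl]
      rw [neg_mul_neg, div_mul_eq_mul_div]
    · rw [if_neg hv, if_neg hv]
  refine (congrArg₂ (· + ·) (Finset.sum_congr rfl et) (Finset.sum_congr rfl ef)).trans ?_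
  by_cases hv : V = v
  · simp only [if_pos hv]
    rw [Finset.sum_const, Finset.card_range, nsmul_eq_mul, ← Finset.sum_erase_add _ _ hl₁,
      if_pos rfl, add_zero]
    rw [Finset.sum_congr rfl (fun r hr => if_neg (Finset.ne_of_mem_erase hr)), Finset.sum_const,
      Finset.card_erase_of_mem hl₁, Finset.card_range, nsmul_eq_mul]
    have hcast : ((L - 1 : ℕ) : ℝ) = (L : ℝ) - 1 := by
      rw [Nat.cast_sub (by omega), Nat.cast_one]
    rw [hcast]
    field_simp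
    ring
  · simp only [if_neg hv]
    simp

end Pool.Agent.H667R3.FF
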