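import Mathlib
import Pool.Agent.H667R3.FF.Defs
import Pool.Agent.H667R3.FF.C4

/-! Task C13 (table h667b_tasks, shared note 777). -/

namespace Pool.Agent.H667R3.FF

open Pool.Agent.H667R2.FG
open scoped ComplexConjugate

theorem C13_inner {α β M N : Type} [AddCommMonoid N] [AddCommMonoid M] [DecidableEq α] (s : Finset β)
    (x : β → α) (c : β → M) (h : α → M → N) (h0 : ∀ a, h a 0 = 0)
    (hadd : ∀ a b₁ b₂, h a (b₁ + b₂) = h a b₁ + h a b₂) :
    (∑ t ∈ s, Finsupp.single (x t) (c t)).sum h = ∑ t ∈ s, h (x t) (c t) := by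
  rw [← Finsupp.sum_finsetSum_index h0 hadd]
  refine Finset.sum_congr rfl fun t _ => ?_
  exact Finsupp.sum_single_index (h0 _)

theorem opT_eq (J L : ℕ) (η : Fin 4 → (Gm × Gm →₀ ℝ)) :
    opT (Sum.inr : Fin 4 → ℕ ⊕ Fin 4) (PJ J L) η = TJ J L η := by
  classical
  unfold opT TJ PJ
  have h1 : ∀ i : Fin 4, (∑ σ ∈ SG J, Finsupp.single (gs L σ) ((Real.sqrt (2 * J))⁻¹)).sum
      (fun g c => (foxD (Sum.inr i : ℕ ⊕ Fin 4) g).sum fun A n => (η i).sum fun ab r =>
        Finsupp.single (A * ab.1⁻¹, ab.2⁻¹ * A⁻¹ * g) (c * n * r)) =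
      ∑ σ ∈ SG J, ∑ l ∈ pos L i, (η (cc l)).sum fun ab r =>
        Finsupp.single (al L σ l * ab.1⁻¹, ab.2⁻¹ * be L σ l) ((Real.sqrt (2 * J))⁻¹ * sg σ * r) := by
    intro i
    rw [C13_inner]
    · refine Finset.sum_congr rfl fun σ _ => ?_
      rw [foxD_gs, C13_inner]
      · refine Finset.sum_congr rfl fun l hl => ?_
        have hcc : cc l = i := (Finset.mem_filter.mp hl).2
        rw [hcc]
        refine Finsupp.sum_congr fun ab _ => ?_
        have e : ab.2⁻¹ * (al L σ l)⁻¹ * gs L σ = ab.2⁻¹ * be L σ l := by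
          rw [← al_mul_be L σ l]; group
        rw [e]
      · intro A
        simp
      · intro A b₁ b₂
        rw [← Finsupp.sum_add]
        refine Finsupp.sum_congr fun ab _ => ?_
        rw [← Finsupp.single_add]
        congr 1; ring
    · intro g
      simp
    · intro g b₁ b₂
      rw [← Finsupp.sum_add]
      refine Finsupp.sum_congr fun A _ => ?_
      rw [← Finsupp.sum_add]
      refine Finsupp.sum_congr fun ab _ => ?_
      rw [← Finsupp.single_add]
      congr 1; ring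
  rw [Finset.sum_congr rfl fun i _ => h1 i, Finset.sum_comm]
  refine Finset.sum_congr rfl fun σ _ => ?_
  exact Finset.sum_fiberwise (Finset.range L) cc _

theorem C13_gs (L : ℕ) (σ : Sg) : gs L (σ.1, !σ.2) = (gs L σ)⁻¹ := by
  rcases σ with ⟨j, b⟩
  cases b <;> simp [gs]

theorem PJ_sym (J L : ℕ) (v : Gm) : PJ J L v⁻¹ = PJ J L v := by
  classical
  unfold PJ
  rw [Finsupp.finsetSum_apply, Finsupp.finsetSum_apply]
  refine Finset.sum_nbij' (fun σ => (σ.1, !σ.2)) (fun σ => (σ.1, !σ.2)) ?_ ?_ ?_ ?_ ?_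
  · intro σ hσ
    simpa [SG] using hσ
  · intro σ hσ
    simpa [SG] using hσ
  · intro σ _; simp
  · intro σ _; simp
  · intro σ _
    rw [C13_gs, Finsupp.single_apply, Finsupp.single_apply]
    have : gs L σ = v⁻¹ ↔ (gs L σ)⁻¹ = v := by
      constructor
      · intro h; rw [h, inv_inv]
      · intro h; rw [← h, inv_inv]
    simp only [this]

end Pool.Agent.H667R3.FF
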