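import Mathlib
import Pool.Agent.H667R3.FF.Defs
import Pool.Agent.H667R3.FF.C1

/-! Task C2 (table h667b_tasks, shared note 777). -/

namespace Pool.Agent.H667R3.FF

open Pool.Agent.H667R2.FG
open scoped ComplexConjugate

variable {I I' : Set ℕ} {j j' : ℕ}

/-- image of an element in the subgroup without `w_j` -/
theorem C2_img (hjj : j ≠ j') {A : Gm} (hA : A ∈ GI I) (h : j ∉ I ∨ j' ∉ I) :
    hp j j' A = ⟨ex j A, ex j' A, 0⟩ := by
  ext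
  · exact hp_a j j' A
  · exact hp_b hjj A
  · exact hp_c_of_mem hA hjj h

theorem C2_fst (hjj : j ≠ j') {q : Gm} (hq : q ∈ GI {j}) : hp j j' q = ⟨ex j q, 0, 0⟩ := by
  have h : j' ∉ ({j} : Set ℕ) := fun h => hjj (Set.mem_singleton_iff.mp h).symm
  rw [C2_img hjj hq (Or.inr h), ex_of_mem hq h]

theorem C2_snd (hjj : j ≠ j') {q : Gm} (hq : q ∈ GI {j'}) : hp j j' q = ⟨0, ex j' q, 0⟩ := by
  have h : j ∉ ({j'} : Set ℕ) := fun h => hjj (Set.mem_singleton_iff.mp h)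
  rw [C2_img hjj hq (Or.inl h), ex_of_mem hq h]

theorem C2_no1 (hjj : j ≠ j') {A : Gm} (hA : A ∈ GI I) (h : j ∉ I) :
    hp j j' A = ⟨0, ex j' A, 0⟩ := by
  rw [C2_img hjj hA (Or.inl h), ex_of_mem hA h]

theorem C2_no2 (hjj : j ≠ j') {A : Gm} (hA : A ∈ GI I) (h : j' ∉ I) :
    hp j j' A = ⟨ex j A, 0, 0⟩ := by
  rw [C2_img hjj hA (Or.inr h), ex_of_mem hA h]

theorem C2_no12 (hjj : j ≠ j') {A : Gm} (hA : A ∈ GI I) (h : j ∉ I) (h' : j' ∉ I) :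
    hp j j' A = 1 := by
  rw [C2_img hjj hA (Or.inr h'), ex_of_mem hA h, ex_of_mem hA h']
  rfl

theorem heis1 (hjj : j ≠ j') {A A' q q' : Gm} (hA : A ∈ GI I) (hj : j ∉ I) (hA' : A' ∈ GI I')
    (hj' : j' ∉ I') (hq : q ∈ GI {j}) (hq' : q' ∈ GI {j'}) (e1 : ex j q ≠ 0)
    (e2 : ex j' q' ≠ 0) (h : q * A = q' * A') : False := by
  have h1 := congrArg (hp j j') h
  rw [map_mul, map_mul, C2_fst hjj hq, C2_snd hjj hq', C2_no1 hjj hA hj, C2_no2 hjj hA' hj'] at h1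
  have hb := congrArg Heis.b h1
  have hc := congrArg Heis.c h1
  simp at hb hc
  rcases hc with hc | hc
  · exact e1 hc
  · rw [hb] at hc; exact e2 hc

theorem heis2 (hjj : j ≠ j') {A A' q q' : Gm} (hA : A ∈ GI I) (hj : j ∉ I) (hA' : A' ∈ GI I')
    (hj' : j' ∉ I') (hq : q ∈ GI {j}) (hq' : q' ∈ GI {j'}) (e1 : ex j q ≠ 0)
    (e2 : ex j' q' ≠ 0) (h : A * q = A' * q') : False := by
  have h1 := congrArg (hp j j') h
  rw [map_mul, map_mul, C2_fst hjj hq, C2_snd hjj hq', C2_no1 hjj hA hj, C2_no2 hjj hA' hj'] at h1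
  have ha := congrArg Heis.a h1
  have hc := congrArg Heis.c h1
  simp at ha hc
  rcases hc with hc | hc
  · rw [hc] at ha; exact e1 ha
  · exact e2 hc

theorem heis3 (hjj : j ≠ j') {q₁ m q₂ B p C : Gm} (h1 : q₁ ∈ GI {j}) (h2 : m ∈ GI {j'})
    (h3 : q₂ ∈ GI {j}) (hB : B ∈ GI I) (hj : j ∉ I) (hj' : j' ∉ I) (hp : p ∈ GI {j})
    (hC : C ∈ GI I') (hjC : j ∉ I') (e1 : ex j q₂ ≠ 0) (e2 : ex j' m ≠ 0)
    (h : q₁ * m * q₂ * B = p * C) : False := by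
  have h0 := congrArg (FF.hp j j') h
  rw [map_mul, map_mul, map_mul, map_mul, C2_fst hjj h1, C2_snd hjj h2, C2_fst hjj h3,
    C2_no12 hjj hB hj hj', C2_fst hjj hp, C2_no1 hjj hC hjC] at h0
  have ha := congrArg Heis.a h0
  have hb := congrArg Heis.b h0
  have hc := congrArg Heis.c h0
  simp at ha hb hc
  rw [← ha, ← hb] at hc
  have : ex j q₂ * ex j' m = 0 := by linarith
  rcases mul_eq_zero.mp this with h | h
  · exact e1 h
  · exact e2 h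

theorem heis3' (hjj : j ≠ j') {q₁ m q₂ B p C : Gm} (h1 : q₁ ∈ GI {j}) (h2 : m ∈ GI {j'})
    (h3 : q₂ ∈ GI {j}) (hB : B ∈ GI I) (hj : j ∉ I) (hj' : j' ∉ I) (hp : p ∈ GI {j})
    (hC : C ∈ GI I') (hjC : j ∉ I') (e1 : ex j q₂ ≠ 0) (e2 : ex j' m ≠ 0)
    (h : B * q₂ * m * q₁ = C * p) : False := by
  have h0 := congrArg (FF.hp j j') h
  rw [map_mul, map_mul, map_mul, map_mul, C2_fst hjj h1, C2_snd hjj h2, C2_fst hjj h3,
    C2_no12 hjj hB hj hj', C2_fst hjj hp, C2_no1 hjj hC hjC] at h0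
  have ha := congrArg Heis.a h0
  have hb := congrArg Heis.b h0
  have hc := congrArg Heis.c h0
  simp at ha hb hc
  rcases hc with h | h
  · exact e1 h
  · exact e2 h

theorem heis4 (hjj : j ≠ j') {q₁ m q₂ B q₁' m' q₂' B' : Gm} (h1 : q₁ ∈ GI {j}) (h2 : m ∈ GI {j'})
    (h3 : q₂ ∈ GI {j}) (hB : B ∈ GI I) (hj : j ∉ I) (hj' : j' ∉ I) (h1' : q₁' ∈ GI {j})
    (h2' : m' ∈ GI {j'}) (h3' : q₂' ∈ GI {j}) (hB' : B' ∈ GI I') (hjI : j ∉ I') (hjI' : j' ∉ I')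
    (e : ex j' m ≠ 0) (h : q₁ * m * q₂ * B = q₁' * m' * q₂' * B') :
    ex j q₁ = ex j q₁' ∧ ex j' m = ex j' m' ∧ ex j q₂ = ex j q₂' := by
  have h0 := congrArg (FF.hp j j') h
  rw [map_mul, map_mul, map_mul, map_mul, map_mul, map_mul, C2_fst hjj h1, C2_snd hjj h2,
    C2_fst hjj h3, C2_no12 hjj hB hj hj', C2_fst hjj h1', C2_snd hjj h2', C2_fst hjj h3',
    C2_no12 hjj hB' hjI hjI'] at h0
  have ha := congrArg Heis.a h0
  have hb := congrArg Heis.b h0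
  have hc := congrArg Heis.c h0
  simp at ha hb hc
  rw [← hb] at hc
  have h5 : ex j q₁ = ex j q₁' := mul_right_cancel₀ e hc
  exact ⟨h5, hb, by linarith⟩

theorem heis4' (hjj : j ≠ j') {q₁ m q₂ B q₁' m' q₂' B' : Gm} (h1 : q₁ ∈ GI {j}) (h2 : m ∈ GI {j'})
    (h3 : q₂ ∈ GI {j}) (hB : B ∈ GI I) (hj : j ∉ I) (hj' : j' ∉ I) (h1' : q₁' ∈ GI {j})
    (h2' : m' ∈ GI {j'}) (h3' : q₂' ∈ GI {j}) (hB' : B' ∈ GI I') (hjI : j ∉ I') (hjI' : j' ∉ I')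
    (e : ex j' m ≠ 0) (h : B * q₂ * m * q₁ = B' * q₂' * m' * q₁') :
    ex j q₁ = ex j q₁' ∧ ex j' m = ex j' m' ∧ ex j q₂ = ex j q₂' := by
  have h0 := congrArg (FF.hp j j') h
  rw [map_mul, map_mul, map_mul, map_mul, map_mul, map_mul, C2_fst hjj h1, C2_snd hjj h2,
    C2_fst hjj h3, C2_no12 hjj hB hj hj', C2_fst hjj h1', C2_snd hjj h2', C2_fst hjj h3',
    C2_no12 hjj hB' hjI hjI'] at h0
  have ha := congrArg Heis.a h0
  have hb := congrArg Heis.b h0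
  have hc := congrArg Heis.c h0
  simp at ha hb hc
  rw [← hb] at hc
  have h5 : ex j q₂ = ex j q₂' := mul_right_cancel₀ e hc
  exact ⟨by linarith, hb, h5⟩

/-- decoding of a fresh factor on the left/right -/
theorem decL {L : ℕ} {σ σ' : Sg} {l l' : ℕ} {A A' : Gm} (hA : A ∈ GI I) (hA' : A' ∈ GI I')
    (hσ : σ.1 ∉ I) (hσ' : σ'.1 ∉ I') (hl : l < L) (hl' : l' < L)
    (h : al L σ l * A = al L σ' l' * A') : σ = σ' ∧ l = l' := by
  by_cases hs : σ.1 = σ'.1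
  · apply al_decode hl hl' hs
    have h1 := congrArg (ex σ.1) h
    rw [ex_mul, ex_mul, ex_of_mem hA hσ, ex_of_mem hA' (by rw [hs]; exact hσ'), add_zero,
      add_zero] at h1
    exact h1
  · exact (heis1 hs hA hσ hA' hσ' (al_mem L σ l) (al_mem L σ' l') (ex_al_pos hl)
      (ex_al_pos hl') h).elim

theorem decR {L : ℕ} {σ σ' : Sg} {l l' : ℕ} {A A' : Gm} (hA : A ∈ GI I) (hA' : A' ∈ GI I')
    (hσ : σ.1 ∉ I) (hσ' : σ'.1 ∉ I') (hl : l < L) (hl' : l' < L)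
    (h : A * al L σ l = A' * al L σ' l') : σ = σ' ∧ l = l' := by
  by_cases hs : σ.1 = σ'.1
  · apply al_decode hl hl' hs
    have h1 := congrArg (ex σ.1) h
    rw [ex_mul, ex_mul, ex_of_mem hA hσ, ex_of_mem hA' (by rw [hs]; exact hσ'), zero_add,
      zero_add] at h1
    exact h1
  · exact (heis2 hs hA hσ hA' hσ' (al_mem L σ l) (al_mem L σ' l') (ex_al_pos hl)
      (ex_al_pos hl') h).elim

theorem decL' {L : ℕ} {σ σ' : Sg} {l l' : ℕ} {A A' : Gm} (hA : A ∈ GI I) (hA' : A' ∈ GI I')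
    (hσ : σ.1 ∉ I) (hσ' : σ'.1 ∉ I') (hl : l < L) (hl' : l' < L)
    (h : be L σ l * A = be L σ' l' * A') : σ = σ' ∧ l = l' := by
  by_cases hs : σ.1 = σ'.1
  · apply be_decode hl hl' hs
    have h1 := congrArg (ex σ.1) h
    rw [ex_mul, ex_mul, ex_of_mem hA hσ, ex_of_mem hA' (by rw [hs]; exact hσ'), add_zero,
      add_zero] at h1
    exact h1
  · exact (heis1 hs hA hσ hA' hσ' (be_mem L σ l) (be_mem L σ' l') (ex_be_pos hl)
      (ex_be_pos hl') h).elim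

end Pool.Agent.H667R3.FF
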