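import Mathlib
import Pool.Agent.H667R3.FF.Defs
import Pool.Agent.H667R3.FF.C2

/-! Task C6b (table h667b_tasks, shared note 777). Replace every `sorry`; keep the statements. -/

namespace Pool.Agent.H667R3.FF

open Pool.Agent.H667R2.FG
open scoped ComplexConjugate

variable {I I' : Set ℕ} {L : ℕ} {A B A' B' : Gm} {σ₁ σ₂ σ₁' σ₂' : Sg} {l₁ l₁' r r' : ℕ}

/-- no cancellation between different letters, left -/
lemma C6b_al_ne {σ : Sg} {l r : ℕ} (hl : l < L) (hr : r < L) (h : r ≠ l) :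
    ex σ.1 ((al L σ l)⁻¹ * al L σ r) ≠ 0 := by
  rw [ex_mul, ex_inv]
  intro h0
  have h1 : ex σ.1 (al L σ r) = ex σ.1 (al L σ l) := by linarith
  exact h (al_decode hr hl rfl h1).2

/-- no cancellation between different letters, right -/
lemma C6b_be_ne {σ : Sg} {l r : ℕ} (hl : l < L) (hr : r < L) (h : r ≠ l) :
    ex σ.1 (be L σ r * (be L σ l)⁻¹) ≠ 0 := by
  rw [ex_mul, ex_inv]
  intro h0
  have h1 : ex σ.1 (be L σ r) = ex σ.1 (be L σ l) := by linarith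
  exact h (be_decode hr hl rfl h1).2

/-- the sign of `gs` -/
lemma C6b_gs {σ σ' : Sg} (h : σ.1 = σ'.1) (he : ex σ.1 (gs L σ) = ex σ.1 (gs L σ')) : σ = σ' := by
  have h1 := ex_gs L σ
  have h2 := ex_gs L σ'
  rw [← h, ← he, h1] at h2
  refine Prod.ext h ?_
  rcases hb : σ.2 <;> rcases hb' : σ'.2
  · rfl
  · rw [hb, hb'] at h2
    simp at h2
    omega
  · rw [hb, hb'] at h2
    simp at h2
    omega
  · rfl

theorem dec22aa (hA : A ∈ GI I) (hB : B ∈ GI I) (hA' : A' ∈ GI I') (hB' : B' ∈ GI I')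
    (h1 : σ₁.1 ∉ I) (h2 : σ₂.1 ∉ I)
    (h12 : σ₂.1 ≠ σ₁.1) (h1' : σ₁'.1 ∉ I') (h2' : σ₂'.1 ∉ I') (h12' : σ₂'.1 ≠ σ₁'.1)
    (hl : l₁ < L) (hl' : l₁' < L) (hr : r < L) (hr' : r' < L) (hne : r ≠ l₁) (hne' : r' ≠ l₁')
    (eA : A * (al L σ₁ l₁)⁻¹ * al L σ₁ r = A' * (al L σ₁' l₁')⁻¹ * al L σ₁' r')
    (eB : (al L σ₁ r)⁻¹ * gs L σ₂ * (be L σ₁ l₁)⁻¹ * B =
      (al L σ₁' r')⁻¹ * gs L σ₂' * (be L σ₁' l₁')⁻¹ * B') :
    σ₂ = σ₂' ∧ r = r' ∧ σ₁ = σ₁' ∧ l₁ = l₁' ∧ A = A' ∧ B = B' := by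
  have hjj : σ₁.1 = σ₁'.1 := by
    by_contra hjj
    refine heis2 hjj hA h1 hA' h1'
      ((GI {σ₁.1}).mul_mem ((GI {σ₁.1}).inv_mem (al_mem L σ₁ l₁)) (al_mem L σ₁ r))
      ((GI {σ₁'.1}).mul_mem ((GI {σ₁'.1}).inv_mem (al_mem L σ₁' l₁')) (al_mem L σ₁' r'))
      (C6b_al_ne hl hr hne) (C6b_al_ne hl' hr' hne') ?_
    rw [← mul_assoc, ← mul_assoc]
    exact eA
  have hkk : σ₂.1 = σ₂'.1 := by
    by_contra hkk
    have e := congrArg (hp σ₁.1 σ₂.1) eB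
    have hne0 : σ₁.1 ≠ σ₂.1 := h12.symm
    have ha := congrArg Heis.a e
    have hb := congrArg Heis.b e
    have hc := congrArg Heis.c e
    have g1 : ex σ₂.1 (al L σ₁ r) = 0 := ex_al_ne h12
    have g2 : ex σ₁.1 (gs L σ₂) = 0 := ex_gs_ne hne0
    have g3 : ex σ₂.1 (be L σ₁ l₁) = 0 := ex_be_ne h12
    have g4 : ex σ₁.1 B = 0 := ex_of_mem hB h1
    have g5 : ex σ₂.1 B = 0 := ex_of_mem hB h2
    have k1 : ex σ₂.1 (al L σ₁' r') = 0 := ex_al_ne (by rw [← hjj]; exact h12)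
    have k2 : ex σ₁.1 (gs L σ₂') = 0 := ex_gs_ne (by rw [hjj]; exact h12'.symm)
    have k3 : ex σ₂.1 (gs L σ₂') = 0 := ex_gs_ne hkk
    have k4 : ex σ₂.1 (be L σ₁' l₁') = 0 := ex_be_ne (by rw [← hjj]; exact h12)
    have k5 : ex σ₁.1 B' = 0 := ex_of_mem hB' (by rw [hjj]; exact h1')
    have c1 : (hp σ₁.1 σ₂.1 (al L σ₁ r)).c = 0 :=
      hp_c_of_mem (al_mem L σ₁ r) hne0 (Or.inr (by simpa using h12))
    have c2 : (hp σ₁.1 σ₂.1 (gs L σ₂)).c = 0 :=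
      hp_c_of_mem (gs_mem L σ₂) hne0 (Or.inl (by simpa using hne0))
    have c3 : (hp σ₁.1 σ₂.1 (be L σ₁ l₁)).c = 0 :=
      hp_c_of_mem (be_mem L σ₁ l₁) hne0 (Or.inr (by simpa using h12))
    have c4 : (hp σ₁.1 σ₂.1 B).c = 0 := hp_c_of_mem hB hne0 (Or.inl h1)
    have d1 : (hp σ₁.1 σ₂.1 (al L σ₁' r')).c = 0 :=
      hp_c_of_mem (al_mem L σ₁' r') hne0 (Or.inr (by rw [← hjj]; simpa using h12))
    have d2 : (hp σ₁.1 σ₂.1 (gs L σ₂')).c = 0 :=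
      hp_c_of_mem (gs_mem L σ₂') hne0 (Or.inl (by rw [hjj]; simpa using h12'.symm))
    have d3 : (hp σ₁.1 σ₂.1 (be L σ₁' l₁')).c = 0 :=
      hp_c_of_mem (be_mem L σ₁' l₁') hne0 (Or.inr (by rw [← hjj]; simpa using h12))
    have d4 : (hp σ₁.1 σ₂.1 B').c = 0 :=
      hp_c_of_mem hB' hne0 (Or.inl (by rw [hjj]; exact h1'))
    simp only [map_mul, map_inv, Heis.mul_a, Heis.mul_b, Heis.mul_c, Heis.inv_a, Heis.inv_b,
      Heis.inv_c, hp_a, hp_b hne0, g1, g2, g3, g4, g5, k1, k2, k3, k4, k5, c1, c2, c3, c4,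
      d1, d2, d3, d4] at ha hb hc
    have m1 := ex_gs_pos L σ₂
    have m2 := ex_be_pos (σ := σ₁) hl
    have : ex σ₁.1 (be L σ₁ l₁) * ex σ₂.1 (gs L σ₂) = 0 := by
      linear_combination hc + (ex σ₁.1 (al L σ₁' r') + ex σ₁.1 (be L σ₁' l₁')) * hb -
        ex σ₂.1 (gs L σ₂) * ha
    rcases mul_eq_zero.1 this with h | h
    · exact m2 h
    · exact m1 h
  have h4 := heis4 (j := σ₁.1) (j' := σ₂.1) (Ne.symm h12) ((GI {σ₁.1}).inv_mem (al_mem L σ₁ r))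
    (gs_mem L σ₂) ((GI {σ₁.1}).inv_mem (be_mem L σ₁ l₁)) hB h1 h2
    (q₁' := (al L σ₁' r')⁻¹) (m' := gs L σ₂') (q₂' := (be L σ₁' l₁')⁻¹)
    (by rw [hjj]; exact (GI {σ₁'.1}).inv_mem (al_mem L σ₁' r'))
    (by rw [hkk]; exact gs_mem L σ₂')
    (by rw [hjj]; exact (GI {σ₁'.1}).inv_mem (be_mem L σ₁' l₁')) hB'
    (by rw [hjj]; exact h1') (by rw [hkk]; exact h2') (ex_gs_pos L σ₂) eB
  obtain ⟨e1, e2, e3⟩ := h4
  rw [ex_inv, ex_inv, neg_inj] at e1 e3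
  obtain ⟨rfl, rfl⟩ := al_decode hr hr' hjj e1
  obtain ⟨-, rfl⟩ := be_decode hl hl' rfl e3
  obtain rfl := C6b_gs hkk e2
  refine ⟨rfl, rfl, rfl, rfl, ?_, ?_⟩
  · exact mul_right_cancel (mul_right_cancel eA)
  · exact mul_left_cancel eB

theorem dec22bb (hA : A ∈ GI I) (hB : B ∈ GI I) (hA' : A' ∈ GI I') (hB' : B' ∈ GI I')
    (h1 : σ₁.1 ∉ I) (h2 : σ₂.1 ∉ I)
    (h12 : σ₂.1 ≠ σ₁.1) (h1' : σ₁'.1 ∉ I') (h2' : σ₂'.1 ∉ I') (h12' : σ₂'.1 ≠ σ₁'.1)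
    (hl : l₁ < L) (hl' : l₁' < L) (hr : r < L) (hr' : r' < L) (hne : r ≠ l₁) (hne' : r' ≠ l₁')
    (eA : A * (al L σ₁ l₁)⁻¹ * gs L σ₂ * (be L σ₁ r)⁻¹ =
      A' * (al L σ₁' l₁')⁻¹ * gs L σ₂' * (be L σ₁' r')⁻¹)
    (eB : be L σ₁ r * (be L σ₁ l₁)⁻¹ * B = be L σ₁' r' * (be L σ₁' l₁')⁻¹ * B') :
    σ₂ = σ₂' ∧ r = r' ∧ σ₁ = σ₁' ∧ l₁ = l₁' ∧ A = A' ∧ B = B' := by
  have hjj : σ₁.1 = σ₁'.1 := by
    by_contra hjj
    exact heis1 hjj hB h1 hB' h1'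
      ((GI {σ₁.1}).mul_mem (be_mem L σ₁ r) ((GI {σ₁.1}).inv_mem (be_mem L σ₁ l₁)))
      ((GI {σ₁'.1}).mul_mem (be_mem L σ₁' r') ((GI {σ₁'.1}).inv_mem (be_mem L σ₁' l₁')))
      (C6b_be_ne hl hr hne) (C6b_be_ne hl' hr' hne') eB
  have hkk : σ₂.1 = σ₂'.1 := by
    by_contra hkk
    have e := congrArg (hp σ₁.1 σ₂.1) eA
    have hne0 : σ₁.1 ≠ σ₂.1 := h12.symm
    have hc := congrArg Heis.c e
    have g0 : ex σ₁.1 A = 0 := ex_of_mem hA h1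
    have g1 : ex σ₂.1 (al L σ₁ l₁) = 0 := ex_al_ne h12
    have g2 : ex σ₁.1 (gs L σ₂) = 0 := ex_gs_ne hne0
    have g3 : ex σ₂.1 (be L σ₁ r) = 0 := ex_be_ne h12
    have k0 : ex σ₁.1 A' = 0 := ex_of_mem hA' (by rw [hjj]; exact h1')
    have k1 : ex σ₂.1 (al L σ₁' l₁') = 0 := ex_al_ne (by rw [← hjj]; exact h12)
    have k2 : ex σ₁.1 (gs L σ₂') = 0 := ex_gs_ne (by rw [hjj]; exact h12'.symm)
    have k3 : ex σ₂.1 (gs L σ₂') = 0 := ex_gs_ne hkk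
    have k4 : ex σ₂.1 (be L σ₁' r') = 0 := ex_be_ne (by rw [← hjj]; exact h12)
    have c0 : (hp σ₁.1 σ₂.1 A).c = 0 := hp_c_of_mem hA hne0 (Or.inl h1)
    have c1 : (hp σ₁.1 σ₂.1 (al L σ₁ l₁)).c = 0 :=
      hp_c_of_mem (al_mem L σ₁ l₁) hne0 (Or.inr (by simpa using h12))
    have c2 : (hp σ₁.1 σ₂.1 (gs L σ₂)).c = 0 :=
      hp_c_of_mem (gs_mem L σ₂) hne0 (Or.inl (by simpa using hne0))
    have c3 : (hp σ₁.1 σ₂.1 (be L σ₁ r)).c = 0 :=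
      hp_c_of_mem (be_mem L σ₁ r) hne0 (Or.inr (by simpa using h12))
    have d0 : (hp σ₁.1 σ₂.1 A').c = 0 := hp_c_of_mem hA' hne0 (Or.inl (by rw [hjj]; exact h1'))
    have d1 : (hp σ₁.1 σ₂.1 (al L σ₁' l₁')).c = 0 :=
      hp_c_of_mem (al_mem L σ₁' l₁') hne0 (Or.inr (by rw [← hjj]; simpa using h12))
    have d2 : (hp σ₁.1 σ₂.1 (gs L σ₂')).c = 0 :=
      hp_c_of_mem (gs_mem L σ₂') hne0 (Or.inl (by rw [hjj]; simpa using h12'.symm))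
    have d3 : (hp σ₁.1 σ₂.1 (be L σ₁' r')).c = 0 :=
      hp_c_of_mem (be_mem L σ₁' r') hne0 (Or.inr (by rw [← hjj]; simpa using h12))
    simp only [map_mul, map_inv, Heis.mul_a, Heis.mul_b, Heis.mul_c, Heis.inv_a, Heis.inv_b,
      Heis.inv_c, hp_a, hp_b hne0, g0, g1, g2, g3, k0, k1, k2, k3, k4, c0, c1, c2, c3,
      d0, d1, d2, d3] at hc
    have m1 := ex_gs_pos L σ₂
    have m2 := ex_al_pos (σ := σ₁) hl
    have : ex σ₁.1 (al L σ₁ l₁) * ex σ₂.1 (gs L σ₂) = 0 := by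
      linear_combination -hc
    rcases mul_eq_zero.1 this with h | h
    · exact m2 h
    · exact m1 h
  have h4 := heis4' (j := σ₁.1) (j' := σ₂.1) (Ne.symm h12)
    (q₁ := (be L σ₁ r)⁻¹) (m := gs L σ₂) (q₂ := (al L σ₁ l₁)⁻¹)
    (q₁' := (be L σ₁' r')⁻¹) (m' := gs L σ₂') (q₂' := (al L σ₁' l₁')⁻¹)
    ((GI {σ₁.1}).inv_mem (be_mem L σ₁ r))
    (gs_mem L σ₂) ((GI {σ₁.1}).inv_mem (al_mem L σ₁ l₁)) hA h1 h2
    (by rw [hjj]; exact (GI {σ₁'.1}).inv_mem (be_mem L σ₁' r'))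
    (by rw [hkk]; exact gs_mem L σ₂')
    (by rw [hjj]; exact (GI {σ₁'.1}).inv_mem (al_mem L σ₁' l₁')) hA'
    (by rw [hjj]; exact h1') (by rw [hkk]; exact h2') (ex_gs_pos L σ₂) eA
  obtain ⟨e1, e2, e3⟩ := h4
  rw [ex_inv, ex_inv, neg_inj] at e1 e3
  obtain ⟨rfl, rfl⟩ := be_decode hr hr' hjj e1
  obtain ⟨-, rfl⟩ := al_decode hl hl' rfl e3
  obtain rfl := C6b_gs hkk e2
  refine ⟨rfl, rfl, rfl, rfl, ?_, ?_⟩
  · exact mul_right_cancel (mul_right_cancel (mul_right_cancel eA))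
  · exact mul_left_cancel eB

end Pool.Agent.H667R3.FF
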