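import Mathlib
import Pool.Agent.H667R3.FF.Defs
import Pool.Agent.H667R3.FF.C2

/-! Task C6c (table h667b_tasks, shared note 777). Replace every `sorry`; keep the statements. -/

namespace Pool.Agent.H667R3.FF

open Pool.Agent.H667R2.FG
open scoped ComplexConjugate

variable {I I' : Set ℕ} {L : ℕ} {A B A' B' : Gm} {σ₁ σ₂ σ₁' σ₂' : Sg} {l₁ l₁' r r' : ℕ}

/-- mixed case: use the Heisenberg quotient for `(σ₁.1, σ₁'.1)` in `eA` if `σ₁.1 ≠ σ₁'.1` and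
`σ₂'.1 ≠ σ₁.1`; the exponent of `w_{σ₁.1}` in `eB` if `σ₂'.1 = σ₁.1`; and `h3` in `eB` if
`σ₁.1 = σ₁'.1`. -/
theorem dec22ab (hA : A ∈ GI I) (hB : B ∈ GI I) (hA' : A' ∈ GI I') (hB' : B' ∈ GI I')
    (h1 : σ₁.1 ∉ I) (h2 : σ₂.1 ∉ I)
    (h12 : σ₂.1 ≠ σ₁.1) (h1' : σ₁'.1 ∉ I') (h2' : σ₂'.1 ∉ I') (h12' : σ₂'.1 ≠ σ₁'.1)
    (hl : l₁ < L) (hl' : l₁' < L) (hr : r < L) (hr' : r' < L) (hne : r ≠ l₁) (hne' : r' ≠ l₁')
    (hb : bef σ₁ l₁ r) (hb' : ¬ bef σ₁' l₁' r')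
    (eA : A * (al L σ₁ l₁)⁻¹ * al L σ₁ r =
      A' * (al L σ₁' l₁')⁻¹ * gs L σ₂' * (be L σ₁' r')⁻¹)
    (eB : (al L σ₁ r)⁻¹ * gs L σ₂ * (be L σ₁ l₁)⁻¹ * B =
      be L σ₁' r' * (be L σ₁' l₁')⁻¹ * B') : False := by
  by_cases hj : σ₁.1 = σ₁'.1
  · -- case 1: the Heisenberg contradiction in `eB`
    refine heis3 (j := σ₁.1) (j' := σ₂.1) (I := I) (I' := I') h12.symm
      ((GI {σ₁.1}).inv_mem (al_mem L σ₁ r)) (gs_mem L σ₂)
      ((GI {σ₁.1}).inv_mem (be_mem L σ₁ l₁)) hB h1 h2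
      (p := be L σ₁' r' * (be L σ₁' l₁')⁻¹) ?_ hB' (by rw [hj]; exact h1') ?_
      (ex_gs_pos L σ₂) eB
    · rw [hj]
      exact (GI {σ₁'.1}).mul_mem (be_mem L σ₁' r') ((GI {σ₁'.1}).inv_mem (be_mem L σ₁' l₁'))
    · rw [ex_inv]
      exact neg_ne_zero.2 (ex_be_pos hl)
  · by_cases hj2 : σ₂'.1 = σ₁.1
    · -- case 2: the exponent of `w_{σ₁.1}` in `eB`
      have h3 := congrArg (ex σ₁.1) eB
      have hB'0 : ex σ₁.1 B' = 0 := ex_of_mem hB' (by rw [← hj2]; exact h2')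
      rw [ex_mul, ex_mul, ex_mul, ex_mul, ex_mul, ex_inv, ex_inv, ex_inv, ex_of_mem hB h1,
        ex_gs_ne h12.symm, ex_be_ne hj, ex_be_ne hj, hB'0, ex_al, ex_be] at h3
      cases hs : σ₁.2
      · simp only [hs, Bool.false_eq_true, if_false] at h3
        omega
      · simp only [hs, if_true] at h3
        omega
    · -- case 3: the Heisenberg quotient of `eA`
      have h3 := congrArg (hp σ₁.1 σ₁'.1) eA
      simp only [map_mul] at h3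
      have ha := congrArg Heis.a h3
      have hc := congrArg Heis.c h3
      have hjk : σ₁'.1 ≠ σ₁.1 := fun h => hj h.symm
      have i1 : (al L σ₁ l₁)⁻¹ ∈ GI {σ₁.1} := (GI {σ₁.1}).inv_mem (al_mem L σ₁ l₁)
      have i2 : (al L σ₁' l₁')⁻¹ ∈ GI {σ₁'.1} := (GI {σ₁'.1}).inv_mem (al_mem L σ₁' l₁')
      have i3 : (be L σ₁' r')⁻¹ ∈ GI {σ₁'.1} := (GI {σ₁'.1}).inv_mem (be_mem L σ₁' r')
      have c1 : (hp σ₁.1 σ₁'.1 A).c = 0 := hp_c_of_mem hA hj (Or.inl h1)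
      have c2 : (hp σ₁.1 σ₁'.1 (al L σ₁ l₁)⁻¹).c = 0 := hp_c_of_mem i1 hj (Or.inr hjk)
      have c3 : (hp σ₁.1 σ₁'.1 (al L σ₁ r)).c = 0 :=
        hp_c_of_mem (al_mem L σ₁ r) hj (Or.inr hjk)
      have c4 : (hp σ₁.1 σ₁'.1 A').c = 0 := hp_c_of_mem hA' hj (Or.inr h1')
      have c5 : (hp σ₁.1 σ₁'.1 (al L σ₁' l₁')⁻¹).c = 0 := hp_c_of_mem i2 hj (Or.inl hj)
      have c6 : (hp σ₁.1 σ₁'.1 (gs L σ₂')).c = 0 :=
        hp_c_of_mem (gs_mem L σ₂') hj (Or.inr (Ne.symm h12'))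
      have c7 : (hp σ₁.1 σ₁'.1 (be L σ₁' r')⁻¹).c = 0 := hp_c_of_mem i3 hj (Or.inl hj)
      simp only [Heis.mul_a, Heis.mul_c, c1, c2, c3, c4, c5, c6, c7] at ha hc
      simp only [hp_a, hp_b hj] at ha hc
      have a1 : ex σ₁.1 A = 0 := ex_of_mem hA h1
      have a2 : ∀ l, ex σ₁.1 (al L σ₁' l) = 0 := fun l => ex_al_ne hj
      have a3 : ex σ₁.1 (gs L σ₂') = 0 := ex_gs_ne (fun h => hj2 h.symm)
      have a4 : ∀ l, ex σ₁.1 (be L σ₁' l) = 0 := fun l => ex_be_ne hj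
      have b2 : ∀ l, ex σ₁'.1 (al L σ₁ l) = 0 := fun l => ex_al_ne hjk
      have b3 : ex σ₁'.1 (gs L σ₂') = 0 := ex_gs_ne (Ne.symm h12')
      simp only [ex_inv, a1, a2, a3, a4, b2, b3, neg_zero, mul_zero, add_zero, zero_add]
        at ha hc
      -- `ha : -ex (al l₁) + ex (al r) = ex A'`, `hc : 0 = ex A' * f2 + ex A' * f1`
      have hc' : ex σ₁.1 A' * (ex σ₁'.1 (al L σ₁' l₁') + ex σ₁'.1 (be L σ₁' r')) = 0 := by
        linear_combination hc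
      have hlL : (l₁ : ℤ) < L := by exact_mod_cast hl
      rcases mul_eq_zero.1 hc' with h0 | h0
      · rw [← ha, ex_al, ex_al] at h0
        have hne2 : (r : ℤ) ≠ l₁ := by exact_mod_cast hne
        cases hs : σ₁.2
        · simp only [hs, Bool.false_eq_true, if_false] at h0
          omega
        · simp only [hs, if_true] at h0
          omega
      · rw [ex_al, ex_be] at h0
        cases hs : σ₁'.2
        · simp only [hs, Bool.false_eq_true, if_false] at h0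
          omega
        · simp only [hs, if_true] at h0
          omega

end Pool.Agent.H667R3.FF
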