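import Mathlib
import Pool.Agent.H667R3.FF.Defs
import Pool.Agent.H667R3.FF.C6b
import Pool.Agent.H667R3.FF.C6c

/-! Task C6 (table h667b_tasks, shared note 777). -/

namespace Pool.Agent.H667R3.FF

open Pool.Agent.H667R2.FG
open scoped ComplexConjugate

variable {I I' : Set ℕ} {L : ℕ} {A B A' B' : Gm} {σ₁ σ₂ σ₁' σ₂' : Sg} {l₁ l₁' r r' : ℕ}

/-- combine `dec22aa`, `dec22bb`, `dec22ab` -/
theorem dec22 (hA : A ∈ GI I) (hB : B ∈ GI I) (hA' : A' ∈ GI I') (hB' : B' ∈ GI I')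
    (h1 : σ₁.1 ∉ I) (h2 : σ₂.1 ∉ I)
    (h12 : σ₂.1 ≠ σ₁.1) (h1' : σ₁'.1 ∉ I') (h2' : σ₂'.1 ∉ I') (h12' : σ₂'.1 ≠ σ₁'.1)
    (hl : l₁ < L) (hl' : l₁' < L) (hr : r < L) (hr' : r' < L) (hne : r ≠ l₁) (hne' : r' ≠ l₁')
    (eA : A2 L A σ₁ l₁ σ₂ r = A2 L A' σ₁' l₁' σ₂' r')
    (eB : B2 L B σ₁ l₁ σ₂ r = B2 L B' σ₁' l₁' σ₂' r') :
    σ₂ = σ₂' ∧ r = r' ∧ σ₁ = σ₁' ∧ l₁ = l₁' ∧ A = A' ∧ B = B' := by
  unfold A2 at eA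
  unfold B2 at eB
  by_cases hb : bef σ₁ l₁ r <;> by_cases hb' : bef σ₁' l₁' r'
  · rw [if_pos hb, if_pos hb'] at eA eB
    exact dec22aa hA hB hA' hB' h1 h2 h12 h1' h2' h12' hl hl' hr hr' hne hne' eA eB
  · rw [if_pos hb, if_neg hb'] at eA eB
    exact (dec22ab hA hB hA' hB' h1 h2 h12 h1' h2' h12' hl hl' hr hr' hne hne' hb hb' eA eB).elim
  · rw [if_neg hb, if_pos hb'] at eA eB
    exact (dec22ab hA' hB' hA hB h1' h2' h12' h1 h2 h12 hl' hl hr' hr hne' hne hb' hb eA.symm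
      eB.symm).elim
  · rw [if_neg hb, if_neg hb'] at eA eB
    exact dec22bb hA hB hA' hB' h1 h2 h12 h1' h2' h12' hl hl' hr hr' hne hne' eA eB

end Pool.Agent.H667R3.FF
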