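import Mathlib
import Pool.Agent.H667R3.FF.Defs
import Pool.Agent.H667R3.FF.C2

/-! Task C6a (table h667b_tasks, shared note 777). -/

namespace Pool.Agent.H667R3.FF

open Pool.Agent.H667R2.FG
open scoped ComplexConjugate

variable {I I' : Set ℕ} {L : ℕ} {A B A' B' : Gm} {σ₁ σ₂ σ₁' σ₂' : Sg} {l₁ l₁' r r' : ℕ}

theorem c6a_memX (hA : A ∈ GI I) : A * (al L σ₁ l₁)⁻¹ ∈ GI (insert σ₁.1 I) :=
  mul_mem (GI_mono (Set.subset_insert _ _) hA)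
    (inv_mem (GI_mono (Set.singleton_subset_iff.2 (Set.mem_insert _ _)) (al_mem L σ₁ l₁)))

theorem c6a_memY (hB : B ∈ GI I) : (be L σ₁ l₁)⁻¹ * B ∈ GI (insert σ₁.1 I) :=
  mul_mem (inv_mem (GI_mono (Set.singleton_subset_iff.2 (Set.mem_insert _ _)) (be_mem L σ₁ l₁)))
    (GI_mono (Set.subset_insert _ _) hB)

theorem c6a_notin (h2 : σ₂.1 ∉ I) (h12 : σ₂.1 ≠ σ₁.1) : σ₂.1 ∉ insert σ₁.1 I := by
  rw [Set.mem_insert_iff]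
  rintro (h | h)
  · exact h12 h
  · exact h2 h

theorem dec11 (hA : A ∈ GI I) (hA' : A' ∈ GI I') (h1 : σ₁.1 ∉ I) (h2 : σ₂.1 ∉ I)
    (h12 : σ₂.1 ≠ σ₁.1) (h1' : σ₁'.1 ∉ I') (h2' : σ₂'.1 ∉ I') (h12' : σ₂'.1 ≠ σ₁'.1)
    (hl : l₁ < L) (hl' : l₁' < L) (hr : r < L) (hr' : r' < L)
    (eA : A1 L A σ₁ l₁ σ₂ r = A1 L A' σ₁' l₁' σ₂' r')
    (eB : B1 L B σ₁ l₁ σ₂ r = B1 L B' σ₁' l₁' σ₂' r') :
    σ₂ = σ₂' ∧ r = r' ∧ σ₁ = σ₁' ∧ l₁ = l₁' ∧ A = A' ∧ B = B' := by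
  unfold A1 at eA
  unfold B1 at eB
  obtain ⟨rfl, rfl⟩ := decR (c6a_memX hA) (c6a_memX hA') (c6a_notin h2 h12)
    (c6a_notin h2' h12') hr hr' eA
  have e2 : A * (al L σ₁ l₁)⁻¹ = A' * (al L σ₁' l₁')⁻¹ := mul_right_cancel eA
  have e3 : al L σ₁ l₁ * A⁻¹ = al L σ₁' l₁' * A'⁻¹ := by
    have e4 := congrArg (fun x => x⁻¹) e2
    simpa only [mul_inv_rev, inv_inv] using e4
  obtain ⟨rfl, rfl⟩ := decL (inv_mem hA) (inv_mem hA') h1 h1' hl hl' e3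
  exact ⟨rfl, rfl, rfl, rfl, mul_right_cancel e2, mul_left_cancel eB⟩

theorem dec12 (hA : A ∈ GI I) (hB : B ∈ GI I) (hA' : A' ∈ GI I') (hB' : B' ∈ GI I')
    (h1 : σ₁.1 ∉ I) (h2 : σ₂.1 ∉ I)
    (h12 : σ₂.1 ≠ σ₁.1) (h1' : σ₁'.1 ∉ I') (h2' : σ₂'.1 ∉ I') (h12' : σ₂'.1 ≠ σ₁'.1)
    (hl : l₁ < L) (hl' : l₁' < L) (hr : r < L) (hr' : r' < L) (hne' : r' ≠ l₁')
    (eA : A1 L A σ₁ l₁ σ₂ r = A2 L A' σ₁' l₁' σ₂' r')
    (eB : B1 L B σ₁ l₁ σ₂ r = B2 L B' σ₁' l₁' σ₂' r') : False := by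
  have hX := c6a_memX (L := L) (σ₁ := σ₁) (l₁ := l₁) hA
  have hY := c6a_memY (L := L) (σ₁ := σ₁) (l₁ := l₁) hB
  have hn : σ₂.1 ∉ insert σ₁.1 I := c6a_notin h2 h12
  unfold A1 A2 at eA
  unfold B1 B2 at eB
  by_cases hb : bef σ₁' l₁' r'
  · rw [if_pos hb] at eA eB
    by_cases hj : σ₂.1 = σ₁'.1
    · have hp : be L σ₂ r ∈ GI {σ₁'.1} := by
        rw [← hj]; exact be_mem L σ₂ r
      refine heis3 (j := σ₁'.1) (j' := σ₂'.1) h12'.symm (inv_mem (al_mem L σ₁' r'))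
        (gs_mem L σ₂') (inv_mem (be_mem L σ₁' l₁')) hB' h1' h2' hp hY (hj ▸ hn) ?_
        (ex_gs_pos L σ₂') (?_ : (al L σ₁' r')⁻¹ * gs L σ₂' * (be L σ₁' l₁')⁻¹ * B' =
          be L σ₂ r * ((be L σ₁ l₁)⁻¹ * B))
      · rw [ex_inv]
        exact neg_ne_zero.2 (ex_be_pos hl')
      · rw [← eB, mul_assoc]
    · refine heis2 (j := σ₂.1) (j' := σ₁'.1) hj hX hn hA' h1' (al_mem L σ₂ r)
        (mul_mem (inv_mem (al_mem L σ₁' l₁')) (al_mem L σ₁' r')) (ex_al_pos hr) ?_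
        (by rw [eA, mul_assoc])
      rw [ex_mul, ex_inv]
      intro h
      have h3 : ex σ₁'.1 (al L σ₁' r') = ex σ₁'.1 (al L σ₁' l₁') := by linarith
      exact hne' (al_decode hr' hl' rfl h3).2
  · rw [if_neg hb] at eA eB
    by_cases hj : σ₂.1 = σ₁'.1
    · have hp : al L σ₂ r ∈ GI {σ₁'.1} := by
        rw [← hj]; exact al_mem L σ₂ r
      refine heis3' (j := σ₁'.1) (j' := σ₂'.1) h12'.symm (inv_mem (be_mem L σ₁' r'))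
        (gs_mem L σ₂') (inv_mem (al_mem L σ₁' l₁')) hA' h1' h2' hp hX (hj ▸ hn) ?_
        (ex_gs_pos L σ₂') eA.symm
      rw [ex_inv]
      exact neg_ne_zero.2 (ex_al_pos hl')
    · refine heis1 (j := σ₂.1) (j' := σ₁'.1) hj hY hn hB' h1' (be_mem L σ₂ r)
        (mul_mem (be_mem L σ₁' r') (inv_mem (be_mem L σ₁' l₁'))) (ex_be_pos hr) ?_
        (by rw [← mul_assoc, eB])
      rw [ex_mul, ex_inv]
      intro h
      have h3 : ex σ₁'.1 (be L σ₁' r') = ex σ₁'.1 (be L σ₁' l₁') := by linarith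
      exact hne' (be_decode hr' hl' rfl h3).2

end Pool.Agent.H667R3.FF
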