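import Mathlib
import Pool.Agent.H667R3.FF.Defs
import Pool.Agent.H667R3.FF.C2

/-! Task C7 (table h667b_tasks, shared note 777). Replace every `sorry`; keep the statements. -/

namespace Pool.Agent.H667R3.FF

open Pool.Agent.H667R2.FG
open scoped ComplexConjugate

variable {I : Set ℕ} {L : ℕ} {A B : Gm} {σ₁ σ₂ σ : Sg} {l₁ l r : ℕ}

theorem vis1 (hA : A ∈ GI I) (hB : B ∈ GI I) (h1 : σ₁.1 ∉ I) (h2 : σ₂.1 ∉ I)
    (h12 : σ₂.1 ≠ σ₁.1) (hl₁ : l₁ < L) (hr : r < L) (hl : l < L)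
    (hx : al L σ l * (A1 L A σ₁ l₁ σ₂ r)⁻¹ ∈ GI {j | j ≠ σ.1}) : σ = σ₂ ∧ l = r := by
  have hX : A * (al L σ₁ l₁)⁻¹ ∈ GI (I ∪ {σ₁.1}) :=
    mul_mem (GI_mono Set.subset_union_left hA)
      (inv_mem (GI_mono Set.subset_union_right (al_mem L σ₁ l₁)))
  refine decR (A := (al L σ l * (A1 L A σ₁ l₁ σ₂ r)⁻¹)⁻¹) (A' := A * (al L σ₁ l₁)⁻¹)
    (inv_mem hx) hX (by simp) ?_ hl hr ?_
  · rintro (h | h)
    · exact h2 h
    · exact h12 h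
  · unfold A1
    group

theorem vis2 (hA : A ∈ GI I) (hB : B ∈ GI I) (h1 : σ₁.1 ∉ I) (h2 : σ₂.1 ∉ I)
    (h12 : σ₂.1 ≠ σ₁.1) (hl₁ : l₁ < L) (hr : r < L) (hne : r ≠ l₁) (hl : l < L)
    (hx : al L σ l * (A2 L A σ₁ l₁ σ₂ r)⁻¹ ∈ GI {j | j ≠ σ.1})
    (hy : (B2 L B σ₁ l₁ σ₂ r)⁻¹ * be L σ l ∈ GI {j | j ≠ σ.1}) : False := by
  have hZ := inv_mem hx
  have hW := inv_mem hy
  have hσ : σ.1 ∉ {j : ℕ | j ≠ σ.1} := by simp
  by_cases hb : bef σ₁ l₁ r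
  · have eA : (al L σ l * (A2 L A σ₁ l₁ σ₂ r)⁻¹)⁻¹ * al L σ l =
        A * ((al L σ₁ l₁)⁻¹ * al L σ₁ r) := by
      unfold A2
      rw [if_pos hb]
      group
    have eB : (al L σ₁ r)⁻¹ * gs L σ₂ * (be L σ₁ l₁)⁻¹ * B =
        be L σ l * ((B2 L B σ₁ l₁ σ₂ r)⁻¹ * be L σ l)⁻¹ := by
      unfold B2
      rw [if_pos hb]
      group
    have hq : ex σ₁.1 ((al L σ₁ l₁)⁻¹ * al L σ₁ r) ≠ 0 := by
      rw [ex_mul, ex_inv]
      intro h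
      have := al_decode (σ := σ₁) (σ' := σ₁) hr hl₁ rfl (by linarith)
      exact hne this.2
    by_cases hσ1 : σ.1 = σ₁.1
    · refine heis3 (j := σ₁.1) (j' := σ₂.1) h12.symm (inv_mem (al_mem L σ₁ r)) (gs_mem L σ₂)
        (inv_mem (be_mem L σ₁ l₁)) hB h1 h2 (p := be L σ l) ?_ hW ?_ ?_ (ex_gs_pos L σ₂) eB
      · rw [← hσ1]
        exact be_mem L σ l
      · rw [← hσ1]
        exact hσ
      · rw [ex_inv]
        exact neg_ne_zero.2 (ex_be_pos hl₁)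
    · exact heis2 hσ1 hZ hσ hA h1 (al_mem L σ l)
        (mul_mem (inv_mem (al_mem L σ₁ l₁)) (al_mem L σ₁ r)) (ex_al_pos hl) hq eA
  · have eA : A * (al L σ₁ l₁)⁻¹ * gs L σ₂ * (be L σ₁ r)⁻¹ =
        (al L σ l * (A2 L A σ₁ l₁ σ₂ r)⁻¹)⁻¹ * al L σ l := by
      unfold A2
      rw [if_neg hb]
      group
    have eB : be L σ l * ((B2 L B σ₁ l₁ σ₂ r)⁻¹ * be L σ l)⁻¹ =
        (be L σ₁ r * (be L σ₁ l₁)⁻¹) * B := by
      unfold B2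
      rw [if_neg hb]
      group
    have hq : ex σ₁.1 (be L σ₁ r * (be L σ₁ l₁)⁻¹) ≠ 0 := by
      rw [ex_mul, ex_inv]
      intro h
      have := be_decode (σ := σ₁) (σ' := σ₁) hr hl₁ rfl (by linarith)
      exact hne this.2
    by_cases hσ1 : σ.1 = σ₁.1
    · refine heis3' (j := σ₁.1) (j' := σ₂.1) h12.symm (inv_mem (be_mem L σ₁ r)) (gs_mem L σ₂)
        (inv_mem (al_mem L σ₁ l₁)) hA h1 h2 (p := al L σ l) ?_ hZ ?_ ?_ (ex_gs_pos L σ₂) eA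
      · rw [← hσ1]
        exact al_mem L σ l
      · rw [← hσ1]
        exact hσ
      · rw [ex_inv]
        exact neg_ne_zero.2 (ex_al_pos hl₁)
    · exact heis1 hσ1 hW hσ hB h1 (be_mem L σ l)
        (mul_mem (be_mem L σ₁ r) (inv_mem (be_mem L σ₁ l₁))) (ex_be_pos hl) hq eB

end Pool.Agent.H667R3.FF
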