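import Mathlib
import Pool.Agent.H667R3.FF.Defs
import Pool.Agent.H667R3.FF.C6
import Pool.Agent.H667R3.FF.C6a
import Pool.Agent.H667R3.FF.C7

/-! Task C8 (table h667b_tasks, shared note 777). Replace every `sorry`; keep the statements. -/

namespace Pool.Agent.H667R3.FF

open Pool.Agent.H667R2.FG
open scoped ComplexConjugate

namespace C8

theorem mem_SG {J : ℕ} {σ : Sg} : σ ∈ SG J ↔ σ.1 < J := by
  simp [SG]

theorem mem_next {τ : Type} {J L : ℕ} {F : PF τ} {t : τ} {σ₁ : Sg} {l₁ : ℕ} {σ₂ : Sg} {k : Bool}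
    {r : ℕ} (h : ((t, σ₁, l₁), (σ₂, k, r)) ∈ (F.next J L).S) :
    t ∈ F.S ∧ σ₁.1 < J ∧ l₁ < L ∧ σ₂.1 < J ∧ r < L ∧ σ₁.1 ∉ F.I t ∧ cc l₁ = F.i t ∧
      σ₂.1 ∉ F.I t ∧ σ₂.1 ≠ σ₁.1 ∧ (k = false → r ≠ l₁) := by
  unfold PF.next at h
  simp only [Finset.mem_filter, Finset.mem_product, Finset.mem_range, mem_SG,
    Finset.mem_univ, true_and] at h
  obtain ⟨⟨⟨h1, h2, h3⟩, h4, h5⟩, h6, h7, h8, h9, h10⟩ := h
  exact ⟨h1, h2, h3, h4, h5, h6, h7, h8, h9, h10⟩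

section mem
variable {I I' : Set ℕ} {L : ℕ} {A B : Gm} {σ₁ σ₂ : Sg} {l₁ r : ℕ}

theorem al_in (h : σ₁.1 ∈ I') : al L σ₁ l₁ ∈ GI I' :=
  GI_mono (Set.singleton_subset_iff.2 h) (al_mem L σ₁ l₁)

theorem be_in (h : σ₁.1 ∈ I') : be L σ₁ l₁ ∈ GI I' :=
  GI_mono (Set.singleton_subset_iff.2 h) (be_mem L σ₁ l₁)

theorem gs_in (h : σ₁.1 ∈ I') : gs L σ₁ ∈ GI I' :=
  GI_mono (Set.singleton_subset_iff.2 h) (gs_mem L σ₁)

theorem A1_in (hA : A ∈ GI I) (hI : I ⊆ I') (h1 : σ₁.1 ∈ I') (h2 : σ₂.1 ∈ I') :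
    A1 L A σ₁ l₁ σ₂ r ∈ GI I' := by
  unfold A1
  exact mul_mem (mul_mem (GI_mono hI hA) (inv_mem (al_in h1))) (al_in h2)

theorem B1_in (hB : B ∈ GI I) (hI : I ⊆ I') (h1 : σ₁.1 ∈ I') (h2 : σ₂.1 ∈ I') :
    B1 L B σ₁ l₁ σ₂ r ∈ GI I' := by
  unfold B1
  exact mul_mem (mul_mem (be_in h2) (inv_mem (be_in h1))) (GI_mono hI hB)

theorem A2_in (hA : A ∈ GI I) (hI : I ⊆ I') (h1 : σ₁.1 ∈ I') (h2 : σ₂.1 ∈ I') :
    A2 L A σ₁ l₁ σ₂ r ∈ GI I' := by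
  unfold A2
  split_ifs
  · exact mul_mem (mul_mem (GI_mono hI hA) (inv_mem (al_in h1))) (al_in h1)
  · exact mul_mem (mul_mem (mul_mem (GI_mono hI hA) (inv_mem (al_in h1))) (gs_in h2))
      (inv_mem (be_in h1))

theorem B2_in (hB : B ∈ GI I) (hI : I ⊆ I') (h1 : σ₁.1 ∈ I') (h2 : σ₂.1 ∈ I') :
    B2 L B σ₁ l₁ σ₂ r ∈ GI I' := by
  unfold B2
  split_ifs
  · exact mul_mem (mul_mem (mul_mem (inv_mem (al_in h1)) (gs_in h2)) (inv_mem (be_in h1)))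
      (GI_mono hI hB)
  · exact mul_mem (mul_mem (be_in h1) (inv_mem (be_in h1))) (GI_mono hI hB)

end mem

end C8

open C8 in
theorem next_ok {τ : Type} {J L N : ℕ} {F : PF τ} (h : F.Ok J L N) :
    (F.next J L).Ok J L (N + 2) where
  card := by
    rintro ⟨⟨t, σ₁, l₁⟩, ⟨σ₂, k, r⟩⟩ hq
    obtain ⟨ht, -, -, -, -, h6, -, h8, h9, -⟩ := mem_next hq
    show (insert σ₂.1 (insert σ₁.1 (F.I t))).card = N + 2
    rw [Finset.card_insert_of_notMem, Finset.card_insert_of_notMem h6, h.card t ht]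
    rw [Finset.mem_insert, not_or]
    exact ⟨h9, h8⟩
  sub := by
    rintro ⟨⟨t, σ₁, l₁⟩, ⟨σ₂, k, r⟩⟩ hq
    obtain ⟨ht, h2, -, h4, -, -, -, -, -, -⟩ := mem_next hq
    show insert σ₂.1 (insert σ₁.1 (F.I t)) ⊆ Finset.range J
    exact Finset.insert_subset (Finset.mem_range.2 h4)
      (Finset.insert_subset (Finset.mem_range.2 h2) (h.sub t ht))
  memA := by
    rintro ⟨⟨t, σ₁, l₁⟩, ⟨σ₂, k, r⟩⟩ hq
    obtain ⟨ht, -, -, -, -, -, -, -, -, -⟩ := mem_next hq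
    have hI : ((F.I t : Finset ℕ) : Set ℕ) ⊆
        ((insert σ₂.1 (insert σ₁.1 (F.I t)) : Finset ℕ) : Set ℕ) := by
      intro x hx
      simp only [Finset.mem_coe] at hx
      simp [hx]
    have i1 : σ₁.1 ∈ ((insert σ₂.1 (insert σ₁.1 (F.I t)) : Finset ℕ) : Set ℕ) := by simp
    have i2 : σ₂.1 ∈ ((insert σ₂.1 (insert σ₁.1 (F.I t)) : Finset ℕ) : Set ℕ) := by simp
    cases k
    · exact A2_in (h.memA t ht) hI i1 i2
    · exact A1_in (h.memA t ht) hI i1 i2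
  memB := by
    rintro ⟨⟨t, σ₁, l₁⟩, ⟨σ₂, k, r⟩⟩ hq
    obtain ⟨ht, -, -, -, -, -, -, -, -, -⟩ := mem_next hq
    have hI : ((F.I t : Finset ℕ) : Set ℕ) ⊆
        ((insert σ₂.1 (insert σ₁.1 (F.I t)) : Finset ℕ) : Set ℕ) := by
      intro x hx
      simp only [Finset.mem_coe] at hx
      simp [hx]
    have i1 : σ₁.1 ∈ ((insert σ₂.1 (insert σ₁.1 (F.I t)) : Finset ℕ) : Set ℕ) := by simp
    have i2 : σ₂.1 ∈ ((insert σ₂.1 (insert σ₁.1 (F.I t)) : Finset ℕ) : Set ℕ) := by simp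
    cases k
    · exact B2_in (h.memB t ht) hI i1 i2
    · exact B1_in (h.memB t ht) hI i1 i2
  inj := by
    rintro ⟨⟨t, σ₁, l₁⟩, ⟨σ₂, k, r⟩⟩ hq ⟨⟨t', σ₁', l₁'⟩, ⟨σ₂', k', r'⟩⟩ hq' _ eA eB
    obtain ⟨ht, -, hl, -, hr, h6, h7, h8, h9, h10⟩ := mem_next hq
    obtain ⟨ht', -, hl', -, hr', h6', h7', h8', h9', h10'⟩ := mem_next hq'
    have hn1 : σ₁.1 ∉ ((F.I t : Finset ℕ) : Set ℕ) := by simpa using h6
    have hn2 : σ₂.1 ∉ ((F.I t : Finset ℕ) : Set ℕ) := by simpa using h8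
    have hn1' : σ₁'.1 ∉ ((F.I t' : Finset ℕ) : Set ℕ) := by simpa using h6'
    have hn2' : σ₂'.1 ∉ ((F.I t' : Finset ℕ) : Set ℕ) := by simpa using h8'
    have fin : σ₂ = σ₂' ∧ r = r' ∧ σ₁ = σ₁' ∧ l₁ = l₁' ∧ F.A t = F.A t' ∧ F.B t = F.B t' →
        k = k' →
        (((t, σ₁, l₁), (σ₂, k, r)) : NT τ) = ((t', σ₁', l₁'), (σ₂', k', r')) := by
      rintro ⟨e1, e2, e3, e4, e5, e6⟩ ek
      have hi : F.i t = F.i t' := by rw [← h7, ← h7', e4]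
      have htt := h.inj t ht t' ht' hi e5 e6
      rw [e1, e2, e3, e4, htt, ek]
    cases k <;> cases k'
    · exact fin (dec22 (h.memA t ht) (h.memB t ht) (h.memA t' ht') (h.memB t' ht') hn1 hn2 h9
        hn1' hn2' h9' hl hl' hr hr' (h10 rfl) (h10' rfl) eA eB) rfl
    · exact (dec12 (h.memA t' ht') (h.memB t' ht') (h.memA t ht) (h.memB t ht) hn1' hn2' h9'
        hn1 hn2 h9 hl' hl hr' hr (h10 rfl) eA.symm eB.symm).elim
    · exact (dec12 (h.memA t ht) (h.memB t ht) (h.memA t' ht') (h.memB t' ht') hn1 hn2 h9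
        hn1' hn2' h9' hl hl' hr hr' (h10' rfl) eA eB).elim
    · exact fin (dec11 (h.memA t ht) (h.memA t' ht') hn1 hn2 h9
        hn1' hn2' h9' hl hl' hr hr' eA eB) rfl
  mainI := by
    rintro ⟨⟨t, σ₁, l₁⟩, ⟨σ₂, k, r⟩⟩ hq p hp
    obtain ⟨ht, -, hl, -, hr, -, -, -, -, -⟩ := mem_next hq
    cases k
    · exact absurd hp (by simp [PF.next])
    · have e : p = (σ₂, r) := by
        have : some (σ₂, r) = some p := hp
        exact (Option.some.inj this).symm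
      subst e
      refine ⟨?_, hr, rfl⟩
      show σ₂.1 ∈ insert σ₂.1 (insert σ₁.1 (F.I t))
      exact Finset.mem_insert_self _ _
  vis := by
    rintro ⟨⟨t, σ₁, l₁⟩, ⟨σ₂, k, r⟩⟩ hq σ l _ hlL _ hx hy
    obtain ⟨ht, -, hl, -, hr, h6, h7, h8, h9, h10⟩ := mem_next hq
    have hn1 : σ₁.1 ∉ ((F.I t : Finset ℕ) : Set ℕ) := by simpa using h6
    have hn2 : σ₂.1 ∉ ((F.I t : Finset ℕ) : Set ℕ) := by simpa using h8
    cases k
    · exact (vis2 (h.memA t ht) (h.memB t ht) hn1 hn2 h9 hl hr (h10 rfl) hlL hx hy).elim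
    · obtain ⟨e1, e2⟩ := vis1 (h.memA t ht) (h.memB t ht) hn1 hn2 h9 hl hr hlL hx
      rw [e1, e2]
      rfl

open C8 in
theorem base_ok (J L : ℕ) : (PF.base J L).Ok J L 1 where
  card := fun q _ => Finset.card_singleton _
  sub := by
    rintro ⟨σ, l⟩ hq
    have h1 : σ ∈ SG J ∧ l ∈ Finset.range L := by simpa [PF.base] using hq
    show ({σ.1} : Finset ℕ) ⊆ Finset.range J
    rw [Finset.singleton_subset_iff, Finset.mem_range]
    exact mem_SG.1 h1.1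
  memA := by
    rintro ⟨σ, l⟩ _
    exact al_in (by simp [PF.base])
  memB := by
    rintro ⟨σ, l⟩ _
    exact be_in (by simp [PF.base])
  inj := by
    rintro ⟨σ, l⟩ hq ⟨σ', l'⟩ hq' _ eA _
    have h1 : σ ∈ SG J ∧ l ∈ Finset.range L := by simpa [PF.base] using hq
    have h1' : σ' ∈ SG J ∧ l' ∈ Finset.range L := by simpa [PF.base] using hq'
    have hl : l < L := Finset.mem_range.1 h1.2
    have hl' : l' < L := Finset.mem_range.1 h1'.2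
    have e : al L σ l = al L σ' l' := eA
    by_cases hσ : σ.1 = σ'.1
    · obtain ⟨e1, e2⟩ := al_decode hl hl' hσ (by rw [e])
      rw [e1, e2]
    · exfalso
      apply ex_al_pos (σ := σ) hl
      rw [e]
      exact ex_al_ne hσ
  mainI := by
    rintro ⟨σ, l⟩ hq p hp
    have h1 : σ ∈ SG J ∧ l ∈ Finset.range L := by simpa [PF.base] using hq
    have e : p = (σ, l) := by
      have : some (σ, l) = some p := hp
      exact (Option.some.inj this).symm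
    subst e
    exact ⟨Finset.mem_singleton_self _, Finset.mem_range.1 h1.2, rfl⟩
  vis := by
    rintro ⟨σ', l'⟩ hq σ l hσ hl _ hx _
    have h1 : σ' ∈ SG J ∧ l' ∈ Finset.range L := by simpa [PF.base] using hq
    have hl' : l' < L := Finset.mem_range.1 h1.2
    have hs : σ.1 = σ'.1 := Finset.mem_singleton.1 hσ
    have hx' : al L σ l * (al L σ' l')⁻¹ ∈ GI {j | j ≠ σ.1} := hx
    have h2 := ex_of_mem hx' (j := σ.1) (by simp)
    rw [ex_mul, ex_inv] at h2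
    obtain ⟨e1, e2⟩ := al_decode (σ := σ) (σ' := σ') hl hl' hs (by linarith)
    rw [e1, e2]
    rfl

end Pool.Agent.H667R3.FF
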