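import Mathlib
import Pool.Agent.H667R3.FF.Defs

/-! Task C9a (table h667b_tasks, shared note 777). -/

namespace Pool.Agent.H667R3.FF

open Pool.Agent.H667R2.FG
open scoped ComplexConjugate

theorem c9a_card (k : ℕ) (i : Fin 4) : (pos (4 * k) i).card = k := by
  unfold pos
  rw [Finset.card_filter]
  induction k with
  | zero => simp
  | succ k ih =>
    rw [mul_add, mul_one, Finset.sum_range_succ, Finset.sum_range_succ, Finset.sum_range_succ,
      Finset.sum_range_succ, ih]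
    have h0 : cc (4 * k) = 0 := by
      ext; simp [cc]
    have h1 : cc (4 * k + 1) = 1 := by
      ext; simp [cc]
    have h2 : cc (4 * k + 2) = 2 := by
      ext; simp [cc]
    have h3 : cc (4 * k + 3) = 3 := by
      ext; simp [cc]
    rw [h0, h1, h2, h3]
    fin_cases i <;> simp

theorem card_pos {L : ℕ} (h4 : 4 ∣ L) (i : Fin 4) : ((pos L i).card : ℝ) = L / 4 := by
  obtain ⟨k, rfl⟩ := h4
  rw [c9a_card]
  push_cast
  ring

theorem c9a_SG (J : ℕ) : ((SG J).card : ℝ) = 2 * J := by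
  unfold SG
  rw [Finset.card_product, Finset.card_range, Finset.card_univ, Fintype.card_bool]
  push_cast
  ring

theorem c9a_sg (σ : Sg) : sg σ ^ 2 = 1 := by
  unfold sg
  split_ifs <;> norm_num

theorem n2_base {J L : ℕ} (hJ : 0 < J) (hL : 0 < L) : (PF.base J L).n2 = 1 / L := by
  have hJ' : (0 : ℝ) < J := by exact_mod_cast hJ
  have hL' : (0 : ℝ) < L := by exact_mod_cast hL
  unfold PF.n2 PF.base
  have h1 : ∀ q ∈ SG J ×ˢ Finset.range L, (sg q.1 / (Real.sqrt (2 * J) * L)) ^ 2 =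
      1 / (2 * J * (L : ℝ) ^ 2) := by
    intro q _
    rw [div_pow, c9a_sg, mul_pow, Real.sq_sqrt (by positivity)]
  rw [Finset.sum_congr rfl h1, Finset.sum_const, Finset.card_product, Finset.card_range,
    nsmul_eq_mul, Nat.cast_mul, c9a_SG]
  field_simp

/-- the bound of the coefficients of the next family -/
noncomputable def c9aG {τ : Type} (J L : ℕ) (F : PF τ) (q : NT τ) : ℝ :=
  if cc q.1.2.2 = F.i q.1.1 then
    (if q.2.2.1 then F.c q.1.1 ^ 2 / (2 * J * L) ^ 2 else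
      if q.2.2.2 = q.1.2.2 then 0 else F.c q.1.1 ^ 2 / (2 * J * (L - 1)) ^ 2) else 0

theorem c9a_le {τ : Type} (J L : ℕ) (F : PF τ) :
    (F.next J L).n2 ≤ ∑ q ∈ (F.S ×ˢ SG J ×ˢ Finset.range L) ×ˢ
      (SG J ×ˢ (Finset.univ : Finset Bool) ×ˢ Finset.range L), c9aG J L F q := by
  classical
  have hG : ∀ q, 0 ≤ c9aG J L F q := by
    intro q
    unfold c9aG
    split_ifs <;> positivity
  unfold PF.n2 PF.next
  refine (Finset.sum_le_sum ?_).trans (Finset.sum_le_sum_of_subset_of_nonneg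
    (Finset.filter_subset _ _) fun q _ _ => hG q)
  intro q hq
  obtain ⟨_, _, h1, _, _, h2⟩ := Finset.mem_filter.1 hq
  unfold c9aG
  rw [if_pos h1]
  rcases Bool.eq_false_or_eq_true q.2.2.1 with hb | hb
  swap
  · have hb' : ¬ (q.2.2.1 = true) := by rw [hb]; simp
    simp only [if_neg hb', if_neg (h2 hb)]
    rw [neg_sq, div_pow]
  · simp only [if_pos hb]
    rw [neg_sq, div_pow, mul_pow, mul_pow, c9a_sg, c9a_sg, mul_one, mul_one]

theorem n2_next {τ : Type} {J L N : ℕ} {F : PF τ} (h : F.Ok J L N) (h4 : 4 ∣ L) (hL : 4 ≤ L)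
    (hJ : 0 < J) : (F.next J L).n2 ≤ 3 / 4 * F.n2 := by
  classical
  have _ := h
  have hJ' : (0 : ℝ) < J := by exact_mod_cast hJ
  have hL' : (4 : ℝ) ≤ L := by exact_mod_cast hL
  refine (c9a_le J L F).trans ?_
  rw [Finset.sum_product, Finset.sum_product, PF.n2, Finset.mul_sum]
  apply Finset.sum_le_sum
  intro t _
  rw [Finset.sum_product]
  have h1 : ∀ σ₁ : Sg, ∀ l₁ ∈ Finset.range L, (∑ q ∈ SG J ×ˢ (Finset.univ : Finset Bool) ×ˢ
      Finset.range L, c9aG J L F ((t, σ₁, l₁), q)) = if cc l₁ = F.i t then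
        2 * J * (L * (F.c t ^ 2 / (2 * J * L) ^ 2) + (L - 1) * (F.c t ^ 2 / (2 * J * (L - 1)) ^ 2))
        else 0 := by
    intro σ₁ l₁ hl₁
    rw [Finset.sum_product]
    have h2 : ∀ σ₂ ∈ SG J, (∑ q ∈ (Finset.univ : Finset Bool) ×ˢ Finset.range L,
        c9aG J L F ((t, σ₁, l₁), (σ₂, q))) = if cc l₁ = F.i t then
          (L * (F.c t ^ 2 / (2 * J * L) ^ 2) + (L - 1) * (F.c t ^ 2 / (2 * J * (L - 1)) ^ 2))
          else 0 := by
      intro σ₂ _
      rw [Finset.sum_product, Fintype.sum_bool]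
      unfold c9aG
      simp only [if_true, Bool.false_eq_true, if_false]
      split_ifs with hc
      · rw [Finset.sum_const, Finset.card_range, nsmul_eq_mul]
        congr 1
        have h3 : ∀ r ∈ Finset.range L, (if r = l₁ then (0 : ℝ) else
            F.c t ^ 2 / (2 * J * (L - 1)) ^ 2) = F.c t ^ 2 / (2 * J * (L - 1)) ^ 2 -
              if r = l₁ then F.c t ^ 2 / (2 * J * (L - 1)) ^ 2 else 0 := by
          intro r _
          split_ifs <;> ring
        rw [Finset.sum_congr rfl h3, Finset.sum_sub_distrib, Finset.sum_const, Finset.card_range,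
          nsmul_eq_mul, Finset.sum_ite_eq' , if_pos hl₁]
        ring
      · simp
    rw [Finset.sum_congr rfl h2, Finset.sum_const, nsmul_eq_mul, c9a_SG]
    split_ifs <;> ring
  have h5 : ∀ σ₁ ∈ SG J, (∑ l₁ ∈ Finset.range L, ∑ q ∈ SG J ×ˢ (Finset.univ : Finset Bool) ×ˢ
      Finset.range L, c9aG J L F ((t, σ₁, l₁), q)) = (L / 4) *
        (2 * J * (L * (F.c t ^ 2 / (2 * J * L) ^ 2) + (L - 1) * (F.c t ^ 2 / (2 * J * (L - 1)) ^ 2))) := by
    intro σ₁ _
    rw [Finset.sum_congr rfl (h1 σ₁), ← Finset.sum_filter, Finset.sum_const, nsmul_eq_mul]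
    congr 1
    exact card_pos h4 (F.i t)
  rw [Finset.sum_congr rfl h5, Finset.sum_const, nsmul_eq_mul, c9a_SG]
  have hL1 : (0 : ℝ) < L - 1 := by linarith
  have h6 : 2 * (J : ℝ) * (L / 4 * (2 * J * (L * (F.c t ^ 2 / (2 * J * L) ^ 2) +
      (L - 1) * (F.c t ^ 2 / (2 * J * (L - 1)) ^ 2)))) =
      (1 / 4 + L / (4 * (L - 1))) * F.c t ^ 2 := by
    field_simp
  rw [h6]
  have h7 : (L : ℝ) / (4 * (L - 1)) ≤ 1 / 2 := by
    rw [div_le_div_iff₀ (by positivity) (by norm_num)]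
    linarith
  have h8 : 0 ≤ F.c t ^ 2 := sq_nonneg _
  nlinarith

end Pool.Agent.H667R3.FF
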