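import Mathlib
import Pool.Agent.H667R3.FF.Defs
import Pool.Agent.H667R3.FF.C2
import Pool.Agent.H667R3.FF.C14
import Pool.Agent.H667R3.FF.C9a

/-! Task C9b (table h667b_tasks, shared note 777). -/

namespace Pool.Agent.H667R3.FF

open Pool.Agent.H667R2.FG
open scoped ComplexConjugate

theorem nrm2_fld {τ : Type} {J L N : ℕ} {F : PF τ} (h : F.Ok J L N) :
    ∑ i, nrm2 (F.fld i) = F.n2 := by
  have h1 : ∀ i, nrm2 (F.fld i) = ∑ t ∈ F.S with F.i t = i, F.c t ^ 2 := by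
    intro i
    unfold PF.fld
    rw [← Finset.sum_filter]
    refine nrm2_sum_single_inj _ _ _ ?_
    intro t ht t' ht' hout
    rw [Finset.mem_filter] at ht ht'
    rw [Prod.mk.injEq] at hout
    exact h.inj t ht.1 t' ht'.1 (ht.2.trans ht'.2.symm) hout.1 hout.2
  rw [Finset.sum_congr rfl fun i _ => h1 i]
  unfold PF.n2
  exact Finset.sum_fiberwise F.S F.i (fun t => F.c t ^ 2)

theorem C9b_card_fresh (J : ℕ) (I : Finset ℕ) : ((fresh J I).card : ℝ) ≤ 2 * J := by
  unfold fresh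
  rw [Finset.card_product]
  have h1 : (Finset.range J \ I).card ≤ J := by
    calc _ ≤ (Finset.range J).card := Finset.card_le_card Finset.sdiff_subset
      _ = J := Finset.card_range J
  have h2 : (Finset.univ : Finset Bool).card = 2 := rfl
  rw [h2]
  push_cast
  have : ((Finset.range J \ I).card : ℝ) ≤ J := by exact_mod_cast h1
  linarith

theorem nrm2_Yv {τ : Type} {J L N : ℕ} {F : PF τ} (h : F.Ok J L N) (h4 : 4 ∣ L)
    (hJ : 0 < J) : nrm2 (F.Yv J L) ≤ L / 4 * F.n2 := by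
  have hJ' : (0 : ℝ) < J := by exact_mod_cast hJ
  have e1 : F.Yv J L = ∑ k ∈ F.S.sigma (fun t => fresh J (F.I t) ×ˢ pos L (F.i t)),
      Finsupp.single (al L k.2.1 k.2.2 * (F.A k.1)⁻¹, (F.B k.1)⁻¹ * be L k.2.1 k.2.2)
        ((Real.sqrt (2 * J))⁻¹ * sg k.2.1 * F.c k.1) := by
    unfold PF.Yv
    rw [Finset.sum_sigma]
    refine Finset.sum_congr rfl fun t _ => ?_
    rw [Finset.sum_product]
  rw [e1, nrm2_sum_single_inj]
  · rw [Finset.sum_sigma]
    unfold PF.n2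
    rw [Finset.mul_sum]
    refine Finset.sum_le_sum fun t _ => ?_
    have e2 : ∀ k ∈ fresh J (F.I t) ×ˢ pos L (F.i t),
        ((Real.sqrt (2 * J))⁻¹ * sg k.1 * F.c t) ^ 2 = (2 * (J : ℝ))⁻¹ * F.c t ^ 2 := by
      intro k _
      rw [mul_pow, mul_pow, inv_pow, Real.sq_sqrt (by positivity)]
      have : sg k.1 ^ 2 = 1 := by
        unfold sg
        split_ifs <;> norm_num
      rw [this, mul_one]
    rw [Finset.sum_congr rfl e2, Finset.sum_const, nsmul_eq_mul, Finset.card_product]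
    push_cast
    rw [card_pos h4]
    have e3 := C9b_card_fresh J (F.I t)
    have e4 : 0 ≤ (L : ℝ) / 4 * ((2 * (J : ℝ))⁻¹ * F.c t ^ 2) := by positivity
    calc ((fresh J (F.I t)).card : ℝ) * (L / 4) * ((2 * (J : ℝ))⁻¹ * F.c t ^ 2)
        = ((fresh J (F.I t)).card : ℝ) * (L / 4 * ((2 * (J : ℝ))⁻¹ * F.c t ^ 2)) := by ring
      _ ≤ 2 * J * (L / 4 * ((2 * (J : ℝ))⁻¹ * F.c t ^ 2)) :=
          mul_le_mul_of_nonneg_right e3 e4
      _ = L / 4 * F.c t ^ 2 := by field_simp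
  · rintro ⟨t, σ, l⟩ hk ⟨t', σ', l'⟩ hk' hout
    simp only [Finset.mem_sigma, Finset.mem_product, fresh, pos, Finset.mem_sdiff,
      Finset.mem_range, Finset.mem_univ, and_true, Finset.mem_filter] at hk hk'
    obtain ⟨ht, ⟨-, hσ⟩, hl, hcl⟩ := hk
    obtain ⟨ht', ⟨-, hσ'⟩, hl', hcl'⟩ := hk'
    simp only [Prod.mk.injEq] at hout
    obtain ⟨hA, hB⟩ := hout
    have hd := decL (inv_mem (h.memA t ht)) (inv_mem (h.memA t' ht'))
      (by simpa using hσ) (by simpa using hσ') hl hl' hA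
    obtain ⟨rfl, rfl⟩ := hd
    have hA' : F.A t = F.A t' := inv_injective (mul_left_cancel hA)
    have hB' : F.B t = F.B t' := inv_injective (mul_right_cancel hB)
    have := h.inj t ht t' ht' (hcl.symm.trans hcl') hA' hB'
    subst this
    rfl

end Pool.Agent.H667R3.FF
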