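import Mathlib
import Pool.Agent.H667R3.FF.Defs
import Pool.Agent.H667R3.FF.C8
import Pool.Agent.H667R3.FF.C9a
import Pool.Agent.H667R3.FF.C9b
import Pool.Agent.H667R3.FF.C10
import Pool.Agent.H667R3.FF.C11
import Pool.Agent.H667R3.FF.C12
import Pool.Agent.H667R3.FF.C13
import Pool.Agent.H667R3.FF.C14

/-! Task C15 (table h667b_tasks, shared note 777). Replace every `sorry`; keep the statements. -/

namespace Pool.Agent.H667R3.FF

open Pool.Agent.H667R2.FG
open scoped ComplexConjugate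

theorem C15_TJ_add (J L : ℕ) (η ζ : Fin 4 → (Gm × Gm →₀ ℝ)) :
    TJ J L (η + ζ) = TJ J L η + TJ J L ζ := by
  rw [← opT_eq, ← opT_eq, ← opT_eq, opT_add]

theorem C15_sqrt_rest {J L N : ℕ} {x y : ℝ} (hJ : 0 < J) (hy1 : y ≤ 1)
    (hx : x ≤ (2 * N * L) ^ 2 / (2 * J) * y) :
    Real.sqrt x ≤ (2 * N * L) / Real.sqrt J := by
  have hJ' : (0 : ℝ) < J := by exact_mod_cast hJ
  have h1 : (2 * (N : ℝ) * L) ^ 2 / (2 * J) * y ≤ (2 * (N : ℝ) * L) ^ 2 / J := by
    have h2 : (2 * (N : ℝ) * L) ^ 2 / (2 * J) * y ≤ (2 * (N : ℝ) * L) ^ 2 / (2 * J) * 1 := by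
      apply mul_le_mul_of_nonneg_left hy1
      positivity
    have h3 : (2 * (N : ℝ) * L) ^ 2 / (2 * J) * 1 ≤ (2 * (N : ℝ) * L) ^ 2 / J := by
      rw [mul_one]
      apply div_le_div_of_nonneg_left (by positivity) hJ'
      linarith
    linarith
  have h4 : x ≤ ((2 * (N : ℝ) * L) / Real.sqrt J) ^ 2 := by
    rw [div_pow, Real.sq_sqrt hJ'.le]
    linarith
  calc Real.sqrt x ≤ Real.sqrt (((2 * (N : ℝ) * L) / Real.sqrt J) ^ 2) := Real.sqrt_le_sqrt h4
    _ = (2 * (N : ℝ) * L) / Real.sqrt J := Real.sqrt_sq (by positivity)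

theorem C15_ind (L : ℕ) (h4 : 4 ∣ L) (hL : 4 ≤ L) (n : ℕ) :
    ∃ K : ℝ, 0 ≤ K ∧ ∀ J : ℕ, 2 * n + 2 ≤ J →
      ∃ (τ : Type) (F : PF τ) (η : Fin 4 → (Gm × Gm →₀ ℝ)), F.Ok J L (2 * n + 1) ∧
        (∀ v, divE (Sum.inr : Fin 4 → ℕ ⊕ Fin 4) η v = PJ J L v) ∧
        Real.sqrt (nrm2 (TJ J L η - Finsupp.single (1, 1) 1 - F.Yv J L)) ≤ K / Real.sqrt J ∧
        F.n2 ≤ (3 / 4) ^ n / L ∧
        Real.sqrt (∑ i, nrm2 (η i)) ≤ (8 - 8 * (7 / 8) ^ (n + 1)) / Real.sqrt L := by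
  have hLpos : 0 < L := by omega
  have hL' : (0 : ℝ) < L := by exact_mod_cast hLpos
  have hL1 : (1 : ℝ) ≤ L := by exact_mod_cast hLpos
  induction n with
  | zero =>
    refine ⟨2 * L, by positivity, ?_⟩
    intro J hJ
    have hJpos : 0 < J := by omega
    have hok := base_ok J L
    have hn2 := n2_base (J := J) (L := L) hJpos hLpos
    have hn2le : (PF.base J L).n2 ≤ 1 := by
      rw [hn2, div_le_one hL']
      exact hL1
    refine ⟨_, PF.base J L, (PF.base J L).fld, hok, div_base hJpos hLpos, ?_, ?_, ?_⟩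
    · have h1 := nrm2_rest hok hJpos
      rw [Mv_base hJpos hLpos] at h1
      have h2 := C15_sqrt_rest hJpos hn2le h1
      have h3 : (2 * ((1 : ℕ) : ℝ) * L) = 2 * L := by push_cast; ring
      rw [h3] at h2
      exact h2
    · rw [hn2]; simp
    · rw [nrm2_fld hok, hn2]
      have e : (8 - 8 * (7 / 8 : ℝ) ^ (0 + 1)) = 1 := by norm_num
      rw [e, one_div, one_div, Real.sqrt_inv]
  | succ n ih =>
    obtain ⟨K, hK, hstep⟩ := ih
    refine ⟨K + 2 * ((2 * n + 3 : ℕ) : ℝ) * L + (2 * n + 2), by positivity, ?_⟩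
    intro J hJ
    have hJpos : 0 < J := by omega
    have hJ' : (0 : ℝ) < J := by exact_mod_cast hJpos
    have hJ1 : (1 : ℝ) ≤ J := by exact_mod_cast hJpos
    obtain ⟨τ, F, η, hok, hdiv, herr, hn2, hsm⟩ := hstep J (by omega)
    have hok' := next_ok hok
    have hn2' : (F.next J L).n2 ≤ (3 / 4) ^ (n + 1) / L := by
      have h1 := n2_next hok h4 hL hJpos
      calc (F.next J L).n2 ≤ 3 / 4 * F.n2 := h1
        _ ≤ 3 / 4 * ((3 / 4) ^ n / L) := by linarith
        _ = (3 / 4) ^ (n + 1) / L := by rw [pow_succ]; ring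
    have hpow1 : ((3 : ℝ) / 4) ^ (n + 1) ≤ 1 := pow_le_one₀ (by norm_num) (by norm_num)
    have hpow0 : ((3 : ℝ) / 4) ^ n ≤ 1 := pow_le_one₀ (by norm_num) (by norm_num)
    have hn2le : (F.next J L).n2 ≤ 1 := by
      refine hn2'.trans ?_
      rw [div_le_one hL']
      linarith
    refine ⟨_, F.next J L, η + (F.next J L).fld, hok', ?_, ?_, hn2', ?_⟩
    · intro v
      rw [divE_add, hdiv, div_next hok hJpos (by omega), add_zero]
    · have hM := Mv_next (J := J) (L := L) hok (by omega) hLpos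
      have hdec : TJ J L (η + (F.next J L).fld) - Finsupp.single (1, 1) 1 - (F.next J L).Yv J L
          = (TJ J L η - Finsupp.single (1, 1) 1 - F.Yv J L) +
            ((TJ J L (F.next J L).fld - (F.next J L).Mv J L - (F.next J L).Yv J L) +
              (((2 * n + 2 : ℝ)) / J) • F.Yv J L) := by
        rw [C15_TJ_add, hM]
        have e1 : (((2 * n + 2 : ℝ)) / J) • F.Yv J L =
            F.Yv J L + (-(((J : ℝ) - ((2 * n + 1 : ℕ) : ℝ) - 1) / J)) • F.Yv J L := by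
          have e2 : ((2 * n + 2 : ℝ)) / J = 1 + (-(((J : ℝ) - ((2 * n + 1 : ℕ) : ℝ) - 1) / J)) := by
            field_simp
            push_cast
            ring
          rw [e2, add_smul, one_smul]
        rw [e1]
        abel
      rw [hdec]
      have h1 := sqrt_nrm2_add (TJ J L η - Finsupp.single (1, 1) 1 - F.Yv J L)
        ((TJ J L (F.next J L).fld - (F.next J L).Mv J L - (F.next J L).Yv J L) +
              (((2 * n + 2 : ℝ)) / J) • F.Yv J L)
      have h2 := sqrt_nrm2_add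
        (TJ J L (F.next J L).fld - (F.next J L).Mv J L - (F.next J L).Yv J L)
        ((((2 * n + 2 : ℝ)) / J) • F.Yv J L)
      have h3 := C15_sqrt_rest hJpos hn2le (nrm2_rest hok' hJpos)
      have h4' : Real.sqrt (nrm2 ((((2 * n + 2 : ℝ)) / J) • F.Yv J L)) ≤
          (2 * n + 2) / Real.sqrt J := by
        rw [nrm2_smul]
        have h5 : nrm2 (F.Yv J L) ≤ 1 := by
          have h6 := nrm2_Yv hok h4 hJpos
          have h7 : (L : ℝ) / 4 * F.n2 ≤ L / 4 * ((3 / 4) ^ n / L) := by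
            apply mul_le_mul_of_nonneg_left hn2
            positivity
          have h8 : (L : ℝ) / 4 * ((3 / 4) ^ n / L) = (3 / 4) ^ n / 4 := by
            field_simp
          linarith
        have h6 : (((2 * n + 2 : ℝ)) / J) ^ 2 * nrm2 (F.Yv J L) ≤ (((2 * n + 2 : ℝ)) / J) ^ 2 := by
          have := mul_le_mul_of_nonneg_left h5 (sq_nonneg (((2 * n + 2 : ℝ)) / J))
          linarith
        calc Real.sqrt ((((2 * n + 2 : ℝ)) / J) ^ 2 * nrm2 (F.Yv J L))
            ≤ Real.sqrt ((((2 * n + 2 : ℝ)) / J) ^ 2) := Real.sqrt_le_sqrt h6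
          _ = (2 * n + 2) / J := Real.sqrt_sq (by positivity)
          _ ≤ (2 * n + 2) / Real.sqrt J := by
            apply div_le_div_of_nonneg_left (by positivity) (Real.sqrt_pos.2 hJ')
            rw [Real.sqrt_le_left (by positivity)]
            nlinarith
      have h5 : (K + 2 * ((2 * n + 3 : ℕ) : ℝ) * L + (2 * n + 2)) / Real.sqrt J =
          K / Real.sqrt J + ((2 * ((2 * n + 1 + 2 : ℕ) : ℝ) * L) / Real.sqrt J +
            (2 * n + 2) / Real.sqrt J) := by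
        push_cast
        ring
      rw [h5]
      linarith
    · have h1 := sqrt_sum_nrm2_add η (F.next J L).fld
      have h2 : Real.sqrt (∑ i, nrm2 ((F.next J L).fld i)) ≤ (7 / 8) ^ (n + 1) / Real.sqrt L := by
        rw [nrm2_fld hok']
        have h3 : (F.next J L).n2 ≤ ((7 / 8) ^ (n + 1) / Real.sqrt L) ^ 2 := by
          rw [div_pow, Real.sq_sqrt hL'.le]
          refine hn2'.trans ?_
          apply div_le_div_of_nonneg_right _ hL'.le
          rw [← pow_mul, mul_comm (n + 1) 2, pow_mul]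
          apply pow_le_pow_left₀ (by norm_num)
          norm_num
        calc Real.sqrt ((F.next J L).n2) ≤ Real.sqrt (((7 / 8) ^ (n + 1) / Real.sqrt L) ^ 2) :=
              Real.sqrt_le_sqrt h3
          _ = (7 / 8) ^ (n + 1) / Real.sqrt L := Real.sqrt_sq (by positivity)
      have h3 : (8 - 8 * (7 / 8 : ℝ) ^ (n + 1 + 1)) / Real.sqrt L =
          (8 - 8 * (7 / 8) ^ (n + 1)) / Real.sqrt L + (7 / 8) ^ (n + 1) / Real.sqrt L := by
        rw [pow_succ _ (n + 1)]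
        ring
      rw [h3]
      linarith

theorem sol_Gm (ε : ℝ) (hε : 0 < ε) : ∃ (P : Gm →₀ ℝ) (η : Fin 4 → (Gm × Gm →₀ ℝ)),
    Sol (Sum.inr : Fin 4 → ℕ ⊕ Fin 4) ε P η := by
  obtain ⟨p, hp⟩ := exists_nat_ge (16 / ε)
  have hp1 : 16 / ε ≤ ((p + 1 : ℕ) : ℝ) := by push_cast; linarith
  set L : ℕ := 4 * (p + 1) with hLdef
  have h4 : 4 ∣ L := ⟨p + 1, rfl⟩
  have hL : 4 ≤ L := by omega
  have hLpos : 0 < L := by omega
  have hL' : (0 : ℝ) < L := by exact_mod_cast hLpos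
  have hLε : 64 / (L : ℝ) ≤ ε := by
    rw [div_le_iff₀ hL']
    rw [div_le_iff₀ hε] at hp1
    have : (L : ℝ) = 4 * ((p + 1 : ℕ) : ℝ) := by rw [hLdef]; push_cast; ring
    rw [this]
    nlinarith
  obtain ⟨n, hn⟩ := exists_pow_lt_of_lt_one hε (show (3 / 4 : ℝ) < 1 by norm_num)
  obtain ⟨K, hK, hind⟩ := C15_ind L h4 hL n
  have hs : 0 < Real.sqrt ε := Real.sqrt_pos.2 hε
  obtain ⟨J0, hJ0⟩ := exists_nat_ge ((2 * K / Real.sqrt ε) ^ 2)
  set J : ℕ := max J0 (2 * n + 2) with hJdef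
  have hJge : 2 * n + 2 ≤ J := le_max_right _ _
  have hJpos : 0 < J := by omega
  have hJ' : (0 : ℝ) < J := by exact_mod_cast hJpos
  have hJK : K / Real.sqrt J ≤ Real.sqrt ε / 2 := by
    have h1 : (2 * K / Real.sqrt ε) ^ 2 ≤ (J : ℝ) := by
      refine hJ0.trans ?_
      exact_mod_cast le_max_left _ _
    have h2 : 2 * K / Real.sqrt ε ≤ Real.sqrt J := Real.le_sqrt_of_sq_le h1
    rw [div_le_iff₀ hs] at h2
    rw [div_le_iff₀ (Real.sqrt_pos.2 hJ')]
    linarith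
  obtain ⟨τ, F, η, hok, hdiv, herr, hn2, hsm⟩ := hind J hJge
  refine ⟨PJ J L, η, ⟨hdiv, PJ_sym J L, ?_, ?_⟩⟩
  · rw [opT_eq]
    have h1 := sqrt_nrm2_add (TJ J L η - Finsupp.single (1, 1) 1 - F.Yv J L) (F.Yv J L)
    rw [sub_add_cancel] at h1
    have h2 : nrm2 (F.Yv J L) ≤ (Real.sqrt ε / 2) ^ 2 := by
      have h6 := nrm2_Yv hok h4 hJpos
      have h7 : (L : ℝ) / 4 * F.n2 ≤ L / 4 * ((3 / 4) ^ n / L) := by
        apply mul_le_mul_of_nonneg_left hn2
        positivity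
      have h8 : (L : ℝ) / 4 * ((3 / 4) ^ n / L) = (3 / 4) ^ n / 4 := by
        field_simp
      rw [div_pow, Real.sq_sqrt hε.le]
      linarith
    have h3 : Real.sqrt (nrm2 (F.Yv J L)) ≤ Real.sqrt ε / 2 := by
      calc Real.sqrt (nrm2 (F.Yv J L)) ≤ Real.sqrt ((Real.sqrt ε / 2) ^ 2) := Real.sqrt_le_sqrt h2
        _ = Real.sqrt ε / 2 := Real.sqrt_sq (by positivity)
    have h4' : Real.sqrt (nrm2 (TJ J L η - Finsupp.single (1, 1) 1)) ≤ Real.sqrt ε := by linarith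
    exact (Real.sqrt_le_sqrt_iff hε.le).1 h4'
  · have h1 : Real.sqrt (∑ i, nrm2 (η i)) ≤ 8 / Real.sqrt L := by
      refine hsm.trans ?_
      apply div_le_div_of_nonneg_right _ (Real.sqrt_nonneg _)
      have : (0 : ℝ) ≤ (7 / 8) ^ (n + 1) := by positivity
      linarith
    have h2 : 0 ≤ ∑ i, nrm2 (η i) := Finset.sum_nonneg (fun i _ => nrm2_nonneg _)
    have h3 : ∑ i, nrm2 (η i) ≤ (8 / Real.sqrt L) ^ 2 := by
      have := Real.sq_sqrt h2
      rw [← this]
      exact pow_le_pow_left₀ (Real.sqrt_nonneg _) h1 2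
    rw [div_pow, Real.sq_sqrt hL'.le] at h3
    have h4' : (8 : ℝ) ^ 2 = 64 := by norm_num
    rw [h4'] at h3
    linarith

end Pool.Agent.H667R3.FF
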