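import Mathlib
import Pool.Agent.H667R3.FF.Defs
import Pool.Agent.H667R3.FF.C3

/-! Task C16a (table h667b_tasks, shared note 777). Replace every `sorry`; keep the statements. -/

namespace Pool.Agent.H667R3.FF

open Pool.Agent.H667R2.FG
open scoped ComplexConjugate

/-- the shift `(i, k) ↦ (i, k + 1)` on the free group -/
noncomputable def C16a_sh (n : ℕ) : MulAut (FreeGroup (Fin n × ℤ)) :=
  FreeGroup.freeGroupCongr (Equiv.prodCongr (Equiv.refl (Fin n)) (Equiv.addRight (1 : ℤ)))

theorem C16a_sh_of (n : ℕ) (a : Fin n) (k : ℤ) :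
    C16a_sh n (FreeGroup.of (a, k)) = FreeGroup.of (a, k + 1) := by
  simp [C16a_sh]

theorem C16a_sh_pow (n : ℕ) (a : Fin n) (k : ℤ) (j : ℕ) :
    (C16a_sh n ^ j) (FreeGroup.of (a, k)) = FreeGroup.of (a, k + j) := by
  induction j generalizing k with
  | zero => simp
  | succ j ih =>
    rw [pow_succ, MulAut.mul_apply, C16a_sh_of, ih]
    congr 2
    push_cast
    ring

/-- the action of `ℤ` by shifts -/
noncomputable def C16a_ph (n : ℕ) : Multiplicative ℤ →* MulAut (FreeGroup (Fin n × ℤ)) :=
  zpowersHom _ (C16a_sh n)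

/-- the injection of index sets -/
def C16a_f {m : ℕ} (hm : 6 ≤ m) : ℕ ⊕ Fin 4 → Fin m × ℤ
  | Sum.inl j => (⟨1, by omega⟩, (j : ℤ))
  | Sum.inr i => (e6 hm i, 0)

theorem C16a_f_inj {m : ℕ} (hm : 6 ≤ m) : Function.Injective (C16a_f hm) := by
  rintro (j | i) (j' | i') h
  · have h2 := congrArg Prod.snd h
    simp only [C16a_f, Nat.cast_inj] at h2
    rw [h2]
  · have h2 := congrArg (fun x => x.1.val) h
    simp only [C16a_f, e6] at h2
    omega
  · have h2 := congrArg (fun x => x.1.val) h
    simp only [C16a_f, e6] at h2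
    omega
  · have h2 := congrArg (fun x => x.1.val) h
    simp only [C16a_f, e6] at h2
    congr 1
    ext
    omega

/-- the map to the semidirect product -/
noncomputable def C16a_psi (m : ℕ) :
    FreeGroup (Fin m) →* (FreeGroup (Fin m × ℤ)) ⋊[C16a_ph m] Multiplicative ℤ :=
  FreeGroup.lift fun i => if i.val = 0 then SemidirectProduct.inr (Multiplicative.ofAdd 1)
    else SemidirectProduct.inl (FreeGroup.of (i, 0))

theorem C16a_comp {m : ℕ} (hm : 6 ≤ m) :
    (C16a_psi m).comp (iota hm) =
      (SemidirectProduct.inl).comp (FreeGroup.map (C16a_f hm)) := by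
  refine FreeGroup.ext_hom _ _ ?_
  rintro (j | i)
  · simp only [iota, C16a_psi, MonoidHom.comp_apply, FreeGroup.lift_apply_of, map_mul, map_pow,
      map_inv, FreeGroup.map.of, C16a_f]
    rw [if_pos trivial, if_neg one_ne_zero, ← map_pow, ← map_inv, ← SemidirectProduct.inl_aut]
    congr 1
    have h2 : C16a_ph m (Multiplicative.ofAdd (1 : ℤ) ^ j) = C16a_sh m ^ j := by
      rw [map_pow]
      congr 1
    rw [h2, C16a_sh_pow, zero_add]
  · simp only [iota, C16a_psi, MonoidHom.comp_apply, FreeGroup.lift_apply_of,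
      FreeGroup.map.of, C16a_f]
    rw [if_neg (by simp [e6])]

variable {n : ℕ} (hn : 6 ≤ n)

theorem iota_injective : Function.Injective (iota hn) := by
  have h := C16a_comp hn
  have h2 : Function.Injective ((C16a_psi n).comp (iota hn)) := by
    rw [h]
    exact SemidirectProduct.inl_injective.comp (FreeGroup.map_injective (C16a_f_inj hn))
  exact Function.Injective.of_comp h2

end Pool.Agent.H667R3.FF
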