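import Mathlib
import Pool.Agent.H667R3.FF.Defs
import Pool.Agent.H667R3.FF.C16a
import Pool.Agent.H667R3.FF.C3

/-! Task C16b (table h667b_tasks, shared note 777). -/

namespace Pool.Agent.H667R3.FF

open Pool.Agent.H667R2.FG
open scoped ComplexConjugate

variable {n : ℕ} (hn : 6 ≤ n)

private theorem c16_mul0 {α : Type} [DecidableEq α] {i : α} {g h : FreeGroup α}
    (hg : foxD i g = 0) (hh : foxD i h = 0) : foxD i (g * h) = 0 := by
  rw [foxD_mul, hg, hh, Finsupp.mapDomain_zero, add_zero]

private theorem c16_inv {α : Type} [DecidableEq α] (i : α) (g : FreeGroup α) :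
    foxD i g⁻¹ = -(foxD i g).mapDomain (fun A => g⁻¹ * A) := by
  have h := foxD_mul i g⁻¹ g
  rw [inv_mul_cancel, foxD_one] at h
  exact eq_neg_of_add_eq_zero_left h.symm

private theorem c16_inv0 {α : Type} [DecidableEq α] {i : α} {g : FreeGroup α}
    (hg : foxD i g = 0) : foxD i g⁻¹ = 0 := by
  rw [c16_inv, hg, Finsupp.mapDomain_zero, neg_zero]

private theorem c16_pow0 {α : Type} [DecidableEq α] {i : α} {g : FreeGroup α}
    (hg : foxD i g = 0) (k : ℕ) : foxD i (g ^ k) = 0 := by
  induction k with
  | zero => rw [pow_zero, foxD_one]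
  | succ k ih => rw [pow_succ]; exact c16_mul0 ih hg

private theorem c16_neg {α β : Type} (f : α → β) (p : α →₀ ℝ) :
    (-p).mapDomain f = -(p.mapDomain f) :=
  map_neg (Finsupp.mapDomain.addMonoidHom f) p

private theorem c16_sub {α β : Type} (f : α → β) (p q : α →₀ ℝ) :
    (p - q).mapDomain f = p.mapDomain f - q.mapDomain f :=
  map_sub (Finsupp.mapDomain.addMonoidHom f) p q

private theorem c16_sum {α β γ : Type} (f : α → β) (s : γ →₀ ℝ) (v : γ → ℝ → (α →₀ ℝ)) :
    (s.sum v).mapDomain f = s.sum fun a b => (v a b).mapDomain f :=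
  map_finsuppSum (Finsupp.mapDomain.addMonoidHom f) s v

theorem fox_iota (i : Fin 4) (g : Gm) :
    foxD (e6 hn i) (iota hn g) = (foxD (Sum.inr i) g).mapDomain (iota hn) := by
  have hinv : ∀ g : Gm, foxD (e6 hn i) (iota hn g) = (foxD (Sum.inr i) g).mapDomain (iota hn) →
      foxD (e6 hn i) (iota hn g⁻¹) = (foxD (Sum.inr i) g⁻¹).mapDomain (iota hn) := by
    intro g hg
    rw [map_inv, c16_inv, c16_inv, hg, c16_neg, ← Finsupp.mapDomain_comp,
      ← Finsupp.mapDomain_comp]
    congr 2
    funext A
    simp only [Function.comp_apply, map_mul, map_inv]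
  have hof : ∀ x : ℕ ⊕ Fin 4, foxD (e6 hn i) (iota hn (FreeGroup.of x)) =
      (foxD (Sum.inr i) (FreeGroup.of x)).mapDomain (iota hn) := by
    intro x
    rcases x with j | k
    · have h0 : foxD (e6 hn i) (FreeGroup.of (⟨0, by omega⟩ : Fin n)) = 0 := by
        rw [foxD_of, if_neg]
        intro h
        have := congrArg Fin.val h
        simp [e6] at this
      have h1 : foxD (e6 hn i) (FreeGroup.of (⟨1, by omega⟩ : Fin n)) = 0 := by
        rw [foxD_of, if_neg]
        intro h
        have := congrArg Fin.val h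
        simp [e6] at this
      have h2 : iota hn (FreeGroup.of (Sum.inl j)) =
          FreeGroup.of ⟨0, by omega⟩ ^ j * FreeGroup.of ⟨1, by omega⟩ *
            (FreeGroup.of ⟨0, by omega⟩ ^ j)⁻¹ := by
        unfold iota
        rw [FreeGroup.lift_apply_of]
      rw [h2, c16_mul0 (c16_mul0 (c16_pow0 h0 j) h1) (c16_inv0 (c16_pow0 h0 j)), foxD_of,
        if_neg (by simp), Finsupp.mapDomain_zero]
    · have h2 : iota hn (FreeGroup.of (Sum.inr k)) = FreeGroup.of (e6 hn k) := by
        unfold iota
        rw [FreeGroup.lift_apply_of]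
      rw [h2, foxD_of, foxD_of]
      by_cases hk : k = i
      · subst hk
        rw [if_pos rfl, if_pos rfl, Finsupp.mapDomain_single, h2]
      · rw [if_neg, if_neg, Finsupp.mapDomain_zero]
        · intro h; exact hk (Sum.inr.inj h)
        · intro h
          apply hk
          have := congrArg Fin.val h
          simp only [e6] at this
          exact Fin.ext (by omega)
  induction g using FreeGroup.induction_on with
  | C1 => rw [map_one, foxD_one, foxD_one, Finsupp.mapDomain_zero]
  | of x => exact hof x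
  | inv_of x _ => exact hinv _ (hof x)
  | mul g h hg hh =>
    rw [map_mul, foxD_mul, foxD_mul, hg, hh, Finsupp.mapDomain_add, ← Finsupp.mapDomain_comp,
      ← Finsupp.mapDomain_comp]
    congr 2
    funext A
    simp only [Function.comp_apply, map_mul]

private theorem c16_nrm2 {α β : Type} {f : α → β} (hf : Function.Injective f) (p : α →₀ ℝ) :
    nrm2 (p.mapDomain f) = nrm2 p := by
  unfold nrm2
  exact Finsupp.sum_mapDomain_index_inj hf

theorem sol_transfer {ε : ℝ} {P : Gm →₀ ℝ} {η : Fin 4 → (Gm × Gm →₀ ℝ)}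
    (h : Sol (Sum.inr : Fin 4 → ℕ ⊕ Fin 4) ε P η) :
    Sol (e6 hn) ε (P.mapDomain (iota hn))
      (fun i => (η i).mapDomain (Prod.map (iota hn) (iota hn))) := by
  have hf := iota_injective hn
  have hff : Function.Injective (Prod.map (iota hn) (iota hn)) := hf.prodMap hf
  have hT : opT (e6 hn) (P.mapDomain (iota hn))
      (fun i => (η i).mapDomain (Prod.map (iota hn) (iota hn))) =
      (opT (Sum.inr : Fin 4 → ℕ ⊕ Fin 4) P η).mapDomain (Prod.map (iota hn) (iota hn)) := by
    unfold opT
    rw [Finsupp.mapDomain_finsetSum]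
    refine Finset.sum_congr rfl fun i _ => ?_
    rw [Finsupp.sum_mapDomain_index_inj hf, c16_sum]
    refine Finsupp.sum_congr fun g _ => ?_
    rw [fox_iota, Finsupp.sum_mapDomain_index_inj hf, c16_sum]
    refine Finsupp.sum_congr fun A _ => ?_
    rw [Finsupp.sum_mapDomain_index_inj hff, c16_sum]
    refine Finsupp.sum_congr fun ab _ => ?_
    rw [Finsupp.mapDomain_single]
    simp only [Prod.map, map_mul, map_inv]
  refine ⟨?_, ?_, ?_, ?_⟩
  · intro v
    by_cases hv : v ∈ Set.range (iota hn)
    · obtain ⟨x, rfl⟩ := hv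
      rw [Finsupp.mapDomain_apply hf, ← h.div x]
      unfold divE
      refine Finset.sum_congr rfl fun i _ => ?_
      rw [fox_iota, Finsupp.sum_mapDomain_index_inj hf]
      refine Finsupp.sum_congr fun A _ => ?_
      congr 1
      have h1 := Finsupp.mapDomain_apply hff (η i) (A, A⁻¹ * x)
      simp only [Prod.map, map_mul, map_inv] at h1
      exact h1
    · rw [Finsupp.mapDomain_of_notMem_range _ _ hv]
      unfold divE
      refine Finset.sum_eq_zero fun i _ => ?_
      refine Finset.sum_eq_zero fun A _ => ?_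
      simp only
      rw [Finsupp.mapDomain_of_notMem_range, mul_zero]
      rintro ⟨⟨a, b⟩, hab⟩
      apply hv
      simp only [Prod.map, Prod.mk.injEq] at hab
      refine ⟨a * b, ?_⟩
      rw [map_mul, hab.1, hab.2, mul_inv_cancel_left]
  · intro v
    by_cases hv : v ∈ Set.range (iota hn)
    · obtain ⟨x, rfl⟩ := hv
      rw [← map_inv, Finsupp.mapDomain_apply hf, Finsupp.mapDomain_apply hf, h.sym]
    · rw [Finsupp.mapDomain_of_notMem_range _ _ hv, Finsupp.mapDomain_of_notMem_range]
      rintro ⟨x, hx⟩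
      apply hv
      exact ⟨x⁻¹, by rw [map_inv, hx, inv_inv]⟩
  · have h1 : (Finsupp.single ((1 : FreeGroup (Fin n)), (1 : FreeGroup (Fin n))) (1 : ℝ)) =
        (Finsupp.single ((1 : Gm), (1 : Gm)) (1 : ℝ)).mapDomain
          (Prod.map (iota hn) (iota hn)) := by
      rw [Finsupp.mapDomain_single]
      simp only [Prod.map, map_one]
    rw [hT, h1, ← c16_sub, c16_nrm2 hff]
    exact h.tt
  · refine le_trans (le_of_eq ?_) h.small
    exact Finset.sum_congr rfl fun i _ => c16_nrm2 hff (η i)

end Pool.Agent.H667R3.FF
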