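import Mathlib
import Pool.Agent.H667R3.FF.Defs
import Pool.Agent.H667R3.FF.C3
import Pool.Agent.H667R3.FF.C14

/-! Task C17 (table h667b_tasks, shared note 777): antisymmetrisation of the field. -/

namespace Pool.Agent.H667R3.FF

open Pool.Agent.H667R2.FG
open scoped ComplexConjugate

section C17aux

variable {X : Type} [DecidableEq X] {m : ℕ}

/-- the flip `(a, b) ↦ (b⁻¹, a⁻¹)` -/
def C17sw (G : Type) [Group G] : G × G ≃ G × G where
  toFun ab := (ab.2⁻¹, ab.1⁻¹)
  invFun ab := (ab.2⁻¹, ab.1⁻¹)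
  left_inv ab := by simp
  right_inv ab := by simp

lemma C17map_apply {α β : Type} (s : α ≃ β) (f : α →₀ ℝ) (b : β) :
    f.mapDomain s b = f (s.symm b) := by
  conv_lhs => rw [← s.apply_symm_apply b]
  rw [Finsupp.mapDomain_apply s.injective]

lemma C17nrm2_map {α β : Type} (s : α ≃ β) (f : α →₀ ℝ) :
    nrm2 (f.mapDomain s) = nrm2 f := by
  classical
  unfold nrm2
  rw [show f.mapDomain s = f.mapDomain s from rfl, Finsupp.sum, Finsupp.sum]
  rw [Finsupp.mapDomain_support_of_injective s.injective, Finset.sum_image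
    (fun x _ y _ h => s.injective h)]
  refine Finset.sum_congr rfl fun x _ => ?_
  rw [Finsupp.mapDomain_apply s.injective]

lemma C17fox (i : X) (v : FreeGroup X) :
    foxD i v⁻¹ = -(foxD i v).mapDomain (fun A => v⁻¹ * A) := by
  ext A
  rw [foxD_inv_apply, Finsupp.neg_apply]
  congr 1
  have h : A = (fun A => v⁻¹ * A) (v * A) := by simp
  conv_rhs => rw [h]
  rw [Finsupp.mapDomain_apply (mul_right_injective _)]

/-- the flipped field -/
noncomputable def C17fl (η : Fin m → (FreeGroup X × FreeGroup X →₀ ℝ)) :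
    Fin m → (FreeGroup X × FreeGroup X →₀ ℝ) :=
  fun i => -(η i).mapDomain (C17sw (FreeGroup X))

lemma C17fl_apply (η : Fin m → (FreeGroup X × FreeGroup X →₀ ℝ)) (i : Fin m)
    (a b : FreeGroup X) : C17fl η i (a, b) = -η i (b⁻¹, a⁻¹) := by
  unfold C17fl
  rw [Finsupp.neg_apply, C17map_apply]
  rfl

lemma C17div (e : Fin m → X) (η : Fin m → (FreeGroup X × FreeGroup X →₀ ℝ))
    (v : FreeGroup X) : divE e (C17fl η) v = divE e η v⁻¹ := by
  unfold divE
  refine Finset.sum_congr rfl fun i _ => ?_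
  rw [C17fox, Finsupp.sum_neg_index (fun A => by ring),
    Finsupp.sum_mapDomain_index (fun A => by ring) (fun A x y => by ring)]
  refine Finset.sum_congr rfl fun A _ => ?_
  simp only
  rw [C17fl_apply]
  have h1 : (A⁻¹ * v)⁻¹ = v⁻¹ * A := by group
  have h2 : (v⁻¹ * A)⁻¹ * v⁻¹ = A⁻¹ := by group
  rw [h1, h2]
  ring

lemma C17opT (e : Fin m → X) (P : FreeGroup X →₀ ℝ) (hP : ∀ v, P v⁻¹ = P v)
    (η : Fin m → (FreeGroup X × FreeGroup X →₀ ℝ)) :
    opT e P (C17fl η) = (opT e P η).mapDomain (C17sw (FreeGroup X)) := by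
  have hPi : P = P.mapDomain (fun g => g⁻¹) := by
    ext g
    have h : g = (fun g : FreeGroup X => g⁻¹) g⁻¹ := by simp
    conv_rhs => rw [h]
    rw [Finsupp.mapDomain_apply inv_injective, hP]
  unfold opT
  rw [Finsupp.mapDomain_finset_sum]
  refine Finset.sum_congr rfl fun i _ => ?_
  conv_rhs => rw [hPi]
  rw [Finsupp.sum_mapDomain_index (fun g => by simp)
    (fun g x y => by
      rw [← Finsupp.sum_add]
      refine Finset.sum_congr rfl fun A _ => ?_
      simp only
      rw [← Finsupp.sum_add]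
      refine Finset.sum_congr rfl fun ab _ => ?_
      simp only
      rw [← Finsupp.single_add]
      congr 1
      ring)]
  rw [Finsupp.sum, Finsupp.sum, Finsupp.mapDomain_finset_sum]
  refine Finset.sum_congr rfl fun g _ => ?_
  rw [C17fox, Finsupp.sum_neg_index (fun A => by simp),
    Finsupp.sum_mapDomain_index (fun A => by simp) (fun A x y => by
      rw [← Finsupp.sum_add]
      refine Finset.sum_congr rfl fun ab _ => ?_
      simp only
      rw [← Finsupp.single_add]
      congr 1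
      ring)]
  rw [Finsupp.sum, Finsupp.sum, Finsupp.mapDomain_finset_sum]
  refine Finset.sum_congr rfl fun A _ => ?_
  unfold C17fl
  rw [Finsupp.sum_neg_index (fun ab => by simp),
    Finsupp.sum_mapDomain_index (fun ab => by simp) (fun ab x y => by
      rw [← Finsupp.single_add]
      congr 1
      ring)]
  rw [Finsupp.sum, Finsupp.sum, Finsupp.mapDomain_finset_sum]
  refine Finset.sum_congr rfl fun ab _ => ?_
  rw [Finsupp.mapDomain_single]
  have h1 : C17sw (FreeGroup X) (g⁻¹ * A * ab.1⁻¹, ab.2⁻¹ * (g⁻¹ * A)⁻¹ * g⁻¹)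
      = (A * (C17sw (FreeGroup X) ab).1⁻¹, (C17sw (FreeGroup X) ab).2⁻¹ * A⁻¹ * g) := by
    simp only [C17sw, Equiv.coe_fn_mk, Prod.mk.injEq]
    constructor <;> group
  rw [h1]
  congr 1
  ring

end C17aux

/-- antisymmetrisation of the field -/
theorem sol_sym {X : Type} [DecidableEq X] {m : ℕ} {e : Fin m → X} {ε : ℝ}
    {P : FreeGroup X →₀ ℝ} {η : Fin m → (FreeGroup X × FreeGroup X →₀ ℝ)} (h : Sol e ε P η) :
    ∃ ζ : Fin m → (FreeGroup X × FreeGroup X →₀ ℝ), Sol e ε P ζ ∧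
      ∀ i a b, ζ i (b⁻¹, a⁻¹) = -ζ i (a, b) := by
  have hε : 0 ≤ ε := (nrm2_nonneg _).trans h.tt
  have key : ∀ {α : Type} (f g : α →₀ ℝ), nrm2 f ≤ ε → nrm2 g ≤ ε →
      nrm2 ((2⁻¹ : ℝ) • (f + g)) ≤ ε := by
    intro α f g hf hg
    have h1 := sqrt_nrm2_add f g
    have h2 : Real.sqrt (nrm2 (f + g)) ≤ 2 * Real.sqrt ε := by
      have := Real.sqrt_le_sqrt hf
      have := Real.sqrt_le_sqrt hg
      linarith
    have h3 : nrm2 (f + g) ≤ (2 * Real.sqrt ε) ^ 2 := by
      rw [← Real.sq_sqrt (nrm2_nonneg (f + g))]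
      exact pow_le_pow_left₀ (Real.sqrt_nonneg _) h2 2
    rw [mul_pow, Real.sq_sqrt hε] at h3
    rw [nrm2_smul]
    linarith
  have hsingle : (Finsupp.single ((1 : FreeGroup X), (1 : FreeGroup X)) (1 : ℝ)).mapDomain
      (C17sw (FreeGroup X)) = Finsupp.single (1, 1) 1 := by
    rw [Finsupp.mapDomain_single]
    simp [C17sw]
  have htt' : nrm2 (opT e P (C17fl η) - Finsupp.single (1, 1) 1) ≤ ε := by
    have h1 : opT e P (C17fl η) - Finsupp.single (1, 1) 1
        = (opT e P η - Finsupp.single (1, 1) 1).mapDomain (C17sw (FreeGroup X)) := by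
      rw [C17opT e P h.sym η, sub_eq_add_neg, sub_eq_add_neg, Finsupp.mapDomain_add]
      congr 1
      conv_lhs => rw [← hsingle]
      rw [← Finsupp.single_neg, Finsupp.mapDomain_single, Finsupp.mapDomain_single,
        Finsupp.single_neg]
    rw [h1, C17nrm2_map]
    exact h.tt
  refine ⟨(2⁻¹ : ℝ) • (η + C17fl η), ⟨?_, h.sym, ?_, ?_⟩, ?_⟩
  · intro v
    rw [divE_smul, divE_add, C17div, h.div, h.div, h.sym]
    ring
  · have h1 : opT e P ((2⁻¹ : ℝ) • (η + C17fl η)) - Finsupp.single (1, 1) 1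
        = (2⁻¹ : ℝ) • ((opT e P η - Finsupp.single (1, 1) 1)
          + (opT e P (C17fl η) - Finsupp.single (1, 1) 1)) := by
      rw [opT_smul, opT_add]
      ext x
      simp only [Finsupp.sub_apply, Finsupp.smul_apply, Finsupp.add_apply, smul_eq_mul]
      ring
    rw [h1]
    exact key _ _ h.tt htt'
  · have h1 : ∀ i, nrm2 (((2⁻¹ : ℝ) • (η + C17fl η)) i) = (2⁻¹ : ℝ) ^ 2 * nrm2 ((η + C17fl η) i) := by
      intro i
      rw [Pi.smul_apply, nrm2_smul]
    have hfl : ∀ i, nrm2 (C17fl η i) = nrm2 (η i) := by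
      intro i
      unfold C17fl
      rw [nrm2_neg, C17nrm2_map]
    rw [Finset.sum_congr rfl fun i _ => h1 i, ← Finset.mul_sum]
    have h2 := sqrt_sum_nrm2_add η (C17fl η)
    rw [Finset.sum_congr rfl fun i _ => hfl i] at h2
    have h3 : Real.sqrt (∑ i, nrm2 ((η + C17fl η) i)) ≤ 2 * Real.sqrt ε := by
      have := Real.sqrt_le_sqrt h.small
      linarith
    have h0 : 0 ≤ ∑ i, nrm2 ((η + C17fl η) i) := Finset.sum_nonneg fun i _ => nrm2_nonneg _
    have h4 : ∑ i, nrm2 ((η + C17fl η) i) ≤ (2 * Real.sqrt ε) ^ 2 := by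
      rw [← Real.sq_sqrt h0]
      exact pow_le_pow_left₀ (Real.sqrt_nonneg _) h3 2
    rw [mul_pow, Real.sq_sqrt hε] at h4
    linarith
  · intro i a b
    simp only [Pi.smul_apply, Pi.add_apply, Finsupp.smul_apply, Finsupp.add_apply, smul_eq_mul,
      C17fl_apply, inv_inv]
    ring

end Pool.Agent.H667R3.FF
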