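import Mathlib
import Pool.Agent.H667R3.FF.Defs
import Pool.Agent.H667R3.FF.C15
import Pool.Agent.H667R3.FF.C16b
import Pool.Agent.H667R3.FF.C17

/-! Task C18 (table h667b_tasks, shared note 777). Replace every `sorry`; keep the statements. -/

namespace Pool.Agent.H667R3.FF

open Pool.Agent.H667R2.FG
open scoped ComplexConjugate

theorem sol_six {n : ℕ} (hn : 6 ≤ n) (ε : ℝ) (hε : 0 < ε) : ∃ (P : FreeGroup (Fin n) →₀ ℝ)
    (η : Fin 4 → (FreeGroup (Fin n) × FreeGroup (Fin n) →₀ ℝ)),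
    Sol (e6 hn) ε P η ∧ ∀ i a b, η i (b⁻¹, a⁻¹) = -η i (a, b) := by
  obtain ⟨P, η, h⟩ := sol_Gm ε hε
  obtain ⟨ζ, hζ, hs⟩ := sol_sym (sol_transfer hn h)
  exact ⟨_, ζ, hζ, hs⟩

end Pool.Agent.H667R3.FF
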