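import Mathlib
import Pool.Agent.H667R3.FF.Defs

/-! Task F1 (table h667b_tasks, shared note 777). Replace every `sorry`; keep the statements. -/

namespace Pool.Agent.H667R3.FF

open Pool.Agent.H667R2.FG
open scoped ComplexConjugate

variable {G : Type} [Group G]

theorem lam_rho (g h : G) : lam g * rho h = rho h * lam g := by
  ext f x
  show f (g⁻¹ * x * h) = f (g⁻¹ * (x * h))
  rw [mul_assoc]

theorem F1_rho_apply (g : G) (f : Ell G) (x : G) : (rho g f) x = f (x * g) := rfl

omit [Group G] in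
theorem F1_delta_apply (g x : G) [Decidable (x = g)] :
    (delta g : Ell G) x = if x = g then 1 else 0 := by
  unfold delta
  by_cases h : x = g
  · subst h
    rw [if_pos rfl]
    simp
  · rw [if_neg h]
    simp [lp.single_apply, h]

theorem F1_rho_delta (g h : G) : rho g (delta h) = delta (h * g⁻¹) := by
  classical
  ext x
  rw [F1_rho_apply, F1_delta_apply, F1_delta_apply]
  congr 1
  exact propext (eq_mul_inv_iff_mul_eq).symm

theorem F1_inner_single {H : Type} [DecidableEq H] (g : H) (f : Ell H) :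
    inner ℂ (lp.single 2 g (1 : ℂ) : Ell H) f = f g := by
  rw [lp.inner_single_left]
  simp

theorem F1_norm_single {H : Type} [DecidableEq H] (g : H) :
    ‖(lp.single 2 g (1 : ℂ) : Ell H)‖ = 1 := by
  rw [lp.norm_single (by norm_num)]
  simp

theorem F1_inner_delta (g : G) (f : Ell G) : inner ℂ (delta g) f = f g :=
  @F1_inner_single G (Classical.decEq G) g f

theorem F1_norm_delta (g : G) : ‖(delta g : Ell G)‖ = 1 :=
  @F1_norm_single G (Classical.decEq G) g

theorem F1_norm_aux {H : Type} (L : Ell H →ₗᵢ[ℂ] Ell H) (f : Ell H) :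
    ‖L.toContinuousLinearMap f‖ = ‖f‖ := L.norm_map f

theorem F1_inner_aux {H : Type} (L : Ell H →ₗᵢ[ℂ] Ell H) (f k : Ell H) :
    inner ℂ (L.toContinuousLinearMap f) (L.toContinuousLinearMap k) = inner ℂ f k :=
  L.inner_map_map f k

theorem F1_norm_rho (g : G) (f : Ell G) : ‖rho g f‖ = ‖f‖ := F1_norm_aux _ f

theorem F1_inner_rho (g : G) (f k : Ell G) : inner ℂ (rho g f) (rho g k) = inner ℂ f k :=
  F1_inner_aux _ f k

theorem F1_rho_mul (g h : G) (f : Ell G) : rho g (rho h f) = rho (g * h) f := by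
  ext x
  rw [F1_rho_apply, F1_rho_apply, F1_rho_apply, mul_assoc]

theorem F1_rho_one (f : Ell G) : rho 1 f = f := by
  ext x
  rw [F1_rho_apply, mul_one]

theorem F1_star_rho (g : G) : star (rho g) = rho g⁻¹ := by
  ext1 f
  refine ext_inner_left ℂ fun k => ?_
  rw [ContinuousLinearMap.star_eq_adjoint, ContinuousLinearMap.adjoint_inner_right]
  rw [← F1_inner_rho g k (rho g⁻¹ f), F1_rho_mul, mul_inv_cancel, F1_rho_one]

theorem F1_comm_star {y : Ell G →L[ℂ] Ell G} (hy : ∀ g, y * rho g = rho g * y) (g : G) :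
    star y * rho g = rho g * star y := by
  have h := congrArg star (hy g⁻¹)
  rw [star_mul, star_mul, F1_star_rho, inv_inv] at h
  exact h.symm

theorem F1_delta_eq (h : G) : (delta h : Ell G) = rho h⁻¹ (delta 1) := by
  rw [F1_rho_delta, one_mul, inv_inv]

theorem F1_apply_delta {y : Ell G →L[ℂ] Ell G} (hy : ∀ g, y * rho g = rho g * y) (h : G) :
    y (delta h) = rho h⁻¹ (y (delta 1)) := by
  rw [F1_delta_eq h]
  exact DFunLike.congr_fun (hy h⁻¹) (delta 1)

theorem F1_norm_star {z : Ell G →L[ℂ] Ell G} (hz : ∀ g, z * rho g = rho g * z) :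
    ‖star z (delta 1)‖ = ‖z (delta 1)‖ := by
  have key : ∀ g : G, ‖(z (delta 1)) g‖ = ‖(star z (delta 1)) g⁻¹‖ := by
    intro g
    rw [← F1_inner_delta g, ← F1_inner_delta g⁻¹, ContinuousLinearMap.star_eq_adjoint,
      ContinuousLinearMap.adjoint_inner_right]
    rw [F1_apply_delta hz g⁻¹, inv_inv]
    have h1 : (delta 1 : Ell G) = rho g (delta g) := by
      rw [F1_rho_delta, mul_inv_cancel]
    conv_rhs => rw [h1]
    rw [F1_inner_rho, norm_inner_symm]
    rw [← h1]
  have h1 : (0 : ℝ) < (2 : ENNReal).toReal := by norm_num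
  rw [lp.norm_eq_tsum_rpow h1, lp.norm_eq_tsum_rpow h1]
  congr 1
  rw [← (Equiv.inv G).tsum_eq (fun h => ‖(star z (delta 1)) h‖ ^ (2 : ENNReal).toReal)]
  refine tsum_congr fun g => ?_
  rw [key g]
  rfl

/-- commuting with right translations passes to finite combinations -/
theorem F1_comm_sum (S : Set (Ell G →L[ℂ] Ell G))
    (hS : ∀ x ∈ S, ∀ g, x * rho g = rho g * x) (f : S →₀ ℂ) (g : G) :
    (f.sum fun x c => c • (x : Ell G →L[ℂ] Ell G)) * rho g =
      rho g * (f.sum fun x c => c • (x : Ell G →L[ℂ] Ell G)) := by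
  unfold Finsupp.sum
  rw [Finset.sum_mul, Finset.mul_sum]
  refine Finset.sum_congr rfl fun x _ => ?_
  rw [smul_mul_assoc, mul_smul_comm, hS x x.2 g]

omit [Group G] in
theorem F1_T_sum (S : Set (Ell G →L[ℂ] Ell G)) (T : Ell G →L[ℂ] Ell G)
    (hT : ∀ x ∈ S, T * x = x * T) (f : S →₀ ℂ) :
    T * (f.sum fun x c => c • (x : Ell G →L[ℂ] Ell G)) =
      (f.sum fun x c => c • (x : Ell G →L[ℂ] Ell G)) * T := by
  unfold Finsupp.sum
  rw [Finset.sum_mul, Finset.mul_sum]
  refine Finset.sum_congr rfl fun x _ => ?_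
  rw [smul_mul_assoc, mul_smul_comm, hT x x.2]

/-- `T (z δ_1) = z (T δ_1)` for every `z` commuting with right translations -/
theorem F1_key (S : Set (Ell G →L[ℂ] Ell G))
    (hS : ∀ x ∈ S, ∀ g, x * rho g = rho g * x)
    (hd : ∀ (ξ : Ell G) (ε : ℝ), 0 < ε → ∃ f : S →₀ ℂ,
      ‖ξ - (f.sum fun x c => c • (x : Ell G →L[ℂ] Ell G)) (delta 1)‖ < ε)
    (T : Ell G →L[ℂ] Ell G) (hT : ∀ x ∈ S, T * x = x * T)
    (z : Ell G →L[ℂ] Ell G) (hz : ∀ g, z * rho g = rho g * z) :
    T (z (delta 1)) = z (T (delta 1)) := by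
  ext h
  rw [← sub_eq_zero]
  have hle : ∀ ε : ℝ, 0 < ε →
      ‖(T (z (delta 1))) h - (z (T (delta 1))) h‖ ≤ (‖T‖ + ‖T (delta 1)‖) * ε := by
    intro ε hε
    obtain ⟨f, hf⟩ := hd (z (delta 1)) ε hε
    set w : Ell G →L[ℂ] Ell G := f.sum fun x c => c • (x : Ell G →L[ℂ] Ell G) with hw
    have hwc : ∀ g, w * rho g = rho g * w := F1_comm_sum S hS f
    have hTw : T (w (delta 1)) = w (T (delta 1)) :=
      DFunLike.congr_fun (F1_T_sum S T hT f) (delta 1)
    have hzw : ∀ g, (z - w) * rho g = rho g * (z - w) := by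
      intro g
      rw [sub_mul, mul_sub, hz, hwc]
    have e1 : (T (z (delta 1))) h - (z (T (delta 1))) h =
        inner ℂ (delta h) (T ((z - w) (delta 1))) - inner ℂ (star (z - w) (delta h))
          (T (delta 1)) := by
      have e2 : inner ℂ (star (z - w) (delta h)) (T (delta 1)) =
          inner ℂ (delta h) ((z - w) (T (delta 1))) := by
        rw [ContinuousLinearMap.star_eq_adjoint, ContinuousLinearMap.adjoint_inner_left]
      rw [e2, ← inner_sub_right, ← F1_inner_delta h, ← F1_inner_delta h, ← inner_sub_right]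
      congr 1
      simp only [sub_apply, map_sub]
      rw [hTw]
      abel
    rw [e1]
    have nd : ‖(delta h : Ell G)‖ = 1 := F1_norm_delta h
    have n1 : ‖inner ℂ (delta h) (T ((z - w) (delta 1)))‖ ≤ ‖T‖ * ε := by
      refine (norm_inner_le_norm _ _).trans ?_
      rw [nd, one_mul]
      refine (T.le_opNorm _).trans ?_
      refine mul_le_mul_of_nonneg_left ?_ (norm_nonneg _)
      rw [sub_apply]
      exact hf.le
    have n2 : ‖inner ℂ (star (z - w) (delta h)) (T (delta 1))‖ ≤ ‖T (delta 1)‖ * ε := by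
      refine (norm_inner_le_norm _ _).trans ?_
      rw [mul_comm]
      refine mul_le_mul_of_nonneg_left ?_ (norm_nonneg _)
      rw [F1_apply_delta (F1_comm_star hzw) h, F1_norm_rho, F1_norm_star hzw,
        sub_apply]
      exact hf.le
    calc _ ≤ _ := norm_sub_le _ _
      _ ≤ ‖T‖ * ε + ‖T (delta 1)‖ * ε := add_le_add n1 n2
      _ = _ := by ring
  have h0 : ‖(T (z (delta 1))) h - (z (T (delta 1))) h‖ ≤ 0 := by
    by_contra hcon
    push Not at hcon
    set a := ‖(T (z (delta 1))) h - (z (T (delta 1))) h‖ with ha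
    set C := ‖T‖ + ‖T (delta 1)‖ with hC
    have hC0 : 0 ≤ C := by positivity
    have := hle (a / (2 * (C + 1))) (by positivity)
    have h2 : C * (a / (2 * (C + 1))) ≤ a / 2 := by
      rw [mul_div_assoc', div_le_div_iff₀ (by positivity) (by norm_num)]
      nlinarith
    linarith
  exact norm_le_zero_iff.1 h0

/-- if `π(h)` commute with right translations and `δ_1` is cyclic, then the commutant of `π`
commutes with everything commuting with right translations -/
theorem commutant_of_cyclic (S : Set (Ell G →L[ℂ] Ell G))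
    (hS : ∀ x ∈ S, ∀ g, x * rho g = rho g * x) (hstar : ∀ x ∈ S, star x ∈ S)
    (hd : ∀ (ξ : Ell G) (ε : ℝ), 0 < ε → ∃ f : S →₀ ℂ,
      ‖ξ - (f.sum fun x c => c • (x : Ell G →L[ℂ] Ell G)) (delta 1)‖ < ε)
    (hmul : ∀ x ∈ S, ∀ y ∈ S, x * y ∈ S)
    (T : Ell G →L[ℂ] Ell G) (hT : ∀ x ∈ S, T * x = x * T)
    (y : Ell G →L[ℂ] Ell G) (hy : ∀ g, y * rho g = rho g * y) : T * y = y * T := by
  have hker : ∀ ξ : Ell G, (T * y - y * T) ξ = 0 := by
    intro ξ
    have hle : ∀ ε : ℝ, 0 < ε → ‖(T * y - y * T) ξ‖ ≤ ‖T * y - y * T‖ * ε := by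
      intro ε hε
      obtain ⟨f, hf⟩ := hd ξ ε hε
      set w : Ell G →L[ℂ] Ell G := f.sum fun x c => c • (x : Ell G →L[ℂ] Ell G) with hw
      have hwc : ∀ g, w * rho g = rho g * w := F1_comm_sum S hS f
      have hTw : T (w (delta 1)) = w (T (delta 1)) :=
        DFunLike.congr_fun (F1_T_sum S T hT f) (delta 1)
      have hyw : ∀ g, (y * w) * rho g = rho g * (y * w) := by
        intro g
        rw [mul_assoc, hwc, ← mul_assoc, hy, mul_assoc]
      have h0 : (T * y - y * T) (w (delta 1)) = 0 := by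
        have h1 := F1_key S hS hd T hT (y * w) hyw
        show T (y (w (delta 1))) - y (T (w (delta 1))) = 0
        have h1' : T (y (w (delta 1))) = y (w (T (delta 1))) := h1
        rw [h1', hTw, sub_self]
      have h2 : (T * y - y * T) ξ = (T * y - y * T) (ξ - w (delta 1)) := by
        rw [map_sub, h0, sub_zero]
      rw [h2]
      refine ((T * y - y * T).le_opNorm _).trans ?_
      exact mul_le_mul_of_nonneg_left hf.le (norm_nonneg _)
    have h0 : ‖(T * y - y * T) ξ‖ ≤ 0 := by
      by_contra hcon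
      push Not at hcon
      set a := ‖(T * y - y * T) ξ‖ with ha
      set C := ‖T * y - y * T‖ with hC
      have hC0 : 0 ≤ C := by positivity
      have := hle (a / (2 * (C + 1))) (by positivity)
      have h2 : C * (a / (2 * (C + 1))) ≤ a / 2 := by
        rw [mul_div_assoc', div_le_div_iff₀ (by positivity) (by norm_num)]
        nlinarith
      linarith
    exact norm_le_zero_iff.1 h0
  have : T * y - y * T = 0 := by
    ext1 ξ
    rw [hker ξ]
    rfl
  exact sub_eq_zero.1 this

/-- the double commutant of `S` as above is the commutant of the right translations -/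
theorem bicommutant_of_cyclic (S : Set (Ell G →L[ℂ] Ell G))
    (hS : ∀ x ∈ S, ∀ g, x * rho g = rho g * x) (hstar : ∀ x ∈ S, star x ∈ S)
    (hd : ∀ (ξ : Ell G) (ε : ℝ), 0 < ε → ∃ f : S →₀ ℂ,
      ‖ξ - (f.sum fun x c => c • (x : Ell G →L[ℂ] Ell G)) (delta 1)‖ < ε)
    (hmul : ∀ x ∈ S, ∀ y ∈ S, x * y ∈ S) :
    Set.centralizer (Set.centralizer S) = Set.centralizer (Set.range (rho (G := G))) := by
  apply Set.Subset.antisymm
  · intro a ha
    rw [Set.mem_centralizer_iff]
    rintro _ ⟨g, rfl⟩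
    rw [Set.mem_centralizer_iff] at ha
    refine ha (rho g) ?_
    rw [Set.mem_centralizer_iff]
    intro x hx
    exact hS x hx g
  · intro y hy
    rw [Set.mem_centralizer_iff] at hy ⊢
    intro T hT
    rw [Set.mem_centralizer_iff] at hT
    exact commutant_of_cyclic S hS hstar hd hmul T (fun x hx => (hT x hx).symm) y
      (fun g => (hy (rho g) ⟨g, rfl⟩).symm)

end Pool.Agent.H667R3.FF
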