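import Mathlib
import Pool.Agent.H667R3.FF.Defs
import Pool.Agent.H667R3.FF.Z9
import Pool.Agent.H667R3.FF.F1

/-! Task F2 (table h667b_tasks, shared note 777). Replace every `sorry`; keep the statements. -/

namespace Pool.Agent.H667R3.FF

open Pool.Agent.H667R2.FG
open scoped ComplexConjugate

namespace F2

/-- the operators commuting with right translations are the elements of `L(G)` -/
theorem mem_LG_iff {G : Type} [Group G] (x : Ell G →L[ℂ] Ell G) :
    x ∈ LG G ↔ x ∈ Set.centralizer (Set.centralizer (Set.range (lam (G := G)))) := by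
  rw [TL2.mem_LG, Set.mem_centralizer_iff]
  constructor
  · intro h t ht
    refine (h t ((TL2.mem_comm t).2 fun g => ?_)).1
    exact (Set.mem_centralizer_iff.1 ht) _ ⟨g, rfl⟩
  · intro h t ht
    have h1 : ∀ t : Ell G →L[ℂ] Ell G,
        t ∈ StarSubalgebra.centralizer ℂ (Set.range (lam (G := G))) → t * x = x * t := by
      intro t ht
      refine h t (Set.mem_centralizer_iff.2 ?_)
      rintro _ ⟨g, rfl⟩
      exact (TL2.mem_comm t).1 ht g
    exact ⟨h1 t ht, h1 _ (star_mem ht)⟩

theorem dense_lam {G : Type} [Group G] (ξ : Ell G) (ε : ℝ) (hε : 0 < ε) :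
    ∃ f : G →₀ ℂ, ‖ξ - (f.sum fun g c => c • lam g) (delta 1)‖ < ε := by
  have h := @lp.hasSum_single G (fun _ : G => ℂ) 2 _ (Classical.decEq G) _ ENNReal.ofNat_ne_top ξ
  obtain ⟨s, hs⟩ := (h.eventually (Metric.ball_mem_nhds ξ hε)).exists
  have hs' : ‖ξ - ∑ i ∈ s, @lp.single G (fun _ : G => ℂ) _ (Classical.decEq G) 2 i (ξ i)‖ < ε := by
    rw [norm_sub_rev, ← dist_eq_norm]
    exact hs
  refine ⟨∑ i ∈ s, Finsupp.single i (ξ i), ?_⟩
  have e : ((∑ i ∈ s, Finsupp.single i (ξ i) : G →₀ ℂ).sum fun g c => c • lam g) (delta 1) =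
      ∑ i ∈ s, @lp.single G (fun _ : G => ℂ) _ (Classical.decEq G) 2 i (ξ i) := by
    have e1 : ((∑ i ∈ s, Finsupp.single i (ξ i) : G →₀ ℂ).sum fun g c => c • lam g) =
        ∑ i ∈ s, (ξ i) • lam (G := G) i := by
      have e2 := Finsupp.sum_finsetSum_index (s := s) (g := fun i => Finsupp.single i (ξ i))
        (h := fun (g : G) (c : ℂ) => c • lam (G := G) g) (fun _ => zero_smul ℂ _)
        (fun _ _ _ => add_smul _ _ _)
      refine e2.symm.trans ?_
      exact Finset.sum_congr rfl fun i _ => Finsupp.sum_single_index (zero_smul ℂ _)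
    rw [e1, ContinuousLinearMap.sum_apply]
    refine Finset.sum_congr rfl fun i _ => ?_
    show ξ i • lam i (delta 1) = _
    rw [Pool.Agent.H667R2.FG.lam_delta, mul_one]
    letI := Classical.decEq G
    ext k
    show ξ i * (delta i : Ell G) k = _
    rw [Pool.Agent.H667R2.FG.delta_apply]
    by_cases hk : k = i
    · subst hk
      rw [if_pos rfl, mul_one]
      exact (@lp.single_apply_self G (fun _ : G => ℂ) _ (Classical.decEq G) 2 k (ξ k)).symm
    · rw [if_neg hk, mul_zero]
      exact (@lp.single_apply_ne G (fun _ : G => ℂ) _ (Classical.decEq G) 2 i (ξ i) k hk).symm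
  rw [e]
  exact hs'

/-- the double commutant of the left translations -/
theorem bicomm_lam (G : Type) [Group G] :
    Set.centralizer (Set.centralizer (Set.range (lam (G := G)))) =
      Set.centralizer (Set.range (rho (G := G))) := by
  classical
  refine bicommutant_of_cyclic (G := G) (Set.range (lam (G := G))) ?_ ?_ ?_ ?_
  · rintro _ ⟨g, rfl⟩ h
    exact Pool.Agent.H667R2.FG.lam_rho g h
  · rintro _ ⟨g, rfl⟩
    exact ⟨g⁻¹, (Pool.Agent.H667R2.FG.star_lam g).symm⟩
  · intro ξ ε hε
    obtain ⟨f, hf⟩ := dense_lam ξ ε hε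
    let φ : G → Set.range (lam (G := G)) := fun g => ⟨lam g, ⟨g, rfl⟩⟩
    refine ⟨f.mapDomain φ, ?_⟩
    have e2 := Finsupp.sum_mapDomain_index (f := φ) (s := f)
      (h := fun (x : Set.range (lam (G := G))) (c : ℂ) => c • (x : Ell G →L[ℂ] Ell G))
      (fun _ => zero_smul ℂ _) (fun _ _ _ => add_smul _ _ _)
    rw [e2]
    exact hf
  · rintro _ ⟨g, rfl⟩ _ ⟨h, rfl⟩
    exact ⟨g * h, Pool.Agent.H667R2.FG.lam_mul g h⟩

/-- an isomorphism maps centralizers to centralizers -/
theorem centralizer_iff {A B : Type} [Semigroup A] [Semigroup B] (C : A ≃* B) (S : Set A)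
    (T : Set B) (h : ∀ x, x ∈ S ↔ C x ∈ T) (x : A) :
    x ∈ Set.centralizer S ↔ C x ∈ Set.centralizer T := by
  rw [Set.mem_centralizer_iff, Set.mem_centralizer_iff]
  constructor
  · intro hx t ht
    have h1 := hx (C.symm t) ((h _).2 (by rwa [C.apply_symm_apply]))
    have h2 := congrArg C h1
    rwa [map_mul, map_mul, C.apply_symm_apply] at h2
  · intro hx s hs
    have h1 := hx (C s) ((h s).1 hs)
    rw [← map_mul, ← map_mul] at h1
    exact C.injective h1

end F2

theorem core_iso {m n : ℕ}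
    {v : Fin m → unitary (Ell (FreeGroup (Fin n)) →L[ℂ] Ell (FreeGroup (Fin n)))}
    (hv : Core m n v) :
    Nonempty (EltG (FreeGroup (Fin m)) ≃⋆ₐ[ℂ] EltG (FreeGroup (Fin n))) := by
  classical
  let π : FreeGroup (Fin m) →* unitary (Ell (FreeGroup (Fin n)) →L[ℂ] Ell (FreeGroup (Fin n))) :=
    FreeGroup.lift v
  have hwd : ∀ w, wd v w = (π w : Ell (FreeGroup (Fin n)) →L[ℂ] Ell (FreeGroup (Fin n))) :=
    fun w => rfl
  obtain ⟨W, hW1, hW2⟩ := transport (G := FreeGroup (Fin m)) (H := Ell (FreeGroup (Fin n)))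
    (Ω := delta 1) (Pool.Agent.H667R2.FG.norm_delta 1) π
    (fun g hg => by
      rw [TL2.inner_delta]
      exact hv.free g hg)
    (fun ξ ε hε => hv.dense ξ ε hε)
  let C := W.conjStarAlgEquiv
  have hC : ∀ g, C (lam g) = wd v g := by
    intro g
    ext1 ξ
    show W (lam g (W.symm ξ)) = wd v g ξ
    rw [hW2, W.apply_symm_apply]
    rfl
  -- words commute with right translations
  have hcomm : ∀ (w : FreeGroup (Fin m)) (g : FreeGroup (Fin n)),
      wd v w * rho g = rho g * wd v w := by
    intro w g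
    let M : Subgroup (unitary (Ell (FreeGroup (Fin n)) →L[ℂ] Ell (FreeGroup (Fin n)))) :=
      { carrier := {u | (u : Ell (FreeGroup (Fin n)) →L[ℂ] Ell (FreeGroup (Fin n))) * rho g =
          rho g * u}
        mul_mem' := by
          intro a b ha hb
          show (a : Ell (FreeGroup (Fin n)) →L[ℂ] Ell (FreeGroup (Fin n))) * b * rho g =
            rho g * (a * b)
          have ha' : (a : Ell (FreeGroup (Fin n)) →L[ℂ] Ell (FreeGroup (Fin n))) * rho g =
            rho g * a := ha
          have hb' : (b : Ell (FreeGroup (Fin n)) →L[ℂ] Ell (FreeGroup (Fin n))) * rho g =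
            rho g * b := hb
          rw [mul_assoc, hb', ← mul_assoc, ha', mul_assoc]
        one_mem' := by
          show (1 : Ell (FreeGroup (Fin n)) →L[ℂ] Ell (FreeGroup (Fin n))) * rho g = rho g * 1
          rw [one_mul, mul_one]
        inv_mem' := by
          intro a ha
          have ha' : (a : Ell (FreeGroup (Fin n)) →L[ℂ] Ell (FreeGroup (Fin n))) * rho g =
            rho g * a := ha
          show star (a : Ell (FreeGroup (Fin n)) →L[ℂ] Ell (FreeGroup (Fin n))) * rho g =
            rho g * star (a : Ell (FreeGroup (Fin n)) →L[ℂ] Ell (FreeGroup (Fin n)))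
          have h1 : (a : Ell (FreeGroup (Fin n)) →L[ℂ] Ell (FreeGroup (Fin n))) *
            star (a : Ell (FreeGroup (Fin n)) →L[ℂ] Ell (FreeGroup (Fin n))) = 1 :=
            (Unitary.mem_iff.1 a.2).2
          have h2 : star (a : Ell (FreeGroup (Fin n)) →L[ℂ] Ell (FreeGroup (Fin n))) *
            (a : Ell (FreeGroup (Fin n)) →L[ℂ] Ell (FreeGroup (Fin n))) = 1 :=
            (Unitary.mem_iff.1 a.2).1
          calc star (a : Ell (FreeGroup (Fin n)) →L[ℂ] Ell (FreeGroup (Fin n))) * rho g
              = star (a : Ell (FreeGroup (Fin n)) →L[ℂ] Ell (FreeGroup (Fin n))) * rho g *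
                ((a : Ell (FreeGroup (Fin n)) →L[ℂ] Ell (FreeGroup (Fin n))) *
                star (a : Ell (FreeGroup (Fin n)) →L[ℂ] Ell (FreeGroup (Fin n)))) := by
                rw [h1, mul_one]
            _ = star (a : Ell (FreeGroup (Fin n)) →L[ℂ] Ell (FreeGroup (Fin n))) *
                (rho g * (a : Ell (FreeGroup (Fin n)) →L[ℂ] Ell (FreeGroup (Fin n)))) *
                star (a : Ell (FreeGroup (Fin n)) →L[ℂ] Ell (FreeGroup (Fin n))) := by
                simp only [mul_assoc]
            _ = star (a : Ell (FreeGroup (Fin n)) →L[ℂ] Ell (FreeGroup (Fin n))) *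
                ((a : Ell (FreeGroup (Fin n)) →L[ℂ] Ell (FreeGroup (Fin n))) * rho g) *
                star (a : Ell (FreeGroup (Fin n)) →L[ℂ] Ell (FreeGroup (Fin n))) := by
                rw [ha']
            _ = (star (a : Ell (FreeGroup (Fin n)) →L[ℂ] Ell (FreeGroup (Fin n))) *
                (a : Ell (FreeGroup (Fin n)) →L[ℂ] Ell (FreeGroup (Fin n)))) * rho g *
                star (a : Ell (FreeGroup (Fin n)) →L[ℂ] Ell (FreeGroup (Fin n))) := by
                simp only [mul_assoc]
            _ = rho g * star (a : Ell (FreeGroup (Fin n)) →L[ℂ] Ell (FreeGroup (Fin n))) := by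
                rw [h2, one_mul] }
    have hM : ∀ w : FreeGroup (Fin m), FreeGroup.lift v w ∈ M := by
      intro w
      refine FreeGroup.induction_on (C := fun w => FreeGroup.lift v w ∈ M) w ?_ ?_ ?_ ?_
      · rw [map_one]; exact M.one_mem
      · intro x
        have e : FreeGroup.lift v (FreeGroup.of x) = v x := FreeGroup.lift_apply_of
        show FreeGroup.lift v (FreeGroup.of x) ∈ M
        rw [e]; exact hv.comm x g
      · intro x h; rw [map_inv]; exact M.inv_mem h
      · intro x y hx hy; rw [map_mul]; exact M.mul_mem hx hy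
    exact hM w
  have hbi : Set.centralizer (Set.centralizer (Set.range (fun w => wd v w))) =
      Set.centralizer (Set.range (rho (G := FreeGroup (Fin n)))) := by
    refine bicommutant_of_cyclic (G := FreeGroup (Fin n)) (Set.range (fun w => wd v w)) ?_ ?_ ?_ ?_
    · rintro _ ⟨w, rfl⟩ g
      exact hcomm w g
    · rintro _ ⟨w, rfl⟩
      refine ⟨w⁻¹, ?_⟩
      show ((FreeGroup.lift v w⁻¹ : unitary _) :
        Ell (FreeGroup (Fin n)) →L[ℂ] Ell (FreeGroup (Fin n))) = _
      rw [map_inv]
      rfl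
    · intro ξ ε hε
      obtain ⟨f, hf⟩ := hv.dense ξ ε hε
      let φ : FreeGroup (Fin m) → Set.range (fun w => wd v w) := fun g => ⟨wd v g, ⟨g, rfl⟩⟩
      refine ⟨f.mapDomain φ, ?_⟩
      have e2 := Finsupp.sum_mapDomain_index (f := φ) (s := f)
        (h := fun (x : Set.range (fun w => wd v w)) (c : ℂ) =>
          c • (x : Ell (FreeGroup (Fin n)) →L[ℂ] Ell (FreeGroup (Fin n))))
        (fun _ => zero_smul ℂ _) (fun _ _ _ => add_smul _ _ _)
      rw [e2]
      exact hf
    · rintro _ ⟨w, rfl⟩ _ ⟨w', rfl⟩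
      refine ⟨w * w', ?_⟩
      show ((FreeGroup.lift v (w * w') : unitary _) :
        Ell (FreeGroup (Fin n)) →L[ℂ] Ell (FreeGroup (Fin n))) = _
      rw [map_mul]
      rfl
  have hmem : ∀ x, x ∈ LG (FreeGroup (Fin m)) ↔ C x ∈ LG (FreeGroup (Fin n)) := by
    intro x
    rw [F2.mem_LG_iff, F2.mem_LG_iff, F2.bicomm_lam (FreeGroup (Fin n)), ← hbi]
    let CM : (Ell (FreeGroup (Fin m)) →L[ℂ] Ell (FreeGroup (Fin m))) ≃*
        (Ell (FreeGroup (Fin n)) →L[ℂ] Ell (FreeGroup (Fin n))) :=
      { toFun := C, invFun := C.symm, left_inv := C.symm_apply_apply,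
        right_inv := C.apply_symm_apply, map_mul' := map_mul C }
    have e1 : ∀ x, x ∈ Set.range (lam (G := FreeGroup (Fin m))) ↔
        CM x ∈ Set.range (fun w => wd v w) := by
      intro x
      constructor
      · rintro ⟨g, rfl⟩
        exact ⟨g, (hC g).symm⟩
      · rintro ⟨g, hg⟩
        refine ⟨g, ?_⟩
        have hg' : wd v g = C x := hg
        rw [← hC] at hg'
        exact C.injective hg'
    exact F2.centralizer_iff CM _ _ (F2.centralizer_iff CM _ _ e1) x
  have hmem' : ∀ y, y ∈ LG (FreeGroup (Fin n)) → C.symm y ∈ LG (FreeGroup (Fin m)) := by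
    intro y hy
    rw [hmem, C.apply_symm_apply]
    exact hy
  exact ⟨{
    toFun := fun x => ⟨C x.1, (hmem x.1).1 x.2⟩
    invFun := fun y => ⟨C.symm y.1, hmem' y.1 y.2⟩
    left_inv := fun x => Subtype.ext (C.symm_apply_apply x.1)
    right_inv := fun y => Subtype.ext (C.apply_symm_apply y.1)
    map_mul' := fun x y => Subtype.ext (map_mul C x.1 y.1)
    map_add' := fun x y => Subtype.ext (map_add C x.1 y.1)
    map_star' := fun x => Subtype.ext (map_star C x.1)
    map_smul' := fun c x => Subtype.ext (map_smul C c x.1) }⟩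

end Pool.Agent.H667R3.FF
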