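import Mathlib
import Pool.Agent.H667R3.FF.Defs

/-! Task Z1 (table h667b_tasks, shared note 777). Basic operators of Fock space. -/

namespace Pool.Agent.H667R3.FF

open Pool.Agent.H667R2.FG
open scoped ComplexConjugate

variable {G : Type} [Group G]

open Classical in
theorem Z1_bas_apply {G : Type} (x y : FI G) : (bas x : FI G → ℂ) y = if y = x then 1 else 0 := by
  by_cases h : y = x
  · subst h
    rw [if_pos rfl]
    exact @Pi.single_eq_same (FI G) (fun _ => ℂ) (fun _ => inferInstance)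
      (Classical.decEq (FI G)) y (1 : ℂ)
  · rw [if_neg h]
    exact @Pi.single_eq_of_ne (FI G) (fun _ => ℂ) (fun _ => inferInstance)
      (Classical.decEq (FI G)) x y h (1 : ℂ)

theorem Z1_inner_bas {G : Type} (x : FI G) (f : Ell (FI G)) : inner ℂ (bas x) f = f x := by
  have h := @lp.inner_single_left (FI G) ℂ _ (fun _ => ℂ) _ _ (Classical.decEq (FI G)) x (1 : ℂ) f
  have h2 : inner ℂ (1 : ℂ) (f x) = f x := by simp
  rw [h2] at h
  exact h

theorem Z1_annF_apply (f : Ell (FI G)) (x : FI G) : (annF f : FI G → ℂ) x = f (1, x.1 :: x.2) :=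
  rfl

theorem Z1_lamF_apply (g : G) (f : Ell (FI G)) (x : FI G) :
    (lamF g f : FI G → ℂ) x = f (g⁻¹ * x.1, x.2) := rfl

/-- the standard Hilbert basis -/
noncomputable def Z1_hb (G : Type) : HilbertBasis (FI G) ℂ (Ell (FI G)) :=
  ⟨LinearIsometryEquiv.refl ℂ (Ell (FI G))⟩

theorem Z1_hb_apply {G : Type} (x : FI G) : Z1_hb G x = bas x :=
  (@HilbertBasis.repr_symm_single (FI G) ℂ _ (Ell (FI G)) _ _ (Classical.decEq (FI G))
    (Z1_hb G) x).symm

theorem lamF_mul (g h : G) : lamF (g * h) = lamF g * lamF h := by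
  ext f x
  change f ((g * h)⁻¹ * x.1, x.2) = f (h⁻¹ * (g⁻¹ * x.1), x.2)
  rw [mul_inv_rev, mul_assoc]

theorem lamF_one : lamF (1 : G) = 1 := by
  ext f x
  change f (1⁻¹ * x.1, x.2) = f x
  rw [inv_one, one_mul]

theorem lamF_bas (g g₀ : G) (t : List G) : lamF g (bas (g₀, t)) = bas (g * g₀, t) := by
  classical
  ext x
  rw [Z1_lamF_apply, Z1_bas_apply, Z1_bas_apply]
  congr 1
  rw [Prod.ext_iff, Prod.ext_iff]
  simp only [eq_iff_iff]
  rw [inv_mul_eq_iff_eq_mul]

theorem adjoint_lamF (g : G) : ContinuousLinearMap.adjoint (lamF g) = lamF g⁻¹ := by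
  ext f x
  rw [← Z1_inner_bas x, ContinuousLinearMap.adjoint_inner_right, Z1_lamF_apply, inv_inv]
  obtain ⟨g₀, t⟩ := x
  rw [lamF_bas, Z1_inner_bas]

theorem isSelfAdjoint_sF : IsSelfAdjoint (sF (G := G)) := by
  unfold sF
  rw [← ContinuousLinearMap.star_eq_adjoint]
  exact IsSelfAdjoint.add_star_self _

theorem norm_vac : ‖(vac : Ell (FI G))‖ = 1 := by
  have h : ‖(vac : Ell (FI G))‖ = ‖(1 : ℂ)‖ :=
    @lp.norm_single (FI G) (fun _ => ℂ) 2 _ (Classical.decEq (FI G)) (by norm_num)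
      ((1 : G), ([] : List G)) (1 : ℂ)
  rw [h, norm_one]

theorem bas_orthonormal : Orthonormal ℂ (bas (G := G)) := by
  have h := (Z1_hb G).orthonormal
  have e : (fun x => Z1_hb G x) = bas (G := G) := funext Z1_hb_apply
  rw [← e]
  exact h

theorem bas_dense : (Submodule.span ℂ (Set.range (bas (G := G)))).topologicalClosure = ⊤ := by
  have h := (Z1_hb G).dense_span
  have e : (fun x => Z1_hb G x) = bas (G := G) := funext Z1_hb_apply
  rw [← e]
  exact h

theorem cre_bas (g₀ : G) (t : List G) :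
    ContinuousLinearMap.adjoint annF (bas (g₀, t)) = bas (1, g₀ :: t) := by
  classical
  ext x
  rw [← Z1_inner_bas x, ContinuousLinearMap.adjoint_inner_right, ← inner_conj_symm, Z1_inner_bas,
    Z1_annF_apply, Z1_bas_apply, Z1_bas_apply]
  by_cases h : ((1 : G), g₀ :: t) = x
  · subst h; simp
  · rw [if_neg h, if_neg (fun hc => h hc.symm)]
    simp

theorem ann_bas_nil (g₀ : G) : annF (bas (g₀, ([] : List G))) = 0 := by
  classical
  ext x
  rw [Z1_annF_apply, Z1_bas_apply, if_neg]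
  · rfl
  · intro h
    simp at h

open Classical in
theorem ann_bas_cons (g₀ g₁ : G) (t : List G) :
    annF (bas (g₀, g₁ :: t)) = if g₀ = 1 then bas (g₁, t) else 0 := by
  ext x
  rw [Z1_annF_apply, Z1_bas_apply]
  by_cases h : g₀ = 1
  · rw [if_pos h, Z1_bas_apply]
    congr 1
    subst h
    rw [Prod.ext_iff, Prod.ext_iff]
    simp
  · rw [if_neg h, if_neg]
    · rfl
    · intro hc
      simp only [Prod.mk.injEq] at hc
      exact h hc.1.symm

theorem Z1_ext_bas {A B : Ell (FI G) →L[ℂ] Ell (FI G)} (h : ∀ x, A (bas x) = B (bas x)) :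
    A = B := by
  refine ContinuousLinearMap.ext_on (s := Set.range (bas (G := G))) ?_ ?_
  · rw [Submodule.dense_iff_topologicalClosure_eq_top]
    exact bas_dense
  · rintro _ ⟨x, rfl⟩
    exact h x

theorem ann_cre : annF * ContinuousLinearMap.adjoint annF = (1 : Ell (FI G) →L[ℂ] Ell (FI G)) := by
  classical
  apply Z1_ext_bas
  rintro ⟨g₀, t⟩
  change annF (ContinuousLinearMap.adjoint annF (bas (g₀, t))) = bas (g₀, t)
  rw [cre_bas, ann_bas_cons, if_pos rfl]

open Classical in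
theorem ann_lam_cre (g : G) : annF * lamF g * ContinuousLinearMap.adjoint annF =
    if g = 1 then (1 : Ell (FI G) →L[ℂ] Ell (FI G)) else 0 := by
  apply Z1_ext_bas
  rintro ⟨g₀, t⟩
  change annF (lamF g (ContinuousLinearMap.adjoint annF (bas (g₀, t)))) = _
  rw [cre_bas, lamF_bas, ann_bas_cons, mul_one]
  by_cases h : g = 1
  · rw [if_pos h, if_pos h]
    rfl
  · rw [if_neg h, if_neg h]
    rfl

end Pool.Agent.H667R3.FF
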