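import Mathlib
import Pool.Agent.H667R3.FF.Defs
import Pool.Agent.H667R3.FF.Z1

/-! Task Z2 (table h667b_tasks, shared note 777). Replace every `sorry`; keep the statements. -/

namespace Pool.Agent.H667R3.FF

open Pool.Agent.H667R2.FG
open scoped ComplexConjugate

variable {G : Type} [Group G]

theorem Z2_permOp_apply {I : Type} (e : I ≃ I) (f : Ell I) (x : I) : permOp e f x = f (e x) := rfl

theorem Z2_compOp_apply {I : Type} (φ : I → I) (hφ : Function.Injective φ) (f : Ell I) (x : I) :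
    compOp φ hφ f x = f (φ x) := rfl

theorem Z2_inner_bas (x : FI G) (f : Ell (FI G)) : inner ℂ (bas x) f = f x := by
  letI : DecidableEq (FI G) := Classical.decEq (FI G)
  unfold bas
  rw [lp.inner_single_left]
  simp

theorem Z2_ext {f g : Ell (FI G)} (h : ∀ x, f x = g x) : f = g := by
  apply lp.ext; funext x; exact h x

open Classical in
theorem Z2_bas_apply (x y : FI G) : (bas x : Ell (FI G)) y = if y = x then 1 else 0 := by
  letI : DecidableEq (FI G) := Classical.decEq (FI G)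
  unfold bas
  by_cases h : y = x
  · subst h
    rw [if_pos rfl]
    simp
  · rw [if_neg h]
    rw [lp.single_apply]
    simp [h]

theorem Z2_adjoint_permOp {I : Type} (e : I ≃ I) :
    ContinuousLinearMap.adjoint (permOp e) = permOp e.symm := by
  symm
  rw [ContinuousLinearMap.eq_adjoint_iff]
  intro f g
  rw [lp.inner_eq_tsum, lp.inner_eq_tsum]
  rw [← e.tsum_eq]
  refine tsum_congr fun x => ?_
  rw [Z2_permOp_apply, Z2_permOp_apply, Equiv.symm_apply_apply]

open Classical in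
theorem Z2_adjoint_compOp_bas (φ : FI G → FI G) (hφ : Function.Injective φ) (x : FI G) :
    ContinuousLinearMap.adjoint (compOp φ hφ) (bas x) = bas (φ x) := by
  apply Z2_ext
  intro y
  rw [← Z2_inner_bas y, ← Z2_inner_bas y, ContinuousLinearMap.adjoint_inner_right,
    ← inner_conj_symm, Z2_inner_bas, Z2_compOp_apply, Z2_inner_bas, Z2_bas_apply, Z2_bas_apply]
  by_cases h : φ x = y
  · subst h; simp
  · have h' : ¬ y = φ x := fun e => h e.symm
    rw [if_neg h, if_neg h', map_zero]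

/-- multiply the last entry on the right by `g` -/
def Z2_r (g : G) : G → List G → FI G
  | g₀, [] => (g₀ * g, [])
  | g₀, g₁ :: t => (g₀, (Z2_r g g₁ t).1 :: (Z2_r g g₁ t).2)

theorem Z2_r_r (g h : G) (g₀ : G) (t : List G) :
    Z2_r h (Z2_r g g₀ t).1 (Z2_r g g₀ t).2 = Z2_r (g * h) g₀ t := by
  induction t generalizing g₀ with
  | nil => simp [Z2_r, mul_assoc]
  | cons g₁ t ih => simp only [Z2_r]; rw [ih]

theorem Z2_r_one (g₀ : G) (t : List G) : Z2_r 1 g₀ t = (g₀, t) := by
  induction t generalizing g₀ with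
  | nil => simp [Z2_r]
  | cons g₁ t ih => simp only [Z2_r]; rw [ih]

/-- the bijection of the index set -/
def Z2_e (g : G) : FI G ≃ FI G where
  toFun x := Z2_r g x.1 x.2
  invFun x := Z2_r g⁻¹ x.1 x.2
  left_inv x := by
    show Z2_r g⁻¹ (Z2_r g x.1 x.2).1 (Z2_r g x.1 x.2).2 = x
    rw [Z2_r_r, mul_inv_cancel, Z2_r_one]
  right_inv x := by
    show Z2_r g (Z2_r g⁻¹ x.1 x.2).1 (Z2_r g⁻¹ x.1 x.2).2 = x
    rw [Z2_r_r, inv_mul_cancel, Z2_r_one]

theorem Z2_e_symm (g : G) : (Z2_e g).symm = Z2_e g⁻¹ := by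
  ext1 x
  rfl

theorem Z2_r_left (g h g₀ : G) (t : List G) :
    Z2_r g (h * g₀) t = (h * (Z2_r g g₀ t).1, (Z2_r g g₀ t).2) := by
  cases t with
  | nil => simp [Z2_r, mul_assoc]
  | cons g₁ t => simp only [Z2_r]

/-- the right unitaries -/
noncomputable def Z2_R (g : G) : Ell (FI G) →L[ℂ] Ell (FI G) := permOp (Z2_e g)

theorem Z2_R_apply (g : G) (f : Ell (FI G)) (x : FI G) : Z2_R g f x = f (Z2_r g x.1 x.2) := rfl

theorem Z2_lamF_apply (g : G) (f : Ell (FI G)) (x : FI G) : lamF g f x = f (g⁻¹ * x.1, x.2) := rfl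

theorem Z2_annF_apply (f : Ell (FI G)) (x : FI G) : annF f x = f (1, x.1 :: x.2) := rfl

theorem Z2_adj_R (g : G) : ContinuousLinearMap.adjoint (Z2_R g) = Z2_R g⁻¹ := by
  unfold Z2_R
  rw [Z2_adjoint_permOp, Z2_e_symm]

theorem Z2_R_lam (g h : G) : Z2_R g * lamF h = lamF h * Z2_R g := by
  apply ContinuousLinearMap.ext
  intro f
  apply Z2_ext
  intro x
  rw [mul_apply_eq_comp, mul_apply_eq_comp, Z2_R_apply, Z2_lamF_apply,
    Z2_lamF_apply, Z2_R_apply]
  dsimp only
  rw [Z2_r_left]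

theorem Z2_R_ann (g : G) : Z2_R g * annF = annF * Z2_R g := by
  apply ContinuousLinearMap.ext
  intro f
  apply Z2_ext
  intro x
  rw [mul_apply_eq_comp, mul_apply_eq_comp, Z2_R_apply, Z2_annF_apply,
    Z2_annF_apply, Z2_R_apply]
  simp only [Z2_r]

theorem Z2_adj_mul (S T : Ell (FI G) →L[ℂ] Ell (FI G)) : ContinuousLinearMap.adjoint (S * T) =
    ContinuousLinearMap.adjoint T * ContinuousLinearMap.adjoint S :=
  ContinuousLinearMap.adjoint_comp S T

theorem Z2_R_cre (g : G) : Z2_R g * ContinuousLinearMap.adjoint annF =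
    ContinuousLinearMap.adjoint annF * Z2_R g := by
  have h := congrArg ContinuousLinearMap.adjoint (Z2_R_ann g⁻¹)
  rw [Z2_adj_mul, Z2_adj_mul, Z2_adj_R, inv_inv] at h
  exact h.symm

/-- append a `1` -/
def Z2_ap (x : FI G) : FI G := (x.1, x.2 ++ [1])

theorem Z2_ap_inj : Function.Injective (Z2_ap (G := G)) := by
  rintro ⟨a, s⟩ ⟨b, t⟩ h
  unfold Z2_ap at h
  have h1 : a = b := congrArg Prod.fst h
  have h2 : s ++ [1] = t ++ [1] := congrArg Prod.snd h
  exact Prod.ext h1 (List.append_cancel_right h2)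

/-- the right annihilation operator -/
noncomputable def Z2_ar : Ell (FI G) →L[ℂ] Ell (FI G) := compOp Z2_ap Z2_ap_inj

theorem Z2_ar_apply (f : Ell (FI G)) (x : FI G) : Z2_ar f x = f (x.1, x.2 ++ [1]) := rfl

theorem Z2_ar_lam (h : G) : Z2_ar * lamF h = lamF h * Z2_ar := by
  apply ContinuousLinearMap.ext
  intro f
  apply Z2_ext
  intro x
  rfl

theorem Z2_ar_adj_lam (h : G) : ContinuousLinearMap.adjoint Z2_ar * lamF h =
    lamF h * ContinuousLinearMap.adjoint Z2_ar := by
  have h := congrArg ContinuousLinearMap.adjoint (Z2_ar_lam h⁻¹)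
  rw [Z2_adj_mul, Z2_adj_mul, adjoint_lamF, inv_inv] at h
  exact h.symm

theorem Z2_ar_ann : Z2_ar * annF = annF * (Z2_ar : Ell (FI G) →L[ℂ] Ell (FI G)) := by
  apply ContinuousLinearMap.ext
  intro f
  apply Z2_ext
  intro x
  rfl

theorem Z2_cre_nil (f : Ell (FI G)) (g₀ : G) :
    ContinuousLinearMap.adjoint annF f (g₀, ([] : List G)) = 0 := by
  rw [← Z2_inner_bas (g₀, ([] : List G)), ContinuousLinearMap.adjoint_inner_right, ann_bas_nil,
    inner_zero_left]

open Classical in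
theorem Z2_cre_cons (f : Ell (FI G)) (g₀ g₁ : G) (t : List G) :
    ContinuousLinearMap.adjoint annF f (g₀, g₁ :: t) = if g₀ = 1 then f (g₁, t) else 0 := by
  rw [← Z2_inner_bas (g₀, g₁ :: t), ContinuousLinearMap.adjoint_inner_right, ann_bas_cons]
  by_cases h : g₀ = 1
  · rw [if_pos h, if_pos h, Z2_inner_bas]
  · rw [if_neg h, if_neg h, inner_zero_left]

/-- the commutator of right annihilation and left creation -/
noncomputable def Z2_Q : Ell (FI G) →L[ℂ] Ell (FI G) :=
  Z2_ar * ContinuousLinearMap.adjoint annF - ContinuousLinearMap.adjoint annF * Z2_ar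

theorem Z2_Q_eq (f : Ell (FI G)) : Z2_Q f = (f (1, [])) • bas (1, ([] : List G)) := by
  classical
  apply Z2_ext
  rintro ⟨g₀, t⟩
  have e : Z2_Q f (g₀, t) = ContinuousLinearMap.adjoint annF f (g₀, t ++ [1]) -
      ContinuousLinearMap.adjoint annF (Z2_ar f) (g₀, t) := rfl
  rw [e]
  have e2 : ((f (1, [])) • bas (1, ([] : List G)) : Ell (FI G)) (g₀, t) =
    f (1, []) * (bas (1, ([] : List G)) : Ell (FI G)) (g₀, t) := rfl
  rw [e2, Z2_bas_apply]
  cases t with
  | nil =>
    rw [List.nil_append, Z2_cre_cons, Z2_cre_nil, sub_zero]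
    by_cases h : g₀ = 1
    · subst h; rw [if_pos rfl, if_pos rfl, mul_one]
    · rw [if_neg h, if_neg, mul_zero]
      intro h'
      exact h (congrArg Prod.fst h')
  | cons g₁ t =>
    rw [List.cons_append, Z2_cre_cons, Z2_cre_cons]
    have h3 : ¬ ((g₀, g₁ :: t) : FI G) = (1, []) := by
      intro h'
      have := congrArg Prod.snd h'
      simp at this
    rw [if_neg h3, mul_zero]
    by_cases h : g₀ = 1
    · rw [if_pos h, if_pos h, Z2_ar_apply, sub_self]
    · rw [if_neg h, if_neg h, sub_self]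

theorem Z2_Q_adj : ContinuousLinearMap.adjoint (Z2_Q (G := G)) = Z2_Q := by
  symm
  rw [ContinuousLinearMap.eq_adjoint_iff]
  intro f g
  rw [Z2_Q_eq, Z2_Q_eq, inner_smul_left, inner_smul_right, Z2_inner_bas, ← inner_conj_symm f,
    Z2_inner_bas]
  ring

theorem Z2_comm : (Z2_ar + ContinuousLinearMap.adjoint Z2_ar) * sF =
    sF * (Z2_ar + ContinuousLinearMap.adjoint Z2_ar : Ell (FI G) →L[ℂ] Ell (FI G)) := by
  unfold sF
  have h1 := Z2_ar_ann (G := G)
  have h2 := congrArg ContinuousLinearMap.adjoint h1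
  rw [Z2_adj_mul, Z2_adj_mul] at h2
  have h3 := Z2_Q_adj (G := G)
  unfold Z2_Q at h3
  rw [map_sub, Z2_adj_mul, Z2_adj_mul, ContinuousLinearMap.adjoint_adjoint] at h3
  have h4 : Z2_ar * ContinuousLinearMap.adjoint annF + ContinuousLinearMap.adjoint Z2_ar * annF =
      annF * ContinuousLinearMap.adjoint Z2_ar +
        ContinuousLinearMap.adjoint annF * (Z2_ar : Ell (FI G) →L[ℂ] Ell (FI G)) := by
    have := sub_eq_sub_iff_add_eq_add.1 h3
    rw [this]
  calc (Z2_ar + ContinuousLinearMap.adjoint Z2_ar) * (annF + ContinuousLinearMap.adjoint annF)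
      = Z2_ar * annF + ContinuousLinearMap.adjoint Z2_ar * ContinuousLinearMap.adjoint annF +
        (Z2_ar * ContinuousLinearMap.adjoint annF + ContinuousLinearMap.adjoint Z2_ar * annF) := by
        noncomm_ring
    _ = annF * Z2_ar + ContinuousLinearMap.adjoint annF * ContinuousLinearMap.adjoint Z2_ar +
        (annF * ContinuousLinearMap.adjoint Z2_ar +
        ContinuousLinearMap.adjoint annF * Z2_ar) := by rw [h4, h1, h2]
    _ = _ := by noncomm_ring

/-- There are right operators: unitaries `R g` and a self-adjoint `sr` commuting with all `lamF h`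
and `sF`, with `R g Ω = lamF g⁻¹ Ω`, `(R g)* = R g⁻¹` and `sr Ω = sF Ω`. (`R g` multiplies the last
entry on the right by `g⁻¹`; `sr` appends/removes a `1` at the end.) -/
theorem right_ops : ∃ (R : G → (Ell (FI G) →L[ℂ] Ell (FI G))) (sr : Ell (FI G) →L[ℂ] Ell (FI G)),
    (∀ g h, R g * lamF h = lamF h * R g) ∧ (∀ g, R g * sF = sF * R g) ∧
    (∀ h, sr * lamF h = lamF h * sr) ∧ (sr * sF = sF * sr) ∧ IsSelfAdjoint sr ∧
    (∀ g, ContinuousLinearMap.adjoint (R g) = R g⁻¹) ∧ (∀ g, R g vac = lamF g⁻¹ vac) ∧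
    sr vac = sF (vac (G := G)) := by
  classical
  have hv : (vac : Ell (FI G)) = bas (1, []) := rfl
  refine ⟨Z2_R, Z2_ar + ContinuousLinearMap.adjoint Z2_ar, Z2_R_lam, ?_, ?_, Z2_comm, ?_, Z2_adj_R,
    ?_, ?_⟩
  · intro g
    unfold sF
    rw [mul_add, add_mul, Z2_R_ann, Z2_R_cre]
  · intro h
    rw [mul_add, add_mul, Z2_ar_lam, Z2_ar_adj_lam]
  · rw [IsSelfAdjoint, ContinuousLinearMap.star_eq_adjoint, map_add,
      ContinuousLinearMap.adjoint_adjoint, add_comm]
  · intro g
    rw [hv]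
    apply Z2_ext
    rintro ⟨g₀, t⟩
    rw [Z2_R_apply, Z2_lamF_apply, Z2_bas_apply, Z2_bas_apply]
    cases t with
    | nil =>
      simp only [Z2_r, inv_inv, Prod.mk.injEq, and_true]
      by_cases h : g₀ * g = 1
      · rw [if_pos h, if_pos (by rw [← mul_eq_one_comm]; exact h)]
      · rw [if_neg h, if_neg (by rw [← mul_eq_one_comm]; exact h)]
    | cons g₁ t => simp [Z2_r]
  · rw [hv]
    unfold sF
    rw [add_apply, add_apply, ann_bas_nil, cre_bas]
    have h1 : Z2_ar (bas (1, ([] : List G))) = 0 := by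
      apply Z2_ext
      rintro ⟨g₀, t⟩
      rw [Z2_ar_apply, Z2_bas_apply, if_neg]
      · rfl
      · intro h
        have := congrArg Prod.snd h
        simp at this
    have h2 : ContinuousLinearMap.adjoint Z2_ar (bas (1, ([] : List G))) = bas (1, [1]) := by
      unfold Z2_ar
      rw [Z2_adjoint_compOp_bas]
      rfl
    rw [h1, h2]

end Pool.Agent.H667R3.FF
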