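import Mathlib
import Pool.Agent.H667R3.FF.Defs
import Pool.Agent.H667R3.FF.Z2
import Pool.Agent.H667R3.FF.A8a

/-! Task Z3a (table h667b_tasks, shared note 777). (helper680) -/

namespace Pool.Agent.H667R3.FF

open Pool.Agent.H667R2.FG
open scoped ComplexConjugate

variable {X : Type} [DecidableEq X]

theorem pF_good : Good (pF X) where
  uni := by
    rintro ⟨x, b⟩
    cases b
    · show lamF (FreeGroup.of x)⁻¹ * lamF (FreeGroup.of x) = 1
      rw [← lamF_mul, inv_mul_cancel, lamF_one]
    · show lamF (FreeGroup.of x) * lamF (FreeGroup.of x)⁻¹ = 1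
      rw [← lamF_mul, mul_inv_cancel, lamF_one]
  st := by
    rintro (_ | ⟨x, b⟩)
    · exact isSelfAdjoint_sF
    · cases b
      · show ContinuousLinearMap.adjoint (lamF (FreeGroup.of x)⁻¹) = lamF (FreeGroup.of x)
        rw [adjoint_lamF, inv_inv]
      · show ContinuousLinearMap.adjoint (lamF (FreeGroup.of x)) = lamF (FreeGroup.of x)⁻¹
        rw [adjoint_lamF]

namespace Z3a

/-- the letters of `pF` have right versions -/
theorem exists_right (l : Lt X) : ∃ T : Ell (FI (FreeGroup X)) →L[ℂ] Ell (FI (FreeGroup X)),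
    (∀ l' : Lt X, T * pF X l' = pF X l' * T) ∧ T vac = pF X l vac ∧
      ContinuousLinearMap.adjoint T vac = ContinuousLinearMap.adjoint (pF X l) vac := by
  obtain ⟨R, sr, hRl, hRs, hsl, hss, hsa, hRadj, hRv, hsv⟩ := right_ops (G := FreeGroup X)
  have hR : ∀ g : FreeGroup X, ∀ l' : Lt X, R g * pF X l' = pF X l' * R g := by
    rintro g (_ | ⟨x, b⟩)
    · exact hRs g
    · cases b
      · exact hRl g _
      · exact hRl g _
  rcases l with _ | ⟨x, b⟩
  · refine ⟨sr, ?_, hsv, ?_⟩
    · rintro (_ | ⟨x, b⟩)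
      · exact hss
      · cases b
        · exact hsl _
        · exact hsl _
    · have h1 : ContinuousLinearMap.adjoint sr = sr := hsa
      have h2 : ContinuousLinearMap.adjoint (pF X none) = pF X none := isSelfAdjoint_sF
      rw [h1, h2]
      exact hsv
  · cases b
    · refine ⟨R (FreeGroup.of x), hR _, ?_, ?_⟩
      · rw [hRv]
        rfl
      · rw [hRadj, hRv]
        show _ = ContinuousLinearMap.adjoint (lamF (FreeGroup.of x)⁻¹) vac
        rw [adjoint_lamF]
    · refine ⟨R (FreeGroup.of x)⁻¹, hR _, ?_, ?_⟩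
      · rw [hRv, inv_inv]
        rfl
      · rw [hRadj, hRv]
        show _ = ContinuousLinearMap.adjoint (lamF (FreeGroup.of x)) vac
        rw [adjoint_lamF, inv_inv]

theorem comm_ev {T : Ell (FI (FreeGroup X)) →L[ℂ] Ell (FI (FreeGroup X))}
    (hT : ∀ l' : Lt X, T * pF X l' = pF X l' * T) (w : List (Lt X)) :
    T * ev (pF X) w = ev (pF X) w * T := by
  induction w with
  | nil => simp [ev]
  | cons l w ih =>
    have e : ev (pF X) (l :: w) = pF X l * ev (pF X) w := by simp [ev]
    rw [e, ← mul_assoc, hT l, mul_assoc, ih, mul_assoc]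

theorem tr_one (l : Lt X) (w : List (Lt X)) :
    mom vac (pF X) (l :: w) = mom vac (pF X) (w ++ [l]) := by
  obtain ⟨T, hT, h1, h2⟩ := exists_right l
  have e1 : ev (pF X) (l :: w) = pF X l * ev (pF X) w := by simp [ev]
  have e2 : ev (pF X) (w ++ [l]) = ev (pF X) w * pF X l := by simp [ev]
  have e3 : (ev (pF X) w * pF X l) vac = T (ev (pF X) w vac) := by
    have e4 : (ev (pF X) w * pF X l) vac = (ev (pF X) w * T) vac := by
      show ev (pF X) w (pF X l vac) = ev (pF X) w (T vac)
      rw [h1]
    rw [e4, ← comm_ev hT]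
    rfl
  have e5 : (pF X l * ev (pF X) w) vac = pF X l (ev (pF X) w vac) := rfl
  unfold mom
  rw [e1, e2, e3, e5, ← ContinuousLinearMap.adjoint_inner_left (pF X l),
    ← ContinuousLinearMap.adjoint_inner_left T, h2]

theorem ev_some (L : List (X × Bool)) : ev (pF X) (L.map some) = lamF (FreeGroup.mk L) := by
  induction L with
  | nil =>
    have e : FreeGroup.mk ([] : List (X × Bool)) = 1 := rfl
    rw [e, lamF_one]
    rfl
  | cons x L ih =>
    have e : ev (pF X) ((x :: L).map some) = pF X (some x) * ev (pF X) (L.map some) := by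
      simp [ev]
    have e2 : FreeGroup.mk (x :: L) = FreeGroup.mk [x] * FreeGroup.mk L := by
      rw [FreeGroup.mul_mk]
      rfl
    rw [e, ih, e2, lamF_mul]
    congr 1
    obtain ⟨x, b⟩ := x
    cases b
    · show lamF (FreeGroup.of x)⁻¹ = _
      congr 1
    · rfl

end Z3a

theorem pF_tr (v w : List (Lt X)) : mom vac (pF X) (v ++ w) = mom vac (pF X) (w ++ v) := by
  induction v generalizing w with
  | nil => simp
  | cons l v ih =>
    rw [List.cons_append, Z3a.tr_one, List.append_assoc, ih (w ++ [l])]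
    simp

open Classical in
theorem pF_grp (L : List (X × Bool)) :
    mom vac (pF X) (L.map some) = if FreeGroup.mk L = 1 then 1 else 0 := by
  unfold mom
  rw [Z3a.ev_some]
  have h1 : (vac : Ell (FI (FreeGroup X))) = bas ((1 : FreeGroup X), ([] : List (FreeGroup X))) := rfl
  rw [h1, lamF_bas, mul_one]
  have h2 := orthonormal_iff_ite.1 (bas_orthonormal (G := FreeGroup X))
    ((1 : FreeGroup X), ([] : List (FreeGroup X))) (FreeGroup.mk L, ([] : List (FreeGroup X)))
  rw [h2]
  by_cases h : FreeGroup.mk L = 1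
  · rw [if_pos h, if_pos (by rw [h])]
  · rw [if_neg h, if_neg]
    intro hc
    exact h (Prod.ext_iff.1 hc).1.symm

end Pool.Agent.H667R3.FF
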