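import Mathlib
import Pool.Agent.H667R3.FF.Defs
import Pool.Agent.H667R3.FF.Z3a
import Pool.Agent.H667R3.FF.A7a

/-! Task Z3b (table h667b_tasks, shared note 777). -/

namespace Pool.Agent.H667R3.FF

open Pool.Agent.H667R2.FG
open scoped ComplexConjugate

variable {X : Type} [DecidableEq X]

namespace Z3bAux

theorem split_none {Y : Type} (w : List (Option Y)) :
    (∃ L : List Y, w = L.map some) ∨
    (∃ (L : List Y) (w' : List (Option Y)), w = L.map some ++ none :: w') := by
  induction w with
  | nil => exact Or.inl ⟨[], rfl⟩
  | cons a w ih =>
    cases a with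
    | none => exact Or.inr ⟨[], w, rfl⟩
    | some y =>
      rcases ih with ⟨L, hL⟩ | ⟨L, w', hL⟩
      · exact Or.inl ⟨y :: L, by simp [hL]⟩
      · exact Or.inr ⟨y :: L, w', by simp [hL]⟩

theorem ev_some (L : List (X × Bool)) :
    ev (pF X) (L.map some) = lamF (FreeGroup.mk L) := by
  induction L with
  | nil =>
    have h1 : FreeGroup.mk ([] : List (X × Bool)) = 1 := rfl
    rw [h1, lamF_one]
    exact ev_nil _
  | cons a L ih =>
    rw [List.map_cons, ev_cons, ih]
    have h1 : FreeGroup.mk (a :: L) = FreeGroup.mk [a] * FreeGroup.mk L := by
      rw [FreeGroup.mul_mk]; rfl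
    rw [h1, lamF_mul]
    congr 1
    rcases a with ⟨x, b⟩
    cases b with
    | true => rfl
    | false =>
      show lamF (FreeGroup.of x)⁻¹ = lamF (FreeGroup.mk [(x, false)])
      congr 1

variable (X) in
/-- abbreviation -/
noncomputable def MM (w : List (Lt X)) : ℂ := mom (vac (G := FreeGroup X)) (pF X) w

variable (X) in
/-- abbreviation -/
noncomputable def EE (w : List (Lt X)) : Ell (FI (FreeGroup X)) :=
  ev (pF X) w (vac (G := FreeGroup X))

/-- the right side -/
noncomputable def SS (w : List (Lt X)) : Ell (FI (FreeGroup X)) :=
  ((splits w).map fun t => if t.2.1.isNone then MM X t.1 • EE X t.2.2 else 0).sum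

theorem EE_append (v w : List (Lt X)) : EE X (v ++ w) = ev (pF X) v (EE X w) := by
  unfold EE
  rw [ev_append]; rfl

theorem MM_eq (w : List (Lt X)) : MM X w = inner ℂ (vac (G := FreeGroup X)) (EE X w) := rfl

theorem MM_tr (v w : List (Lt X)) : MM X (v ++ w) = MM X (w ++ v) := pF_tr v w

/-- sums over the splits of a word starting with a group word -/
theorem splits_left {V : Type} [AddCommMonoid V] (L : List (X × Bool)) (w : List (Lt X))
    (f : List (Lt X) → List (Lt X) → V) :
    ((splits (L.map some ++ w)).map fun t => if t.2.1.isNone then f t.1 t.2.2 else 0).sum =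
    ((splits w).map fun t => if t.2.1.isNone then f (L.map some ++ t.1) t.2.2 else 0).sum := by
  induction L generalizing f with
  | nil => rfl
  | cons a L ih =>
    rw [List.map_cons, List.cons_append, splits, List.map_cons, List.sum_cons, List.map_map]
    have h := ih (fun x y => f (some a :: x) y)
    simp only [Option.isNone_some, Bool.false_eq_true, if_false, zero_add]
    simpa [Function.comp_def] using h

theorem splits_right {V : Type} [AddCommMonoid V] (L : List (X × Bool)) (w : List (Lt X))
    (f : List (Lt X) → List (Lt X) → V) :
    ((splits (w ++ L.map some)).map fun t => if t.2.1.isNone then f t.1 t.2.2 else 0).sum =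
    ((splits w).map fun t => if t.2.1.isNone then f t.1 (t.2.2 ++ L.map some) else 0).sum := by
  rw [splits_append, List.map_append, List.sum_append, List.map_map, List.map_map]
  have h := splits_left L [] (fun x y => f (w ++ x) y)
  simp only [List.append_nil, splits, List.map_nil, List.sum_nil] at h
  have h2 : (List.map ((fun t : List (Lt X) × Lt X × List (Lt X) =>
      if t.2.1.isNone = true then f t.1 t.2.2 else 0) ∘
      fun t => (w ++ t.1, t.2.1, t.2.2)) (splits (L.map some))).sum = 0 := h
  rw [h2, add_zero]
  rfl

theorem sum_smul_map {H K : Type} [AddCommGroup H] [Module ℂ H] [AddCommGroup K] [Module ℂ K]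
    {α : Type} (T : H →ₗ[ℂ] K) (l : List α) (f : α → H) :
    T (l.map f).sum = (l.map fun a => T (f a)).sum := by
  rw [map_list_sum, List.map_map]; rfl

theorem ann_vac : annF (vac (G := FreeGroup X)) = 0 := ann_bas_nil (1 : FreeGroup X)

theorem MM_none (x : List (Lt X)) (hx : annF (EE X x) = SS x) :
    MM X (none :: x) =
      ((splits x).map fun t => if t.2.1.isNone then MM X t.1 * MM X t.2.2 else 0).sum := by
  have h1 : EE X (none :: x) = annF (EE X x) + ContinuousLinearMap.adjoint annF (EE X x) := by
    have : EE X (none :: x) = ev (pF X) [none] (EE X x) := EE_append [none] x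
    rw [this]
    have h2 : ev (pF X) [none] = sF := by
      rw [ev_cons, ev_nil, mul_one]; rfl
    rw [h2]; rfl
  rw [MM_eq, h1, inner_add_right, ContinuousLinearMap.adjoint_inner_right, ann_vac,
    inner_zero_left, add_zero, hx]
  unfold SS
  have h3 := sum_smul_map (innerSL ℂ (vac (G := FreeGroup X))).toLinearMap (splits x)
    (fun t => if t.2.1.isNone then MM X t.1 • EE X t.2.2 else 0)
  have h4 : ∀ y, (innerSL ℂ (vac (G := FreeGroup X))).toLinearMap y =
    inner ℂ (vac (G := FreeGroup X)) y := fun y => rfl
  rw [h4] at h3
  rw [h3]
  congr 1
  refine List.map_congr_left fun t _ => ?_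
  rw [h4]
  split_ifs
  · rw [inner_smul_right]; rfl
  · exact inner_zero_right _

theorem main (n : ℕ) : ∀ w : List (Lt X), w.length ≤ n → annF (EE X w) = SS w := by
  induction n with
  | zero =>
    intro w hw
    have : w = [] := List.length_eq_zero_iff.1 (Nat.le_zero.1 hw)
    subst this
    have h1 : EE X ([] : List (Lt X)) = vac := by
      unfold EE; rw [ev_nil]; rfl
    rw [h1, ann_vac]; rfl
  | succ n ih =>
    intro w hw
    rcases split_none w with ⟨L, rfl⟩ | ⟨L, w', rfl⟩
    · have h1 : EE X (L.map some) = bas (FreeGroup.mk L, []) := by
        unfold EE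
        rw [ev_some]
        have h2 := lamF_bas (FreeGroup.mk L) (1 : FreeGroup X) []
        rw [mul_one] at h2
        exact h2
      rw [h1, ann_bas_nil]
      unfold SS
      have h := splits_left L [] (fun x y => MM X x • EE X y)
      simp only [List.append_nil, splits, List.map_nil, List.sum_nil] at h
      exact h.symm
    · have hlen : L.length + w'.length ≤ n := by
        simp at hw; omega
      have hg : ∀ y : List (Lt X), EE X (L.map some ++ y) = lamF (FreeGroup.mk L) (EE X y) := by
        intro y; rw [EE_append, ev_some]
      have h0 : EE X (L.map some ++ none :: w') = lamF (FreeGroup.mk L) (annF (EE X w')) +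
          lamF (FreeGroup.mk L) (ContinuousLinearMap.adjoint annF (EE X w')) := by
        rw [hg, ← map_add]
        have h9 : EE X (none :: w') = annF (EE X w') +
            ContinuousLinearMap.adjoint annF (EE X w') := by
          have : EE X (none :: w') = ev (pF X) [none] (EE X w') := EE_append [none] w'
          rw [this]
          have h2 : ev (pF X) [none] = sF := by
            rw [ev_cons, ev_nil, mul_one]; rfl
          rw [h2]; rfl
        rw [h9]
      rw [h0, map_add]
      -- second term
      have h1 : annF (lamF (FreeGroup.mk L) (ContinuousLinearMap.adjoint annF (EE X w'))) =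
          MM X (L.map some) • EE X w' := by
        have h2 := ann_lam_cre (FreeGroup.mk L)
        have h3 : annF (lamF (FreeGroup.mk L) (ContinuousLinearMap.adjoint annF (EE X w'))) =
          (annF * lamF (FreeGroup.mk L) * ContinuousLinearMap.adjoint annF :
            Ell (FI (FreeGroup X)) →L[ℂ] Ell (FI (FreeGroup X))) (EE X w') := rfl
        rw [h3, h2]
        have h4 : MM X (L.map some) = _ := pF_grp L
        rw [h4]
        split_ifs
        · rw [one_smul]; rfl
        · rw [zero_smul]; rfl
      -- first term
      have hE : annF (lamF (FreeGroup.mk L) (annF (EE X w'))) =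
          ((splits w').map fun t => ((splits t.2.2).map fun s =>
            if t.2.1.isNone ∧ s.2.1.isNone then
              (MM X t.1 * MM X (L.map some ++ s.1)) • EE X s.2.2 else 0).sum).sum := by
        rw [ih w' (by omega)]
        unfold SS
        have h5 := sum_smul_map ((annF * lamF (FreeGroup.mk L)).toLinearMap) (splits w')
          (fun t => if t.2.1.isNone then MM X t.1 • EE X t.2.2 else 0)
        have h6 : ∀ y, ((annF * lamF (FreeGroup.mk L)).toLinearMap) y =
          annF (lamF (FreeGroup.mk L) y) := fun y => rfl
        rw [h6] at h5
        rw [h5]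
        congr 1
        refine List.map_congr_left fun t ht => ?_
        rw [h6]
        have ht2 : t.2.2.length < w'.length := by
          have := (mem_splits (w := w') (a := t.1) (l := t.2.1) (b := t.2.2)).1 ht
          rw [this]; simp; omega
        by_cases hn : t.2.1.isNone
        · simp only [hn, if_true, true_and]
          rw [map_smul, map_smul, ← hg, ih _ (by simp; omega)]
          unfold SS
          rw [splits_left L t.2.2 (fun x y => MM X x • EE X y)]
          have h7 := sum_smul_map ((MM X t.1) • (LinearMap.id : Ell (FI (FreeGroup X)) →ₗ[ℂ] _))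
            (splits t.2.2)
            (fun s => if s.2.1.isNone then MM X (L.map some ++ s.1) • EE X s.2.2 else 0)
          have h8 : ∀ y, ((MM X t.1) • (LinearMap.id : Ell (FI (FreeGroup X)) →ₗ[ℂ] _)) y =
            MM X t.1 • y := fun y => rfl
          rw [h8] at h7
          rw [h7]
          congr 1
          refine List.map_congr_left fun s _ => ?_
          rw [h8]
          split_ifs
          · rw [smul_smul]
          · exact smul_zero _
        · simp only [hn, Bool.false_eq_true, if_false, false_and]
          simp
      rw [h1, hE]
      -- right side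
      unfold SS
      rw [splits_left L (none :: w') (fun x y => MM X x • EE X y)]
      rw [splits, List.map_cons, List.sum_cons, List.map_map]
      simp only [Option.isNone_none, if_true, List.append_nil]
      rw [add_comm]
      congr 1
      rw [splits_exchange w' (fun a l b l' c => if l.isNone ∧ l'.isNone then
        (MM X a * MM X (L.map some ++ b)) • EE X c else 0)]
      congr 1
      refine List.map_congr_left fun t ht => ?_
      have ht2 : t.1.length < w'.length := by
        have := (mem_splits (w := w') (a := t.1) (l := t.2.1) (b := t.2.2)).1 ht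
        rw [this]; simp
      simp only [Function.comp_apply]
      by_cases hn : t.2.1.isNone
      · simp only [hn, if_true, and_true]
        have h9 : MM X (L.map some ++ none :: t.1) =
            ((splits t.1).map fun s => if s.2.1.isNone then
              MM X s.1 * MM X (L.map some ++ s.2.2) else 0).sum := by
          rw [MM_tr, List.cons_append, MM_none _ (ih _ (by simp; omega)),
            splits_right L t.1 (fun x y => MM X x * MM X y)]
          congr 1
          refine List.map_congr_left fun s _ => ?_
          rw [MM_tr s.2.2]
        rw [h9, ← LinearMap.toSpanSingleton_apply (R := ℂ), sum_smul_map]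
        congr 1
        refine List.map_congr_left fun s _ => ?_
        rw [LinearMap.toSpanSingleton_apply]
        split_ifs
        · rfl
        · exact (zero_smul _ _).symm
      · simp only [hn, Bool.false_eq_true, if_false, and_false]
        simp

end Z3bAux

open Z3bAux in
/-- `a w Ω = ∑ τ(w₁) w₂ Ω` over the splits `w = w₁ ++ s :: w₂` -/
theorem pF_ann (w : List (Lt X)) : annF (ev (pF X) w vac) =
    ((splits w).map fun t => if t.2.1.isNone then
      mom vac (pF X) t.1 • ev (pF X) t.2.2 (vac (G := FreeGroup X)) else 0).sum :=
  Z3bAux.main w.length w le_rfl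

open Z3bAux in
theorem pF_std : StdLaw (mom (vac (G := FreeGroup X)) (pF X)) where
  tr := pF_tr
  grp := fun L => by
    rw [pF_grp L]
    by_cases h : FreeGroup.mk L = 1
    · rw [if_pos h, if_pos h]
    · rw [if_neg h, if_neg h]
  sd := fun w => MM_none w (pF_ann w)

end Pool.Agent.H667R3.FF
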