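import Mathlib
import Pool.Agent.H667R3.FF.Defs
import Pool.Agent.H667R3.FF.Z1
import Pool.Agent.H667R3.FF.A1

/-! Task Z3c (table h667b_tasks, shared note 777): density of the polynomial vectors (helper218). -/

namespace Pool.Agent.H667R3.FF

open Pool.Agent.H667R2.FG
open scoped ComplexConjugate

variable {X : Type} [DecidableEq X]

/-- the span of the vectors `ev (pF X) w vac` -/
noncomputable def Z3cS (X : Type) : Submodule ℂ (Ell (FI (FreeGroup X))) :=
  Submodule.span ℂ (Set.range fun w : List (Lt X) => ev (pF X) w vac)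

theorem Z3c_letter (l : Lt X) {v : Ell (FI (FreeGroup X))} (hv : v ∈ Z3cS X) :
    pF X l v ∈ Z3cS X := by
  have h : Z3cS X ≤ (Z3cS X).comap (pF X l).toLinearMap := by
    unfold Z3cS
    rw [Submodule.span_le]
    rintro _ ⟨w, rfl⟩
    refine Submodule.subset_span ⟨l :: w, ?_⟩
    show ev (pF X) (l :: w) vac = pF X l (ev (pF X) w vac)
    rw [ev_cons]
    rfl
  exact h hv

theorem Z3c_lam (g : FreeGroup X) : ∀ v : Ell (FI (FreeGroup X)), v ∈ Z3cS X →
    lamF g v ∈ Z3cS X := by
  induction g using FreeGroup.induction_on with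
  | C1 =>
    intro v hv
    rw [lamF_one]
    exact hv
  | of x =>
    intro v hv
    exact Z3c_letter (some (x, true)) hv
  | inv_of x _ =>
    intro v hv
    exact Z3c_letter (some (x, false)) hv
  | mul x y hx hy =>
    intro v hv
    rw [lamF_mul]
    exact hx _ (hy _ hv)

theorem Z3c_vac_eq : (vac : Ell (FI (FreeGroup X))) = bas (1, []) := rfl

theorem Z3c_bas (n : ℕ) : ∀ (t : List (FreeGroup X)), t.length ≤ n → ∀ g₀ : FreeGroup X,
    (bas (g₀, t) : Ell (FI (FreeGroup X))) ∈ Z3cS X := by
  have h0 : ∀ g₀ : FreeGroup X, (bas (g₀, []) : Ell (FI (FreeGroup X))) ∈ Z3cS X := by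
    intro g₀
    have h1 : (bas (1, []) : Ell (FI (FreeGroup X))) ∈ Z3cS X := by
      refine Submodule.subset_span ⟨[], ?_⟩
      show ev (pF X) [] vac = bas (1, [])
      rw [ev_nil, ← Z3c_vac_eq]
      rfl
    have h2 := Z3c_lam g₀ _ h1
    rwa [lamF_bas, mul_one] at h2
  induction n with
  | zero =>
    intro t ht g₀
    rw [List.length_eq_zero_iff.1 (Nat.le_zero.1 ht)]
    exact h0 g₀
  | succ n ih =>
    intro t ht g₀
    cases t with
    | nil => exact h0 g₀
    | cons g₁ t =>
      have ht' : t.length ≤ n := by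
        rw [List.length_cons] at ht; omega
      have h1 := ih t ht' g₁
      have h2 : sF (bas (g₁, t)) ∈ Z3cS X := Z3c_letter none h1
      have h3 : annF (bas (g₁, t)) ∈ Z3cS X := by
        cases t with
        | nil => rw [ann_bas_nil]; exact Submodule.zero_mem _
        | cons g₂ t =>
          rw [ann_bas_cons]
          split_ifs
          · refine ih t ?_ g₂
            rw [List.length_cons] at ht'; omega
          · exact Submodule.zero_mem _
      have h4 : (bas (1, g₁ :: t) : Ell (FI (FreeGroup X))) ∈ Z3cS X := by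
        rw [← cre_bas]
        have e : ContinuousLinearMap.adjoint annF (bas (g₁, t)) =
            sF (bas (g₁, t)) - annF (bas (g₁, t)) := by
          unfold sF
          rw [ContinuousLinearMap.add_apply, add_sub_cancel_left]
        rw [e]
        exact Submodule.sub_mem _ h2 h3
      have h5 := Z3c_lam g₀ _ h4
      rwa [lamF_bas, mul_one] at h5

theorem pF_dense (ξ : Ell (FI (FreeGroup X))) (ε : ℝ) (hε : 0 < ε) :
    ∃ R : List (Lt X) →₀ ℂ, ‖ξ - (R.sum fun w c => c • ev (pF X) w) vac‖ < ε := by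
  have h1 : (Z3cS X).topologicalClosure = ⊤ := by
    rw [eq_top_iff, ← bas_dense]
    refine Submodule.topologicalClosure_mono (Submodule.span_le.2 ?_)
    rintro _ ⟨⟨g₀, t⟩, rfl⟩
    exact Z3c_bas t.length t le_rfl g₀
  have h2 : ξ ∈ closure (Z3cS X : Set (Ell (FI (FreeGroup X)))) := by
    rw [← Submodule.topologicalClosure_coe, h1]
    trivial
  obtain ⟨b, hb, hd⟩ := Metric.mem_closure_iff.1 h2 ε hε
  obtain ⟨R, hR⟩ := Finsupp.mem_span_range_iff_exists_finsupp.1 hb
  refine ⟨R, ?_⟩
  have h3 : (R.sum fun w c => c • ev (pF X) w) vac = b := by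
    rw [← hR, Finsupp.sum, Finsupp.sum, ContinuousLinearMap.sum_apply]
    rfl
  rw [h3, ← dist_eq_norm]
  exact hd

end Pool.Agent.H667R3.FF
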