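import Mathlib
import Pool.Agent.H667R3.FF.Defs
import Pool.Agent.H667R3.FF.Z1

/-! Task Z4a (table h667b_tasks, shared note 777). -/

namespace Pool.Agent.H667R3.FF

open Pool.Agent.H667R2.FG
open scoped ComplexConjugate

variable {G : Type} [Group G]

theorem cheb_zero : cheb 0 = 1 := by
  simp [cheb]

theorem cheb_one : cheb 1 = Polynomial.X := by
  simp only [cheb, Nat.cast_one, Polynomial.Chebyshev.U_one]
  rw [Polynomial.mul_comp, Polynomial.X_comp]
  have h : (2 : Polynomial ℂ) = Polynomial.C 2 := (map_ofNat Polynomial.C 2).symm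
  rw [h, Polynomial.C_comp, ← mul_assoc, ← Polynomial.C_mul]
  norm_num

theorem cheb_rec (n : ℕ) : cheb (n + 2) = Polynomial.X * cheb (n + 1) - cheb n := by
  have h1 := Polynomial.Chebyshev.U_add_two ℂ (n : ℤ)
  have h : (2 : Polynomial ℂ) = Polynomial.C 2 := (map_ofNat Polynomial.C 2).symm
  have h2 : (Polynomial.C (2 : ℂ)) * (Polynomial.C (1 / 2) * Polynomial.X) = Polynomial.X := by
    rw [← mul_assoc, ← Polynomial.C_mul]
    norm_num
  simp only [cheb, Nat.cast_add, Nat.cast_ofNat, Nat.cast_one]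
  rw [h1, Polynomial.sub_comp, Polynomial.mul_comp, Polynomial.mul_comp, Polynomial.X_comp, h,
    Polynomial.C_comp, h2]

theorem Z4a_sF_crI (y : FI G) :
    sF (bas (crI y)) = bas y + bas (crI (crI y)) := by
  obtain ⟨a, b⟩ := y
  show annF (bas (1, a :: b)) + ContinuousLinearMap.adjoint annF (bas (1, a :: b)) = _
  rw [ann_bas_cons, if_pos rfl, cre_bas]
  rfl

/-- `U_n(s) e_{(g₀,t)} = e_{(1,…,1,g₀,t)}` (`n` ones) if `g₀ ≠ 1` or `t = []` -/
theorem cheb_bas (n : ℕ) (g₀ : G) (t : List G) (h : g₀ ≠ 1 ∨ t = []) :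
    (Polynomial.aeval (sF (G := G)) (cheb n)) (bas (g₀, t)) =
      bas (crI^[n] (g₀, t)) := by
  have h1 : sF (bas (g₀, t)) = bas (crI (g₀, t)) := by
    show annF (bas (g₀, t)) + ContinuousLinearMap.adjoint annF (bas (g₀, t)) = _
    have h2 : annF (bas (g₀, t)) = 0 := by
      cases t with
      | nil => exact ann_bas_nil g₀
      | cons g₁ t =>
        rw [ann_bas_cons, if_neg]
        rcases h with h | h
        · exact h
        · exact absurd h (by simp)
    rw [h2, cre_bas, zero_add]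
    rfl
  suffices H : ∀ n : ℕ, (Polynomial.aeval (sF (G := G)) (cheb n)) (bas (g₀, t)) =
      bas (crI^[n] (g₀, t)) ∧ (Polynomial.aeval (sF (G := G)) (cheb (n + 1))) (bas (g₀, t)) =
      bas (crI^[n + 1] (g₀, t)) from (H n).1
  intro n
  induction n with
  | zero =>
    refine ⟨?_, ?_⟩
    · rw [cheb_zero, map_one]
      rfl
    · rw [zero_add, cheb_one, Polynomial.aeval_X, h1]
      rfl
  | succ n ih =>
    refine ⟨ih.2, ?_⟩
    have e0 : Polynomial.aeval (sF (G := G)) (cheb (n + 1 + 1)) =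
        sF * Polynomial.aeval (sF (G := G)) (cheb (n + 1)) -
          Polynomial.aeval (sF (G := G)) (cheb n) := by
      rw [cheb_rec, map_sub, map_mul, Polynomial.aeval_X]
    have e1 : (Polynomial.aeval (sF (G := G)) (cheb (n + 1 + 1))) (bas (g₀, t)) =
        sF (((Polynomial.aeval (sF (G := G))) (cheb (n + 1))) (bas (g₀, t))) -
        ((Polynomial.aeval (sF (G := G))) (cheb n)) (bas (g₀, t)) := by
      rw [e0]
      rfl
    rw [e1, ih.1, ih.2, Function.iterate_succ_apply', Z4a_sF_crI, Function.iterate_succ_apply',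
      Function.iterate_succ_apply']
    abel

end Pool.Agent.H667R3.FF
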