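import Mathlib
import Pool.Agent.H667R3.FF.Defs
import Pool.Agent.H667R3.FF.Z4a

/-! Task Z4b (table h667b_tasks, shared note 777). Replace every `sorry`; keep the statements. -/

namespace Pool.Agent.H667R3.FF

open Pool.Agent.H667R2.FG
open scoped ComplexConjugate

variable {G : Type} [Group G]

private theorem Z4b_trig (n : ℕ) :
    ∫ θ in (0 : ℝ)..Real.pi, 2 / Real.pi * (Real.sin ((n + 1) * θ) * Real.sin θ) =
      if n = 0 then 1 else 0 := by
  have hpi : Real.pi ≠ 0 := Real.pi_ne_zero
  have h1 : ∀ θ : ℝ, 2 / Real.pi * (Real.sin ((n + 1) * θ) * Real.sin θ) =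
      Real.pi⁻¹ * (Real.cos ((n : ℝ) * θ) - Real.cos (((n : ℝ) + 2) * θ)) := by
    intro θ
    have h2 : Real.cos ((n : ℝ) * θ) = Real.cos ((n + 1) * θ - θ) := by congr 1; ring
    have h3 : Real.cos (((n : ℝ) + 2) * θ) = Real.cos ((n + 1) * θ + θ) := by congr 1; ring
    rw [h2, h3, Real.cos_sub, Real.cos_add]
    field_simp
    ring
  simp only [h1]
  rw [intervalIntegral.integral_const_mul, intervalIntegral.integral_sub]
  · have h4 : ∀ k : ℕ, k ≠ 0 → ∫ θ in (0 : ℝ)..Real.pi, Real.cos ((k : ℝ) * θ) = 0 := by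
      intro k hk
      rw [intervalIntegral.integral_comp_mul_left (fun x => Real.cos x) (by exact_mod_cast hk)]
      rw [integral_cos, Real.sin_nat_mul_pi]
      simp
    have h5 : ∫ θ in (0 : ℝ)..Real.pi, Real.cos (((n : ℝ) + 2) * θ) = 0 := by
      have := h4 (n + 2) (by omega)
      push_cast at this
      exact this
    rw [h5, sub_zero]
    by_cases hn : n = 0
    · subst hn
      simp
    · rw [h4 n hn, if_neg hn, mul_zero]
  · exact (Continuous.intervalIntegrable (by fun_prop) _ _)
  · exact (Continuous.intervalIntegrable (by fun_prop) _ _)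

private theorem Z4b_crI_iter (n : ℕ) (x : FI G) (h : crI^[n] x = ((1 : G), ([] : List G))) :
    n = 0 := by
  rcases n with _ | n
  · rfl
  · rw [Function.iterate_succ_apply'] at h
    have := congrArg Prod.snd h
    simp [crI] at this

private theorem Z4b_left (n : ℕ) : inner ℂ (vac (G := G))
    ((Polynomial.aeval (sF (G := G)) (cheb n)) vac) = if n = 0 then 1 else 0 := by
  have h0 : (vac : Ell (FI G)) = bas ((1 : G), ([] : List G)) := rfl
  rw [h0, cheb_bas n 1 [] (Or.inr rfl)]
  by_cases hn : n = 0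
  · subst hn
    simp only [Function.iterate_zero, id_eq, if_true]
    rw [inner_self_eq_norm_sq_to_K, (bas_orthonormal (G := G)).norm_eq_one]
    simp
  · rw [if_neg hn]
    exact (bas_orthonormal (G := G)).inner_eq_zero fun h => hn (Z4b_crI_iter n _ h.symm)

private theorem Z4b_right (n : ℕ) :
    ∫ θ in (0 : ℝ)..Real.pi, (cheb n).eval ((2 * Real.cos θ : ℝ) : ℂ) *
      ((2 / Real.pi * Real.sin θ ^ 2 : ℝ) : ℂ) = if n = 0 then 1 else 0 := by
  have h1 : ∀ θ : ℝ, (cheb n).eval ((2 * Real.cos θ : ℝ) : ℂ) *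
      ((2 / Real.pi * Real.sin θ ^ 2 : ℝ) : ℂ) =
      ((2 / Real.pi * (Real.sin ((n + 1) * θ) * Real.sin θ) : ℝ) : ℂ) := by
    intro θ
    have h2 : (cheb n).eval ((2 * Real.cos θ : ℝ) : ℂ) =
        (Polynomial.Chebyshev.U ℂ n).eval (Complex.cos θ) := by
      unfold cheb
      rw [Polynomial.eval_comp]
      congr 1
      simp only [Polynomial.eval_mul, Polynomial.eval_C, Polynomial.eval_X]
      push_cast
      ring
    have h3 := Polynomial.Chebyshev.U_complex_cos (θ : ℂ) (n : ℤ)
    push_cast at h3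
    rw [h2]
    push_cast
    rw [← h3]
    ring
  simp only [h1]
  rw [intervalIntegral.integral_ofReal, Z4b_trig]
  split_ifs <;> simp

private theorem Z4b_span (P : Polynomial ℂ → Prop) (hadd : ∀ p q, P p → P q → P (p + q))
    (hsmul : ∀ (c : ℂ) p, P p → P (c • p)) (hch : ∀ n, P (cheb n)) (q : Polynomial ℂ) : P q := by
  have h0 : P 0 := by
    have := hsmul 0 _ (hch 0)
    rwa [zero_smul] at this
  let W : Submodule ℂ (Polynomial ℂ) := Submodule.span ℂ (Set.range cheb)
  have hW : ∀ p ∈ W, P p := by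
    intro p hp
    induction hp using Submodule.span_induction with
    | mem x hx => obtain ⟨n, rfl⟩ := hx; exact hch n
    | zero => exact h0
    | add x y _ _ hx hy => exact hadd x y hx hy
    | smul c x _ hx => exact hsmul c x hx
  have hmem : ∀ n, cheb n ∈ W := fun n => Submodule.subset_span ⟨n, rfl⟩
  have hX : ∀ p ∈ W, Polynomial.X * p ∈ W := by
    intro p hp
    induction hp using Submodule.span_induction with
    | mem x hx =>
      obtain ⟨n, rfl⟩ := hx
      rcases n with _ | n
      · rw [cheb_zero, mul_one, ← cheb_one]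
        exact hmem 1
      · have h1 : Polynomial.X * cheb (n + 1) = cheb (n + 2) + cheb n := by
          rw [cheb_rec n]; ring
        rw [h1]
        exact W.add_mem (hmem _) (hmem _)
    | zero => rw [mul_zero]; exact W.zero_mem
    | add x y _ _ hx hy => rw [mul_add]; exact W.add_mem hx hy
    | smul c x _ hx => rw [mul_smul_comm]; exact W.smul_mem c hx
  have hpow : ∀ n : ℕ, (Polynomial.X : Polynomial ℂ) ^ n ∈ W := by
    intro n
    induction n with
    | zero => rw [pow_zero, ← cheb_zero]; exact hmem 0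
    | succ n ih => rw [pow_succ']; exact hX _ ih
  apply hW
  rw [q.as_sum_range_C_mul_X_pow]
  refine W.sum_mem fun i _ => ?_
  rw [← Polynomial.smul_eq_C_mul]
  exact W.smul_mem _ (hpow i)

/-- the moments of `s` are those of the semicircle law -/
theorem sF_integral (q : Polynomial ℂ) : inner ℂ (vac (G := G))
    ((Polynomial.aeval (sF (G := G)) q) vac) =
    ∫ θ in (0 : ℝ)..Real.pi, q.eval ((2 * Real.cos θ : ℝ) : ℂ) *
      ((2 / Real.pi * Real.sin θ ^ 2 : ℝ) : ℂ) := by
  refine Z4b_span (fun q => inner ℂ (vac (G := G)) ((Polynomial.aeval (sF (G := G)) q) vac) =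
    ∫ θ in (0 : ℝ)..Real.pi, q.eval ((2 * Real.cos θ : ℝ) : ℂ) *
      ((2 / Real.pi * Real.sin θ ^ 2 : ℝ) : ℂ)) ?_ ?_ ?_ q
  · intro p q hp hq
    rw [map_add, ContinuousLinearMap.add_apply, inner_add_right, hp, hq,
      ← intervalIntegral.integral_add]
    · refine intervalIntegral.integral_congr fun θ _ => ?_
      simp only [Polynomial.eval_add]
      ring
    · exact Continuous.intervalIntegrable (by fun_prop) _ _
    · exact Continuous.intervalIntegrable (by fun_prop) _ _
  · intro c p hp
    rw [map_smul, ContinuousLinearMap.smul_apply, inner_smul_right, hp,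
      ← intervalIntegral.integral_const_mul]
    refine intervalIntegral.integral_congr fun θ _ => ?_
    simp only [Polynomial.eval_smul, smul_eq_mul]
    ring
  · intro n
    rw [Z4b_left, Z4b_right]

/-- `‖s‖ ≤ 2` -/
theorem norm_sF_le : ‖(sF : Ell (FI G) →L[ℂ] Ell (FI G))‖ ≤ 2 := by
  have h1 : ‖(annF : Ell (FI G) →L[ℂ] Ell (FI G))‖ ≤ 1 := by
    unfold annF compOp
    exact LinearMap.mkContinuous_norm_le _ zero_le_one _
  have h2 : ‖ContinuousLinearMap.adjoint (annF : Ell (FI G) →L[ℂ] Ell (FI G))‖ ≤ 1 := by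
    rw [LinearIsometryEquiv.norm_map]
    exact h1
  unfold sF
  refine (norm_add_le _ _).trans ?_
  linarith

end Pool.Agent.H667R3.FF
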