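import Mathlib
import Pool.Agent.H667R3.FF.Defs

/-! Task Z5a (table h667b_tasks, shared note 777): approximation by trigonometric polynomials in
`2θ - sin 2θ`. -/

namespace Pool.Agent.H667R3.FF

open Pool.Agent.H667R2.FG MeasureTheory Set
open scoped ComplexConjugate

/-- the function `2θ - sin 2θ` -/
noncomputable def z5a_phi (t : ℝ) : ℝ := 2 * t - Real.sin (2 * t)

theorem z5a_deriv (t : ℝ) : HasDerivAt z5a_phi (4 * Real.sin t ^ 2) t := by
  have h1 : HasDerivAt (fun x : ℝ => 2 * x) 2 t := by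
    simpa using (hasDerivAt_id t).const_mul 2
  have h2 : HasDerivAt (fun x : ℝ => Real.sin (2 * x)) (Real.cos (2 * t) * 2) t := h1.sin
  have h3 := h1.sub h2
  have e : (2 : ℝ) - Real.cos (2 * t) * 2 = 4 * Real.sin t ^ 2 := by
    rw [Real.cos_two_mul, Real.cos_sq']
    ring
  rw [e] at h3
  exact h3

theorem z5a_cont : Continuous z5a_phi := by
  unfold z5a_phi
  fun_prop

theorem z5a_strict : StrictMono z5a_phi := by
  intro a b hab
  unfold z5a_phi
  have h : Real.sin (2 * b) - Real.sin (2 * a) < 2 * b - 2 * a := by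
    have h1 : Real.sin (2 * b) - Real.sin (2 * a) =
        2 * Real.sin (b - a) * Real.cos (b + a) := by
      rw [Real.sin_sub_sin]
      congr 2 <;> ring_nf
    rw [h1]
    have h4 := Real.cos_le_one (b + a)
    have h5 := Real.neg_one_le_cos (b + a)
    have h6 : |Real.sin (b - a) * Real.cos (b + a)| ≤ |Real.sin (b - a)| := by
      rw [abs_mul]
      have : |Real.cos (b + a)| ≤ 1 := abs_le.mpr ⟨h5, h4⟩
      calc |Real.sin (b - a)| * |Real.cos (b + a)| ≤ |Real.sin (b - a)| * 1 :=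
            mul_le_mul_of_nonneg_left this (abs_nonneg _)
        _ = _ := mul_one _
    have h7 : |Real.sin (b - a)| < b - a := by
      have h := Real.abs_sin_lt_abs (x := b - a) (by linarith)
      rwa [abs_of_pos (by linarith : 0 < b - a)] at h
    have h8 := le_abs_self (Real.sin (b - a) * Real.cos (b + a))
    nlinarith
  linarith

theorem z5a_surj : Function.Surjective z5a_phi := by
  refine z5a_cont.surjective ?_ ?_
  · refine Filter.tendsto_atTop_mono (f := fun x : ℝ => 2 * x - 1) ?_ ?_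
    · intro x
      unfold z5a_phi
      have := Real.sin_le_one (2 * x)
      linarith
    · exact Filter.tendsto_atTop_add_const_right _ _
        (Filter.tendsto_id.const_mul_atTop (by norm_num))
  · have h1 : Filter.Tendsto (fun x : ℝ => 2 * x + 1) Filter.atBot Filter.atBot :=
      Filter.tendsto_atBot_add_const_right _ _
        (Filter.tendsto_id.const_mul_atBot (by norm_num))
    refine Filter.tendsto_atBot_mono ?_ h1
    intro x
    unfold z5a_phi
    have := Real.neg_one_le_sin (2 * x)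
    linarith

/-- `φ` as an order isomorphism -/
noncomputable def z5a_iso : ℝ ≃o ℝ := z5a_strict.orderIsoOfSurjective _ z5a_surj

theorem z5a_sum {T : ℝ} [hT : Fact (0 < T)] (a : ℤ → ℂ) (s : Finset ℤ) :
    ⇑(∑ k ∈ s, a k • fourierLp 2 k : Lp ℂ 2 (@AddCircle.haarAddCircle T hT))
      =ᵐ[AddCircle.haarAddCircle] fun t => ∑ k ∈ s, a k * fourier k t := by
  induction s using Finset.induction_on with
  | empty =>
    simp only [Finset.sum_empty]
    exact Lp.coeFn_zero _ _ _
  | insert k s hk ih =>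
    rw [Finset.sum_insert hk]
    filter_upwards [Lp.coeFn_add (a k • fourierLp 2 k) (∑ k ∈ s, a k • fourierLp 2 k :
      Lp ℂ 2 (@AddCircle.haarAddCircle T hT)), Lp.coeFn_smul (a k)
      (fourierLp 2 k : Lp ℂ 2 (@AddCircle.haarAddCircle T hT)), coeFn_fourierLp (T := T) 2 k, ih]
      with t h1 h2 h3 h4
    rw [h1, Pi.add_apply, h2, Pi.smul_apply, h3, h4, Finset.sum_insert hk, smul_eq_mul]

/-- density of trigonometric polynomials in `L²(0, 2π)`, for continuous functions -/
theorem z5a_fourier (G : ℝ → ℂ) (hG : Continuous G) (ε : ℝ) (hε : 0 < ε) : ∃ c : ℤ →₀ ℂ,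
    ∫ x in (0 : ℝ)..(2 * Real.pi),
      ‖G x - c.sum (fun k a => a * Complex.exp (Complex.I * (k * (x : ℝ))))‖ ^ 2 *
        (1 / (2 * Real.pi)) < ε := by
  have hpi := Real.pi_pos
  have hT : Fact (0 < 2 * Real.pi) := ⟨by positivity⟩
  have hL2 : MemLp G 2 (volume.restrict (Ioc 0 (0 + 2 * Real.pi))) := by
    obtain ⟨C, hC⟩ := isCompact_Icc.exists_bound_of_continuousOn (f := G)
      (s := Icc 0 (0 + 2 * Real.pi)) hG.continuousOn
    refine MemLp.of_bound hG.aestronglyMeasurable C ?_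
    exact (ae_restrict_iff' measurableSet_Ioc).mpr
      (Filter.Eventually.of_forall fun x hx => hC x (Ioc_subset_Icc_self hx))
  have h := hL2.memLp_liftIoc.haarAddCircle
  have hs := hasSum_fourier_series_L2 h.toLp
  have hs2 := (Metric.tendsto_nhds.mp hs (Real.sqrt ε) (Real.sqrt_pos.mpr hε)).exists
  obtain ⟨s, hs3⟩ := hs2
  rw [dist_comm, dist_eq_norm] at hs3
  refine ⟨Finsupp.onFinset s (fun k => if k ∈ s then fourierCoeff (h.toLp) k else 0) (by
    intro k hk
    by_contra hks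
    simp [hks] at hk), ?_⟩
  set D : Lp ℂ 2 (@AddCircle.haarAddCircle (2 * Real.pi) hT) :=
    h.toLp - ∑ k ∈ s, fourierCoeff (h.toLp) k • fourierLp 2 k with hD
  have hn : ‖D‖ ^ 2 < ε := by
    have h0 : 0 ≤ ‖D‖ := norm_nonneg _
    calc ‖D‖ ^ 2 < (Real.sqrt ε) ^ 2 := by gcongr
      _ = ε := Real.sq_sqrt hε.le
  have hint : ‖D‖ ^ 2 = ∫ t, ‖D t‖ ^ 2 ∂(@AddCircle.haarAddCircle (2 * Real.pi) hT) := by
    have H₃ := congr_arg RCLike.re (@L2.inner_def (AddCircle (2 * Real.pi)) ℂ ℂ _ _ _ _ _ D D)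
    rw [← integral_re] at H₃
    · simp only [← norm_sq_eq_re_inner] at H₃
      exact H₃
    · exact L2.integrable_inner D D
  have hae : (fun t => ‖D t‖ ^ 2) =ᵐ[@AddCircle.haarAddCircle (2 * Real.pi) hT]
      fun t => ‖AddCircle.liftIoc (2 * Real.pi) 0 G t -
        ∑ k ∈ s, fourierCoeff (h.toLp) k * fourier k t‖ ^ 2 := by
    have h1 := Lp.coeFn_sub h.toLp (∑ k ∈ s, fourierCoeff (h.toLp) k • fourierLp 2 k)
    have h2 := h.coeFn_toLp
    have h3 : ⇑(∑ k ∈ s, fourierCoeff (h.toLp) k • fourierLp 2 k :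
        Lp ℂ 2 (@AddCircle.haarAddCircle (2 * Real.pi) hT)) =ᵐ[AddCircle.haarAddCircle]
        fun t => ∑ k ∈ s, fourierCoeff (h.toLp) k * fourier k t :=
      z5a_sum _ s
    filter_upwards [h1, h2, h3] with t h1 h2 h3
    rw [hD, h1, Pi.sub_apply, h2, h3]
  rw [hint, integral_congr_ae hae, AddCircle.integral_haarAddCircle,
    ← AddCircle.intervalIntegral_preimage (2 * Real.pi) 0, zero_add, smul_eq_mul,
    ← intervalIntegral.integral_const_mul] at hn
  refine lt_of_le_of_lt (le_of_eq ?_) hn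
  refine intervalIntegral.integral_congr_ae (Filter.Eventually.of_forall fun x hx => ?_)
  rw [uIoc_of_le (by positivity)] at hx
  rw [AddCircle.liftIoc_coe_apply (by rwa [zero_add])]
  have e : (Finsupp.onFinset s (fun k => if k ∈ s then fourierCoeff (h.toLp) k else 0) (by
      intro k hk
      by_contra hks
      simp [hks] at hk)).sum (fun k a => a * Complex.exp (Complex.I * (k * (x : ℝ)))) =
      ∑ k ∈ s, fourierCoeff (h.toLp) k * fourier k (x : AddCircle (2 * Real.pi)) := by
    rw [Finsupp.onFinset_sum _ (by intro k; simp)]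
    refine Finset.sum_congr rfl fun k hk => ?_
    rw [if_pos hk, fourier_coe_apply]
    congr 2
    have : (2 * (Real.pi : ℂ)) ≠ 0 := by
      simp [Real.pi_ne_zero]
    push_cast
    field_simp
  rw [e]
  ring

theorem trig_approx (q : Polynomial ℂ) (ε : ℝ) (hε : 0 < ε) : ∃ c : ℤ →₀ ℂ,
    ∫ θ in (0 : ℝ)..Real.pi, ‖q.eval ((2 * Real.cos θ : ℝ) : ℂ) -
      c.sum (fun k a => a * Complex.exp (Complex.I * (k * (2 * θ - Real.sin (2 * θ) : ℝ))))‖ ^ 2 *
      (2 / Real.pi * Real.sin θ ^ 2) < ε := by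
  have hψ : Continuous z5a_iso.symm := z5a_iso.symm.continuous
  obtain ⟨c, hc⟩ := z5a_fourier (fun x => q.eval ((2 * Real.cos (z5a_iso.symm x) : ℝ) : ℂ))
    (by fun_prop) ε hε
  refine ⟨c, ?_⟩
  have hsub := intervalIntegral.integral_comp_mul_deriv (a := 0) (b := Real.pi)
    (f := z5a_phi) (f' := fun t => 4 * Real.sin t ^ 2)
    (g := fun x => ‖q.eval ((2 * Real.cos (z5a_iso.symm x) : ℝ) : ℂ) -
      c.sum (fun k a => a * Complex.exp (Complex.I * (k * (x : ℝ))))‖ ^ 2 * (1 / (2 * Real.pi)))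
    (fun x _ => z5a_deriv x) (by fun_prop) (by
      have : Continuous fun x : ℝ => c.sum (fun k a => a * Complex.exp (Complex.I * (k * (x : ℝ)))) := by
        unfold Finsupp.sum
        fun_prop
      fun_prop)
  have e0 : z5a_phi 0 = 0 := by simp [z5a_phi]
  have e1 : z5a_phi Real.pi = 2 * Real.pi := by simp [z5a_phi, Real.sin_two_pi]
  rw [e0, e1] at hsub
  rw [← hsub] at hc
  refine lt_of_le_of_lt (le_of_eq ?_) hc
  refine intervalIntegral.integral_congr (fun t _ => ?_)
  have e2 : z5a_iso.symm (z5a_phi t) = t := by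
    have : z5a_phi t = z5a_iso t := rfl
    rw [this, OrderIso.symm_apply_apply]
  simp only [Function.comp]
  rw [e2]
  have e3 : c.sum (fun k a => a * Complex.exp (Complex.I * (k * (z5a_phi t : ℝ)))) =
      c.sum (fun k a => a * Complex.exp (Complex.I * (k * (2 * t - Real.sin (2 * t) : ℝ)))) := rfl
  rw [e3]
  generalize ‖q.eval ((2 * Real.cos t : ℝ) : ℂ) -
      c.sum (fun k a => a * Complex.exp (Complex.I * (k * (2 * t - Real.sin (2 * t) : ℝ))))‖ ^ 2 = w
  have hpi := Real.pi_ne_zero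
  field_simp
  ring

end Pool.Agent.H667R3.FF
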