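import Mathlib
import Pool.Agent.H667R3.FF.Defs

/-! Task Z5b (table h667b_tasks, shared note 777). Replace every `sorry`; keep the statements. -/

namespace Pool.Agent.H667R3.FF

open Pool.Agent.H667R2.FG
open scoped ComplexConjugate

/-- orthogonality -/
theorem trig_orth (k : ℤ) (hk : k ≠ 0) :
    ∫ θ in (0 : ℝ)..Real.pi, Complex.exp (Complex.I * (k * (2 * θ - Real.sin (2 * θ) : ℝ))) *
      ((2 / Real.pi * Real.sin θ ^ 2 : ℝ) : ℂ) = 0 := by
  have hkc : (k : ℂ) ≠ 0 := by exact_mod_cast hk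
  have hpi : ((Real.pi : ℝ) : ℂ) ≠ 0 := by exact_mod_cast Real.pi_ne_zero
  have hI : Complex.I ≠ 0 := Complex.I_ne_zero
  have hd : ∀ θ ∈ Set.uIcc (0:ℝ) Real.pi, HasDerivAt
      (fun θ : ℝ => Complex.exp (Complex.I * (k * (2 * θ - Real.sin (2 * θ) : ℝ))) /
        (2 * Real.pi * Complex.I * k))
      (Complex.exp (Complex.I * (k * (2 * θ - Real.sin (2 * θ) : ℝ))) *
        ((2 / Real.pi * Real.sin θ ^ 2 : ℝ) : ℂ)) θ := by
    intro θ _
    have h1 : HasDerivAt (fun θ : ℝ => 2 * θ - Real.sin (2 * θ)) (4 * Real.sin θ ^ 2) θ := by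
      have h2 : HasDerivAt (fun θ : ℝ => 2 * θ) 2 θ := by
        simpa using (hasDerivAt_id θ).const_mul (2:ℝ)
      have h3 : HasDerivAt (fun θ : ℝ => 2 * θ - Real.sin (2 * θ)) (2 - Real.cos (2 * θ) * 2) θ :=
        h2.sub h2.sin
      have e : 2 - Real.cos (2 * θ) * 2 = 4 * Real.sin θ ^ 2 := by
        rw [Real.cos_two_mul, Real.cos_sq']
        ring
      rw [e] at h3
      exact h3
    have h4 := h1.ofReal_comp
    have h5 := ((h4.const_mul (k:ℂ)).const_mul Complex.I).cexp.div_const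
      (2 * Real.pi * Complex.I * k)
    refine h5.congr_deriv ?_
    push_cast
    field_simp
    ring
  rw [intervalIntegral.integral_eq_sub_of_hasDerivAt hd]
  · have e1 : Complex.exp (Complex.I * (k * (2 * Real.pi - Real.sin (2 * Real.pi) : ℝ))) = 1 := by
      rw [Real.sin_two_pi, sub_zero]
      have : Complex.I * (k * ((2 * Real.pi : ℝ) : ℂ)) = k * (2 * Real.pi * Complex.I) := by
        push_cast; ring
      rw [this]
      exact Complex.exp_int_mul_two_pi_mul_I k
    have e2 : Complex.exp (Complex.I * (k * (2 * 0 - Real.sin (2 * 0) : ℝ))) = 1 := by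
      simp
    rw [e1, e2, sub_self]
  · apply Continuous.intervalIntegrable
    fun_prop

end Pool.Agent.H667R3.FF
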