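import Mathlib
import Pool.Agent.H667R3.FF.Defs
import Pool.Agent.H667R3.FF.Z4b
import Pool.Agent.H667R3.FF.Z5a
import Pool.Agent.H667R3.FF.Z5b
import Pool.Agent.H667R3.FF.A10

/-! Task Z5c (table h667b_tasks, shared note 777). (helper680) -/

namespace Pool.Agent.H667R3.FF

open Pool.Agent.H667R2.FG
open scoped ComplexConjugate

namespace Z5c

section gen

variable {H : Type} [NormedAddCommGroup H] [InnerProductSpace ℂ H] [CompleteSpace H]

/-- functional calculus with functions of the real part -/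
noncomputable def Ph (s : H →L[ℂ] H) (G : ℝ → ℂ) : H →L[ℂ] H := cfc (fun z : ℂ => G z.re) s

variable {s : H →L[ℂ] H} (hs : IsSelfAdjoint s)

theorem cont_re {G : ℝ → ℂ} (hG : Continuous G) (S : Set ℂ) :
    ContinuousOn (fun z : ℂ => G z.re) S :=
  (hG.comp Complex.continuous_re).continuousOn

theorem Ph_mul {G₁ G₂ : ℝ → ℂ} (h₁ : Continuous G₁) (h₂ : Continuous G₂) :
    Ph s (fun x => G₁ x * G₂ x) = Ph s G₁ * Ph s G₂ := by
  unfold Ph
  exact cfc_mul (A := H →L[ℂ] H) (fun z : ℂ => G₁ z.re) (fun z : ℂ => G₂ z.re) s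
    (cont_re h₁ _) (cont_re h₂ _)

theorem Ph_sub {G₁ G₂ : ℝ → ℂ} (h₁ : Continuous G₁) (h₂ : Continuous G₂) :
    Ph s (fun x => G₁ x - G₂ x) = Ph s G₁ - Ph s G₂ :=
  cfc_sub (fun z : ℂ => G₁ z.re) (fun z : ℂ => G₂ z.re) s (cont_re h₁ _) (cont_re h₂ _)

theorem Ph_star (G : ℝ → ℂ) :
    Ph s (fun x => star (G x)) = star (Ph s G) :=
  cfc_star (fun z : ℂ => G z.re) s

include hs in
theorem Ph_pow {G : ℝ → ℂ} (h : Continuous G) (n : ℕ) :
    Ph s (fun x => G x ^ n) = Ph s G ^ n :=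
  cfc_pow (fun z : ℂ => G z.re) n s (cont_re h _) hs.isStarNormal

theorem Ph_smul {G : ℝ → ℂ} (h : Continuous G) (c : ℂ) :
    Ph s (fun x => c * G x) = c • Ph s G :=
  cfc_const_mul c (fun z : ℂ => G z.re) s (cont_re h _)

theorem Ph_sum {ι : Type} (t : Finset ι) (G : ι → ℝ → ℂ) (h : ∀ i, Continuous (G i)) :
    Ph s (fun x => ∑ i ∈ t, G i x) = ∑ i ∈ t, Ph s (G i) := by
  have := cfc_sum (fun i => fun z : ℂ => G i z.re) s t (fun i _ => cont_re (h i) _)
  unfold Ph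
  rw [← this]
  congr 1
  funext z
  rw [Finset.sum_apply]

include hs in
theorem Ph_poly (q : Polynomial ℂ) : Ph s (fun x => q.eval (x : ℂ)) = Polynomial.aeval s q := by
  rw [← cfc_polynomial q s hs.isStarNormal]
  refine cfc_congr fun z hz => ?_
  have h := hs.mem_spectrum_eq_re hz
  show q.eval ((z.re : ℝ) : ℂ) = q.eval z
  rw [← h]

include hs in
theorem Ph_id : Ph s (fun x => (x : ℂ)) = s := by
  have h := Ph_poly hs Polynomial.X
  simpa using h

include hs in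
theorem spec_re (hn : ‖s‖ ≤ 2) {z : ℂ} (hz : z ∈ spectrum ℂ s) : z.re ∈ Set.Icc (-2 : ℝ) 2 := by
  have _ := hs
  have h1 := spectrum.norm_le_norm_mul_of_mem hz
  have h2 : ‖(1 : H →L[ℂ] H)‖ ≤ 1 := ContinuousLinearMap.norm_id_le
  have h3 : ‖z‖ ≤ 2 := by
    calc ‖z‖ ≤ ‖s‖ * ‖(1 : H →L[ℂ] H)‖ := h1
      _ ≤ ‖s‖ * 1 := mul_le_mul_of_nonneg_left h2 (norm_nonneg _)
      _ ≤ 2 := by linarith
  have h4 := Complex.abs_re_le_norm z
  exact abs_le.1 (h4.trans h3)

/-- Weierstrass -/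
theorem weier {G : ℝ → ℂ} (hG : Continuous G) (ε : ℝ) (hε : 0 < ε) : ∃ q : Polynomial ℂ,
    ∀ x ∈ Set.Icc (-2 : ℝ) 2, ‖G x - q.eval (x : ℂ)‖ ≤ ε := by
  obtain ⟨p₁, h₁⟩ := exists_polynomial_near_of_continuousOn (-2) 2 (fun x => (G x).re)
    (Complex.continuous_re.comp hG).continuousOn (ε / 2) (by positivity)
  obtain ⟨p₂, h₂⟩ := exists_polynomial_near_of_continuousOn (-2) 2 (fun x => (G x).im)
    (Complex.continuous_im.comp hG).continuousOn (ε / 2) (by positivity)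
  refine ⟨p₁.map (algebraMap ℝ ℂ) + Polynomial.C Complex.I * p₂.map (algebraMap ℝ ℂ),
    fun x hx => ?_⟩
  have e : ∀ p : Polynomial ℝ, (p.map (algebraMap ℝ ℂ)).eval (x : ℂ) = ((p.eval x : ℝ) : ℂ) := by
    intro p
    rw [Polynomial.eval_map]
    exact Polynomial.eval₂_hom (algebraMap ℝ ℂ) x
  rw [Polynomial.eval_add, Polynomial.eval_mul, Polynomial.eval_C, e, e]
  have g1 := h₁ x hx
  have g2 := h₂ x hx
  have e2 : G x - (((p₁.eval x : ℝ) : ℂ) + Complex.I * ((p₂.eval x : ℝ) : ℂ)) =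
      (((G x).re - p₁.eval x : ℝ) : ℂ) + Complex.I * (((G x).im - p₂.eval x : ℝ) : ℂ) := by
    apply Complex.ext <;> simp
  rw [e2]
  refine (norm_add_le _ _).trans ?_
  rw [norm_mul, Complex.norm_I, one_mul, Complex.norm_real, Complex.norm_real, Real.norm_eq_abs,
    Real.norm_eq_abs]
  rw [abs_sub_comm] at g1 g2
  linarith

include hs in
theorem approx (hn : ‖s‖ ≤ 2) {G : ℝ → ℂ} (hG : Continuous G) (ε : ℝ) (hε : 0 < ε) :
    ∃ q : Polynomial ℂ, (∀ x ∈ Set.Icc (-2 : ℝ) 2, ‖G x - q.eval (x : ℂ)‖ ≤ ε) ∧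
      ‖Ph s G - Polynomial.aeval s q‖ ≤ ε := by
  obtain ⟨q, hq⟩ := weier hG ε hε
  refine ⟨q, hq, ?_⟩
  have hc : Continuous fun x : ℝ => q.eval (x : ℂ) :=
    (Polynomial.continuous q).comp Complex.continuous_ofReal
  rw [← Ph_poly hs, ← Ph_sub hG hc]
  exact norm_cfc_le hε.le fun z hz => hq z.re (spec_re hs hn hz)

theorem inAlg_poly (q : Polynomial ℂ) :
    InAlg (fun _ : Unit => s) (Polynomial.aeval s q) := by
  induction q using Polynomial.induction_on' with
  | add p q hp hq =>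
    rw [map_add]
    exact inAlg_add hp hq
  | monomial n a =>
    rw [Polynomial.aeval_monomial, ← Algebra.smul_def]
    apply inAlg_smul
    have e : s ^ n = ev (fun _ : Unit => s) (List.replicate n ()) := by
      unfold ev
      rw [List.map_replicate, List.prod_replicate]
    rw [e]
    exact inAlg_ev _ _

include hs in
theorem inAlg_Ph (hn : ‖s‖ ≤ 2) {G : ℝ → ℂ} (hG : Continuous G) :
    InAlg (fun _ : Unit => s) (Ph s G) := by
  apply inAlg_lim
  intro ε hε
  obtain ⟨q, -, hq⟩ := approx hs hn hG (ε / 2) (by positivity)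
  exact ⟨_, inAlg_poly q, by linarith⟩

variable {Ω : H}

include hs in
theorem inner_Ph (hn : ‖s‖ ≤ 2) (hΩ : ‖Ω‖ = 1)
    (hm : ∀ q : Polynomial ℂ, inner ℂ Ω ((Polynomial.aeval s q) Ω) =
      ∫ θ in (0 : ℝ)..Real.pi, q.eval ((2 * Real.cos θ : ℝ) : ℂ) *
        ((2 / Real.pi * Real.sin θ ^ 2 : ℝ) : ℂ)) {G : ℝ → ℂ} (hG : Continuous G) :
    inner ℂ Ω (Ph s G Ω) = ∫ θ in (0 : ℝ)..Real.pi, G (2 * Real.cos θ) *
        ((2 / Real.pi * Real.sin θ ^ 2 : ℝ) : ℂ) := by
  have hpi := Real.pi_pos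
  have key : ∀ ε : ℝ, 0 < ε → ‖inner ℂ Ω (Ph s G Ω) - ∫ θ in (0 : ℝ)..Real.pi,
      G (2 * Real.cos θ) * ((2 / Real.pi * Real.sin θ ^ 2 : ℝ) : ℂ)‖ ≤ 3 * ε := by
    intro ε hε
    obtain ⟨q, hq1, hq2⟩ := approx hs hn hG ε hε
    have h1 : ‖inner ℂ Ω (Ph s G Ω) - inner ℂ Ω ((Polynomial.aeval s q) Ω)‖ ≤ ε := by
      rw [← inner_sub_right]
      have e : Ph s G Ω - (Polynomial.aeval s q) Ω = (Ph s G - Polynomial.aeval s q) Ω := rfl
      rw [e]
      refine (norm_inner_le_norm _ _).trans ?_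
      have h2 := (Ph s G - Polynomial.aeval s q).le_opNorm Ω
      rw [hΩ, mul_one] at h2
      rw [hΩ, one_mul]
      exact h2.trans hq2
    have c1 : Continuous fun θ : ℝ => q.eval ((2 * Real.cos θ : ℝ) : ℂ) *
        ((2 / Real.pi * Real.sin θ ^ 2 : ℝ) : ℂ) := by
      refine Continuous.mul ?_ ?_
      · exact (Polynomial.continuous q).comp
          (Complex.continuous_ofReal.comp (continuous_const.mul Real.continuous_cos))
      · exact Complex.continuous_ofReal.comp (continuous_const.mul (Real.continuous_sin.pow 2))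
    have c2 : Continuous fun θ : ℝ => G (2 * Real.cos θ) *
        ((2 / Real.pi * Real.sin θ ^ 2 : ℝ) : ℂ) := by
      refine Continuous.mul ?_ ?_
      · exact hG.comp (continuous_const.mul Real.continuous_cos)
      · exact Complex.continuous_ofReal.comp (continuous_const.mul (Real.continuous_sin.pow 2))
    have h2 : ‖(∫ θ in (0 : ℝ)..Real.pi, q.eval ((2 * Real.cos θ : ℝ) : ℂ) *
        ((2 / Real.pi * Real.sin θ ^ 2 : ℝ) : ℂ)) - ∫ θ in (0 : ℝ)..Real.pi,
        G (2 * Real.cos θ) * ((2 / Real.pi * Real.sin θ ^ 2 : ℝ) : ℂ)‖ ≤ 2 * ε := by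
      rw [← intervalIntegral.integral_sub (c1.intervalIntegrable _ _) (c2.intervalIntegrable _ _)]
      have h3 := intervalIntegral.norm_integral_le_of_norm_le_const (a := 0) (b := Real.pi)
        (C := ε * (2 / Real.pi)) (f := fun θ => q.eval ((2 * Real.cos θ : ℝ) : ℂ) *
        ((2 / Real.pi * Real.sin θ ^ 2 : ℝ) : ℂ) -
        G (2 * Real.cos θ) * ((2 / Real.pi * Real.sin θ ^ 2 : ℝ) : ℂ)) (by
          intro θ _
          rw [← sub_mul, norm_mul, norm_sub_rev]
          have hmem : 2 * Real.cos θ ∈ Set.Icc (-2 : ℝ) 2 :=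
            ⟨by linarith [Real.neg_one_le_cos θ], by linarith [Real.cos_le_one θ]⟩
          have h4 := hq1 _ hmem
          refine mul_le_mul h4 ?_ (norm_nonneg _) hε.le
          rw [Complex.norm_real, Real.norm_eq_abs, abs_of_nonneg (by positivity)]
          have h5 : Real.sin θ ^ 2 ≤ 1 := Real.sin_sq_le_one θ
          have h6 : 0 ≤ 2 / Real.pi := by positivity
          nlinarith)
      refine h3.trans (le_of_eq ?_)
      rw [sub_zero, abs_of_pos hpi]
      field_simp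
    rw [← hm q] at h2
    calc _ = ‖(inner ℂ Ω (Ph s G Ω) - inner ℂ Ω ((Polynomial.aeval s q) Ω)) +
          (inner ℂ Ω ((Polynomial.aeval s q) Ω) - ∫ θ in (0 : ℝ)..Real.pi,
          G (2 * Real.cos θ) * ((2 / Real.pi * Real.sin θ ^ 2 : ℝ) : ℂ))‖ := by
          congr 1; ring
      _ ≤ _ := norm_add_le _ _
      _ ≤ 3 * ε := by linarith
  rw [← sub_eq_zero, ← norm_le_zero_iff]
  apply le_of_forall_pos_le_add
  intro ε hε
  have := key (ε / 3) (by positivity)
  linarith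

/-! ### the function `fC` -/

theorem fC_cont : Continuous fC := by
  unfold fC
  refine Complex.continuous_exp.comp (continuous_const.mul (Complex.continuous_ofReal.comp ?_))
  have h1 : Continuous fun x : ℝ => Real.arccos (x / 2) :=
    Real.continuous_arccos.comp (continuous_id.div_const 2)
  exact (continuous_const.mul h1).sub (Real.continuous_sin.comp (continuous_const.mul h1))

theorem fC_norm (x : ℝ) : ‖fC x‖ = 1 := by
  unfold fC
  rw [mul_comm]
  exact Complex.norm_exp_ofReal_mul_I _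

theorem fC_ne (x : ℝ) : fC x ≠ 0 := by
  intro h
  have := fC_norm x
  rw [h, norm_zero] at this
  exact zero_ne_one this

theorem fC_cos {θ : ℝ} (h0 : 0 ≤ θ) (h1 : θ ≤ Real.pi) (k : ℤ) : fC (2 * Real.cos θ) ^ k =
    Complex.exp (Complex.I * (k * (2 * θ - Real.sin (2 * θ) : ℝ))) := by
  unfold fC
  have e : 2 * Real.cos θ / 2 = Real.cos θ := by ring
  rw [e, Real.arccos_cos h0 h1, ← Complex.exp_int_mul]
  congr 1
  ring

theorem fC_zpow_cont (k : ℤ) : Continuous fun x => fC x ^ k :=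
  fC_cont.zpow₀ k fun x => Or.inl (fC_ne x)

theorem fC_star (x : ℝ) : star (fC x) = (fC x)⁻¹ := by
  have h := fC_norm x
  rw [Complex.inv_def, Complex.normSq_eq_norm_sq, h]
  simp

include hs in
theorem mem_unit : Ph s fC ∈ unitary (H →L[ℂ] H) := by
  rw [Unitary.mem_iff]
  have e1 : ∀ x, star (fC x) * fC x = 1 := fun x => by
    rw [fC_star, inv_mul_cancel₀ (fC_ne x)]
  have hst : Continuous fun x => star (fC x) := continuous_star.comp fC_cont
  have hone : Ph s (fun _ => 1) = 1 := by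
    have h := Ph_poly hs 1
    simpa using h
  constructor
  · rw [← Ph_star, ← Ph_mul hst fC_cont, ← hone]
    congr 1
    funext x
    exact e1 x
  · rw [← Ph_star, ← Ph_mul fC_cont hst, ← hone]
    congr 1
    funext x
    rw [mul_comm]
    exact e1 x

include hs in
theorem upow_eq (k : ℤ) : upow (⟨Ph s fC, mem_unit hs⟩ : unitary (H →L[ℂ] H)) k =
    Ph s (fun x => fC x ^ k) := by
  set v : unitary (H →L[ℂ] H) := ⟨Ph s fC, mem_unit hs⟩ with hv
  have hnat : ∀ n : ℕ, ((v ^ n : unitary (H →L[ℂ] H)) : H →L[ℂ] H) = Ph s (fun x => fC x ^ n) := by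
    intro n
    rw [Ph_pow hs fC_cont]
    rfl
  rcases k with n | n
  · show ((v ^ (Int.ofNat n) : unitary (H →L[ℂ] H)) : H →L[ℂ] H) = _
    rw [Int.ofNat_eq_natCast, zpow_natCast, hnat]
    simp only [zpow_natCast]
  · show ((v ^ (Int.negSucc n) : unitary (H →L[ℂ] H)) : H →L[ℂ] H) = _
    rw [zpow_negSucc, ← Unitary.star_eq_inv, Unitary.coe_star, hnat, ← Ph_star]
    congr 1
    funext x
    rw [zpow_negSucc, star_pow, fC_star, inv_pow]

include hs in
theorem haar_gen (hn : ‖s‖ ≤ 2) (hΩ : ‖Ω‖ = 1)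
    (hm : ∀ q : Polynomial ℂ, inner ℂ Ω ((Polynomial.aeval s q) Ω) =
      ∫ θ in (0 : ℝ)..Real.pi, q.eval ((2 * Real.cos θ : ℝ) : ℂ) *
        ((2 / Real.pi * Real.sin θ ^ 2 : ℝ) : ℂ)) :
    ∃ v : unitary (H →L[ℂ] H), (∀ k : ℤ, InAlg (fun _ : Unit => s) (upow v k)) ∧
    (∀ k : ℤ, k ≠ 0 → inner ℂ Ω (upow v k Ω) = 0) ∧
    (∀ ε : ℝ, 0 < ε → ∃ c : ℤ →₀ ℂ, ‖(s - c.sum fun k a => a • upow v k) Ω‖ < ε) := by
  refine ⟨⟨Ph s fC, mem_unit hs⟩, fun k => ?_, fun k hk => ?_, fun ε hε => ?_⟩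
  · rw [upow_eq hs]
    exact inAlg_Ph hs hn (fC_zpow_cont k)
  · rw [upow_eq hs, inner_Ph hs hn hΩ hm (fC_zpow_cont k), ← trig_orth k hk]
    refine intervalIntegral.integral_congr fun θ hθ => ?_
    rw [Set.uIcc_of_le Real.pi_pos.le] at hθ
    show fC (2 * Real.cos θ) ^ k * _ = _
    rw [fC_cos hθ.1 hθ.2]
  · obtain ⟨c, hc⟩ := trig_approx Polynomial.X (ε ^ 2) (by positivity)
    refine ⟨c, ?_⟩
    set D : ℝ → ℂ := fun x => (x : ℂ) - ∑ k ∈ c.support, c k * fC x ^ k with hD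
    have hsumc : Continuous fun x : ℝ => ∑ k ∈ c.support, c k * fC x ^ k :=
      continuous_finsetSum _ fun k _ => continuous_const.mul (fC_zpow_cont k)
    have hDc : Continuous D := Complex.continuous_ofReal.sub hsumc
    have hT : s - c.sum (fun k a => a • upow (⟨Ph s fC, mem_unit hs⟩ : unitary (H →L[ℂ] H)) k) =
        Ph s D := by
      rw [hD, Ph_sub Complex.continuous_ofReal hsumc, Ph_id hs,
        Ph_sum c.support (fun k x => c k * fC x ^ k)
          (fun k => continuous_const.mul (fC_zpow_cont k))]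
      congr 1
      unfold Finsupp.sum
      refine Finset.sum_congr rfl fun k _ => ?_
      show c k • upow _ k = _
      rw [upow_eq hs, Ph_smul (fC_zpow_cont k)]
    rw [hT]
    have hst : Continuous fun x => star (D x) := continuous_star.comp hDc
    have h1 : ((‖Ph s D Ω‖ ^ 2 : ℝ) : ℂ) = inner ℂ Ω (Ph s (fun x => star (D x) * D x) Ω) := by
      rw [Ph_mul hst hDc, Ph_star]
      have e1 : (star (Ph s D) * Ph s D) Ω = ContinuousLinearMap.adjoint (Ph s D) (Ph s D Ω) := rfl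
      rw [e1, ContinuousLinearMap.adjoint_inner_right, inner_self_eq_norm_sq_to_K]
      push_cast
      rfl
    rw [inner_Ph (G := fun x => star (D x) * D x) hs hn hΩ hm (hst.mul hDc)] at h1
    have h2 : (∫ θ in (0 : ℝ)..Real.pi, (star (D (2 * Real.cos θ)) * D (2 * Real.cos θ)) *
        ((2 / Real.pi * Real.sin θ ^ 2 : ℝ) : ℂ)) = ((∫ θ in (0 : ℝ)..Real.pi,
        ‖(Polynomial.X : Polynomial ℂ).eval ((2 * Real.cos θ : ℝ) : ℂ) -
      c.sum (fun k a => a * Complex.exp (Complex.I * (k * (2 * θ - Real.sin (2 * θ) : ℝ))))‖ ^ 2 *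
      (2 / Real.pi * Real.sin θ ^ 2) : ℝ) : ℂ) := by
      rw [← intervalIntegral.integral_ofReal]
      refine intervalIntegral.integral_congr fun θ hθ => ?_
      rw [Set.uIcc_of_le Real.pi_pos.le] at hθ
      have e2 : D (2 * Real.cos θ) = (Polynomial.X : Polynomial ℂ).eval ((2 * Real.cos θ : ℝ) : ℂ) -
          c.sum (fun k a => a * Complex.exp (Complex.I *
            (k * (2 * θ - Real.sin (2 * θ) : ℝ)))) := by
        rw [Polynomial.eval_X, hD]
        unfold Finsupp.sum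
        show ((2 * Real.cos θ : ℝ) : ℂ) - _ = _
        congr 1
        refine Finset.sum_congr rfl fun k _ => ?_
        rw [fC_cos hθ.1 hθ.2]
      show (star (D (2 * Real.cos θ)) * D (2 * Real.cos θ)) * _ = _
      rw [e2]
      set w : ℂ := (Polynomial.X : Polynomial ℂ).eval ((2 * Real.cos θ : ℝ) : ℂ) -
          c.sum (fun k a => a * Complex.exp (Complex.I *
            (k * (2 * θ - Real.sin (2 * θ) : ℝ)))) with hw
      have e3 : star w * w = ((‖w‖ ^ 2 : ℝ) : ℂ) := by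
        rw [Complex.star_def, ← Complex.normSq_eq_conj_mul_self, Complex.normSq_eq_norm_sq]
      rw [e3, ← Complex.ofReal_mul]
    rw [h2] at h1
    have h3 := Complex.ofReal_injective h1
    rw [← h3] at hc
    exact lt_of_pow_lt_pow_left₀ 2 hε.le hc

end gen

end Z5c

variable {G : Type} [Group G]

/-- the Haar unitary in the algebra generated by `s` -/
theorem haar_exists : ∃ v : unitary (Ell (FI G) →L[ℂ] Ell (FI G)),
    (∀ k : ℤ, InAlg (fun _ : Unit => sF (G := G)) (upow v k)) ∧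
    (∀ k : ℤ, k ≠ 0 → inner ℂ (vac (G := G)) (upow v k vac) = 0) ∧
    (∀ ε : ℝ, 0 < ε → ∃ c : ℤ →₀ ℂ,
      ‖((sF : Ell (FI G) →L[ℂ] Ell (FI G)) - c.sum fun k a => a • upow v k) vac‖ < ε) :=
  Z5c.haar_gen isSelfAdjoint_sF norm_sF_le norm_vac sF_integral

end Pool.Agent.H667R3.FF
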