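import Mathlib
import Pool.Agent.H667R3.FF.Defs
import Pool.Agent.H667R3.FF.Z4a
import Pool.Agent.H667R3.FF.A10

/-! Task Z6 (table h667b_tasks, shared note 777). Replace every `sorry`; keep the statements. -/

namespace Pool.Agent.H667R3.FF

open Pool.Agent.H667R2.FG
open scoped ComplexConjugate

variable {G : Type} [Group G]

theorem Z6_cheb_span : Submodule.span ℂ (Set.range cheb) = ⊤ := by
  have hX : ∀ q ∈ Submodule.span ℂ (Set.range cheb),
      Polynomial.X * q ∈ Submodule.span ℂ (Set.range cheb) := by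
    intro q hq
    induction hq using Submodule.span_induction with
    | mem x hx =>
      obtain ⟨n, rfl⟩ := hx
      cases n with
      | zero =>
        rw [cheb_zero, mul_one, ← cheb_one]
        exact Submodule.subset_span ⟨1, rfl⟩
      | succ n =>
        have h : Polynomial.X * cheb (n+1) = cheb (n+2) + cheb n := by rw [cheb_rec]; ring
        rw [h]
        exact Submodule.add_mem _ (Submodule.subset_span ⟨_, rfl⟩)
          (Submodule.subset_span ⟨_, rfl⟩)
    | zero => simp
    | add x y _ _ hx hy => rw [mul_add]; exact Submodule.add_mem _ hx hy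
    | smul c x _ hx => rw [mul_smul_comm]; exact Submodule.smul_mem _ _ hx
  have hpow : ∀ n : ℕ, (Polynomial.X : Polynomial ℂ) ^ n ∈
      Submodule.span ℂ (Set.range cheb) := by
    intro n
    induction n with
    | zero =>
      rw [pow_zero, ← cheb_zero]
      exact Submodule.subset_span ⟨0, rfl⟩
    | succ n ih => rw [pow_succ']; exact hX _ ih
  rw [eq_top_iff]
  intro p _
  rw [p.as_sum_range_C_mul_X_pow]
  apply Submodule.sum_mem
  intro i _
  rw [← Polynomial.smul_eq_C_mul]
  exact Submodule.smul_mem _ _ (hpow i)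

theorem Z6_vac : (vac : Ell (FI G)) = bas (1, []) := rfl

theorem Z6_poly (p : Polynomial ℂ)
    (h0 : inner ℂ (vac (G := G)) ((Polynomial.aeval (sF (G := G)) p) vac) = 0)
    (g : G) (t : List G) (h : g ≠ 1 ∨ t = []) :
    (Polynomial.aeval (sF (G := G)) p) (bas (g, t)) ∈
      Submodule.span ℂ (Set.range fun y : FI G => bas (crI y)) := by
  have hp : p ∈ Submodule.span ℂ (Set.range cheb) := by rw [Z6_cheb_span]; trivial
  rw [Finsupp.mem_span_range_iff_exists_finsupp] at hp
  obtain ⟨c, rfl⟩ := hp
  have key : ∀ (g : G) (t : List G), g ≠ 1 ∨ t = [] →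
      (Polynomial.aeval (sF (G := G)) (c.sum fun i a => a • cheb i)) (bas (g, t)) =
        c.sum fun i a => a • bas (crI^[i] (g, t)) := by
    intro g t h
    rw [Finsupp.sum, map_sum, sum_apply, Finsupp.sum]
    apply Finset.sum_congr rfl
    intro i _
    rw [map_smul, smul_apply, cheb_bas i g t h]
  have hc0 : c 0 = 0 := by
    rw [Z6_vac, key 1 [] (Or.inr rfl), Finsupp.sum, inner_sum] at h0
    have h1 : ∀ i ∈ c.support, inner ℂ (bas ((1 : G), ([] : List G)))
        (c i • bas (crI^[i] ((1 : G), ([] : List G)))) = if i = 0 then c 0 else 0 := by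
      intro i _
      rw [inner_smul_right]
      cases i with
      | zero =>
        rw [Function.iterate_zero, id, inner_self_eq_norm_sq_to_K, (bas_orthonormal (G := G)).1]
        simp
      | succ n =>
        rw [Function.iterate_succ_apply', (bas_orthonormal (G := G)).inner_eq_zero, mul_zero]
        · simp
        · intro hh
          have := congrArg Prod.snd hh
          simp [crI] at this
    rw [Finset.sum_congr rfl h1, Finset.sum_ite_eq' c.support 0] at h0
    by_cases h2 : (0 : ℕ) ∈ c.support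
    · rwa [if_pos h2] at h0
    · exact Finsupp.notMem_support_iff.mp h2
  rw [key g t h, Finsupp.sum]
  apply Submodule.sum_mem
  intro i hi
  apply Submodule.smul_mem
  cases i with
  | zero => exact absurd hc0 (Finsupp.mem_support_iff.mp hi)
  | succ n =>
    rw [Function.iterate_succ_apply']
    exact Submodule.subset_span ⟨_, rfl⟩

theorem Z6_prod (L : List (Polynomial ℂ × G)) (hL : L ≠ [])
    (h0 : ∀ t ∈ L, inner ℂ (vac (G := G)) ((Polynomial.aeval (sF (G := G)) t.1) vac) = 0)
    (h1 : ∀ t ∈ L.dropLast, t.2 ≠ 1) :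
    (L.map fun t => Polynomial.aeval (sF (G := G)) t.1 * lamF t.2).prod vac ∈
      Submodule.span ℂ (Set.range fun y : FI G => bas (crI y)) := by
  induction L with
  | nil => exact absurd rfl hL
  | cons a L ih =>
    rw [List.map_cons, List.prod_cons]
    by_cases hL' : L = []
    · subst hL'
      simp only [List.map_nil, List.prod_nil, mul_one, mul_apply_eq_comp]
      rw [Z6_vac, lamF_bas]
      exact Z6_poly a.1 (h0 a (by simp)) _ _ (Or.inr rfl)
    · have h2 : a.2 ≠ 1 := h1 a (by rw [List.dropLast_cons_of_ne_nil hL']; simp)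
      have h3 := ih hL' (fun t ht => h0 t (by simp [ht]))
        (fun t ht => h1 t (by rw [List.dropLast_cons_of_ne_nil hL']; simp [ht]))
      simp only [mul_apply_eq_comp]
      generalize (L.map fun t => Polynomial.aeval (sF (G := G)) t.1 * lamF t.2).prod vac = v at h3
      induction h3 using Submodule.span_induction with
      | mem x hx =>
        obtain ⟨y, rfl⟩ := hx
        simp only [crI]
        rw [lamF_bas, mul_one]
        exact Z6_poly a.1 (h0 a (by simp)) _ _ (Or.inl h2)
      | zero => simp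
      | add x y _ _ hx hy => rw [map_add, map_add]; exact Submodule.add_mem _ hx hy
      | smul c x _ hx => rw [map_smul, map_smul]; exact Submodule.smul_mem _ _ hx

/-- polynomial version -/
theorem free_poly (g₀ : G) (L : List (Polynomial ℂ × G)) (hL : L ≠ [])
    (h0 : ∀ t ∈ L, inner ℂ (vac (G := G)) ((Polynomial.aeval (sF (G := G)) t.1) vac) = 0)
    (h1 : ∀ t ∈ L.dropLast, t.2 ≠ 1) :
    inner ℂ (vac (G := G)) ((lamF g₀ * (L.map fun t =>
      Polynomial.aeval (sF (G := G)) t.1 * lamF t.2).prod) vac) = 0 := by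
  have h3 := Z6_prod L hL h0 h1
  rw [mul_apply_eq_comp]
  generalize (L.map fun t => Polynomial.aeval (sF (G := G)) t.1 * lamF t.2).prod vac = v at h3
  induction h3 using Submodule.span_induction with
  | mem x hx =>
    obtain ⟨y, rfl⟩ := hx
    simp only [crI]
    rw [lamF_bas, Z6_vac, (bas_orthonormal (G := G)).inner_eq_zero]
    intro hh
    have := congrArg Prod.snd hh
    simp at this
  | zero => simp
  | add x y _ _ hx hy => rw [map_add, inner_add_right, hx, hy, add_zero]
  | smul c x _ hx => rw [map_smul, inner_smul_right, hx, mul_zero]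

/-- approximation by polynomials of mean zero -/
theorem Z6_approx (A : Ell (FI G) →L[ℂ] Ell (FI G))
    (hA : InAlg (fun _ : Unit => sF (G := G)) A)
    (h0 : inner ℂ (vac (G := G)) (A vac) = 0) (ε : ℝ) (hε : 0 < ε) :
    ∃ q : Polynomial ℂ, inner ℂ (vac (G := G)) ((Polynomial.aeval (sF (G := G)) q) vac) = 0 ∧
      ‖A - Polynomial.aeval (sF (G := G)) q‖ < ε := by
  obtain ⟨R, hR⟩ := hA (ε / 2) (by positivity)
  set q0 : Polynomial ℂ := R.sum fun w c => c • Polynomial.X ^ w.length with hq0
  have h1 : Polynomial.aeval (sF (G := G)) q0 =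
      R.sum fun w c => c • ev (fun _ : Unit => sF (G := G)) w := by
    rw [hq0, Finsupp.sum, map_sum, Finsupp.sum]
    apply Finset.sum_congr rfl
    intro w _
    rw [map_smul, map_pow, Polynomial.aeval_X]
    congr 1
    unfold ev
    rw [List.map_const', List.prod_replicate]
  rw [← h1] at hR
  set c0 : ℂ := inner ℂ (vac (G := G)) ((Polynomial.aeval (sF (G := G)) q0) vac) with hc0
  have hv : inner ℂ (vac (G := G)) (vac (G := G)) = (1 : ℂ) := by
    rw [inner_self_eq_norm_sq_to_K, norm_vac]
    simp
  have h2 : ‖c0‖ ≤ ε / 2 := by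
    have h3 : c0 = - inner ℂ (vac (G := G)) ((A - Polynomial.aeval (sF (G := G)) q0) vac) := by
      rw [sub_apply, inner_sub_right, h0, hc0]
      ring
    rw [h3, norm_neg]
    calc ‖inner ℂ (vac (G := G)) ((A - Polynomial.aeval (sF (G := G)) q0) vac)‖
        ≤ ‖(vac (G := G))‖ * ‖(A - Polynomial.aeval (sF (G := G)) q0) vac‖ := norm_inner_le_norm _ _
      _ ≤ ‖(vac (G := G))‖ * (‖A - Polynomial.aeval (sF (G := G)) q0‖ * ‖(vac (G := G))‖) := by
          gcongr
          exact ContinuousLinearMap.le_opNorm _ _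
      _ ≤ ε / 2 := by
          rw [norm_vac]
          linarith
  refine ⟨q0 - Polynomial.C c0, ?_, ?_⟩
  · rw [map_sub, sub_apply, inner_sub_right, ← hc0, Polynomial.aeval_C,
      Algebra.algebraMap_eq_smul_one, smul_apply, inner_smul_right,
      one_apply_eq_self, hv]
    ring
  · have h4 : A - Polynomial.aeval (sF (G := G)) (q0 - Polynomial.C c0) =
        (A - Polynomial.aeval (sF (G := G)) q0) + c0 • (1 : Ell (FI G) →L[ℂ] Ell (FI G)) := by
      rw [map_sub, Polynomial.aeval_C, Algebra.algebraMap_eq_smul_one]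
      abel
    rw [h4]
    calc ‖(A - Polynomial.aeval (sF (G := G)) q0) + c0 • (1 : Ell (FI G) →L[ℂ] Ell (FI G))‖
        ≤ ‖A - Polynomial.aeval (sF (G := G)) q0‖ + ‖c0 • (1 : Ell (FI G) →L[ℂ] Ell (FI G))‖ :=
          norm_add_le _ _
      _ ≤ ‖A - Polynomial.aeval (sF (G := G)) q0‖ + ε / 2 * 1 := by
          rw [norm_smul]
          gcongr
          exact ContinuousLinearMap.norm_id_le
      _ < ε := by linarith

/-- closed version -/
theorem free_alg (g₀ : G) (L : List ((Ell (FI G) →L[ℂ] Ell (FI G)) × G)) (hL : L ≠ [])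
    (hA : ∀ t ∈ L, InAlg (fun _ : Unit => sF (G := G)) t.1)
    (h0 : ∀ t ∈ L, inner ℂ (vac (G := G)) (t.1 vac) = 0)
    (h1 : ∀ t ∈ L.dropLast, t.2 ≠ 1) :
    inner ℂ (vac (G := G)) ((lamF g₀ * (L.map fun t => t.1 * lamF t.2).prod) vac) = 0 := by
  classical
  have hq : ∀ (t : (Ell (FI G) →L[ℂ] Ell (FI G)) × G) (n : ℕ), ∃ q : Polynomial ℂ, t ∈ L →
      inner ℂ (vac (G := G)) ((Polynomial.aeval (sF (G := G)) q) vac) = 0 ∧
      ‖t.1 - Polynomial.aeval (sF (G := G)) q‖ < 1 / ((n : ℝ) + 1) := by
    intro t n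
    by_cases ht : t ∈ L
    · obtain ⟨q, hq⟩ := Z6_approx t.1 (hA t ht) (h0 t ht) (1 / ((n : ℝ) + 1)) (by positivity)
      exact ⟨q, fun _ => hq⟩
    · exact ⟨0, fun h => absurd h ht⟩
  choose Q hQ using hq
  have hlim : ∀ t ∈ L, Filter.Tendsto (fun n => Polynomial.aeval (sF (G := G)) (Q t n) * lamF t.2)
      Filter.atTop (nhds (t.1 * lamF t.2)) := by
    intro t ht
    apply Filter.Tendsto.mul_const
    rw [tendsto_iff_norm_sub_tendsto_zero]
    refine squeeze_zero (fun _ => norm_nonneg _) (fun n => ?_)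
      tendsto_one_div_add_atTop_nhds_zero_nat
    rw [norm_sub_rev]
    exact (hQ t n ht).2.le
  have h2 := tendsto_list_prod (f := fun t n => Polynomial.aeval (sF (G := G)) (Q t n) * lamF t.2)
    L hlim
  have h3 : Filter.Tendsto (fun n => inner ℂ (vac (G := G)) ((lamF g₀ * (L.map fun t =>
      Polynomial.aeval (sF (G := G)) (Q t n) * lamF t.2).prod) vac)) Filter.atTop
      (nhds (inner ℂ (vac (G := G)) ((lamF g₀ * (L.map fun t => t.1 * lamF t.2).prod) vac))) := by
    have h4 : Continuous (fun T : Ell (FI G) →L[ℂ] Ell (FI G) =>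
        inner ℂ (vac (G := G)) ((lamF g₀ * T) vac)) := by
      apply Continuous.inner continuous_const
      simp only [mul_apply_eq_comp]
      exact (lamF g₀).continuous.comp ((ContinuousLinearMap.apply ℂ _ vac).continuous)
    exact (h4.tendsto _).comp h2
  have h5 : ∀ n, inner ℂ (vac (G := G)) ((lamF g₀ * (L.map fun t =>
      Polynomial.aeval (sF (G := G)) (Q t n) * lamF t.2).prod) vac) = 0 := by
    intro n
    have h6 := free_poly g₀ (L.map fun t => (Q t n, t.2)) (by simpa using hL)
      (by
        intro t ht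
        obtain ⟨s, hs, rfl⟩ := List.mem_map.mp ht
        exact (hQ s n hs).1)
      (by
        intro t ht
        rw [← List.map_dropLast] at ht
        obtain ⟨s, hs, rfl⟩ := List.mem_map.mp ht
        exact h1 s hs)
    rw [List.map_map] at h6
    exact h6
  simp only [h5] at h3
  exact (tendsto_nhds_unique tendsto_const_nhds h3).symm

end Pool.Agent.H667R3.FF
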