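import Mathlib
import Pool.Agent.H667R3.FF.Defs

/-! Task Z7 (table h667b_tasks, shared note 777). (helper680) -/

namespace Pool.Agent.H667R3.FF

open Pool.Agent.H667R2.FG
open scoped ComplexConjugate

namespace Z7

/-- `w` has an alternating form -/
def NF (n : ℕ) (w : FreeGroup (Fin (n + 1))) : Prop :=
  ∃ (g₀ : FreeGroup (Fin n)) (L : List (ℤ × FreeGroup (Fin n))), w = nf n g₀ L ∧
      (∀ t ∈ L, t.1 ≠ 0) ∧ (∀ t ∈ L.dropLast, t.2 ≠ 1)

theorem nf_one (n : ℕ) : NF n 1 := ⟨1, [], by simp [nf], by simp, by simp⟩

theorem nf_left {n : ℕ} {w : FreeGroup (Fin (n + 1))} (h : NF n w) (g : FreeGroup (Fin n)) :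
    NF n (FreeGroup.map Fin.castSucc g * w) := by
  obtain ⟨g₀, L, h1, h2, h3⟩ := h
  refine ⟨g * g₀, L, ?_, h2, h3⟩
  rw [h1]
  unfold nf
  rw [map_mul, mul_assoc]

theorem mem_dropLast_of {α : Type} {a : α} {L : List α} {t : α} (h : t ∈ L.dropLast) :
    t ∈ (a :: L).dropLast := by
  rcases L with _ | ⟨b, L⟩
  · simp at h
  · rw [List.dropLast_cons_of_ne_nil (by simp)]
    exact List.mem_cons_of_mem _ h

theorem nf_last {n : ℕ} {w : FreeGroup (Fin (n + 1))} (h : NF n w) (k : ℤ) :
    NF n (FreeGroup.of (Fin.last n) ^ k * w) := by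
  by_cases hk : k = 0
  · rw [hk, zpow_zero, one_mul]
    exact h
  obtain ⟨g₀, L, h1, h2, h3⟩ := h
  by_cases hg : g₀ = 1
  · subst hg
    rcases L with _ | ⟨⟨k', g₁⟩, L⟩
    · refine ⟨1, [(k, 1)], ?_, ?_, ?_⟩
      · rw [h1]
        simp [nf]
      · intro t ht
        rw [List.mem_singleton] at ht
        rw [ht]
        exact hk
      · simp
    · have e : FreeGroup.of (Fin.last n) ^ k * w = FreeGroup.of (Fin.last n) ^ (k + k') *
          (FreeGroup.map Fin.castSucc g₁ * (L.map fun t => FreeGroup.of (Fin.last n) ^ t.1 *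
            FreeGroup.map Fin.castSucc t.2).prod) := by
        rw [h1]
        unfold nf
        rw [List.map_cons, List.prod_cons, map_one, one_mul, zpow_add]
        simp only [mul_assoc]
      by_cases hkk : k + k' = 0
      · refine ⟨g₁, L, ?_, ?_, ?_⟩
        · rw [e, hkk, zpow_zero, one_mul]
          rfl
        · intro t ht
          exact h2 t (List.mem_cons_of_mem _ ht)
        · intro t ht
          exact h3 t (mem_dropLast_of ht)
      · refine ⟨1, (k + k', g₁) :: L, ?_, ?_, ?_⟩
        · rw [e]
          unfold nf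
          rw [List.map_cons, List.prod_cons, map_one, one_mul]
          simp only [mul_assoc]
        · intro t ht
          rw [List.mem_cons] at ht
          rcases ht with rfl | ht
          · exact hkk
          · exact h2 t (List.mem_cons_of_mem _ ht)
        · intro t ht
          rcases L with _ | ⟨b, L⟩
          · simp at ht
          · rw [List.dropLast_cons_of_ne_nil (by simp), List.mem_cons] at ht
            rcases ht with rfl | ht
            · have := h3 (k', g₁) (by
                rw [List.dropLast_cons_of_ne_nil (by simp)]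
                exact List.mem_cons_self)
              exact this
            · exact h3 t (mem_dropLast_of ht)
  · refine ⟨1, (k, g₀) :: L, ?_, ?_, ?_⟩
    · rw [h1]
      unfold nf
      rw [List.map_cons, List.prod_cons, map_one, one_mul]
      simp only [mul_assoc]
    · intro t ht
      rw [List.mem_cons] at ht
      rcases ht with rfl | ht
      · exact hk
      · exact h2 t ht
    · intro t ht
      rcases L with _ | ⟨b, L⟩
      · simp at ht
      · rw [List.dropLast_cons_of_ne_nil (by simp), List.mem_cons] at ht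
        rcases ht with rfl | ht
        · exact hg
        · exact h3 t ht

theorem nf_letter {n : ℕ} {w : FreeGroup (Fin (n + 1))} (h : NF n w) (x : Fin (n + 1) × Bool) :
    NF n (FreeGroup.mk [x] * w) := by
  obtain ⟨x, b⟩ := x
  have e : ∀ y : Fin (n + 1), FreeGroup.mk [(y, b)] = FreeGroup.of y ^ (if b then (1 : ℤ) else -1) := by
    intro y
    cases b
    · simp [FreeGroup.of, FreeGroup.inv_mk, FreeGroup.invRev]
    · simp [FreeGroup.of]
  rw [e]
  refine Fin.lastCases ?_ (fun i => ?_) x
  · exact nf_last h _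
  · have e2 : FreeGroup.of (Fin.castSucc i) ^ (if b then (1 : ℤ) else -1) =
        FreeGroup.map Fin.castSucc (FreeGroup.of i ^ (if b then (1 : ℤ) else -1)) := by
      rw [map_zpow, FreeGroup.map.of]
    rw [e2]
    exact nf_left h _

end Z7

theorem nf_exists (n : ℕ) (w : FreeGroup (Fin (n + 1))) :
    ∃ (g₀ : FreeGroup (Fin n)) (L : List (ℤ × FreeGroup (Fin n))), w = nf n g₀ L ∧
      (∀ t ∈ L, t.1 ≠ 0) ∧ (∀ t ∈ L.dropLast, t.2 ≠ 1) := by
  have key : ∀ L : List (Fin (n + 1) × Bool), Z7.NF n (FreeGroup.mk L) := by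
    intro L
    induction L with
    | nil => exact Z7.nf_one n
    | cons x L ih =>
      have e2 : FreeGroup.mk (x :: L) = FreeGroup.mk [x] * FreeGroup.mk L := by
        rw [FreeGroup.mul_mk]
        rfl
      rw [e2]
      exact Z7.nf_letter ih x
  have := key w.toWord
  rw [FreeGroup.mk_toWord] at this
  exact this

end Pool.Agent.H667R3.FF
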