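import Mathlib
import Pool.Agent.H667R3.FF.Defs
import Pool.Agent.H667R3.FF.Z3a
import Pool.Agent.H667R3.FF.Z3c
import Pool.Agent.H667R3.FF.Z5c
import Pool.Agent.H667R3.FF.Z6
import Pool.Agent.H667R3.FF.Z7
import Pool.Agent.H667R3.FF.A10

/-! Task Z8 (table h667b_tasks, shared note 777). Replace every `sorry`; keep the statements. -/

namespace Pool.Agent.H667R3.FF

open Pool.Agent.H667R2.FG
open scoped ComplexConjugate

/-- left translations as a homomorphism to the unitary group -/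
noncomputable def Z8_lamU (G : Type) [Group G] :
    G →* unitary (Ell (FI G) →L[ℂ] Ell (FI G)) where
  toFun g := ⟨lamF g, by
    rw [Unitary.mem_iff, ContinuousLinearMap.star_eq_adjoint, adjoint_lamF, ← lamF_mul,
      ← lamF_mul, inv_mul_cancel, mul_inv_cancel, lamF_one]
    exact ⟨rfl, rfl⟩⟩
  map_one' := Subtype.ext lamF_one
  map_mul' g h := Subtype.ext (lamF_mul g h)

theorem Z8_inAlg_unit {L B : Type} [NormedRing B] [NormedAlgebra ℂ B] (l₀ : L) {a x : B}
    (h : InAlg (fun _ : Unit => a) x) : InAlg (fun _ : L => a) x := by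
  intro ε hε
  obtain ⟨R, hR⟩ := h ε hε
  refine ⟨R.mapDomain (List.map fun _ => l₀), ?_⟩
  rw [Finsupp.sum_mapDomain_index (h := fun w c => c • ev (fun _ : L => a) w)
    (fun _ => zero_smul _ _) (fun _ _ _ => add_smul _ _ _)]
  have : ∀ w : List Unit, ev (fun _ : L => a) (w.map fun _ => l₀) = ev (fun _ : Unit => a) w := by
    intro w
    simp [ev, List.map_map, Function.comp_def]
  simpa only [this] using hR

theorem Z8_uop_lamU {G : Type} [Group G] (g : G) : uop (Z8_lamU G g) = lamF g := rfl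

theorem Z8_uop_mul {H : Type} [NormedAddCommGroup H] [InnerProductSpace ℂ H] [CompleteSpace H]
    (a b : unitary (H →L[ℂ] H)) : uop (a * b) = uop a * uop b := rfl

theorem Z8_uop_one {H : Type} [NormedAddCommGroup H] [InnerProductSpace ℂ H] [CompleteSpace H] :
    uop (1 : unitary (H →L[ℂ] H)) = 1 := rfl

/-- the representation -/
noncomputable def Z8_pi (n : ℕ)
    (v : unitary (Ell (FI (FreeGroup (Fin n))) →L[ℂ] Ell (FI (FreeGroup (Fin n))))) :
    FreeGroup (Fin (n + 1)) →*
      unitary (Ell (FI (FreeGroup (Fin n))) →L[ℂ] Ell (FI (FreeGroup (Fin n)))) :=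
  FreeGroup.lift (Fin.lastCases (motive := fun _ =>
    unitary (Ell (FI (FreeGroup (Fin n))) →L[ℂ] Ell (FI (FreeGroup (Fin n))))) v
    (fun x => Z8_lamU _ (FreeGroup.of x)))

section
variable {n : ℕ}
  (v : unitary (Ell (FI (FreeGroup (Fin n))) →L[ℂ] Ell (FI (FreeGroup (Fin n)))))

theorem Z8_pi_castSucc (x : Fin n) :
    Z8_pi n v (FreeGroup.of x.castSucc) = Z8_lamU _ (FreeGroup.of x) := by
  rw [Z8_pi, FreeGroup.lift_apply_of, Fin.lastCases_castSucc]

theorem Z8_pi_last : Z8_pi n v (FreeGroup.of (Fin.last n)) = v := by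
  rw [Z8_pi, FreeGroup.lift_apply_of, Fin.lastCases_last]

theorem Z8_pi_map (g : FreeGroup (Fin n)) :
    Z8_pi n v (FreeGroup.map Fin.castSucc g) = Z8_lamU _ g := by
  have : (Z8_pi n v).comp (FreeGroup.map Fin.castSucc) = Z8_lamU _ := by
    refine FreeGroup.ext_hom _ _ (fun x => ?_)
    rw [MonoidHom.comp_apply, FreeGroup.map.of, Z8_pi_castSucc]
  exact DFunLike.congr_fun this g

theorem Z8_pi_nf (g₀ : FreeGroup (Fin n)) (L : List (ℤ × FreeGroup (Fin n))) :
    uop (Z8_pi n v (nf n g₀ L)) =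
      lamF g₀ * (L.map fun t => upow v t.1 * lamF t.2).prod := by
  rw [nf, map_mul, Z8_uop_mul, Z8_pi_map, Z8_uop_lamU]
  congr 1
  induction L with
  | nil => simp [Z8_uop_one]
  | cons a L ih =>
    simp only [List.map_cons, List.prod_cons, map_mul, map_zpow, Z8_pi_last, Z8_pi_map,
      Z8_uop_mul, Z8_uop_lamU]
    rw [ih]
    rfl

theorem Z8_inAlg (hv1 : ∀ k : ℤ, InAlg (fun _ : Unit => sF (G := FreeGroup (Fin n))) (upow v k))
    (g : FreeGroup (Fin (n + 1))) : InAlg (pF (Fin n)) (uop (Z8_pi n v g)) := by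
  have hs : InAlg (pF (Fin n)) (sF (G := FreeGroup (Fin n))) := by
    simpa [ev, pF] using inAlg_ev (pF (Fin n)) [none]
  have hv : ∀ k, InAlg (pF (Fin n)) (upow v k) := fun k =>
    inAlg_trans (fun _ => hs) (Z8_inAlg_unit (none : Lt (Fin n)) (hv1 k))
  induction g using FreeGroup.induction_on with
  | C1 =>
    rw [map_one, Z8_uop_one]
    simpa [ev] using inAlg_ev (pF (Fin n)) []
  | of x =>
    refine Fin.lastCases ?_ (fun i => ?_) x
    · rw [Z8_pi_last]
      have := hv 1
      rwa [upow, zpow_one] at this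
    · rw [Z8_pi_castSucc, Z8_uop_lamU]
      simpa [ev, pF] using inAlg_ev (pF (Fin n)) [some (i, true)]
  | inv_of x _ =>
    refine Fin.lastCases ?_ (fun i => ?_) x
    · rw [map_inv, Z8_pi_last]
      have := hv (-1)
      rwa [upow, zpow_neg_one] at this
    · rw [map_inv, Z8_pi_castSucc, ← map_inv, Z8_uop_lamU]
      simpa [ev, pF] using inAlg_ev (pF (Fin n)) [some (i, false)]
  | mul a b ha hb =>
    rw [map_mul, Z8_uop_mul]
    exact inAlg_mul ha hb

theorem Z8_vac {G : Type} [Group G] : (vac : Ell (FI G)) = bas (1, []) := rfl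

theorem Z8_trace
    (hv1 : ∀ k : ℤ, InAlg (fun _ : Unit => sF (G := FreeGroup (Fin n))) (upow v k))
    (hv2 : ∀ k : ℤ, k ≠ 0 → inner ℂ (vac (G := FreeGroup (Fin n))) (upow v k vac) = 0)
    (w : FreeGroup (Fin (n + 1))) (hw : w ≠ 1) :
    inner ℂ (vac (G := FreeGroup (Fin n))) (uop (Z8_pi n v w) vac) = 0 := by
  obtain ⟨g₀, L, rfl, hL0, hL1⟩ := nf_exists n w
  rw [Z8_pi_nf]
  by_cases hL : L = []
  · subst hL
    have hg : g₀ ≠ 1 := by
      rintro rfl
      apply hw
      simp [nf]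
    simp only [List.map_nil, List.prod_nil, mul_one]
    rw [Z8_vac, lamF_bas]
    apply bas_orthonormal.2
    intro h
    apply hg
    have := congrArg Prod.fst h
    simpa using this.symm
  · have := free_alg g₀ (L.map fun t => (upow v t.1, t.2)) (by simpa using hL)
      (by
        intro t ht
        obtain ⟨a, ha, rfl⟩ := List.mem_map.1 ht
        exact hv1 a.1)
      (by
        intro t ht
        obtain ⟨a, ha, rfl⟩ := List.mem_map.1 ht
        exact hv2 a.1 (hL0 a ha))
      (by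
        intro t ht
        rw [← List.map_dropLast] at ht
        obtain ⟨a, ha, rfl⟩ := List.mem_map.1 ht
        exact hL1 a ha)
    rw [List.map_map] at this
    exact this

/-- the closed span of the orbit of the vacuum -/
noncomputable def Z8_M : Submodule ℂ (Ell (FI (FreeGroup (Fin n)))) :=
  (Submodule.span ℂ (Set.range fun g : FreeGroup (Fin (n + 1)) =>
    uop (Z8_pi n v g) vac)).topologicalClosure

theorem Z8_M_inv (g : FreeGroup (Fin (n + 1))) (ξ : Ell (FI (FreeGroup (Fin n))))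
    (hξ : ξ ∈ Z8_M v) : uop (Z8_pi n v g) ξ ∈ Z8_M v := by
  unfold Z8_M at hξ ⊢
  rw [← SetLike.mem_coe, Submodule.topologicalClosure_coe] at hξ ⊢
  refine map_mem_closure (uop (Z8_pi n v g)).continuous hξ ?_
  intro x hx
  have h : Submodule.span ℂ (Set.range fun g : FreeGroup (Fin (n + 1)) =>
      uop (Z8_pi n v g) vac) ≤ (Submodule.span ℂ (Set.range fun g : FreeGroup (Fin (n + 1)) =>
      uop (Z8_pi n v g) vac)).comap (uop (Z8_pi n v g)).toLinearMap := by
    rw [Submodule.span_le]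
    rintro _ ⟨k, rfl⟩
    apply Submodule.subset_span
    refine ⟨g * k, ?_⟩
    simp only [map_mul, Z8_uop_mul]
    rfl
  exact h hx

theorem Z8_vac_mem : (vac : Ell (FI (FreeGroup (Fin n)))) ∈ Z8_M v := by
  apply Submodule.le_topologicalClosure
  apply Submodule.subset_span
  refine ⟨1, ?_⟩
  simp [Z8_uop_one]

theorem Z8_ev_mem
    (hv1 : ∀ k : ℤ, InAlg (fun _ : Unit => sF (G := FreeGroup (Fin n))) (upow v k))
    (hv3 : ∀ ε : ℝ, 0 < ε → ∃ c : ℤ →₀ ℂ,
      ‖((sF : Ell (FI (FreeGroup (Fin n))) →L[ℂ] Ell (FI (FreeGroup (Fin n)))) -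
        c.sum fun k a => a • upow v k) vac‖ < ε)
    (w : List (Lt (Fin n))) : ev (pF (Fin n)) w vac ∈ Z8_M v := by
  have hs : InAlg (pF (Fin n)) (sF (G := FreeGroup (Fin n))) := by
    simpa [ev, pF] using inAlg_ev (pF (Fin n)) [none]
  have hv : ∀ k, InAlg (pF (Fin n)) (upow v k) := fun k =>
    inAlg_trans (fun _ => hs) (Z8_inAlg_unit (none : Lt (Fin n)) (hv1 k))
  induction w with
  | nil => simpa [ev] using Z8_vac_mem v
  | cons a w ih =>
    have hcons : ev (pF (Fin n)) (a :: w) = pF (Fin n) a * ev (pF (Fin n)) w := by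
      simp [ev]
    rw [hcons]
    change pF (Fin n) a (ev (pF (Fin n)) w vac) ∈ Z8_M v
    match a with
    | some (x, true) =>
      have := Z8_M_inv v (FreeGroup.of x.castSucc) _ ih
      rwa [Z8_pi_castSucc, Z8_uop_lamU] at this
    | some (x, false) =>
      have := Z8_M_inv v (FreeGroup.of x.castSucc)⁻¹ _ ih
      rwa [map_inv, Z8_pi_castSucc, ← map_inv, Z8_uop_lamU] at this
    | none =>
      change sF (ev (pF (Fin n)) w vac) ∈ Z8_M v
      have hcl : IsClosed (Z8_M v : Set (Ell (FI (FreeGroup (Fin n))))) :=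
        Submodule.isClosed_topologicalClosure _
      rw [← SetLike.mem_coe, ← hcl.closure_eq, Metric.mem_closure_iff]
      intro ε hε
      have hK : 0 < ‖ev (pF (Fin n)) w‖ + 1 := by positivity
      obtain ⟨c, hc⟩ := hv3 (ε / (‖ev (pF (Fin n)) w‖ + 1)) (by positivity)
      set q := c.sum fun k a => a • upow v k with hq
      have hqA : InAlg (pF (Fin n)) q := by
        rw [hq, Finsupp.sum]
        refine Finset.sum_induction _ (InAlg (pF (Fin n))) (fun _ _ => inAlg_add) ?_ ?_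
        · have := inAlg_smul (0 : ℂ) hs
          rwa [zero_smul] at this
        · exact fun k _ => inAlg_smul _ (hv k)
      have hdA : InAlg (pF (Fin n)) (sF - q) := by
        have := inAlg_add hs (inAlg_smul (-1 : ℂ) hqA)
        rwa [neg_one_smul, ← sub_eq_add_neg] at this
      refine ⟨q (ev (pF (Fin n)) w vac), ?_, ?_⟩
      · have h1 : q (ev (pF (Fin n)) w vac) =
            c.sum fun k a => a • (upow v k) (ev (pF (Fin n)) w vac) := by
          rw [hq, Finsupp.sum, Finsupp.sum, sum_apply]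
          rfl
        rw [SetLike.mem_coe, h1]
        refine Submodule.sum_mem _ (fun k _ => Submodule.smul_mem _ _ ?_)
        have := Z8_M_inv v (FreeGroup.of (Fin.last n) ^ k) _ ih
        rwa [map_zpow, Z8_pi_last] at this
      · rw [dist_eq_norm]
        have h2 : sF (ev (pF (Fin n)) w vac) - q (ev (pF (Fin n)) w vac) =
            ((sF - q) * ev (pF (Fin n)) w :
              Ell (FI (FreeGroup (Fin n))) →L[ℂ] Ell (FI (FreeGroup (Fin n)))) vac := rfl
        rw [h2]
        refine (norm_mul_vec pF_good pF_tr hdA (inAlg_ev _ w)).trans_lt ?_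
        refine (mul_le_mul_of_nonneg_right (le_add_of_nonneg_right zero_le_one)
          (norm_nonneg _)).trans_lt ?_
        refine (mul_lt_mul_of_pos_left hc hK).trans_le (le_of_eq ?_)
        field_simp

end

theorem rep_exists (n : ℕ) : ∃ π : FreeGroup (Fin (n + 1)) →*
      unitary (Ell (FI (FreeGroup (Fin n))) →L[ℂ] Ell (FI (FreeGroup (Fin n)))),
    (∀ x : Fin n, uop (π (FreeGroup.of x.castSucc)) = lamF (FreeGroup.of x)) ∧
    (∀ g, InAlg (pF (Fin n)) (uop (π g))) ∧
    (∀ g, g ≠ 1 → inner ℂ (vac (G := FreeGroup (Fin n))) (uop (π g) vac) = 0) ∧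
    (∀ (ξ : Ell (FI (FreeGroup (Fin n)))) (ε : ℝ), 0 < ε → ∃ f : FreeGroup (Fin (n + 1)) →₀ ℂ,
      ‖ξ - (f.sum fun g c => c • uop (π g)) vac‖ < ε) := by
  obtain ⟨v, hv1, hv2, hv3⟩ := haar_exists (G := FreeGroup (Fin n))
  refine ⟨Z8_pi n v, fun x => by rw [Z8_pi_castSucc, Z8_uop_lamU], Z8_inAlg v hv1,
    Z8_trace v hv1 hv2, fun ξ ε hε => ?_⟩
  have hM : ξ ∈ Z8_M v := by
    have hcl : IsClosed (Z8_M v : Set (Ell (FI (FreeGroup (Fin n))))) :=
      Submodule.isClosed_topologicalClosure _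
    rw [← SetLike.mem_coe, ← hcl.closure_eq, Metric.mem_closure_iff]
    intro δ hδ
    obtain ⟨R, hR⟩ := pF_dense ξ δ hδ
    refine ⟨_, ?_, by rw [dist_eq_norm]; exact hR⟩
    rw [SetLike.mem_coe, Finsupp.sum, sum_apply]
    exact Submodule.sum_mem _ (fun w _ => Submodule.smul_mem _ _ (Z8_ev_mem v hv1 hv3 w))
  unfold Z8_M at hM
  rw [← SetLike.mem_coe, Submodule.topologicalClosure_coe, Metric.mem_closure_iff] at hM
  obtain ⟨y, hy, hd⟩ := hM ε hε
  rw [SetLike.mem_coe, Finsupp.mem_span_range_iff_exists_finsupp] at hy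
  obtain ⟨c, hc⟩ := hy
  refine ⟨c, ?_⟩
  rw [dist_eq_norm] at hd
  have : (c.sum fun g a => a • uop (Z8_pi n v g)) vac = y := by
    rw [← hc, Finsupp.sum, Finsupp.sum, sum_apply]
    rfl
  rwa [this]

end Pool.Agent.H667R3.FF
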