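import Mathlib
import Pool.Agent.H667R3.FF.Defs
import Pool.Agent.H667R3.FF.Z3b
import Pool.Agent.H667R3.FF.Z8
import Pool.Agent.H667R3.FF.Z9
import Pool.Agent.H667R3.FF.A10

/-! Task Z10 (table h667b_tasks, shared note 777). -/

namespace Pool.Agent.H667R3.FF

open Pool.Agent.H667R2.FG
open scoped ComplexConjugate

theorem semicircular_exists (n : ℕ) :
    ∃ s : Ell (FreeGroup (Fin (n + 1))) →L[ℂ] Ell (FreeGroup (Fin (n + 1))),
      (∀ g, s * rho g = rho g * s) ∧ Good (pS n s) ∧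
      StdLaw (mom (delta (1 : FreeGroup (Fin (n + 1)))) (pS n s)) ∧
      (∀ (ξ : Ell (FreeGroup (Fin (n + 1)))) (ε : ℝ), 0 < ε → ∃ R : List (Lt (Fin n)) →₀ ℂ,
        ‖ξ - (R.sum fun w c => c • ev (pS n s) w) (delta 1)‖ < ε) := by
  obtain ⟨π, h1, h2, h3, h4⟩ := rep_exists n
  obtain ⟨W, hW1, hW2⟩ := transport (Ω := vac (G := FreeGroup (Fin n))) norm_vac π h3 h4
  let s : Ell (FreeGroup (Fin (n + 1))) →L[ℂ] Ell (FreeGroup (Fin (n + 1))) :=
    (W.symm.toContinuousLinearEquiv : Ell (FI (FreeGroup (Fin n))) →L[ℂ] _).comp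
      (sF.comp (W.toContinuousLinearEquiv : Ell (FreeGroup (Fin (n + 1))) →L[ℂ] _))
  have hs : ∀ ξ, s ξ = W.symm (sF (W ξ)) := fun ξ => rfl
  have hWΩ : W (delta 1) = vac := by
    rw [hW1, map_one]
    rfl
  have ha : ∀ (l : Lt (Fin n)) ξ, W (pS n s l ξ) = pF (Fin n) l (W ξ) := by
    intro l ξ
    match l with
    | none =>
      show W (s ξ) = sF (W ξ)
      rw [hs, LinearIsometryEquiv.apply_symm_apply]
    | some (x, true) =>
      show W (lam (FreeGroup.of x.castSucc) ξ) = lamF (FreeGroup.of x) (W ξ)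
      rw [hW2, ← h1 x]
      rfl
    | some (x, false) =>
      show W (lam (FreeGroup.of x.castSucc)⁻¹ ξ) = lamF (FreeGroup.of x)⁻¹ (W ξ)
      rw [hW2, map_inv, ← adjoint_lamF, ← h1 x]
      rfl
  have hb : ∀ (w : List (Lt (Fin n))) ξ, W (ev (pS n s) w ξ) = ev (pF (Fin n)) w (W ξ) := by
    intro w
    induction w with
    | nil => intro ξ; rfl
    | cons l w ih =>
      intro ξ
      have e1 : ev (pS n s) (l :: w) ξ = pS n s l (ev (pS n s) w ξ) := by
        simp [ev]
      have e2 : ev (pF (Fin n)) (l :: w) (W ξ) = pF (Fin n) l (ev (pF (Fin n)) w (W ξ)) := by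
        simp [ev]
      rw [e1, ha, ih, e2]
  have hc : mom (delta (1 : FreeGroup (Fin (n + 1)))) (pS n s) = mom vac (pF (Fin n)) := by
    funext w
    unfold mom
    rw [← LinearIsometryEquiv.inner_map_map W, hb, hWΩ]
  refine ⟨s, ?_, ⟨?_, ?_⟩, ?_, ?_⟩
  · intro g
    ext1 ξ
    show s (rho g ξ) = rho g (s ξ)
    rw [hs, hs]
    apply transport_comm (Ω := vac) π W hW1 sF
    intro g h k
    have e1 : InAlg (pF (Fin n)) (sF (G := FreeGroup (Fin n))) := by
      have := inAlg_ev (pF (Fin n)) [none]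
      simpa [ev, pF] using this
    have e2 : InAlg (pF (Fin n)) ((uop (π k)) * sF * (uop (π h))) :=
      inAlg_mul (inAlg_mul (h2 k) e1) (h2 h)
    have e3 := tr_inAlg pF_tr e2 (h2 g)
    rw [← mul_assoc, ← mul_assoc] at e3
    exact e3
  · intro x
    ext1 ξ
    apply W.injective
    show W (pS n s (some x) (pS n s (some (x.1, !x.2)) ξ)) = W ξ
    rw [ha, ha]
    have := congrArg (fun T => T (W ξ)) ((pF_good (X := Fin n)).uni x)
    exact this
  · intro l
    rw [ContinuousLinearMap.star_eq_adjoint]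
    ext1 ξ
    apply ext_inner_right ℂ
    intro η
    rw [ContinuousLinearMap.adjoint_inner_left, ← LinearIsometryEquiv.inner_map_map W, ha,
      ← ContinuousLinearMap.adjoint_inner_left, ← ContinuousLinearMap.star_eq_adjoint,
      (pF_good (X := Fin n)).st l, ← ha, LinearIsometryEquiv.inner_map_map]
  · rw [hc]
    exact pF_std
  · intro ξ ε hε
    obtain ⟨R, hR⟩ := pF_dense (W ξ) ε hε
    refine ⟨R, ?_⟩
    rw [← LinearIsometryEquiv.norm_map W, map_sub]
    have e1 : W ((R.sum fun w c => c • ev (pS n s) w) (delta 1)) =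
        (R.sum fun w c => c • ev (pF (Fin n)) w) vac := by
      unfold Finsupp.sum
      rw [ContinuousLinearMap.sum_apply, map_sum, ContinuousLinearMap.sum_apply]
      apply Finset.sum_congr rfl
      intro w _
      rw [ContinuousLinearMap.smul_apply, ContinuousLinearMap.smul_apply, map_smul, hb, hWΩ]
    rw [e1]
    exact hR

end Pool.Agent.H667R3.FF
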