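import Mathlib
import Pool.Agent.H667R3.FF.Defs
import Pool.Agent.H667R3.FF.C18
import Pool.Agent.H667R3.FF.A9
import Pool.Agent.H667R3.FF.A13
import Pool.Agent.H667R3.FF.Z10
import Pool.Agent.H667R3.FF.F2

/-! Task F3: final assembly. -/

namespace Pool.Agent.H667R3.FF

open Pool.Agent.H667R2.FG
open scoped ComplexConjugate

theorem F3_norm_delta {G : Type} [Group G] : ‖(delta (1 : G) : Ell G)‖ = 1 := by
  classical
  unfold delta
  rw [lp.norm_single (by norm_num)]
  simp

theorem F3_inner_delta {G : Type} [Group G] (ξ : Ell G) :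
    inner ℂ (delta (1 : G)) ξ = ξ 1 := by
  classical
  unfold delta
  rw [lp.inner_single_left]
  simp

theorem core_exists {n : ℕ} (hn : 6 ≤ n) :
    ∃ v : Fin n → unitary (Ell (FreeGroup (Fin (n + 1))) →L[ℂ] Ell (FreeGroup (Fin (n + 1)))),
      Core n (n + 1) v := by
  obtain ⟨s, hsr, hgood, hstd, hdense⟩ := semicircular_exists n
  have hinj : Function.Injective (e6 hn) := by
    intro i j hij
    simp only [e6, Fin.mk.injEq] at hij
    exact Fin.ext (by omega)
  have hΩ : ‖(delta (1 : FreeGroup (Fin (n + 1))) : Ell (FreeGroup (Fin (n + 1))))‖ = 1 :=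
    F3_norm_delta
  obtain ⟨U, hU1, hU2, hU3⟩ := intertwine (Ω := delta (1 : FreeGroup (Fin (n + 1)))) hΩ hgood hstd
    hdense (by
      intro p hp hμ ε hε
      obtain ⟨P, η, hs, hη⟩ := sol_six hn ((ε / 3) ^ 2) (by positivity)
      obtain ⟨p', hp', hmom, h1, h2, h3, h4⟩ := big_step hinj hΩ (by positivity) hs hη hp hμ
      have hsq : 3 * Real.sqrt ((ε / 3) ^ 2) = ε := by
        rw [Real.sqrt_sq (by positivity)]; ring
      rw [hsq] at h3 h4
      have hm : mom (delta (1 : FreeGroup (Fin (n + 1)))) p' =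
          mom (delta (1 : FreeGroup (Fin (n + 1)))) p := funext hmom
      exact ⟨p', hp', by rw [hm]; exact hμ, h1, h2, h3, P, hs.sym, h4⟩)
  refine ⟨U, ?_, ?_, hU3⟩
  · intro j g
    have h := hU1 (rho g) (by
      intro l
      match l with
      | none => exact (hsr g).symm
      | some (x, true) => exact (lam_rho _ _).symm
      | some (x, false) => exact (lam_rho _ _).symm) j
    exact h.symm
  · intro w hw
    have h := hU2 w hw
    rw [F3_inner_delta] at h
    exact h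

theorem F3_step {n : ℕ} (hn : 6 ≤ n) :
    Nonempty (EltG (FreeGroup (Fin n)) ≃⋆ₐ[ℂ] EltG (FreeGroup (Fin (n + 1)))) := by
  obtain ⟨v, hv⟩ := core_exists hn
  exact core_iso hv

theorem F3_six {n : ℕ} (hn : 6 ≤ n) :
    Nonempty (EltG (FreeGroup (Fin 6)) ≃⋆ₐ[ℂ] EltG (FreeGroup (Fin n))) := by
  induction n, hn using Nat.le_induction with
  | base => exact ⟨StarAlgEquiv.refl ℂ _⟩
  | succ k hk ih =>
    obtain ⟨e⟩ := ih
    obtain ⟨f⟩ := F3_step hk
    exact ⟨e.trans f⟩

theorem main_iso {m n : ℕ} (hm : 6 ≤ m) (hn : 6 ≤ n) :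
    Nonempty (EltG (FreeGroup (Fin m)) ≃⋆ₐ[ℂ] EltG (FreeGroup (Fin n))) := by
  obtain ⟨e⟩ := F3_six hm
  obtain ⟨f⟩ := F3_six hn
  exact ⟨e.symm.trans f⟩

end Pool.Agent.H667R3.FF
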